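import Pool.Agent.LibMdim86.Defs

/-!
# From the graph to the integer grid
-/

set_option autoImplicit false

namespace Mdim86

open SimpleGraph

private theorem walk_bound {n m : ℕ} {x y : Fin n × Fin m}
    (p : (strongProd (pathGraph n) (pathGraph m)).Walk x y) :
    |((x.1 : ℕ) : ℤ) - ((y.1 : ℕ) : ℤ)| ≤ p.length ∧
      |((x.2 : ℕ) : ℤ) - ((y.2 : ℕ) : ℤ)| ≤ p.length := by
  induction p with
  | nil => simp
  | @cons u v w h p ih =>
    have h0 := h
    obtain ⟨-, h1, h2⟩ := h0
    rw [pathGraph_adj] at h1 h2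
    have h1' : |((u.1 : ℕ) : ℤ) - ((v.1 : ℕ) : ℤ)| ≤ 1 := by
      rw [abs_le]
      rcases h1 with h1 | h1 | h1
      · rw [h1]; constructor <;> omega
      · constructor <;> omega
      · constructor <;> omega
    have h2' : |((u.2 : ℕ) : ℤ) - ((v.2 : ℕ) : ℤ)| ≤ 1 := by
      rw [abs_le]
      rcases h2 with h2 | h2 | h2
      · rw [h2]; constructor <;> omega
      · constructor <;> omega
      · constructor <;> omega
    obtain ⟨ih1, ih2⟩ := ih
    rw [abs_le] at h1' h2' ih1 ih2
    rw [Walk.length_cons, Nat.cast_add, Nat.cast_one]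
    constructor
    · rw [abs_le]; constructor <;> omega
    · rw [abs_le]; constructor <;> omega

/-- one step in one coordinate towards the target -/
private theorem step1 {n : ℕ} (d : ℕ) (i a : Fin n)
    (h : |((i : ℕ) : ℤ) - ((a : ℕ) : ℤ)| ≤ ((d + 1 : ℕ) : ℤ)) :
    ∃ i' : Fin n, (i = i' ∨ (pathGraph n).Adj i i') ∧
      |((i' : ℕ) : ℤ) - ((a : ℕ) : ℤ)| ≤ (d : ℤ) := by
  rw [abs_le] at h
  rcases lt_trichotomy i a with hlt | rfl | hgt
  · have hlt' : (i : ℕ) < a := hlt
    have ha := a.2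
    refine ⟨⟨(i : ℕ) + 1, by omega⟩, Or.inr ?_, ?_⟩
    · rw [pathGraph_adj]; left; rfl
    · rw [abs_le]
      push_cast at h ⊢
      constructor <;> omega
  · exact ⟨i, Or.inl rfl, by simp⟩
  · have hgt' : (a : ℕ) < i := hgt
    have hi := i.2
    refine ⟨⟨(i : ℕ) - 1, by omega⟩, Or.inr ?_, ?_⟩
    · rw [pathGraph_adj]; right; simp only; omega
    · rw [abs_le]
      push_cast at h ⊢
      constructor <;> omega

private theorem exists_walk {n m : ℕ} (d : ℕ) (x y : Fin n × Fin m)
    (h1 : |((x.1 : ℕ) : ℤ) - ((y.1 : ℕ) : ℤ)| ≤ (d : ℤ))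
    (h2 : |((x.2 : ℕ) : ℤ) - ((y.2 : ℕ) : ℤ)| ≤ (d : ℤ)) :
    ∃ p : (strongProd (pathGraph n) (pathGraph m)).Walk x y, p.length ≤ d := by
  induction d generalizing x with
  | zero =>
    have hxy : x = y := by
      rw [abs_le] at h1 h2
      apply Prod.ext
      · apply Fin.ext; push_cast at h1; omega
      · apply Fin.ext; push_cast at h2; omega
    subst hxy
    exact ⟨Walk.nil, le_rfl⟩
  | succ d ih =>
    obtain ⟨i', hi, hi'⟩ := step1 d x.1 y.1 h1
    obtain ⟨j', hj, hj'⟩ := step1 d x.2 y.2 h2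
    obtain ⟨p, hp⟩ := ih (i', j') hi' hj'
    by_cases hx : x = (i', j')
    · subst hx
      exact ⟨p, hp.trans (Nat.le_succ d)⟩
    · have hadj : (strongProd (pathGraph n) (pathGraph m)).Adj x (i', j') := ⟨hx, hi, hj⟩
      exact ⟨Walk.cons hadj p, by simp only [Walk.length_cons]; omega⟩

/-- the distance in the strong product of two paths -/
theorem dist_strongProd {n m : ℕ} (x y : Fin n × Fin m) :
    (((strongProd (pathGraph n) (pathGraph m)).dist x y : ℕ) : ℤ) =
      max |((x.1 : ℕ) : ℤ) - ((y.1 : ℕ) : ℤ)| |((x.2 : ℕ) : ℤ) - ((y.2 : ℕ) : ℤ)| := by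
  set M : ℤ := max |((x.1 : ℕ) : ℤ) - ((y.1 : ℕ) : ℤ)| |((x.2 : ℕ) : ℤ) - ((y.2 : ℕ) : ℤ)|
    with hM
  have hM0 : 0 ≤ M := le_trans (abs_nonneg _) (le_max_left _ _)
  have hMn : ((M.toNat : ℕ) : ℤ) = M := Int.toNat_of_nonneg hM0
  obtain ⟨p, hp⟩ := exists_walk M.toNat x y (by rw [hMn]; exact le_max_left _ _)
    (by rw [hMn]; exact le_max_right _ _)
  apply le_antisymm
  · have h1 := (dist_le p).trans hp
    rw [← hMn]
    exact_mod_cast h1
  · obtain ⟨q, hq⟩ := (Walk.reachable p).exists_walk_length_eq_dist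
    have := walk_bound q
    rw [hq] at this
    exact max_le this.1 this.2

/-- shift by one in both coordinates -/
def shift (n m : ℕ) : Fin n × Fin m ↪ ℤ × ℤ where
  toFun x := (((x.1 : ℕ) : ℤ) + 1, ((x.2 : ℕ) : ℤ) + 1)
  inj' := by
    intro x y h
    simp only [Prod.mk.injEq] at h
    apply Prod.ext
    · apply Fin.ext; omega
    · apply Fin.ext; omega

theorem shift_apply {n m : ℕ} (x : Fin n × Fin m) :
    shift n m x = (((x.1 : ℕ) : ℤ) + 1, ((x.2 : ℕ) : ℤ) + 1) := rfl

theorem shift_inG {n m : ℕ} (x : Fin n × Fin m) : InG n m (shift n m x) := by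
  have h1 := x.1.2
  have h2 := x.2.2
  rw [shift_apply]
  refine ⟨?_, ?_, ?_, ?_⟩ <;> simp only <;> omega

theorem exists_shift {n m : ℕ} (y : ℤ × ℤ) (h : InG n m y) : ∃ x, shift n m x = y := by
  obtain ⟨h1, h2, h3, h4⟩ := h
  refine ⟨(⟨(y.1 - 1).toNat, by omega⟩, ⟨(y.2 - 1).toNat, by omega⟩), ?_⟩
  rw [shift_apply]
  apply Prod.ext
  · simp only; omega
  · simp only; omega

theorem rep_shift {n m : ℕ} (W : Finset (Fin n × Fin m)) (x : Fin n × Fin m) :
    rep (W.map (shift n m)) (shift n m x) =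
      (mrep (strongProd (pathGraph n) (pathGraph m)) W x).map (fun k : ℕ => (k : ℤ)) := by
  unfold rep mrep
  rw [Finset.map_val, Multiset.map_map, Multiset.map_map]
  refine Multiset.map_congr rfl fun w _ => ?_
  simp only [Function.comp_apply, dist_strongProd, dd, shift_apply]
  rw [add_sub_add_right_eq_sub, add_sub_add_right_eq_sub]

theorem res_iff {n m : ℕ} (W : Finset (Fin n × Fin m)) :
    IsMultisetResolving (strongProd (pathGraph n) (pathGraph m)) W ↔
      Res n m (W.map (shift n m)) := by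
  have hinj : Function.Injective (Multiset.map (fun k : ℕ => (k : ℤ))) :=
    Multiset.map_injective Nat.cast_injective
  constructor
  · intro h
    refine ⟨?_, ?_⟩
    · intro w hw
      obtain ⟨x, -, rfl⟩ := Finset.mem_map.1 hw
      exact shift_inG x
    · intro x y hx hy hxy
      obtain ⟨x, rfl⟩ := exists_shift x hx
      obtain ⟨y, rfl⟩ := exists_shift y hy
      rw [rep_shift, rep_shift] at hxy
      by_contra hne
      exact h x y (fun e => hne (by rw [e])) (hinj hxy)
  · intro h x y hne hxy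
    have := h.inj _ _ (shift_inG x) (shift_inG y) (by rw [rep_shift, rep_shift, hxy])
    exact hne ((shift n m).injective this)

theorem exists_map_shift {n m : ℕ} (W : Finset (ℤ × ℤ)) (h : Res n m W) :
    ∃ W' : Finset (Fin n × Fin m), W'.map (shift n m) = W := by
  classical
  refine ⟨Finset.univ.filter fun x => shift n m x ∈ W, ?_⟩
  ext y
  simp only [Finset.mem_map, Finset.mem_filter, Finset.mem_univ, true_and]
  constructor
  · rintro ⟨x, hx, rfl⟩
    exact hx
  · intro hy
    obtain ⟨x, rfl⟩ := exists_shift y (h.sub y hy)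
    exact ⟨x, hy, rfl⟩

theorem mdim_grid {n m : ℕ} (hn : 1 ≤ n) (hm : 1 ≤ m) :
    mdim (strongProd (SimpleGraph.pathGraph n) (SimpleGraph.pathGraph m)) =
      ⨅ W : {W : Finset (ℤ × ℤ) // Res n m W}, (W.1.card : ℕ∞) := by
  have _ := hn
  have _ := hm
  unfold mdim
  apply le_antisymm
  · refine le_iInf fun W => ?_
    obtain ⟨W, hW⟩ := W
    obtain ⟨W', rfl⟩ := exists_map_shift W hW
    refine (iInf_le _ ⟨W', (res_iff W').2 hW⟩).trans ?_
    simp
  · refine le_iInf fun W => ?_
    obtain ⟨W, hW⟩ := W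
    refine (iInf_le _ ⟨W.map (shift n m), (res_iff W).1 hW⟩).trans ?_
    simp

private theorem mdim_comm_le (n m : ℕ) :
    mdim (strongProd (SimpleGraph.pathGraph n) (SimpleGraph.pathGraph m)) ≤
      mdim (strongProd (SimpleGraph.pathGraph m) (SimpleGraph.pathGraph n)) := by
  unfold mdim
  refine le_iInf fun W => ?_
  obtain ⟨W, hW⟩ := W
  have hd : ∀ x y : Fin n × Fin m,
      (strongProd (SimpleGraph.pathGraph n) (SimpleGraph.pathGraph m)).dist x y =
      (strongProd (SimpleGraph.pathGraph m) (SimpleGraph.pathGraph n)).dist x.swap y.swap := by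
    intro x y
    have h1 := dist_strongProd x y
    have h2 := dist_strongProd x.swap y.swap
    rw [Prod.fst_swap, Prod.snd_swap, Prod.fst_swap, Prod.snd_swap, max_comm, ← h1] at h2
    exact_mod_cast h2.symm
  have hr : ∀ x : Fin n × Fin m,
      mrep (strongProd (SimpleGraph.pathGraph n) (SimpleGraph.pathGraph m))
        (W.map (Equiv.prodComm (Fin m) (Fin n)).toEmbedding) x =
      mrep (strongProd (SimpleGraph.pathGraph m) (SimpleGraph.pathGraph n)) W x.swap := by
    intro x
    unfold mrep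
    rw [Finset.map_val, Multiset.map_map]
    refine Multiset.map_congr rfl fun w _ => ?_
    simp only [Function.comp_apply]
    rw [hd]
    rfl
  have hres : IsMultisetResolving
      (strongProd (SimpleGraph.pathGraph n) (SimpleGraph.pathGraph m))
      (W.map (Equiv.prodComm (Fin m) (Fin n)).toEmbedding) := by
    intro u v huv h
    rw [hr, hr] at h
    exact hW u.swap v.swap (fun e => huv (Prod.swap_injective e)) h
  refine (iInf_le _ ⟨_, hres⟩).trans ?_
  simp

theorem mdim_comm (n m : ℕ) :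
    mdim (strongProd (SimpleGraph.pathGraph n) (SimpleGraph.pathGraph m)) =
    mdim (strongProd (SimpleGraph.pathGraph m) (SimpleGraph.pathGraph n)) :=
  le_antisymm (mdim_comm_le n m) (mdim_comm_le m n)

end Mdim86
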