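import Pool.Agent.LibMdim86.Defs

/-!
# Sorted configurations
-/

namespace Mdim86

/-- the multiset of distances from `(i, j)` to the points `(a k, b k)`, `k < K` -/
def rp (K : ℕ) (a b : ℕ → ℤ) (i j : ℤ) : Multiset ℤ :=
  (Multiset.range K).map fun k => dd i j (a k) (b k)

/-- `K` points `(a k, b k)`, `k < K`, sorted by column, resolving the `n` by `m` grid -/
structure Cfg (n m : ℤ) (K : ℕ) (a b : ℕ → ℤ) : Prop where
  mono : ∀ k l, k ≤ l → l < K → b k ≤ b l
  a1 : ∀ k < K, 1 ≤ a k
  an : ∀ k < K, a k ≤ n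
  b1 : ∀ k < K, 1 ≤ b k
  bm : ∀ k < K, b k ≤ m
  ne : ∀ k l, k < l → l < K → a k ≠ a l ∨ b k ≠ b l
  inj : ∀ i j i' j', 1 ≤ i → i ≤ n → 1 ≤ j → j ≤ m → 1 ≤ i' → i' ≤ n → 1 ≤ j' → j' ≤ m →
    rp K a b i j = rp K a b i' j' → i = i' ∧ j = j'

variable {n m : ℤ} {K : ℕ} {a b : ℕ → ℤ}

lemma dd_flip (n i j a b : ℤ) : dd (n + 1 - i) j (n + 1 - a) b = dd i j a b := by
  unfold dd
  rw [show n + 1 - i - (n + 1 - a) = -(i - a) by ring, abs_neg]

lemma dd_flip' (m i j a b : ℤ) : dd i (m + 1 - j) a (m + 1 - b) = dd i j a b := by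
  unfold dd
  rw [show m + 1 - j - (m + 1 - b) = -(j - b) by ring, abs_neg]

/-- reflection of the rows -/
theorem Cfg.flipRow (h : Cfg n m K a b) : Cfg n m K (fun k => n + 1 - a k) b where
  mono := h.mono
  a1 k hk := by have := h.an k hk; omega
  an k hk := by have := h.a1 k hk; omega
  b1 := h.b1
  bm := h.bm
  ne k l hkl hl := by have := h.ne k l hkl hl; omega
  inj i j i' j' h1 h2 h3 h4 h5 h6 h7 h8 he := by
    have e : ∀ i j, rp K (fun k => n + 1 - a k) b i j = rp K a b (n + 1 - i) j := by
      intro i j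
      unfold rp
      refine Multiset.map_congr rfl fun k _ => ?_
      have := dd_flip n (n + 1 - i) j (a k) (b k)
      rw [show n + 1 - (n + 1 - i) = i by ring] at this
      exact this
    rw [e, e] at he
    have := h.inj _ _ _ _ (by omega) (by omega) h3 h4 (by omega) (by omega) h7 h8 he
    omega

/-- reflection of the columns -/
theorem Cfg.flipCol (h : Cfg n m K a b) :
    Cfg n m K (fun k => a (K - 1 - k)) (fun k => m + 1 - b (K - 1 - k)) where
  mono k l hkl hl := by
    have := h.mono (K - 1 - l) (K - 1 - k) (by omega) (by omega)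
    omega
  a1 k hk := h.a1 _ (by omega)
  an k hk := h.an _ (by omega)
  b1 k hk := by have := h.bm (K - 1 - k) (by omega); omega
  bm k hk := by have := h.b1 (K - 1 - k) (by omega); omega
  ne k l hkl hl := by
    have := h.ne (K - 1 - l) (K - 1 - k) (by omega) (by omega)
    omega
  inj i j i' j' h1 h2 h3 h4 h5 h6 h7 h8 he := by
    have e : ∀ i j, rp K (fun k => a (K - 1 - k)) (fun k => m + 1 - b (K - 1 - k)) i j =
        rp K a b i (m + 1 - j) := by
      intro i j
      unfold rp
      have hr : (Multiset.range K).map (fun k => K - 1 - k) = Multiset.range K := by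
        have := List.Perm.trans (List.reverse_perm (List.range K)) (List.Perm.refl _)
        rw [← Multiset.coe_range, Multiset.map_coe, Multiset.coe_eq_coe]
        refine List.Perm.trans ?_ this
        apply List.Perm.of_eq
        apply List.ext_getElem
        · simp
        · intro k h1 h2
          simp
      conv_rhs => rw [← hr, Multiset.map_map]
      refine Multiset.map_congr rfl fun k _ => ?_
      simp only [Function.comp_apply]
      have := dd_flip' m i (m + 1 - j) (a (K - 1 - k)) (b (K - 1 - k))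
      rw [show m + 1 - (m + 1 - j) = j by ring] at this
      exact this
    rw [e, e] at he
    have := h.inj _ _ _ _ h1 h2 (by omega) (by omega) h5 h6 (by omega) (by omega) he
    omega

/-- every resolving set gives a sorted configuration -/
theorem Cfg.of_res {W : Finset (ℤ × ℤ)} (h : Res n m W) : ∃ a b, Cfg n m W.card a b := by
  classical
  set l : List (ℤ × ℤ) := W.toList.insertionSort (fun x y => x.2 ≤ y.2) with hl
  have hp : l.Perm W.toList := List.perm_insertionSort _ _
  have hlen : l.length = W.card := by rw [hp.length_eq, Finset.length_toList]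
  have hs : l.Pairwise (fun x y => x.2 ≤ y.2) := by
    haveI : Std.Total (fun x y : ℤ × ℤ => x.2 ≤ y.2) := ⟨fun x y => le_total _ _⟩
    haveI : IsTrans (ℤ × ℤ) (fun x y : ℤ × ℤ => x.2 ≤ y.2) := ⟨fun x y z h1 h2 => le_trans h1 h2⟩
    exact List.pairwise_insertionSort _ _
  have hnd : l.Nodup := hp.nodup_iff.2 W.nodup_toList
  have hmem : ∀ k (hk : k < W.card), l.getD k 0 ∈ W := by
    intro k hk
    rw [List.getD_eq_getElem _ _ (by omega)]
    exact Finset.mem_toList.1 (hp.mem_iff.1 (List.getElem_mem _))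
  have hrep : ∀ i j, rp W.card (fun k => (l.getD k 0).1) (fun k => (l.getD k 0).2) i j = rep W (i, j) := by
    intro i j
    unfold rp rep
    have e : W.val = (l : Multiset (ℤ × ℤ)) := by
      rw [← Finset.coe_toList W, Multiset.coe_eq_coe]
      exact hp.symm
    rw [e, Multiset.map_coe, ← Multiset.coe_range, Multiset.map_coe, Multiset.coe_eq_coe]
    apply List.Perm.of_eq
    apply List.ext_getElem
    · simp [hlen]
    · intro k h1 h2
      simp only [List.length_map, List.length_range] at h1
      simp [List.getElem?_eq_getElem (show k < l.length by omega)]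
  refine ⟨fun k => (l.getD k 0).1, fun k => (l.getD k 0).2, ?_, ?_, ?_, ?_, ?_, ?_, ?_⟩
  · intro k k' h1 h2
    rcases Nat.lt_or_ge k k' with h3 | h3
    · simp only [List.getD_eq_getElem l 0 (show k < l.length by omega),
        List.getD_eq_getElem l 0 (show k' < l.length by omega)]
      exact List.pairwise_iff_getElem.1 hs k k' (by omega) (by omega) h3
    · rw [show k = k' by omega]
  · intro k hk; exact (h.sub _ (hmem k hk)).1
  · intro k hk; exact (h.sub _ (hmem k hk)).2.1
  · intro k hk; exact (h.sub _ (hmem k hk)).2.2.1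
  · intro k hk; exact (h.sub _ (hmem k hk)).2.2.2
  · intro k k' h1 h2
    by_contra hc
    push_neg at hc
    have e : l.getD k 0 = l.getD k' 0 := Prod.ext hc.1 hc.2
    rw [List.getD_eq_getElem l 0 (show k < l.length by omega),
      List.getD_eq_getElem l 0 (show k' < l.length by omega)] at e
    have := (hnd.getElem_inj_iff).1 e
    omega
  · intro i j i' j' h1 h2 h3 h4 h5 h6 h7 h8 he
    rw [hrep, hrep] at he
    have := h.inj (i, j) (i', j') ⟨h1, h2, h3, h4⟩ ⟨h5, h6, h7, h8⟩ he
    exact ⟨congrArg Prod.fst this, congrArg Prod.snd this⟩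

/-- two distinct vertices with the same multiset: contradiction; the distances agree after
swapping the points `u` and `v`. -/
theorem Cfg.swap (h : Cfg n m K a b) {u v : ℕ} (hu : u < K) (hv : v < K) (huv : u ≠ v)
    {i j i' j' : ℤ} (h1 : 1 ≤ i) (h2 : i ≤ n) (h3 : 1 ≤ j) (h4 : j ≤ m) (h5 : 1 ≤ i') (h6 : i' ≤ n)
    (h7 : 1 ≤ j') (h8 : j' ≤ m) (hne : i ≠ i' ∨ j ≠ j')
    (e1 : dd i j (a u) (b u) = dd i' j' (a v) (b v)) (e2 : dd i j (a v) (b v) = dd i' j' (a u) (b u))
    (e3 : ∀ w < K, w ≠ u → w ≠ v → dd i j (a w) (b w) = dd i' j' (a w) (b w)) : False := by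
  have : rp K a b i j = rp K a b i' j' := by
    unfold rp
    have hr : (Multiset.range K).map (Equiv.swap u v) = Multiset.range K := by
      have hnd : ((Multiset.range K).map (Equiv.swap u v)).Nodup :=
        (Multiset.nodup_range K).map (Equiv.swap u v).injective
      refine (Multiset.Nodup.ext hnd (Multiset.nodup_range K)).2 fun x => ?_
      rw [Multiset.mem_map]
      constructor
      · rintro ⟨y, hy, rfl⟩
        rw [Multiset.mem_range] at hy ⊢
        rcases eq_or_ne y u with rfl | h1
        · rw [Equiv.swap_apply_left]; exact hv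
        · rcases eq_or_ne y v with rfl | h2
          · rw [Equiv.swap_apply_right]; exact hu
          · rw [Equiv.swap_apply_of_ne_of_ne h1 h2]; exact hy
      · intro hx
        refine ⟨Equiv.swap u v x, ?_, Equiv.swap_apply_self u v x⟩
        rw [Multiset.mem_range] at hx ⊢
        rcases eq_or_ne x u with rfl | h1
        · rw [Equiv.swap_apply_left]; exact hv
        · rcases eq_or_ne x v with rfl | h2
          · rw [Equiv.swap_apply_right]; exact hu
          · rw [Equiv.swap_apply_of_ne_of_ne h1 h2]; exact hx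
    conv_rhs => rw [← hr, Multiset.map_map]
    refine Multiset.map_congr rfl fun x hx => ?_
    rw [Multiset.mem_range] at hx
    simp only [Function.comp_apply]
    rcases eq_or_ne x u with rfl | h1
    · rw [Equiv.swap_apply_left]; exact e1
    · rcases eq_or_ne x v with rfl | h2
      · rw [Equiv.swap_apply_right]; exact e2
      · rw [Equiv.swap_apply_of_ne_of_ne h1 h2]; exact e3 x hx h1 h2
  have := h.inj _ _ _ _ h1 h2 h3 h4 h5 h6 h7 h8 this
  omega

/-- two distinct vertices with the same distances: contradiction -/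
theorem Cfg.same (h : Cfg n m K a b)
    {i j i' j' : ℤ} (h1 : 1 ≤ i) (h2 : i ≤ n) (h3 : 1 ≤ j) (h4 : j ≤ m) (h5 : 1 ≤ i') (h6 : i' ≤ n)
    (h7 : 1 ≤ j') (h8 : j' ≤ m) (hne : i ≠ i' ∨ j ≠ j')
    (e3 : ∀ w < K, dd i j (a w) (b w) = dd i' j' (a w) (b w)) : False := by
  have : rp K a b i j = rp K a b i' j' := by
    unfold rp
    exact Multiset.map_congr rfl fun k hk => e3 k (Multiset.mem_range.1 hk)
  have := h.inj _ _ _ _ h1 h2 h3 h4 h5 h6 h7 h8 this
  omega

/-- Cover lemma: in every column two points reach each other. -/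
theorem Cfg.cover (h : Cfg n m K a b) (hn : 2 ≤ n) {j : ℤ} (h1 : 1 ≤ j) (h2 : j ≤ m) :
    ∃ u < K, ∃ v < K, |j - b u| + |j - b v| ≤ a u - a v := by
  by_contra hc
  push_neg at hc
  -- a row `i` such that the rows `i`, `i + 1` are not reached
  have key : ∃ i : ℤ, 1 ≤ i ∧ i + 1 ≤ n ∧ (∀ w < K, a w - |j - b w| ≤ i) ∧
      (∀ w < K, i + 1 ≤ a w + |j - b w|) := by
    have aux : ∀ L : ℕ, L ≤ K → ∃ i : ℤ, 1 ≤ i ∧ i + 1 ≤ n ∧ (∀ w < L, a w - |j - b w| ≤ i) ∧
        (∀ w < K, i + 1 ≤ a w + |j - b w|) := by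
      intro L
      induction L with
      | zero =>
        intro _
        refine ⟨1, le_rfl, by omega, by omega, fun w hw => ?_⟩
        have h3 := hc w hw w hw
        have h4 := h.a1 w hw
        omega
      | succ L ih =>
        intro hL
        obtain ⟨i, h3, h4, h5, h6⟩ := ih (by omega)
        rcases le_or_gt (a L - |j - b L|) i with h7 | h7
        · refine ⟨i, h3, h4, fun w hw => ?_, h6⟩
          rcases Nat.lt_succ_iff_lt_or_eq.1 hw with h8 | rfl
          · exact h5 w h8
          · exact h7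
        · refine ⟨a L - |j - b L|, by omega, ?_, fun w hw => ?_, fun w hw => ?_⟩
          · have h8 := hc L (by omega) L (by omega)
            have h9 := h.an L (by omega)
            omega
          · rcases Nat.lt_succ_iff_lt_or_eq.1 hw with h8 | rfl
            · exact (h5 w h8).trans h7.le
            · exact le_rfl
          · have h8 := hc L (by omega) w hw
            omega
    exact aux K le_rfl
  obtain ⟨i, h3, h4, h5, h6⟩ := key
  refine h.same h3 (by omega) h1 h2 (i' := i + 1) (j' := j) (by omega) h4 h1 h2 (Or.inl (by omega)) ?_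
  intro w hw
  have h7 := h5 w hw
  have h8 := h6 w hw
  unfold dd
  rw [max_eq_right (abs_le.2 ⟨by omega, by omega⟩), max_eq_right (abs_le.2 ⟨by omega, by omega⟩)]

/-- Fold lemma: the rows `i` and `i' = a u + a v - i` of a column `j`. -/
theorem Cfg.fold (h : Cfg n m K a b) {u v : ℕ} (hu : u < K) (hv : v < K) (huv : u ≠ v)
    {i i' j : ℤ} (h1 : 1 ≤ i) (h2 : i ≤ n) (h3 : 1 ≤ j) (h4 : j ≤ m) (h5 : 1 ≤ i') (h6 : i' ≤ n)
    (hne : i ≠ i') (hs : i + i' = a u + a v)
    (hM : |j - b u| = |j - b v| ∨ (|j - b v| ≤ |i - a u| ∧ |j - b u| ≤ |i - a u| ∧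
      |j - b v| ≤ |i' - a u| ∧ |j - b u| ≤ |i' - a u|))
    (hw : ∀ w < K, w ≠ u → w ≠ v → |i - a w| ≤ |j - b w| ∧ |i' - a w| ≤ |j - b w|) : False := by
  have s1 : |i' - a v| = |i - a u| := by
    rw [show i' - a v = -(i - a u) by omega, abs_neg]
  have s2 : |i - a v| = |i' - a u| := by
    rw [show i - a v = -(i' - a u) by omega, abs_neg]
  refine h.swap hu hv huv h1 h2 h3 h4 h5 h6 h3 h4 (Or.inl hne) ?_ ?_ ?_
  · unfold dd
    rw [s1]
    rcases hM with hM | ⟨m1, m2, m3, m4⟩
    · rw [hM]
    · rw [max_eq_left m2, max_eq_left m1]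
  · unfold dd
    rw [s2]
    rcases hM with hM | ⟨m1, m2, m3, m4⟩
    · rw [hM]
    · rw [max_eq_left m3, max_eq_left m4]
  · intro w hw1 hw2 hw3
    obtain ⟨q1, q2⟩ := hw w hw1 hw2 hw3
    unfold dd
    rw [max_eq_right q1, max_eq_right q2]

end Mdim86
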