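import Mathlib

/-!
# A certificate checker for linear case trees (multiset dimension of strong grids)

Linear forms with small integer coefficients are packed into single integers
(digits in base `2^28`), so that nonnegative combinations of hypotheses can be
compared by one integer operation.
-/

namespace Mdim86

/-- number of digit slots -/
def SL : ℕ := 32

/-- the base of the packing -/
def BB : ℤ := 268435456

/-- `P` is the packing of a linear form with coefficients at most `M` in absolute value,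
supported below `N`, and with value `x` at `v`. -/
def Rep (v : ℕ → ℤ) (N : ℕ) (M : ℤ) (P x : ℤ) : Prop :=
  ∃ f : ℕ → ℤ, (∀ i, N ≤ i → f i = 0) ∧ (∀ i, |f i| ≤ M) ∧
    ∑ i ∈ Finset.range SL, f i * BB ^ i = P ∧ ∑ i ∈ Finset.range SL, f i * v i = x

variable {v : ℕ → ℤ} {N N' : ℕ} {M M' P P' x x' : ℤ}

lemma Rep.mono (h : Rep v N M P x) (hN : N ≤ N') (hM : M ≤ M') : Rep v N' M' P x := by
  obtain ⟨f, h0, h1, h2, h3⟩ := h
  exact ⟨f, fun i hi => h0 i (hN.trans hi), fun i => (h1 i).trans hM, h2, h3⟩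

lemma Rep.add (h : Rep v N M P x) (h' : Rep v N M' P' x') : Rep v N (M + M') (P + P') (x + x') := by
  obtain ⟨f, h0, h1, h2, h3⟩ := h
  obtain ⟨g, g0, g1, g2, g3⟩ := h'
  refine ⟨fun i => f i + g i, fun i hi => by simp [h0 i hi, g0 i hi],
    fun i => (abs_add_le _ _).trans (add_le_add (h1 i) (g1 i)), ?_, ?_⟩
  · rw [← h2, ← g2, ← Finset.sum_add_distrib]
    exact Finset.sum_congr rfl fun i _ => by ring
  · rw [← h3, ← g3, ← Finset.sum_add_distrib]
    exact Finset.sum_congr rfl fun i _ => by ring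

lemma Rep.smul (h : Rep v N M P x) (c : ℤ) : Rep v N (|c| * M) (c * P) (c * x) := by
  obtain ⟨f, h0, h1, h2, h3⟩ := h
  refine ⟨fun i => c * f i, fun i hi => by simp [h0 i hi],
    fun i => by rw [abs_mul]; exact mul_le_mul_of_nonneg_left (h1 i) (abs_nonneg c), ?_, ?_⟩
  · rw [← h2, Finset.mul_sum]
    exact Finset.sum_congr rfl fun i _ => by ring
  · rw [← h3, Finset.mul_sum]
    exact Finset.sum_congr rfl fun i _ => by ring

lemma Rep.neg (h : Rep v N M P x) : Rep v N M (-P) (-x) := by
  have := h.smul (-1)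
  simpa using this

lemma Rep.sub (h : Rep v N M P x) (h' : Rep v N M' P' x') : Rep v N (M + M') (P - P') (x - x') := by
  rw [sub_eq_add_neg, sub_eq_add_neg]; exact h.add h'.neg

lemma Rep.single (i : ℕ) (hi : i < N) (hN : N ≤ SL) (c : ℤ) : Rep v N |c| (c * BB ^ i) (c * v i) := by
  refine ⟨fun k => if k = i then c else 0, fun k hk => by
    have : k ≠ i := by omega
    simp [this], fun k => by
    by_cases h : k = i <;> simp [h], ?_, ?_⟩
  · rw [Finset.sum_eq_single i]
    · simp
    · intro b _ hb; simp [hb]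
    · intro h; exfalso; apply h; simp only [Finset.mem_range]; omega
  · rw [Finset.sum_eq_single i]
    · simp
    · intro b _ hb; simp [hb]
    · intro h; exfalso; apply h; simp only [Finset.mem_range]; omega

lemma Rep.const (hv : v 0 = 1) (hN : 0 < N) (hN' : N ≤ SL) (c : ℤ) : Rep v N |c| c c := by
  have := Rep.single (v := v) 0 hN hN' c
  simpa [hv] using this

lemma Rep.zero (N : ℕ) (v : ℕ → ℤ) : Rep v N 0 0 0 :=
  ⟨fun _ => 0, fun _ _ => rfl, fun _ => by simp, by simp, by simp⟩

lemma Rep.fresh (h : Rep v N M P x) (v' : ℕ → ℤ) (hv : ∀ i, i < N → v i = v' i) :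
    Rep v' N M P x := by
  obtain ⟨f, h0, h1, h2, h3⟩ := h
  refine ⟨f, h0, h1, h2, ?_⟩
  rw [← h3]
  refine Finset.sum_congr rfl fun i _ => ?_
  by_cases hi : i < N
  · rw [hv i hi]
  · rw [h0 i (by omega)]; simp

lemma unique_aux : ∀ (n : ℕ) (f : ℕ → ℤ) (P : ℤ), (∀ i, 2 * |f i| < BB) → 2 * |P| < BB →
    ∑ i ∈ Finset.range (n + 1), f i * BB ^ i = P → f 0 = P ∧ ∀ i, 0 < i → i ≤ n → f i = 0 := by
  intro n
  induction n with
  | zero =>
    intro f P _ _ h
    simp at h
    exact ⟨h, fun i h1 h2 => by omega⟩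
  | succ n ih =>
    intro f P hf hP h
    rw [Finset.sum_range_succ'] at h
    set S := ∑ i ∈ Finset.range (n + 1), f (i + 1) * BB ^ i with hS
    have e : ∑ i ∈ Finset.range (n + 1), f (i + 1) * BB ^ (i + 1) = BB * S := by
      rw [hS, Finset.mul_sum]
      exact Finset.sum_congr rfl fun i _ => by ring
    rw [e] at h
    simp only [pow_zero, mul_one] at h
    have hf0 := hf 0
    have h1 := abs_lt.mp (show |f 0| < BB by have := abs_nonneg (f 0); omega)
    have hS0 : S = 0 := by
      have a1 := neg_abs_le (f 0)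
      have a2 := le_abs_self (f 0)
      have a3 := neg_abs_le P
      have a4 := le_abs_self P
      unfold BB at *
      omega
    rw [hS0] at h
    simp only [mul_zero, zero_add] at h
    refine ⟨h, ?_⟩
    have hg := ih (fun i => f (i + 1)) 0 (fun i => hf (i + 1)) (by simp [BB]) (by rw [← hS0, hS])
    intro i hi hin
    obtain ⟨i, rfl⟩ : ∃ k, i = k + 1 := ⟨i - 1, by omega⟩
    rcases Nat.eq_zero_or_pos i with h0 | h0
    · subst h0; exact hg.1
    · exact hg.2 i h0 (by omega)

lemma Rep.unique (h : Rep v N M P x) (hv : v 0 = 1) (hM : 2 * M < BB) (h0 : 0 ≤ P)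
    (h1 : 2 * P < BB) : x = P := by
  obtain ⟨f, f0, f1, f2, f3⟩ := h
  have key := unique_aux (SL - 1) f P (fun i => by have := f1 i; omega)
    (by rw [abs_of_nonneg h0]; exact h1) (by simpa [SL] using f2)
  rw [← f3, Finset.sum_eq_single 0]
  · rw [hv, key.1]; ring
  · intro b hb hb0
    rw [Finset.mem_range] at hb
    rw [key.2 b (by omega) (by omega)]; simp
  · intro h; simp [SL] at h

/-! ### offset encoding in natural numbers -/

/-- the offset: every digit is 4096 -/
def OO : ℕ := 0x10000001000000100000010000001000000100000010000001000000100000010000001000000100000010000001000000100000010000001000000100000010000001000000100000010000001000000100000010000001000000100000010000001000000100000010000001000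

/-- `2 ^ 896`, the width of one form -/
def WW : ℕ := 0x100000000000000000000000000000000000000000000000000000000000000000000000000000000000000000000000000000000000000000000000000000000000000000000000000000000000000000000000000000000000000000000000000000000000000000000000000000000

lemma WW_eq : WW = 2 ^ 896 := by decide +kernel

/-- slot `s` of the packed list of hypotheses -/
def slot (HH s : ℕ) : ℕ := Nat.mod (Nat.shiftRight HH (Nat.mul (nat_lit 896) s)) WW

lemma slot_eq (HH s : ℕ) : slot HH s = HH / 2 ^ (896 * s) % 2 ^ 896 := by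
  have : slot HH s = (HH >>> (896 * s)) % WW := rfl
  rw [this, WW_eq, Nat.shiftRight_eq_div_pow]

lemma slot_zero {HH X : ℕ} (hX : X < WW) : slot (Nat.add (Nat.mul HH WW) X) 0 = X := by
  have : Nat.add (Nat.mul HH WW) X = HH * WW + X := rfl
  rw [slot_eq, this, WW_eq]
  rw [WW_eq] at hX
  rw [mul_zero, pow_zero, Nat.div_one, mul_comm, Nat.mul_add_mod, Nat.mod_eq_of_lt hX]

lemma slot_succ {HH X : ℕ} (hX : X < WW) (s : ℕ) :
    slot (Nat.add (Nat.mul HH WW) X) (s + 1) = slot HH s := by
  have : Nat.add (Nat.mul HH WW) X = HH * WW + X := rfl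
  rw [slot_eq, this, slot_eq, WW_eq]
  rw [WW_eq] at hX
  have e : 2 ^ (896 * (s + 1)) = 2 ^ 896 * 2 ^ (896 * s) := by
    rw [← pow_add]; congr 1; ring
  have h2 : (HH * 2 ^ 896 + X) / 2 ^ 896 = HH := by
    rw [mul_comm, Nat.mul_add_div (by positivity), Nat.div_eq_of_lt hX, add_zero]
  rw [e, ← Nat.div_div_eq_div_mul, h2]

/-- all hypotheses hold -/
def Hyp (v : ℕ → ℤ) (N HH len : ℕ) : Prop :=
  ∀ s < len, ∃ x, 0 ≤ x ∧ Rep v N 2048 ((slot HH s : ℤ) - OO) x

lemma Hyp.push {HH len X : ℕ} (hH : Hyp v N HH len) {x : ℤ} (hX : X < WW) (hx : 0 ≤ x)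
    (hr : Rep v N 2048 ((X : ℤ) - OO) x) : Hyp v N (Nat.add (Nat.mul HH WW) X) (len + 1) := by
  intro s hs
  rcases Nat.eq_zero_or_pos s with h | h
  · subst h; rw [slot_zero hX]; exact ⟨x, hx, hr⟩
  · obtain ⟨s, rfl⟩ : ∃ k, s = k + 1 := ⟨s - 1, by omega⟩
    rw [slot_succ hX]
    exact hH s (by omega)

lemma Hyp.fresh {HH len : ℕ} (hH : Hyp v N HH len) (v' : ℕ → ℤ) (hv : ∀ i, i < N → v i = v' i) :
    Hyp v' (N + 1) HH len := by
  intro s hs
  obtain ⟨x, hx, hr⟩ := hH s hs
  exact ⟨x, hx, (hr.fresh v' hv).mono (by omega) le_rfl⟩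

/-! ### decoding of forms -/

/-- decode a sparse form from a number (digits in base 128: index plus one, coefficient plus 64) -/
def decN (N : ℕ) (k : ℕ → Bool) (n : ℕ) : ℕ → ℕ → ℕ → Bool :=
  Nat.rec (motive := fun _ => ℕ → ℕ → ℕ → Bool) (fun _ _ _ => false)
    (fun _ ih c acc sub =>
      Nat.rec (motive := fun _ => Bool)
        (and (Nat.ble (Nat.mul (nat_lit 64) sub) (Nat.add acc OO))
          (k (Nat.sub (Nat.add acc OO) (Nat.mul (nat_lit 64) sub))))
        (fun i _ => and (Nat.ble (Nat.succ i) N)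
          (ih (Nat.div c (nat_lit 16384))
            (Nat.add acc (Nat.mul (Nat.mod (Nat.div c (nat_lit 128)) (nat_lit 128))
              (Nat.pow (nat_lit 2) (Nat.mul (nat_lit 28) i))))
            (Nat.add sub (Nat.pow (nat_lit 2) (Nat.mul (nat_lit 28) i)))))
        (Nat.mod c (nat_lit 128))) n

lemma decN_sound (hN : N ≤ SL) (k : ℕ → Bool) : ∀ (n c acc sub : ℕ) (x : ℤ) (M : ℤ),
    decN N k n c acc sub = true → Rep v N M ((acc : ℤ) - 64 * sub) x →
    ∃ X y, k X = true ∧ Rep v N (M + 64 * n) ((X : ℤ) - OO) y := by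
  intro n
  induction n with
  | zero => intro c acc sub x M h _; cases h
  | succ n ih =>
    intro c acc sub x M h hr
    have h' : Nat.rec (motive := fun _ => Bool)
        (and (Nat.ble (64 * sub) (acc + OO)) (k ((acc + OO) - 64 * sub)))
        (fun i _ => and (Nat.ble (Nat.succ i) N)
          (decN N k n (c / 16384) (acc + (c / 128 % 128) * 2 ^ (28 * i)) (sub + 2 ^ (28 * i))))
        (c % 128) = true := h
    rcases hc : c % 128 with _ | i
    · rw [hc] at h'
      replace h' : and (Nat.ble (64 * sub) (acc + OO)) (k ((acc + OO) - 64 * sub)) = true := h'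
      simp only [Bool.and_eq_true, Nat.ble_eq] at h'
      refine ⟨_, x, h'.2, ?_⟩
      have e : (((acc + OO - 64 * sub : ℕ) : ℤ) - OO) = (acc : ℤ) - 64 * sub := by
        rw [Nat.cast_sub h'.1]; push_cast; ring
      rw [e]
      exact hr.mono le_rfl (by push_cast; omega)
    · rw [hc] at h'
      replace h' : and (Nat.ble (Nat.succ i) N)
          (decN N k n (c / 16384) (acc + (c / 128 % 128) * 2 ^ (28 * i)) (sub + 2 ^ (28 * i))) = true := h'
      simp only [Bool.and_eq_true, Nat.ble_eq] at h'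
      obtain ⟨h1, h2⟩ := h'
      have h3 := Rep.single (v := v) i (by omega) hN ((c / 128 % 128 : ℕ) - 64 : ℤ)
      have e : (((acc + (c / 128 % 128) * 2 ^ (28 * i) : ℕ) : ℤ) - 64 * ((sub + 2 ^ (28 * i) : ℕ) : ℤ))
          = ((acc : ℤ) - 64 * sub) + ((c / 128 % 128 : ℕ) - 64 : ℤ) * BB ^ i := by
        have : BB ^ i = (2 : ℤ) ^ (28 * i) := by unfold BB; rw [pow_mul]; norm_num
        rw [this]; push_cast; ring
      obtain ⟨X, y, hX, hy⟩ := ih _ _ _ _ (M + 64) h2 (by
        rw [e]
        refine (hr.add h3).mono le_rfl ?_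
        have : |((c / 128 % 128 : ℕ) - 64 : ℤ)| ≤ 64 := by
          rw [abs_le]; omega
        omega)
      exact ⟨X, y, hX, hy.mono le_rfl (by push_cast; omega)⟩

/-- decode with at most 16 terms -/
def dec (N c : ℕ) (k : ℕ → Bool) : Bool := decN N k (nat_lit 16) c (nat_lit 0) (nat_lit 0)

lemma dec_sound (hN : N ≤ SL) {c : ℕ} {k : ℕ → Bool} (h : dec N c k = true) :
    ∃ X y, k X = true ∧ Rep v N 1024 ((X : ℤ) - OO) y := by
  have := decN_sound (v := v) hN k 16 c 0 0 0 0 h (by simpa using Rep.zero N v)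
  simpa using this

/-! ### certificates -/

/-- nonnegative combination read from a digit stream: pairs (index plus one, multiplier),
ended by the digit zero -/
def dotN (HH len : ℕ) (k : ℕ → ℕ → ℕ → Bool) (n : ℕ) : ℕ → ℕ → ℕ → Bool :=
  Nat.rec (motive := fun _ => ℕ → ℕ → ℕ → Bool) (fun _ _ _ => false)
    (fun _ ih c acc tot =>
      Nat.rec (motive := fun _ => Bool)
        (k acc tot (Nat.div c (nat_lit 128)))
        (fun s _ => and (Nat.ble (Nat.succ s) len)
          (ih (Nat.div c (nat_lit 16384))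
            (Nat.add acc (Nat.mul (Nat.mod (Nat.div c (nat_lit 128)) (nat_lit 128)) (slot HH s)))
            (Nat.add tot (Nat.mod (Nat.div c (nat_lit 128)) (nat_lit 128)))))
        (Nat.mod c (nat_lit 128))) n

lemma dotN_sound {HH len : ℕ} (hH : Hyp v N HH len) (k : ℕ → ℕ → ℕ → Bool) :
    ∀ (n c acc tot : ℕ) (x : ℤ), dotN HH len k n c acc tot = true → 0 ≤ x →
    Rep v N (2048 * tot) ((acc : ℤ) - tot * OO) x →
    ∃ (acc' tot' c' : ℕ) (y : ℤ), k acc' tot' c' = true ∧ 0 ≤ y ∧
      Rep v N (2048 * tot') ((acc' : ℤ) - tot' * OO) y := by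
  intro n
  induction n with
  | zero => intro c acc tot x h _ _; cases h
  | succ n ih =>
    intro c acc tot x h hx hr
    have h' : Nat.rec (motive := fun _ => Bool)
        (k acc tot (c / 128))
        (fun s _ => and (Nat.ble (Nat.succ s) len)
          (dotN HH len k n (c / 16384) (acc + (c / 128 % 128) * slot HH s) (tot + c / 128 % 128)))
        (c % 128) = true := h
    rcases hc : c % 128 with _ | s
    · rw [hc] at h'
      exact ⟨acc, tot, _, x, h', hx, hr⟩
    · rw [hc] at h'
      replace h' : and (Nat.ble (Nat.succ s) len)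
          (dotN HH len k n (c / 16384) (acc + (c / 128 % 128) * slot HH s) (tot + c / 128 % 128)) = true := h'
      simp only [Bool.and_eq_true, Nat.ble_eq] at h'
      obtain ⟨h1, h2⟩ := h'
      obtain ⟨y, hy, hyr⟩ := hH s (by omega)
      refine ih _ _ _ (x + (c / 128 % 128 : ℕ) * y) h2 (by positivity) ?_
      have := (hr.add (hyr.smul ((c / 128 % 128 : ℕ) : ℤ)))
      have e : (((acc + (c / 128 % 128) * slot HH s : ℕ) : ℤ) - ((tot + c / 128 % 128 : ℕ) : ℤ) * OO)
          = ((acc : ℤ) - tot * OO) + ((c / 128 % 128 : ℕ) : ℤ) * ((slot HH s : ℤ) - OO) := by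
        push_cast; ring
      rw [e]
      refine this.mono le_rfl ?_
      rw [Nat.abs_cast]; push_cast; ring_nf; rfl

/-- check that the target form `p - q` is nonnegative, and continue with the rest of the stream -/
def imp (HH len p q c : ℕ) (k : ℕ → Bool) : Bool :=
  dotN HH len (fun acc tot rest =>
    and (Nat.ble tot (nat_lit 4096))
      (and (Nat.ble (nat_lit 1) (Nat.mod c (nat_lit 128)))
        (and (Nat.ble (Nat.add (Nat.add acc (Nat.mul (Nat.mod c (nat_lit 128)) q)) (nat_lit 1))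
            (Nat.add (Nat.add (Nat.mul (Nat.mod c (nat_lit 128)) p) (Nat.mod c (nat_lit 128)))
              (Nat.mul tot OO)))
          (and (Nat.ble (Nat.add (Nat.add (Nat.mul (Nat.mod c (nat_lit 128)) p) (Nat.mod c (nat_lit 128)))
              (Nat.mul tot OO))
              (Nat.add (Nat.add acc (Nat.mul (Nat.mod c (nat_lit 128)) q)) (nat_lit 33554432)))
            (k rest)))))
    (nat_lit 40) (Nat.div c (nat_lit 128)) (nat_lit 0) (nat_lit 0)

lemma imp_sound (hv : v 0 = 1) (hN0 : 0 < N) (hN : N ≤ SL) {HH len p q c : ℕ} {t : ℤ} {k : ℕ → Bool}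
    (hH : Hyp v N HH len) (hT : Rep v N 4096 ((p : ℤ) - q) t) (h : imp HH len p q c k = true) :
    0 ≤ t ∧ ∃ c', k c' = true := by
  obtain ⟨acc, tot, rest, s, hk, hs, hr⟩ := dotN_sound hH _ 40 (c / 128) 0 0 0 h le_rfl
    (by simpa using Rep.zero N v)
  have hk' : and (Nat.ble tot 4096) (and (Nat.ble 1 (c % 128))
        (and (Nat.ble (acc + (c % 128) * q + 1) ((c % 128) * p + c % 128 + tot * OO))
          (and (Nat.ble ((c % 128) * p + c % 128 + tot * OO) (acc + (c % 128) * q + 33554432))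
            (k rest)))) = true := hk
  simp only [Bool.and_eq_true, Nat.ble_eq] at hk'
  obtain ⟨h2, h1, h3, h4, h5⟩ := hk'
  refine ⟨?_, rest, h5⟩
  set g : ℕ := c % 128 with hg
  have hg2 : g < 128 := Nat.mod_lt _ (by norm_num)
  have h3' : (acc : ℤ) + g * q + 1 ≤ g * p + g + tot * OO := by exact_mod_cast h3
  have h4' : (g : ℤ) * p + g + tot * OO ≤ acc + g * q + 33554432 := by exact_mod_cast h4
  have r1 := ((hT.smul g).add (Rep.const hv hN0 hN ((g : ℤ) - 1))).sub hr
  have hg1 : (1 : ℤ) ≤ g := by exact_mod_cast h1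
  have hg2' : (g : ℤ) ≤ 127 := by omega
  have htot : (tot : ℤ) ≤ 4096 := by exact_mod_cast h2
  have e := r1.unique hv ?_ ?_ ?_
  · by_contra ht
    have ht' : t ≤ -1 := by omega
    have h6 : (g : ℤ) * t ≤ g * (-1) := mul_le_mul_of_nonneg_left ht' (by omega)
    have h7 : (0 : ℤ) ≤ (g : ℤ) * ((p : ℤ) - q) + ((g : ℤ) - 1) - ((acc : ℤ) - tot * OO) := by
      have : (g : ℤ) * ((p : ℤ) - q) = g * p - g * q := by ring
      omega
    omega
  · rw [abs_of_nonneg (by omega : (0:ℤ) ≤ (g : ℤ)), abs_of_nonneg (by omega : (0:ℤ) ≤ (g : ℤ) - 1)]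
    unfold BB
    omega
  · have : (g : ℤ) * ((p : ℤ) - q) = g * p - g * q := by ring
    omega
  · have : (g : ℤ) * ((p : ℤ) - q) = g * p - g * q := by ring
    unfold BB
    omega

end Mdim86
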