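import Mathlib

/-!
# Multiset dimension of the strong product of two paths: definitions
-/

namespace Mdim86

open SimpleGraph

/-- The strong product of two simple graphs: distinct pairs are adjacent when in each
coordinate they are equal or adjacent. -/
def strongProd {V W : Type*} (G : SimpleGraph V) (H : SimpleGraph W) : SimpleGraph (V × W) where
  Adj x y := x ≠ y ∧ (x.1 = y.1 ∨ G.Adj x.1 y.1) ∧ (x.2 = y.2 ∨ H.Adj x.2 y.2)
  symm := ⟨fun _ _ h => ⟨h.1.symm, h.2.1.imp Eq.symm fun g => g.symm,
    h.2.2.imp Eq.symm fun g => g.symm⟩⟩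
  loopless := ⟨fun _ h => h.1 rfl⟩

/-- The multiset representation of `v` with respect to `W`: the multiset of the distances
from `v` to the elements of `W`, one entry for each element of `W`. -/
noncomputable def mrep {V : Type*} (G : SimpleGraph V) (W : Finset V) (v : V) : Multiset ℕ :=
  W.val.map fun w => G.dist v w

/-- `W` is a multiset resolving set: distinct vertices have distinct multiset representations. -/
def IsMultisetResolving {V : Type*} (G : SimpleGraph V) (W : Finset V) : Prop :=
  ∀ u v : V, u ≠ v → mrep G W u ≠ mrep G W v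

/-- The multiset dimension: the least size of a multiset resolving set, `⊤` if there is none. -/
noncomputable def mdim {V : Type*} (G : SimpleGraph V) : ℕ∞ :=
  ⨅ W : {W : Finset V // IsMultisetResolving G W}, (W.1.card : ℕ∞)

/-- The answer for `3 ≤ n ≤ m`. -/
def value (n m : ℕ) : ℕ∞ :=
  if n = 3 then (if m = 3 then ⊤ else if m = 4 then 5 else if m = 5 then 6 else m)
  else if n = 4 then (if m = 4 then 6 else ((max 5 ((m - 2) / 3 + (m - 2) % 3 + 2) : ℕ) : ℕ∞))
  else if m < 3 * n / 2 then 4
  else
    let s := if Even n then n - 1 else n - 2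
    let q := (m - 2) / s
    let r := (m - 2) % s + 1
    ((max 5 (if Odd r ∧ r ≠ s then q + 2 else q + 3) : ℕ) : ℕ∞)

/-! ## the integer model -/

/-- distance in the strong product of two paths -/
def dd (i j a b : ℤ) : ℤ := max |i - a| |j - b|

/-- multiset representation in the integer grid -/
def rep (W : Finset (ℤ × ℤ)) (x : ℤ × ℤ) : Multiset ℤ := W.val.map fun w => dd x.1 x.2 w.1 w.2

/-- `x` lies in the grid with `n` rows and `m` columns -/
def InG (n m : ℤ) (x : ℤ × ℤ) : Prop := 1 ≤ x.1 ∧ x.1 ≤ n ∧ 1 ≤ x.2 ∧ x.2 ≤ m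

/-- `W` is a multiset resolving set of the grid with `n` rows and `m` columns -/
structure Res (n m : ℤ) (W : Finset (ℤ × ℤ)) : Prop where
  sub : ∀ w ∈ W, InG n m w
  inj : ∀ x y : ℤ × ℤ, InG n m x → InG n m y → rep W x = rep W y → x = y

end Mdim86
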