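import Pool.Agent.LibMdim86.MTreeA

namespace Mdim86

set_option maxRecDepth 100000

theorem a_B_f (k t i j i' : ℤ)
    (h0 : 0 ≤ (-2) + k)
    (h1 : 0 ≤ (-1) + (-2) * k + t)
    (h2 : 0 ≤ (3) * k + (-1) * t)
    (h3 : 0 ≤ (-1) + i)
    (h4 : 0 ≤ (1) + (2) * k + (-1) * i)
    (h5 : 0 ≤ (-1) + j)
    (h6 : 0 ≤ t + (-1) * j)
    (h7 : 0 ≤ (-1) + i')
    (h8 : 0 ≤ (1) + (2) * k + (-1) * i')
    (h9 : 0 ≤ (-1) + (-1) * i + i')
    (hp : List.Perm ([dd i j ((1)) ((1)), dd i j ((1)) ((2) * k), dd i j ((1)) ((1) + (2) * k), dd i j ((1) + (2) * k) ((1) + (2) * k)] : List ℤ)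
      [dd i' j ((1)) ((1)), dd i' j ((1)) ((2) * k), dd i' j ((1)) ((1) + (2) * k), dd i' j ((1) + (2) * k) ((1) + (2) * k)]) : False := by
  have hs := hp.sum_eq
  have p0 := dd_facts i j ((1)) ((1))
  have q0 := dd_facts i' j ((1)) ((1))
  have p1 := dd_facts i j ((1)) ((2) * k)
  have q1 := dd_facts i' j ((1)) ((2) * k)
  have p2 := dd_facts i j ((1)) ((1) + (2) * k)
  have q2 := dd_facts i' j ((1)) ((1) + (2) * k)
  have p3 := dd_facts i j ((1) + (2) * k) ((1) + (2) * k)
  have q3 := dd_facts i' j ((1) + (2) * k) ((1) + (2) * k)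
  generalize dd i j ((1)) ((1)) = D0 at hp hs p0
  generalize dd i' j ((1)) ((1)) = E0 at hp hs q0
  generalize dd i j ((1)) ((2) * k) = D1 at hp hs p1
  generalize dd i' j ((1)) ((2) * k) = E1 at hp hs q1
  generalize dd i j ((1)) ((1) + (2) * k) = D2 at hp hs p2
  generalize dd i' j ((1)) ((1) + (2) * k) = E2 at hp hs q2
  generalize dd i j ((1) + (2) * k) ((1) + (2) * k) = D3 at hp hs p3
  generalize dd i' j ((1) + (2) * k) ((1) + (2) * k) = E3 at hp hs q3
  simp only [List.sum_cons, List.sum_nil] at hs
  obtain ⟨p00, p01, p02, p03, p04⟩ := p0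
  obtain ⟨q00, q01, q02, q03, q04⟩ := q0
  obtain ⟨p10, p11, p12, p13, p14⟩ := p1
  obtain ⟨q10, q11, q12, q13, q14⟩ := q1
  obtain ⟨p20, p21, p22, p23, p24⟩ := p2
  obtain ⟨q20, q21, q22, q23, q24⟩ := q2
  obtain ⟨p30, p31, p32, p33, p34⟩ := p3
  obtain ⟨q30, q31, q32, q33, q34⟩ := q3
  refine mt_false a_B_al a_B_R a_B_t a_B_k a_B_H a_B_h a_B_ac a_B_a a_B_c (vv [1, k, t, i, j, i', D0, D1, D2, D3, E0, E1, E2, E3]) rfl ?_ ?_ ?_
  · simp only [a_B_R, List.forall_mem_cons, List.not_mem_nil, false_imp_iff, implies_true, and_true,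
      lval, vv, List.map_cons, List.map_nil, List.sum_cons, List.sum_nil, List.getD_cons_succ, List.getD_cons_zero]
    refine ⟨?_, ?_, ?_, ?_, ?_, ?_, ?_, ?_, ?_, ?_, ?_, ?_, ?_, ?_, ?_, ?_, ?_, ?_, ?_, ?_, ?_, ?_, ?_, ?_, ?_, ?_, ?_, ?_, ?_, ?_, ?_, ?_, ?_, ?_, ?_, ?_, ?_, ?_, ?_, ?_, ?_, ?_, ?_, ?_⟩
    · linarith only [hs]
    · linarith only [hs]
    · linarith only [q33]
    · linarith only [p33]
    · linarith only [q32]
    · linarith only [p32]
    · linarith only [q31]
    · linarith only [p31]
    · linarith only [q30]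
    · linarith only [p30]
    · linarith only [q23]
    · linarith only [p23]
    · linarith only [q22]
    · linarith only [p22]
    · linarith only [q21]
    · linarith only [p21]
    · linarith only [q20]
    · linarith only [p20]
    · linarith only [q13]
    · linarith only [p13]
    · linarith only [q12]
    · linarith only [p12]
    · linarith only [q11]
    · linarith only [p11]
    · linarith only [q10]
    · linarith only [p10]
    · linarith only [q03]
    · linarith only [p03]
    · linarith only [q02]
    · linarith only [p02]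
    · linarith only [q01]
    · linarith only [p01]
    · linarith only [q00]
    · linarith only [p00]
    · linarith only [h9]
    · linarith only [h8]
    · linarith only [h7]
    · linarith only [h6]
    · linarith only [h5]
    · linarith only [h4]
    · linarith only [h3]
    · linarith only [h2]
    · linarith only [h1]
    · linarith only [h0]
  · simp only [a_B_al, List.forall_mem_cons, List.not_mem_nil, false_imp_iff, implies_true, and_true,
      lval, vv, List.map_cons, List.map_nil, List.sum_cons, List.sum_nil, List.getD_cons_succ, List.getD_cons_zero]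
    refine ⟨?_, ?_, ?_, ?_, ?_, ?_, ?_, ?_⟩
    · rcases p04 with h | h | h | h
      · exact Or.inl (by linarith only [h])
      · exact Or.inr (Or.inl (by linarith only [h]))
      · exact Or.inr (Or.inr (Or.inl (by linarith only [h])))
      · exact Or.inr (Or.inr (Or.inr (by linarith only [h])))
    · rcases p14 with h | h | h | h
      · exact Or.inl (by linarith only [h])
      · exact Or.inr (Or.inl (by linarith only [h]))
      · exact Or.inr (Or.inr (Or.inl (by linarith only [h])))
      · exact Or.inr (Or.inr (Or.inr (by linarith only [h])))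
    · rcases p24 with h | h | h | h
      · exact Or.inl (by linarith only [h])
      · exact Or.inr (Or.inl (by linarith only [h]))
      · exact Or.inr (Or.inr (Or.inl (by linarith only [h])))
      · exact Or.inr (Or.inr (Or.inr (by linarith only [h])))
    · rcases p34 with h | h | h | h
      · exact Or.inl (by linarith only [h])
      · exact Or.inr (Or.inl (by linarith only [h]))
      · exact Or.inr (Or.inr (Or.inl (by linarith only [h])))
      · exact Or.inr (Or.inr (Or.inr (by linarith only [h])))
    · rcases q04 with h | h | h | h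
      · exact Or.inl (by linarith only [h])
      · exact Or.inr (Or.inl (by linarith only [h]))
      · exact Or.inr (Or.inr (Or.inl (by linarith only [h])))
      · exact Or.inr (Or.inr (Or.inr (by linarith only [h])))
    · rcases q14 with h | h | h | h
      · exact Or.inl (by linarith only [h])
      · exact Or.inr (Or.inl (by linarith only [h]))
      · exact Or.inr (Or.inr (Or.inl (by linarith only [h])))
      · exact Or.inr (Or.inr (Or.inr (by linarith only [h])))
    · rcases q24 with h | h | h | h
      · exact Or.inl (by linarith only [h])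
      · exact Or.inr (Or.inl (by linarith only [h]))
      · exact Or.inr (Or.inr (Or.inl (by linarith only [h])))
      · exact Or.inr (Or.inr (Or.inr (by linarith only [h])))
    · rcases q34 with h | h | h | h
      · exact Or.inl (by linarith only [h])
      · exact Or.inr (Or.inl (by linarith only [h]))
      · exact Or.inr (Or.inr (Or.inl (by linarith only [h])))
      · exact Or.inr (Or.inr (Or.inr (by linarith only [h])))
  · exact hp

theorem a_A_f (k t i j i' j' : ℤ)
    (h0 : 0 ≤ (-2) + k)
    (h1 : 0 ≤ (-1) + (-2) * k + t)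
    (h2 : 0 ≤ (3) * k + (-1) * t)
    (h3 : 0 ≤ (-1) + i)
    (h4 : 0 ≤ (1) + (2) * k + (-1) * i)
    (h5 : 0 ≤ (-1) + j)
    (h6 : 0 ≤ t + (-1) * j)
    (h7 : 0 ≤ (-1) + i')
    (h8 : 0 ≤ (1) + (2) * k + (-1) * i')
    (h9 : 0 ≤ (-1) + j')
    (h10 : 0 ≤ t + (-1) * j')
    (h11 : 0 ≤ (-1) + (-1) * j + j')
    (hp : List.Perm ([dd i j ((1)) ((1)), dd i j ((1)) ((2) * k), dd i j ((1)) ((1) + (2) * k), dd i j ((1) + (2) * k) ((1) + (2) * k)] : List ℤ)
      [dd i' j' ((1)) ((1)), dd i' j' ((1)) ((2) * k), dd i' j' ((1)) ((1) + (2) * k), dd i' j' ((1) + (2) * k) ((1) + (2) * k)]) : False := by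
  have hs := hp.sum_eq
  have p0 := dd_facts i j ((1)) ((1))
  have q0 := dd_facts i' j' ((1)) ((1))
  have p1 := dd_facts i j ((1)) ((2) * k)
  have q1 := dd_facts i' j' ((1)) ((2) * k)
  have p2 := dd_facts i j ((1)) ((1) + (2) * k)
  have q2 := dd_facts i' j' ((1)) ((1) + (2) * k)
  have p3 := dd_facts i j ((1) + (2) * k) ((1) + (2) * k)
  have q3 := dd_facts i' j' ((1) + (2) * k) ((1) + (2) * k)
  generalize dd i j ((1)) ((1)) = D0 at hp hs p0
  generalize dd i' j' ((1)) ((1)) = E0 at hp hs q0
  generalize dd i j ((1)) ((2) * k) = D1 at hp hs p1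
  generalize dd i' j' ((1)) ((2) * k) = E1 at hp hs q1
  generalize dd i j ((1)) ((1) + (2) * k) = D2 at hp hs p2
  generalize dd i' j' ((1)) ((1) + (2) * k) = E2 at hp hs q2
  generalize dd i j ((1) + (2) * k) ((1) + (2) * k) = D3 at hp hs p3
  generalize dd i' j' ((1) + (2) * k) ((1) + (2) * k) = E3 at hp hs q3
  simp only [List.sum_cons, List.sum_nil] at hs
  obtain ⟨p00, p01, p02, p03, p04⟩ := p0
  obtain ⟨q00, q01, q02, q03, q04⟩ := q0
  obtain ⟨p10, p11, p12, p13, p14⟩ := p1
  obtain ⟨q10, q11, q12, q13, q14⟩ := q1
  obtain ⟨p20, p21, p22, p23, p24⟩ := p2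
  obtain ⟨q20, q21, q22, q23, q24⟩ := q2
  obtain ⟨p30, p31, p32, p33, p34⟩ := p3
  obtain ⟨q30, q31, q32, q33, q34⟩ := q3
  refine mt_false a_A_al a_A_R a_A_t a_A_k a_A_H a_A_h a_A_ac a_A_a a_A_c (vv [1, k, t, i, j, i', j', D0, D1, D2, D3, E0, E1, E2, E3]) rfl ?_ ?_ ?_
  · simp only [a_A_R, List.forall_mem_cons, List.not_mem_nil, false_imp_iff, implies_true, and_true,
      lval, vv, List.map_cons, List.map_nil, List.sum_cons, List.sum_nil, List.getD_cons_succ, List.getD_cons_zero]
    refine ⟨?_, ?_, ?_, ?_, ?_, ?_, ?_, ?_, ?_, ?_, ?_, ?_, ?_, ?_, ?_, ?_, ?_, ?_, ?_, ?_, ?_, ?_, ?_, ?_, ?_, ?_, ?_, ?_, ?_, ?_, ?_, ?_, ?_, ?_, ?_, ?_, ?_, ?_, ?_, ?_, ?_, ?_, ?_, ?_, ?_, ?_⟩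
    · linarith only [hs]
    · linarith only [hs]
    · linarith only [q33]
    · linarith only [p33]
    · linarith only [q32]
    · linarith only [p32]
    · linarith only [q31]
    · linarith only [p31]
    · linarith only [q30]
    · linarith only [p30]
    · linarith only [q23]
    · linarith only [p23]
    · linarith only [q22]
    · linarith only [p22]
    · linarith only [q21]
    · linarith only [p21]
    · linarith only [q20]
    · linarith only [p20]
    · linarith only [q13]
    · linarith only [p13]
    · linarith only [q12]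
    · linarith only [p12]
    · linarith only [q11]
    · linarith only [p11]
    · linarith only [q10]
    · linarith only [p10]
    · linarith only [q03]
    · linarith only [p03]
    · linarith only [q02]
    · linarith only [p02]
    · linarith only [q01]
    · linarith only [p01]
    · linarith only [q00]
    · linarith only [p00]
    · linarith only [h11]
    · linarith only [h10]
    · linarith only [h9]
    · linarith only [h8]
    · linarith only [h7]
    · linarith only [h6]
    · linarith only [h5]
    · linarith only [h4]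
    · linarith only [h3]
    · linarith only [h2]
    · linarith only [h1]
    · linarith only [h0]
  · simp only [a_A_al, List.forall_mem_cons, List.not_mem_nil, false_imp_iff, implies_true, and_true,
      lval, vv, List.map_cons, List.map_nil, List.sum_cons, List.sum_nil, List.getD_cons_succ, List.getD_cons_zero]
    refine ⟨?_, ?_, ?_, ?_, ?_, ?_, ?_, ?_⟩
    · rcases p04 with h | h | h | h
      · exact Or.inl (by linarith only [h])
      · exact Or.inr (Or.inl (by linarith only [h]))
      · exact Or.inr (Or.inr (Or.inl (by linarith only [h])))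
      · exact Or.inr (Or.inr (Or.inr (by linarith only [h])))
    · rcases p14 with h | h | h | h
      · exact Or.inl (by linarith only [h])
      · exact Or.inr (Or.inl (by linarith only [h]))
      · exact Or.inr (Or.inr (Or.inl (by linarith only [h])))
      · exact Or.inr (Or.inr (Or.inr (by linarith only [h])))
    · rcases p24 with h | h | h | h
      · exact Or.inl (by linarith only [h])
      · exact Or.inr (Or.inl (by linarith only [h]))
      · exact Or.inr (Or.inr (Or.inl (by linarith only [h])))
      · exact Or.inr (Or.inr (Or.inr (by linarith only [h])))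
    · rcases p34 with h | h | h | h
      · exact Or.inl (by linarith only [h])
      · exact Or.inr (Or.inl (by linarith only [h]))
      · exact Or.inr (Or.inr (Or.inl (by linarith only [h])))
      · exact Or.inr (Or.inr (Or.inr (by linarith only [h])))
    · rcases q04 with h | h | h | h
      · exact Or.inl (by linarith only [h])
      · exact Or.inr (Or.inl (by linarith only [h]))
      · exact Or.inr (Or.inr (Or.inl (by linarith only [h])))
      · exact Or.inr (Or.inr (Or.inr (by linarith only [h])))
    · rcases q14 with h | h | h | h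
      · exact Or.inl (by linarith only [h])
      · exact Or.inr (Or.inl (by linarith only [h]))
      · exact Or.inr (Or.inr (Or.inl (by linarith only [h])))
      · exact Or.inr (Or.inr (Or.inr (by linarith only [h])))
    · rcases q24 with h | h | h | h
      · exact Or.inl (by linarith only [h])
      · exact Or.inr (Or.inl (by linarith only [h]))
      · exact Or.inr (Or.inr (Or.inl (by linarith only [h])))
      · exact Or.inr (Or.inr (Or.inr (by linarith only [h])))
    · rcases q34 with h | h | h | h
      · exact Or.inl (by linarith only [h])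
      · exact Or.inr (Or.inl (by linarith only [h]))
      · exact Or.inr (Or.inr (Or.inl (by linarith only [h])))
      · exact Or.inr (Or.inr (Or.inr (by linarith only [h])))
  · exact hp

theorem b_B_f (k t i j i' : ℤ)
    (h0 : 0 ≤ (-3) + k)
    (h1 : 0 ≤ (-1) + (-2) * k + t)
    (h2 : 0 ≤ (-1) + (3) * k + (-1) * t)
    (h3 : 0 ≤ (-1) + i)
    (h4 : 0 ≤ (2) * k + (-1) * i)
    (h5 : 0 ≤ (-1) + j)
    (h6 : 0 ≤ t + (-1) * j)
    (h7 : 0 ≤ (-1) + i')
    (h8 : 0 ≤ (2) * k + (-1) * i')
    (h9 : 0 ≤ (-1) + (-1) * i + i')
    (hp : List.Perm ([dd i j ((1)) ((1)), dd i j ((2) * k) ((2) * k), dd i j ((2)) ((1) + (2) * k), dd i j ((3)) ((1) + (2) * k)] : List ℤ)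
      [dd i' j ((1)) ((1)), dd i' j ((2) * k) ((2) * k), dd i' j ((2)) ((1) + (2) * k), dd i' j ((3)) ((1) + (2) * k)]) : False := by
  have hs := hp.sum_eq
  have p0 := dd_facts i j ((1)) ((1))
  have q0 := dd_facts i' j ((1)) ((1))
  have p1 := dd_facts i j ((2) * k) ((2) * k)
  have q1 := dd_facts i' j ((2) * k) ((2) * k)
  have p2 := dd_facts i j ((2)) ((1) + (2) * k)
  have q2 := dd_facts i' j ((2)) ((1) + (2) * k)
  have p3 := dd_facts i j ((3)) ((1) + (2) * k)
  have q3 := dd_facts i' j ((3)) ((1) + (2) * k)
  generalize dd i j ((1)) ((1)) = D0 at hp hs p0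
  generalize dd i' j ((1)) ((1)) = E0 at hp hs q0
  generalize dd i j ((2) * k) ((2) * k) = D1 at hp hs p1
  generalize dd i' j ((2) * k) ((2) * k) = E1 at hp hs q1
  generalize dd i j ((2)) ((1) + (2) * k) = D2 at hp hs p2
  generalize dd i' j ((2)) ((1) + (2) * k) = E2 at hp hs q2
  generalize dd i j ((3)) ((1) + (2) * k) = D3 at hp hs p3
  generalize dd i' j ((3)) ((1) + (2) * k) = E3 at hp hs q3
  simp only [List.sum_cons, List.sum_nil] at hs
  obtain ⟨p00, p01, p02, p03, p04⟩ := p0
  obtain ⟨q00, q01, q02, q03, q04⟩ := q0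
  obtain ⟨p10, p11, p12, p13, p14⟩ := p1
  obtain ⟨q10, q11, q12, q13, q14⟩ := q1
  obtain ⟨p20, p21, p22, p23, p24⟩ := p2
  obtain ⟨q20, q21, q22, q23, q24⟩ := q2
  obtain ⟨p30, p31, p32, p33, p34⟩ := p3
  obtain ⟨q30, q31, q32, q33, q34⟩ := q3
  refine mt_false b_B_al b_B_R b_B_t b_B_k b_B_H b_B_h b_B_ac b_B_a b_B_c (vv [1, k, t, i, j, i', D0, D1, D2, D3, E0, E1, E2, E3]) rfl ?_ ?_ ?_
  · simp only [b_B_R, List.forall_mem_cons, List.not_mem_nil, false_imp_iff, implies_true, and_true,
      lval, vv, List.map_cons, List.map_nil, List.sum_cons, List.sum_nil, List.getD_cons_succ, List.getD_cons_zero]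
    refine ⟨?_, ?_, ?_, ?_, ?_, ?_, ?_, ?_, ?_, ?_, ?_, ?_, ?_, ?_, ?_, ?_, ?_, ?_, ?_, ?_, ?_, ?_, ?_, ?_, ?_, ?_, ?_, ?_, ?_, ?_, ?_, ?_, ?_, ?_, ?_, ?_, ?_, ?_, ?_, ?_, ?_, ?_, ?_, ?_⟩
    · linarith only [hs]
    · linarith only [hs]
    · linarith only [q33]
    · linarith only [p33]
    · linarith only [q32]
    · linarith only [p32]
    · linarith only [q31]
    · linarith only [p31]
    · linarith only [q30]
    · linarith only [p30]
    · linarith only [q23]
    · linarith only [p23]
    · linarith only [q22]
    · linarith only [p22]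
    · linarith only [q21]
    · linarith only [p21]
    · linarith only [q20]
    · linarith only [p20]
    · linarith only [q13]
    · linarith only [p13]
    · linarith only [q12]
    · linarith only [p12]
    · linarith only [q11]
    · linarith only [p11]
    · linarith only [q10]
    · linarith only [p10]
    · linarith only [q03]
    · linarith only [p03]
    · linarith only [q02]
    · linarith only [p02]
    · linarith only [q01]
    · linarith only [p01]
    · linarith only [q00]
    · linarith only [p00]
    · linarith only [h9]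
    · linarith only [h8]
    · linarith only [h7]
    · linarith only [h6]
    · linarith only [h5]
    · linarith only [h4]
    · linarith only [h3]
    · linarith only [h2]
    · linarith only [h1]
    · linarith only [h0]
  · simp only [b_B_al, List.forall_mem_cons, List.not_mem_nil, false_imp_iff, implies_true, and_true,
      lval, vv, List.map_cons, List.map_nil, List.sum_cons, List.sum_nil, List.getD_cons_succ, List.getD_cons_zero]
    refine ⟨?_, ?_, ?_, ?_, ?_, ?_, ?_, ?_⟩
    · rcases p04 with h | h | h | h
      · exact Or.inl (by linarith only [h])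
      · exact Or.inr (Or.inl (by linarith only [h]))
      · exact Or.inr (Or.inr (Or.inl (by linarith only [h])))
      · exact Or.inr (Or.inr (Or.inr (by linarith only [h])))
    · rcases p14 with h | h | h | h
      · exact Or.inl (by linarith only [h])
      · exact Or.inr (Or.inl (by linarith only [h]))
      · exact Or.inr (Or.inr (Or.inl (by linarith only [h])))
      · exact Or.inr (Or.inr (Or.inr (by linarith only [h])))
    · rcases p24 with h | h | h | h
      · exact Or.inl (by linarith only [h])
      · exact Or.inr (Or.inl (by linarith only [h]))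
      · exact Or.inr (Or.inr (Or.inl (by linarith only [h])))
      · exact Or.inr (Or.inr (Or.inr (by linarith only [h])))
    · rcases p34 with h | h | h | h
      · exact Or.inl (by linarith only [h])
      · exact Or.inr (Or.inl (by linarith only [h]))
      · exact Or.inr (Or.inr (Or.inl (by linarith only [h])))
      · exact Or.inr (Or.inr (Or.inr (by linarith only [h])))
    · rcases q04 with h | h | h | h
      · exact Or.inl (by linarith only [h])
      · exact Or.inr (Or.inl (by linarith only [h]))
      · exact Or.inr (Or.inr (Or.inl (by linarith only [h])))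
      · exact Or.inr (Or.inr (Or.inr (by linarith only [h])))
    · rcases q14 with h | h | h | h
      · exact Or.inl (by linarith only [h])
      · exact Or.inr (Or.inl (by linarith only [h]))
      · exact Or.inr (Or.inr (Or.inl (by linarith only [h])))
      · exact Or.inr (Or.inr (Or.inr (by linarith only [h])))
    · rcases q24 with h | h | h | h
      · exact Or.inl (by linarith only [h])
      · exact Or.inr (Or.inl (by linarith only [h]))
      · exact Or.inr (Or.inr (Or.inl (by linarith only [h])))
      · exact Or.inr (Or.inr (Or.inr (by linarith only [h])))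
    · rcases q34 with h | h | h | h
      · exact Or.inl (by linarith only [h])
      · exact Or.inr (Or.inl (by linarith only [h]))
      · exact Or.inr (Or.inr (Or.inl (by linarith only [h])))
      · exact Or.inr (Or.inr (Or.inr (by linarith only [h])))
  · exact hp

theorem b_A_f (k t i j i' j' : ℤ)
    (h0 : 0 ≤ (-3) + k)
    (h1 : 0 ≤ (-1) + (-2) * k + t)
    (h2 : 0 ≤ (-1) + (3) * k + (-1) * t)
    (h3 : 0 ≤ (-1) + i)
    (h4 : 0 ≤ (2) * k + (-1) * i)
    (h5 : 0 ≤ (-1) + j)
    (h6 : 0 ≤ t + (-1) * j)
    (h7 : 0 ≤ (-1) + i')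
    (h8 : 0 ≤ (2) * k + (-1) * i')
    (h9 : 0 ≤ (-1) + j')
    (h10 : 0 ≤ t + (-1) * j')
    (h11 : 0 ≤ (-1) + (-1) * j + j')
    (hp : List.Perm ([dd i j ((1)) ((1)), dd i j ((2) * k) ((2) * k), dd i j ((2)) ((1) + (2) * k), dd i j ((3)) ((1) + (2) * k)] : List ℤ)
      [dd i' j' ((1)) ((1)), dd i' j' ((2) * k) ((2) * k), dd i' j' ((2)) ((1) + (2) * k), dd i' j' ((3)) ((1) + (2) * k)]) : False := by
  have hs := hp.sum_eq
  have p0 := dd_facts i j ((1)) ((1))
  have q0 := dd_facts i' j' ((1)) ((1))
  have p1 := dd_facts i j ((2) * k) ((2) * k)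
  have q1 := dd_facts i' j' ((2) * k) ((2) * k)
  have p2 := dd_facts i j ((2)) ((1) + (2) * k)
  have q2 := dd_facts i' j' ((2)) ((1) + (2) * k)
  have p3 := dd_facts i j ((3)) ((1) + (2) * k)
  have q3 := dd_facts i' j' ((3)) ((1) + (2) * k)
  generalize dd i j ((1)) ((1)) = D0 at hp hs p0
  generalize dd i' j' ((1)) ((1)) = E0 at hp hs q0
  generalize dd i j ((2) * k) ((2) * k) = D1 at hp hs p1
  generalize dd i' j' ((2) * k) ((2) * k) = E1 at hp hs q1
  generalize dd i j ((2)) ((1) + (2) * k) = D2 at hp hs p2
  generalize dd i' j' ((2)) ((1) + (2) * k) = E2 at hp hs q2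
  generalize dd i j ((3)) ((1) + (2) * k) = D3 at hp hs p3
  generalize dd i' j' ((3)) ((1) + (2) * k) = E3 at hp hs q3
  simp only [List.sum_cons, List.sum_nil] at hs
  obtain ⟨p00, p01, p02, p03, p04⟩ := p0
  obtain ⟨q00, q01, q02, q03, q04⟩ := q0
  obtain ⟨p10, p11, p12, p13, p14⟩ := p1
  obtain ⟨q10, q11, q12, q13, q14⟩ := q1
  obtain ⟨p20, p21, p22, p23, p24⟩ := p2
  obtain ⟨q20, q21, q22, q23, q24⟩ := q2
  obtain ⟨p30, p31, p32, p33, p34⟩ := p3
  obtain ⟨q30, q31, q32, q33, q34⟩ := q3
  refine mt_false b_A_al b_A_R b_A_t b_A_k b_A_H b_A_h b_A_ac b_A_a b_A_c (vv [1, k, t, i, j, i', j', D0, D1, D2, D3, E0, E1, E2, E3]) rfl ?_ ?_ ?_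
  · simp only [b_A_R, List.forall_mem_cons, List.not_mem_nil, false_imp_iff, implies_true, and_true,
      lval, vv, List.map_cons, List.map_nil, List.sum_cons, List.sum_nil, List.getD_cons_succ, List.getD_cons_zero]
    refine ⟨?_, ?_, ?_, ?_, ?_, ?_, ?_, ?_, ?_, ?_, ?_, ?_, ?_, ?_, ?_, ?_, ?_, ?_, ?_, ?_, ?_, ?_, ?_, ?_, ?_, ?_, ?_, ?_, ?_, ?_, ?_, ?_, ?_, ?_, ?_, ?_, ?_, ?_, ?_, ?_, ?_, ?_, ?_, ?_, ?_, ?_⟩
    · linarith only [hs]
    · linarith only [hs]
    · linarith only [q33]
    · linarith only [p33]
    · linarith only [q32]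
    · linarith only [p32]
    · linarith only [q31]
    · linarith only [p31]
    · linarith only [q30]
    · linarith only [p30]
    · linarith only [q23]
    · linarith only [p23]
    · linarith only [q22]
    · linarith only [p22]
    · linarith only [q21]
    · linarith only [p21]
    · linarith only [q20]
    · linarith only [p20]
    · linarith only [q13]
    · linarith only [p13]
    · linarith only [q12]
    · linarith only [p12]
    · linarith only [q11]
    · linarith only [p11]
    · linarith only [q10]
    · linarith only [p10]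
    · linarith only [q03]
    · linarith only [p03]
    · linarith only [q02]
    · linarith only [p02]
    · linarith only [q01]
    · linarith only [p01]
    · linarith only [q00]
    · linarith only [p00]
    · linarith only [h11]
    · linarith only [h10]
    · linarith only [h9]
    · linarith only [h8]
    · linarith only [h7]
    · linarith only [h6]
    · linarith only [h5]
    · linarith only [h4]
    · linarith only [h3]
    · linarith only [h2]
    · linarith only [h1]
    · linarith only [h0]
  · simp only [b_A_al, List.forall_mem_cons, List.not_mem_nil, false_imp_iff, implies_true, and_true,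
      lval, vv, List.map_cons, List.map_nil, List.sum_cons, List.sum_nil, List.getD_cons_succ, List.getD_cons_zero]
    refine ⟨?_, ?_, ?_, ?_, ?_, ?_, ?_, ?_⟩
    · rcases p04 with h | h | h | h
      · exact Or.inl (by linarith only [h])
      · exact Or.inr (Or.inl (by linarith only [h]))
      · exact Or.inr (Or.inr (Or.inl (by linarith only [h])))
      · exact Or.inr (Or.inr (Or.inr (by linarith only [h])))
    · rcases p14 with h | h | h | h
      · exact Or.inl (by linarith only [h])
      · exact Or.inr (Or.inl (by linarith only [h]))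
      · exact Or.inr (Or.inr (Or.inl (by linarith only [h])))
      · exact Or.inr (Or.inr (Or.inr (by linarith only [h])))
    · rcases p24 with h | h | h | h
      · exact Or.inl (by linarith only [h])
      · exact Or.inr (Or.inl (by linarith only [h]))
      · exact Or.inr (Or.inr (Or.inl (by linarith only [h])))
      · exact Or.inr (Or.inr (Or.inr (by linarith only [h])))
    · rcases p34 with h | h | h | h
      · exact Or.inl (by linarith only [h])
      · exact Or.inr (Or.inl (by linarith only [h]))
      · exact Or.inr (Or.inr (Or.inl (by linarith only [h])))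
      · exact Or.inr (Or.inr (Or.inr (by linarith only [h])))
    · rcases q04 with h | h | h | h
      · exact Or.inl (by linarith only [h])
      · exact Or.inr (Or.inl (by linarith only [h]))
      · exact Or.inr (Or.inr (Or.inl (by linarith only [h])))
      · exact Or.inr (Or.inr (Or.inr (by linarith only [h])))
    · rcases q14 with h | h | h | h
      · exact Or.inl (by linarith only [h])
      · exact Or.inr (Or.inl (by linarith only [h]))
      · exact Or.inr (Or.inr (Or.inl (by linarith only [h])))
      · exact Or.inr (Or.inr (Or.inr (by linarith only [h])))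
    · rcases q24 with h | h | h | h
      · exact Or.inl (by linarith only [h])
      · exact Or.inr (Or.inl (by linarith only [h]))
      · exact Or.inr (Or.inr (Or.inl (by linarith only [h])))
      · exact Or.inr (Or.inr (Or.inr (by linarith only [h])))
    · rcases q34 with h | h | h | h
      · exact Or.inl (by linarith only [h])
      · exact Or.inr (Or.inl (by linarith only [h]))
      · exact Or.inr (Or.inr (Or.inl (by linarith only [h])))
      · exact Or.inr (Or.inr (Or.inr (by linarith only [h])))
  · exact hp

theorem c_B_f (k i j i' : ℤ)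
    (h0 : 0 ≤ (-3) + k)
    (h1 : 0 ≤ (-1) + i)
    (h2 : 0 ≤ (2) * k + (-1) * i)
    (h3 : 0 ≤ (-1) + j)
    (h4 : 0 ≤ (2) * k + (-1) * j)
    (h5 : 0 ≤ (-1) + i')
    (h6 : 0 ≤ (2) * k + (-1) * i')
    (h7 : 0 ≤ (-1) + (-1) * i + i')
    (hp : List.Perm ([dd i j ((1)) ((1)), dd i j ((-1) + (2) * k) ((1)), dd i j ((-1) + (2) * k) ((2)), dd i j ((2) * k) ((2) * k)] : List ℤ)
      [dd i' j ((1)) ((1)), dd i' j ((-1) + (2) * k) ((1)), dd i' j ((-1) + (2) * k) ((2)), dd i' j ((2) * k) ((2) * k)]) : False := by
  have hs := hp.sum_eq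
  have p0 := dd_facts i j ((1)) ((1))
  have q0 := dd_facts i' j ((1)) ((1))
  have p1 := dd_facts i j ((-1) + (2) * k) ((1))
  have q1 := dd_facts i' j ((-1) + (2) * k) ((1))
  have p2 := dd_facts i j ((-1) + (2) * k) ((2))
  have q2 := dd_facts i' j ((-1) + (2) * k) ((2))
  have p3 := dd_facts i j ((2) * k) ((2) * k)
  have q3 := dd_facts i' j ((2) * k) ((2) * k)
  generalize dd i j ((1)) ((1)) = D0 at hp hs p0
  generalize dd i' j ((1)) ((1)) = E0 at hp hs q0
  generalize dd i j ((-1) + (2) * k) ((1)) = D1 at hp hs p1
  generalize dd i' j ((-1) + (2) * k) ((1)) = E1 at hp hs q1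
  generalize dd i j ((-1) + (2) * k) ((2)) = D2 at hp hs p2
  generalize dd i' j ((-1) + (2) * k) ((2)) = E2 at hp hs q2
  generalize dd i j ((2) * k) ((2) * k) = D3 at hp hs p3
  generalize dd i' j ((2) * k) ((2) * k) = E3 at hp hs q3
  simp only [List.sum_cons, List.sum_nil] at hs
  obtain ⟨p00, p01, p02, p03, p04⟩ := p0
  obtain ⟨q00, q01, q02, q03, q04⟩ := q0
  obtain ⟨p10, p11, p12, p13, p14⟩ := p1
  obtain ⟨q10, q11, q12, q13, q14⟩ := q1
  obtain ⟨p20, p21, p22, p23, p24⟩ := p2
  obtain ⟨q20, q21, q22, q23, q24⟩ := q2
  obtain ⟨p30, p31, p32, p33, p34⟩ := p3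
  obtain ⟨q30, q31, q32, q33, q34⟩ := q3
  refine mt_false c_B_al c_B_R c_B_t c_B_k c_B_H c_B_h c_B_ac c_B_a c_B_c (vv [1, k, i, j, i', D0, D1, D2, D3, E0, E1, E2, E3]) rfl ?_ ?_ ?_
  · simp only [c_B_R, List.forall_mem_cons, List.not_mem_nil, false_imp_iff, implies_true, and_true,
      lval, vv, List.map_cons, List.map_nil, List.sum_cons, List.sum_nil, List.getD_cons_succ, List.getD_cons_zero]
    refine ⟨?_, ?_, ?_, ?_, ?_, ?_, ?_, ?_, ?_, ?_, ?_, ?_, ?_, ?_, ?_, ?_, ?_, ?_, ?_, ?_, ?_, ?_, ?_, ?_, ?_, ?_, ?_, ?_, ?_, ?_, ?_, ?_, ?_, ?_, ?_, ?_, ?_, ?_, ?_, ?_, ?_, ?_⟩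
    · linarith only [hs]
    · linarith only [hs]
    · linarith only [q33]
    · linarith only [p33]
    · linarith only [q32]
    · linarith only [p32]
    · linarith only [q31]
    · linarith only [p31]
    · linarith only [q30]
    · linarith only [p30]
    · linarith only [q23]
    · linarith only [p23]
    · linarith only [q22]
    · linarith only [p22]
    · linarith only [q21]
    · linarith only [p21]
    · linarith only [q20]
    · linarith only [p20]
    · linarith only [q13]
    · linarith only [p13]
    · linarith only [q12]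
    · linarith only [p12]
    · linarith only [q11]
    · linarith only [p11]
    · linarith only [q10]
    · linarith only [p10]
    · linarith only [q03]
    · linarith only [p03]
    · linarith only [q02]
    · linarith only [p02]
    · linarith only [q01]
    · linarith only [p01]
    · linarith only [q00]
    · linarith only [p00]
    · linarith only [h7]
    · linarith only [h6]
    · linarith only [h5]
    · linarith only [h4]
    · linarith only [h3]
    · linarith only [h2]
    · linarith only [h1]
    · linarith only [h0]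
  · simp only [c_B_al, List.forall_mem_cons, List.not_mem_nil, false_imp_iff, implies_true, and_true,
      lval, vv, List.map_cons, List.map_nil, List.sum_cons, List.sum_nil, List.getD_cons_succ, List.getD_cons_zero]
    refine ⟨?_, ?_, ?_, ?_, ?_, ?_, ?_, ?_⟩
    · rcases p04 with h | h | h | h
      · exact Or.inl (by linarith only [h])
      · exact Or.inr (Or.inl (by linarith only [h]))
      · exact Or.inr (Or.inr (Or.inl (by linarith only [h])))
      · exact Or.inr (Or.inr (Or.inr (by linarith only [h])))
    · rcases p14 with h | h | h | h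
      · exact Or.inl (by linarith only [h])
      · exact Or.inr (Or.inl (by linarith only [h]))
      · exact Or.inr (Or.inr (Or.inl (by linarith only [h])))
      · exact Or.inr (Or.inr (Or.inr (by linarith only [h])))
    · rcases p24 with h | h | h | h
      · exact Or.inl (by linarith only [h])
      · exact Or.inr (Or.inl (by linarith only [h]))
      · exact Or.inr (Or.inr (Or.inl (by linarith only [h])))
      · exact Or.inr (Or.inr (Or.inr (by linarith only [h])))
    · rcases p34 with h | h | h | h
      · exact Or.inl (by linarith only [h])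
      · exact Or.inr (Or.inl (by linarith only [h]))
      · exact Or.inr (Or.inr (Or.inl (by linarith only [h])))
      · exact Or.inr (Or.inr (Or.inr (by linarith only [h])))
    · rcases q04 with h | h | h | h
      · exact Or.inl (by linarith only [h])
      · exact Or.inr (Or.inl (by linarith only [h]))
      · exact Or.inr (Or.inr (Or.inl (by linarith only [h])))
      · exact Or.inr (Or.inr (Or.inr (by linarith only [h])))
    · rcases q14 with h | h | h | h
      · exact Or.inl (by linarith only [h])
      · exact Or.inr (Or.inl (by linarith only [h]))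
      · exact Or.inr (Or.inr (Or.inl (by linarith only [h])))
      · exact Or.inr (Or.inr (Or.inr (by linarith only [h])))
    · rcases q24 with h | h | h | h
      · exact Or.inl (by linarith only [h])
      · exact Or.inr (Or.inl (by linarith only [h]))
      · exact Or.inr (Or.inr (Or.inl (by linarith only [h])))
      · exact Or.inr (Or.inr (Or.inr (by linarith only [h])))
    · rcases q34 with h | h | h | h
      · exact Or.inl (by linarith only [h])
      · exact Or.inr (Or.inl (by linarith only [h]))
      · exact Or.inr (Or.inr (Or.inl (by linarith only [h])))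
      · exact Or.inr (Or.inr (Or.inr (by linarith only [h])))
  · exact hp

theorem c_A_f (k i j i' j' : ℤ)
    (h0 : 0 ≤ (-3) + k)
    (h1 : 0 ≤ (-1) + i)
    (h2 : 0 ≤ (2) * k + (-1) * i)
    (h3 : 0 ≤ (-1) + j)
    (h4 : 0 ≤ (2) * k + (-1) * j)
    (h5 : 0 ≤ (-1) + i')
    (h6 : 0 ≤ (2) * k + (-1) * i')
    (h7 : 0 ≤ (-1) + j')
    (h8 : 0 ≤ (2) * k + (-1) * j')
    (h9 : 0 ≤ (-1) + (-1) * j + j')
    (hp : List.Perm ([dd i j ((1)) ((1)), dd i j ((-1) + (2) * k) ((1)), dd i j ((-1) + (2) * k) ((2)), dd i j ((2) * k) ((2) * k)] : List ℤ)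
      [dd i' j' ((1)) ((1)), dd i' j' ((-1) + (2) * k) ((1)), dd i' j' ((-1) + (2) * k) ((2)), dd i' j' ((2) * k) ((2) * k)]) : False := by
  have hs := hp.sum_eq
  have p0 := dd_facts i j ((1)) ((1))
  have q0 := dd_facts i' j' ((1)) ((1))
  have p1 := dd_facts i j ((-1) + (2) * k) ((1))
  have q1 := dd_facts i' j' ((-1) + (2) * k) ((1))
  have p2 := dd_facts i j ((-1) + (2) * k) ((2))
  have q2 := dd_facts i' j' ((-1) + (2) * k) ((2))
  have p3 := dd_facts i j ((2) * k) ((2) * k)
  have q3 := dd_facts i' j' ((2) * k) ((2) * k)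
  generalize dd i j ((1)) ((1)) = D0 at hp hs p0
  generalize dd i' j' ((1)) ((1)) = E0 at hp hs q0
  generalize dd i j ((-1) + (2) * k) ((1)) = D1 at hp hs p1
  generalize dd i' j' ((-1) + (2) * k) ((1)) = E1 at hp hs q1
  generalize dd i j ((-1) + (2) * k) ((2)) = D2 at hp hs p2
  generalize dd i' j' ((-1) + (2) * k) ((2)) = E2 at hp hs q2
  generalize dd i j ((2) * k) ((2) * k) = D3 at hp hs p3
  generalize dd i' j' ((2) * k) ((2) * k) = E3 at hp hs q3
  simp only [List.sum_cons, List.sum_nil] at hs
  obtain ⟨p00, p01, p02, p03, p04⟩ := p0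
  obtain ⟨q00, q01, q02, q03, q04⟩ := q0
  obtain ⟨p10, p11, p12, p13, p14⟩ := p1
  obtain ⟨q10, q11, q12, q13, q14⟩ := q1
  obtain ⟨p20, p21, p22, p23, p24⟩ := p2
  obtain ⟨q20, q21, q22, q23, q24⟩ := q2
  obtain ⟨p30, p31, p32, p33, p34⟩ := p3
  obtain ⟨q30, q31, q32, q33, q34⟩ := q3
  refine mt_false c_A_al c_A_R c_A_t c_A_k c_A_H c_A_h c_A_ac c_A_a c_A_c (vv [1, k, i, j, i', j', D0, D1, D2, D3, E0, E1, E2, E3]) rfl ?_ ?_ ?_
  · simp only [c_A_R, List.forall_mem_cons, List.not_mem_nil, false_imp_iff, implies_true, and_true,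
      lval, vv, List.map_cons, List.map_nil, List.sum_cons, List.sum_nil, List.getD_cons_succ, List.getD_cons_zero]
    refine ⟨?_, ?_, ?_, ?_, ?_, ?_, ?_, ?_, ?_, ?_, ?_, ?_, ?_, ?_, ?_, ?_, ?_, ?_, ?_, ?_, ?_, ?_, ?_, ?_, ?_, ?_, ?_, ?_, ?_, ?_, ?_, ?_, ?_, ?_, ?_, ?_, ?_, ?_, ?_, ?_, ?_, ?_, ?_, ?_⟩
    · linarith only [hs]
    · linarith only [hs]
    · linarith only [q33]
    · linarith only [p33]
    · linarith only [q32]
    · linarith only [p32]
    · linarith only [q31]
    · linarith only [p31]
    · linarith only [q30]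
    · linarith only [p30]
    · linarith only [q23]
    · linarith only [p23]
    · linarith only [q22]
    · linarith only [p22]
    · linarith only [q21]
    · linarith only [p21]
    · linarith only [q20]
    · linarith only [p20]
    · linarith only [q13]
    · linarith only [p13]
    · linarith only [q12]
    · linarith only [p12]
    · linarith only [q11]
    · linarith only [p11]
    · linarith only [q10]
    · linarith only [p10]
    · linarith only [q03]
    · linarith only [p03]
    · linarith only [q02]
    · linarith only [p02]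
    · linarith only [q01]
    · linarith only [p01]
    · linarith only [q00]
    · linarith only [p00]
    · linarith only [h9]
    · linarith only [h8]
    · linarith only [h7]
    · linarith only [h6]
    · linarith only [h5]
    · linarith only [h4]
    · linarith only [h3]
    · linarith only [h2]
    · linarith only [h1]
    · linarith only [h0]
  · simp only [c_A_al, List.forall_mem_cons, List.not_mem_nil, false_imp_iff, implies_true, and_true,
      lval, vv, List.map_cons, List.map_nil, List.sum_cons, List.sum_nil, List.getD_cons_succ, List.getD_cons_zero]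
    refine ⟨?_, ?_, ?_, ?_, ?_, ?_, ?_, ?_⟩
    · rcases p04 with h | h | h | h
      · exact Or.inl (by linarith only [h])
      · exact Or.inr (Or.inl (by linarith only [h]))
      · exact Or.inr (Or.inr (Or.inl (by linarith only [h])))
      · exact Or.inr (Or.inr (Or.inr (by linarith only [h])))
    · rcases p14 with h | h | h | h
      · exact Or.inl (by linarith only [h])
      · exact Or.inr (Or.inl (by linarith only [h]))
      · exact Or.inr (Or.inr (Or.inl (by linarith only [h])))
      · exact Or.inr (Or.inr (Or.inr (by linarith only [h])))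
    · rcases p24 with h | h | h | h
      · exact Or.inl (by linarith only [h])
      · exact Or.inr (Or.inl (by linarith only [h]))
      · exact Or.inr (Or.inr (Or.inl (by linarith only [h])))
      · exact Or.inr (Or.inr (Or.inr (by linarith only [h])))
    · rcases p34 with h | h | h | h
      · exact Or.inl (by linarith only [h])
      · exact Or.inr (Or.inl (by linarith only [h]))
      · exact Or.inr (Or.inr (Or.inl (by linarith only [h])))
      · exact Or.inr (Or.inr (Or.inr (by linarith only [h])))
    · rcases q04 with h | h | h | h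
      · exact Or.inl (by linarith only [h])
      · exact Or.inr (Or.inl (by linarith only [h]))
      · exact Or.inr (Or.inr (Or.inl (by linarith only [h])))
      · exact Or.inr (Or.inr (Or.inr (by linarith only [h])))
    · rcases q14 with h | h | h | h
      · exact Or.inl (by linarith only [h])
      · exact Or.inr (Or.inl (by linarith only [h]))
      · exact Or.inr (Or.inr (Or.inl (by linarith only [h])))
      · exact Or.inr (Or.inr (Or.inr (by linarith only [h])))
    · rcases q24 with h | h | h | h
      · exact Or.inl (by linarith only [h])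
      · exact Or.inr (Or.inl (by linarith only [h]))
      · exact Or.inr (Or.inr (Or.inl (by linarith only [h])))
      · exact Or.inr (Or.inr (Or.inr (by linarith only [h])))
    · rcases q34 with h | h | h | h
      · exact Or.inl (by linarith only [h])
      · exact Or.inr (Or.inl (by linarith only [h]))
      · exact Or.inr (Or.inr (Or.inl (by linarith only [h])))
      · exact Or.inr (Or.inr (Or.inr (by linarith only [h])))
  · exact hp

theorem d1e0_B_f (k t i j i' : ℤ)
    (h0 : 0 ≤ (-3) + k)
    (h1 : 0 ≤ (-1) + t)
    (h2 : 0 ≤ (-1) + k + (-1) * t)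
    (h3 : 0 ≤ (-1) * k + (2) * t)
    (h4 : 0 ≤ (-1) + i)
    (h5 : 0 ≤ (2) * k + (-1) * i)
    (h6 : 0 ≤ (-1) + j)
    (h7 : 0 ≤ (2) * k + (2) * t + (-1) * j)
    (h8 : 0 ≤ (-1) + i')
    (h9 : 0 ≤ (2) * k + (-1) * i')
    (h10 : 0 ≤ (-1) + (-1) * i + i')
    (hp : List.Perm ([dd i j ((2) * k) ((1)), dd i j ((1)) ((2) * k), dd i j ((1)) ((1) + (2) * k), dd i j ((1) + (2) * t) ((2) * k + (2) * t), dd i j ((2) * k) ((2) * k + (2) * t)] : List ℤ)
      [dd i' j ((2) * k) ((1)), dd i' j ((1)) ((2) * k), dd i' j ((1)) ((1) + (2) * k), dd i' j ((1) + (2) * t) ((2) * k + (2) * t), dd i' j ((2) * k) ((2) * k + (2) * t)]) : False := by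
  have hs := hp.sum_eq
  have p0 := dd_facts i j ((2) * k) ((1))
  have q0 := dd_facts i' j ((2) * k) ((1))
  have p1 := dd_facts i j ((1)) ((2) * k)
  have q1 := dd_facts i' j ((1)) ((2) * k)
  have p2 := dd_facts i j ((1)) ((1) + (2) * k)
  have q2 := dd_facts i' j ((1)) ((1) + (2) * k)
  have p3 := dd_facts i j ((1) + (2) * t) ((2) * k + (2) * t)
  have q3 := dd_facts i' j ((1) + (2) * t) ((2) * k + (2) * t)
  have p4 := dd_facts i j ((2) * k) ((2) * k + (2) * t)
  have q4 := dd_facts i' j ((2) * k) ((2) * k + (2) * t)
  generalize dd i j ((2) * k) ((1)) = D0 at hp hs p0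
  generalize dd i' j ((2) * k) ((1)) = E0 at hp hs q0
  generalize dd i j ((1)) ((2) * k) = D1 at hp hs p1
  generalize dd i' j ((1)) ((2) * k) = E1 at hp hs q1
  generalize dd i j ((1)) ((1) + (2) * k) = D2 at hp hs p2
  generalize dd i' j ((1)) ((1) + (2) * k) = E2 at hp hs q2
  generalize dd i j ((1) + (2) * t) ((2) * k + (2) * t) = D3 at hp hs p3
  generalize dd i' j ((1) + (2) * t) ((2) * k + (2) * t) = E3 at hp hs q3
  generalize dd i j ((2) * k) ((2) * k + (2) * t) = D4 at hp hs p4
  generalize dd i' j ((2) * k) ((2) * k + (2) * t) = E4 at hp hs q4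
  simp only [List.sum_cons, List.sum_nil] at hs
  obtain ⟨p00, p01, p02, p03, p04⟩ := p0
  obtain ⟨q00, q01, q02, q03, q04⟩ := q0
  obtain ⟨p10, p11, p12, p13, p14⟩ := p1
  obtain ⟨q10, q11, q12, q13, q14⟩ := q1
  obtain ⟨p20, p21, p22, p23, p24⟩ := p2
  obtain ⟨q20, q21, q22, q23, q24⟩ := q2
  obtain ⟨p30, p31, p32, p33, p34⟩ := p3
  obtain ⟨q30, q31, q32, q33, q34⟩ := q3
  obtain ⟨p40, p41, p42, p43, p44⟩ := p4
  obtain ⟨q40, q41, q42, q43, q44⟩ := q4
  refine mt_false d1e0_B_al d1e0_B_R d1e0_B_t d1e0_B_k d1e0_B_H d1e0_B_h d1e0_B_ac d1e0_B_a d1e0_B_c (vv [1, k, t, i, j, i', D0, D1, D2, D3, D4, E0, E1, E2, E3, E4]) rfl ?_ ?_ ?_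
  · simp only [d1e0_B_R, List.forall_mem_cons, List.not_mem_nil, false_imp_iff, implies_true, and_true,
      lval, vv, List.map_cons, List.map_nil, List.sum_cons, List.sum_nil, List.getD_cons_succ, List.getD_cons_zero]
    refine ⟨?_, ?_, ?_, ?_, ?_, ?_, ?_, ?_, ?_, ?_, ?_, ?_, ?_, ?_, ?_, ?_, ?_, ?_, ?_, ?_, ?_, ?_, ?_, ?_, ?_, ?_, ?_, ?_, ?_, ?_, ?_, ?_, ?_, ?_, ?_, ?_, ?_, ?_, ?_, ?_, ?_, ?_, ?_, ?_, ?_, ?_, ?_, ?_, ?_, ?_, ?_, ?_, ?_⟩
    · linarith only [hs]
    · linarith only [hs]
    · linarith only [q43]
    · linarith only [p43]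
    · linarith only [q42]
    · linarith only [p42]
    · linarith only [q41]
    · linarith only [p41]
    · linarith only [q40]
    · linarith only [p40]
    · linarith only [q33]
    · linarith only [p33]
    · linarith only [q32]
    · linarith only [p32]
    · linarith only [q31]
    · linarith only [p31]
    · linarith only [q30]
    · linarith only [p30]
    · linarith only [q23]
    · linarith only [p23]
    · linarith only [q22]
    · linarith only [p22]
    · linarith only [q21]
    · linarith only [p21]
    · linarith only [q20]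
    · linarith only [p20]
    · linarith only [q13]
    · linarith only [p13]
    · linarith only [q12]
    · linarith only [p12]
    · linarith only [q11]
    · linarith only [p11]
    · linarith only [q10]
    · linarith only [p10]
    · linarith only [q03]
    · linarith only [p03]
    · linarith only [q02]
    · linarith only [p02]
    · linarith only [q01]
    · linarith only [p01]
    · linarith only [q00]
    · linarith only [p00]
    · linarith only [h10]
    · linarith only [h9]
    · linarith only [h8]
    · linarith only [h7]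
    · linarith only [h6]
    · linarith only [h5]
    · linarith only [h4]
    · linarith only [h3]
    · linarith only [h2]
    · linarith only [h1]
    · linarith only [h0]
  · simp only [d1e0_B_al, List.forall_mem_cons, List.not_mem_nil, false_imp_iff, implies_true, and_true,
      lval, vv, List.map_cons, List.map_nil, List.sum_cons, List.sum_nil, List.getD_cons_succ, List.getD_cons_zero]
    refine ⟨?_, ?_, ?_, ?_, ?_, ?_, ?_, ?_, ?_, ?_⟩
    · rcases p04 with h | h | h | h
      · exact Or.inl (by linarith only [h])
      · exact Or.inr (Or.inl (by linarith only [h]))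
      · exact Or.inr (Or.inr (Or.inl (by linarith only [h])))
      · exact Or.inr (Or.inr (Or.inr (by linarith only [h])))
    · rcases p14 with h | h | h | h
      · exact Or.inl (by linarith only [h])
      · exact Or.inr (Or.inl (by linarith only [h]))
      · exact Or.inr (Or.inr (Or.inl (by linarith only [h])))
      · exact Or.inr (Or.inr (Or.inr (by linarith only [h])))
    · rcases p24 with h | h | h | h
      · exact Or.inl (by linarith only [h])
      · exact Or.inr (Or.inl (by linarith only [h]))
      · exact Or.inr (Or.inr (Or.inl (by linarith only [h])))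
      · exact Or.inr (Or.inr (Or.inr (by linarith only [h])))
    · rcases p34 with h | h | h | h
      · exact Or.inl (by linarith only [h])
      · exact Or.inr (Or.inl (by linarith only [h]))
      · exact Or.inr (Or.inr (Or.inl (by linarith only [h])))
      · exact Or.inr (Or.inr (Or.inr (by linarith only [h])))
    · rcases p44 with h | h | h | h
      · exact Or.inl (by linarith only [h])
      · exact Or.inr (Or.inl (by linarith only [h]))
      · exact Or.inr (Or.inr (Or.inl (by linarith only [h])))
      · exact Or.inr (Or.inr (Or.inr (by linarith only [h])))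
    · rcases q04 with h | h | h | h
      · exact Or.inl (by linarith only [h])
      · exact Or.inr (Or.inl (by linarith only [h]))
      · exact Or.inr (Or.inr (Or.inl (by linarith only [h])))
      · exact Or.inr (Or.inr (Or.inr (by linarith only [h])))
    · rcases q14 with h | h | h | h
      · exact Or.inl (by linarith only [h])
      · exact Or.inr (Or.inl (by linarith only [h]))
      · exact Or.inr (Or.inr (Or.inl (by linarith only [h])))
      · exact Or.inr (Or.inr (Or.inr (by linarith only [h])))
    · rcases q24 with h | h | h | h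
      · exact Or.inl (by linarith only [h])
      · exact Or.inr (Or.inl (by linarith only [h]))
      · exact Or.inr (Or.inr (Or.inl (by linarith only [h])))
      · exact Or.inr (Or.inr (Or.inr (by linarith only [h])))
    · rcases q34 with h | h | h | h
      · exact Or.inl (by linarith only [h])
      · exact Or.inr (Or.inl (by linarith only [h]))
      · exact Or.inr (Or.inr (Or.inl (by linarith only [h])))
      · exact Or.inr (Or.inr (Or.inr (by linarith only [h])))
    · rcases q44 with h | h | h | h
      · exact Or.inl (by linarith only [h])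
      · exact Or.inr (Or.inl (by linarith only [h]))
      · exact Or.inr (Or.inr (Or.inl (by linarith only [h])))
      · exact Or.inr (Or.inr (Or.inr (by linarith only [h])))
  · exact hp

theorem d1e0_A_f (k t i j i' j' : ℤ)
    (h0 : 0 ≤ (-3) + k)
    (h1 : 0 ≤ (-1) + t)
    (h2 : 0 ≤ (-1) + k + (-1) * t)
    (h3 : 0 ≤ (-1) * k + (2) * t)
    (h4 : 0 ≤ (-1) + i)
    (h5 : 0 ≤ (2) * k + (-1) * i)
    (h6 : 0 ≤ (-1) + j)
    (h7 : 0 ≤ (2) * k + (2) * t + (-1) * j)
    (h8 : 0 ≤ (-1) + i')
    (h9 : 0 ≤ (2) * k + (-1) * i')
    (h10 : 0 ≤ (-1) + j')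
    (h11 : 0 ≤ (2) * k + (2) * t + (-1) * j')
    (h12 : 0 ≤ (-1) + (-1) * j + j')
    (hp : List.Perm ([dd i j ((2) * k) ((1)), dd i j ((1)) ((2) * k), dd i j ((1)) ((1) + (2) * k), dd i j ((1) + (2) * t) ((2) * k + (2) * t), dd i j ((2) * k) ((2) * k + (2) * t)] : List ℤ)
      [dd i' j' ((2) * k) ((1)), dd i' j' ((1)) ((2) * k), dd i' j' ((1)) ((1) + (2) * k), dd i' j' ((1) + (2) * t) ((2) * k + (2) * t), dd i' j' ((2) * k) ((2) * k + (2) * t)]) : False := by
  have hs := hp.sum_eq
  have p0 := dd_facts i j ((2) * k) ((1))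
  have q0 := dd_facts i' j' ((2) * k) ((1))
  have p1 := dd_facts i j ((1)) ((2) * k)
  have q1 := dd_facts i' j' ((1)) ((2) * k)
  have p2 := dd_facts i j ((1)) ((1) + (2) * k)
  have q2 := dd_facts i' j' ((1)) ((1) + (2) * k)
  have p3 := dd_facts i j ((1) + (2) * t) ((2) * k + (2) * t)
  have q3 := dd_facts i' j' ((1) + (2) * t) ((2) * k + (2) * t)
  have p4 := dd_facts i j ((2) * k) ((2) * k + (2) * t)
  have q4 := dd_facts i' j' ((2) * k) ((2) * k + (2) * t)
  generalize dd i j ((2) * k) ((1)) = D0 at hp hs p0
  generalize dd i' j' ((2) * k) ((1)) = E0 at hp hs q0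
  generalize dd i j ((1)) ((2) * k) = D1 at hp hs p1
  generalize dd i' j' ((1)) ((2) * k) = E1 at hp hs q1
  generalize dd i j ((1)) ((1) + (2) * k) = D2 at hp hs p2
  generalize dd i' j' ((1)) ((1) + (2) * k) = E2 at hp hs q2
  generalize dd i j ((1) + (2) * t) ((2) * k + (2) * t) = D3 at hp hs p3
  generalize dd i' j' ((1) + (2) * t) ((2) * k + (2) * t) = E3 at hp hs q3
  generalize dd i j ((2) * k) ((2) * k + (2) * t) = D4 at hp hs p4
  generalize dd i' j' ((2) * k) ((2) * k + (2) * t) = E4 at hp hs q4
  simp only [List.sum_cons, List.sum_nil] at hs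
  obtain ⟨p00, p01, p02, p03, p04⟩ := p0
  obtain ⟨q00, q01, q02, q03, q04⟩ := q0
  obtain ⟨p10, p11, p12, p13, p14⟩ := p1
  obtain ⟨q10, q11, q12, q13, q14⟩ := q1
  obtain ⟨p20, p21, p22, p23, p24⟩ := p2
  obtain ⟨q20, q21, q22, q23, q24⟩ := q2
  obtain ⟨p30, p31, p32, p33, p34⟩ := p3
  obtain ⟨q30, q31, q32, q33, q34⟩ := q3
  obtain ⟨p40, p41, p42, p43, p44⟩ := p4
  obtain ⟨q40, q41, q42, q43, q44⟩ := q4
  refine mt_false d1e0_A_al d1e0_A_R d1e0_A_t d1e0_A_k d1e0_A_H d1e0_A_h d1e0_A_ac d1e0_A_a d1e0_A_c (vv [1, k, t, i, j, i', j', D0, D1, D2, D3, D4, E0, E1, E2, E3, E4]) rfl ?_ ?_ ?_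
  · simp only [d1e0_A_R, List.forall_mem_cons, List.not_mem_nil, false_imp_iff, implies_true, and_true,
      lval, vv, List.map_cons, List.map_nil, List.sum_cons, List.sum_nil, List.getD_cons_succ, List.getD_cons_zero]
    refine ⟨?_, ?_, ?_, ?_, ?_, ?_, ?_, ?_, ?_, ?_, ?_, ?_, ?_, ?_, ?_, ?_, ?_, ?_, ?_, ?_, ?_, ?_, ?_, ?_, ?_, ?_, ?_, ?_, ?_, ?_, ?_, ?_, ?_, ?_, ?_, ?_, ?_, ?_, ?_, ?_, ?_, ?_, ?_, ?_, ?_, ?_, ?_, ?_, ?_, ?_, ?_, ?_, ?_, ?_, ?_⟩
    · linarith only [hs]
    · linarith only [hs]
    · linarith only [q43]
    · linarith only [p43]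
    · linarith only [q42]
    · linarith only [p42]
    · linarith only [q41]
    · linarith only [p41]
    · linarith only [q40]
    · linarith only [p40]
    · linarith only [q33]
    · linarith only [p33]
    · linarith only [q32]
    · linarith only [p32]
    · linarith only [q31]
    · linarith only [p31]
    · linarith only [q30]
    · linarith only [p30]
    · linarith only [q23]
    · linarith only [p23]
    · linarith only [q22]
    · linarith only [p22]
    · linarith only [q21]
    · linarith only [p21]
    · linarith only [q20]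
    · linarith only [p20]
    · linarith only [q13]
    · linarith only [p13]
    · linarith only [q12]
    · linarith only [p12]
    · linarith only [q11]
    · linarith only [p11]
    · linarith only [q10]
    · linarith only [p10]
    · linarith only [q03]
    · linarith only [p03]
    · linarith only [q02]
    · linarith only [p02]
    · linarith only [q01]
    · linarith only [p01]
    · linarith only [q00]
    · linarith only [p00]
    · linarith only [h12]
    · linarith only [h11]
    · linarith only [h10]
    · linarith only [h9]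
    · linarith only [h8]
    · linarith only [h7]
    · linarith only [h6]
    · linarith only [h5]
    · linarith only [h4]
    · linarith only [h3]
    · linarith only [h2]
    · linarith only [h1]
    · linarith only [h0]
  · simp only [d1e0_A_al, List.forall_mem_cons, List.not_mem_nil, false_imp_iff, implies_true, and_true,
      lval, vv, List.map_cons, List.map_nil, List.sum_cons, List.sum_nil, List.getD_cons_succ, List.getD_cons_zero]
    refine ⟨?_, ?_, ?_, ?_, ?_, ?_, ?_, ?_, ?_, ?_⟩
    · rcases p04 with h | h | h | h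
      · exact Or.inl (by linarith only [h])
      · exact Or.inr (Or.inl (by linarith only [h]))
      · exact Or.inr (Or.inr (Or.inl (by linarith only [h])))
      · exact Or.inr (Or.inr (Or.inr (by linarith only [h])))
    · rcases p14 with h | h | h | h
      · exact Or.inl (by linarith only [h])
      · exact Or.inr (Or.inl (by linarith only [h]))
      · exact Or.inr (Or.inr (Or.inl (by linarith only [h])))
      · exact Or.inr (Or.inr (Or.inr (by linarith only [h])))
    · rcases p24 with h | h | h | h
      · exact Or.inl (by linarith only [h])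
      · exact Or.inr (Or.inl (by linarith only [h]))
      · exact Or.inr (Or.inr (Or.inl (by linarith only [h])))
      · exact Or.inr (Or.inr (Or.inr (by linarith only [h])))
    · rcases p34 with h | h | h | h
      · exact Or.inl (by linarith only [h])
      · exact Or.inr (Or.inl (by linarith only [h]))
      · exact Or.inr (Or.inr (Or.inl (by linarith only [h])))
      · exact Or.inr (Or.inr (Or.inr (by linarith only [h])))
    · rcases p44 with h | h | h | h
      · exact Or.inl (by linarith only [h])
      · exact Or.inr (Or.inl (by linarith only [h]))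
      · exact Or.inr (Or.inr (Or.inl (by linarith only [h])))
      · exact Or.inr (Or.inr (Or.inr (by linarith only [h])))
    · rcases q04 with h | h | h | h
      · exact Or.inl (by linarith only [h])
      · exact Or.inr (Or.inl (by linarith only [h]))
      · exact Or.inr (Or.inr (Or.inl (by linarith only [h])))
      · exact Or.inr (Or.inr (Or.inr (by linarith only [h])))
    · rcases q14 with h | h | h | h
      · exact Or.inl (by linarith only [h])
      · exact Or.inr (Or.inl (by linarith only [h]))
      · exact Or.inr (Or.inr (Or.inl (by linarith only [h])))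
      · exact Or.inr (Or.inr (Or.inr (by linarith only [h])))
    · rcases q24 with h | h | h | h
      · exact Or.inl (by linarith only [h])
      · exact Or.inr (Or.inl (by linarith only [h]))
      · exact Or.inr (Or.inr (Or.inl (by linarith only [h])))
      · exact Or.inr (Or.inr (Or.inr (by linarith only [h])))
    · rcases q34 with h | h | h | h
      · exact Or.inl (by linarith only [h])
      · exact Or.inr (Or.inl (by linarith only [h]))
      · exact Or.inr (Or.inr (Or.inl (by linarith only [h])))
      · exact Or.inr (Or.inr (Or.inr (by linarith only [h])))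
    · rcases q44 with h | h | h | h
      · exact Or.inl (by linarith only [h])
      · exact Or.inr (Or.inl (by linarith only [h]))
      · exact Or.inr (Or.inr (Or.inl (by linarith only [h])))
      · exact Or.inr (Or.inr (Or.inr (by linarith only [h])))
  · exact hp

theorem d1e1_B_f (k t i j i' : ℤ)
    (h0 : 0 ≤ (-3) + k)
    (h1 : 0 ≤ (-1) + t)
    (h2 : 0 ≤ (-1) + k + (-1) * t)
    (h3 : 0 ≤ (-1) + (-1) * k + (2) * t)
    (h4 : 0 ≤ (-1) + i)
    (h5 : 0 ≤ (1) + (2) * k + (-1) * i)
    (h6 : 0 ≤ (-1) + j)
    (h7 : 0 ≤ (2) * k + (2) * t + (-1) * j)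
    (h8 : 0 ≤ (-1) + i')
    (h9 : 0 ≤ (1) + (2) * k + (-1) * i')
    (h10 : 0 ≤ (-1) + (-1) * i + i')
    (hp : List.Perm ([dd i j ((2) * k) ((1)), dd i j ((1)) ((2) * k), dd i j ((1)) ((1) + (2) * k), dd i j ((1) + (2) * t) ((2) * k + (2) * t), dd i j ((2) * k) ((2) * k + (2) * t)] : List ℤ)
      [dd i' j ((2) * k) ((1)), dd i' j ((1)) ((2) * k), dd i' j ((1)) ((1) + (2) * k), dd i' j ((1) + (2) * t) ((2) * k + (2) * t), dd i' j ((2) * k) ((2) * k + (2) * t)]) : False := by
  have hs := hp.sum_eq
  have p0 := dd_facts i j ((2) * k) ((1))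
  have q0 := dd_facts i' j ((2) * k) ((1))
  have p1 := dd_facts i j ((1)) ((2) * k)
  have q1 := dd_facts i' j ((1)) ((2) * k)
  have p2 := dd_facts i j ((1)) ((1) + (2) * k)
  have q2 := dd_facts i' j ((1)) ((1) + (2) * k)
  have p3 := dd_facts i j ((1) + (2) * t) ((2) * k + (2) * t)
  have q3 := dd_facts i' j ((1) + (2) * t) ((2) * k + (2) * t)
  have p4 := dd_facts i j ((2) * k) ((2) * k + (2) * t)
  have q4 := dd_facts i' j ((2) * k) ((2) * k + (2) * t)
  generalize dd i j ((2) * k) ((1)) = D0 at hp hs p0
  generalize dd i' j ((2) * k) ((1)) = E0 at hp hs q0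
  generalize dd i j ((1)) ((2) * k) = D1 at hp hs p1
  generalize dd i' j ((1)) ((2) * k) = E1 at hp hs q1
  generalize dd i j ((1)) ((1) + (2) * k) = D2 at hp hs p2
  generalize dd i' j ((1)) ((1) + (2) * k) = E2 at hp hs q2
  generalize dd i j ((1) + (2) * t) ((2) * k + (2) * t) = D3 at hp hs p3
  generalize dd i' j ((1) + (2) * t) ((2) * k + (2) * t) = E3 at hp hs q3
  generalize dd i j ((2) * k) ((2) * k + (2) * t) = D4 at hp hs p4
  generalize dd i' j ((2) * k) ((2) * k + (2) * t) = E4 at hp hs q4
  simp only [List.sum_cons, List.sum_nil] at hs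
  obtain ⟨p00, p01, p02, p03, p04⟩ := p0
  obtain ⟨q00, q01, q02, q03, q04⟩ := q0
  obtain ⟨p10, p11, p12, p13, p14⟩ := p1
  obtain ⟨q10, q11, q12, q13, q14⟩ := q1
  obtain ⟨p20, p21, p22, p23, p24⟩ := p2
  obtain ⟨q20, q21, q22, q23, q24⟩ := q2
  obtain ⟨p30, p31, p32, p33, p34⟩ := p3
  obtain ⟨q30, q31, q32, q33, q34⟩ := q3
  obtain ⟨p40, p41, p42, p43, p44⟩ := p4
  obtain ⟨q40, q41, q42, q43, q44⟩ := q4
  refine mt_false d1e1_B_al d1e1_B_R d1e1_B_t d1e1_B_k d1e1_B_H d1e1_B_h d1e1_B_ac d1e1_B_a d1e1_B_c (vv [1, k, t, i, j, i', D0, D1, D2, D3, D4, E0, E1, E2, E3, E4]) rfl ?_ ?_ ?_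
  · simp only [d1e1_B_R, List.forall_mem_cons, List.not_mem_nil, false_imp_iff, implies_true, and_true,
      lval, vv, List.map_cons, List.map_nil, List.sum_cons, List.sum_nil, List.getD_cons_succ, List.getD_cons_zero]
    refine ⟨?_, ?_, ?_, ?_, ?_, ?_, ?_, ?_, ?_, ?_, ?_, ?_, ?_, ?_, ?_, ?_, ?_, ?_, ?_, ?_, ?_, ?_, ?_, ?_, ?_, ?_, ?_, ?_, ?_, ?_, ?_, ?_, ?_, ?_, ?_, ?_, ?_, ?_, ?_, ?_, ?_, ?_, ?_, ?_, ?_, ?_, ?_, ?_, ?_, ?_, ?_, ?_, ?_⟩
    · linarith only [hs]
    · linarith only [hs]
    · linarith only [q43]
    · linarith only [p43]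
    · linarith only [q42]
    · linarith only [p42]
    · linarith only [q41]
    · linarith only [p41]
    · linarith only [q40]
    · linarith only [p40]
    · linarith only [q33]
    · linarith only [p33]
    · linarith only [q32]
    · linarith only [p32]
    · linarith only [q31]
    · linarith only [p31]
    · linarith only [q30]
    · linarith only [p30]
    · linarith only [q23]
    · linarith only [p23]
    · linarith only [q22]
    · linarith only [p22]
    · linarith only [q21]
    · linarith only [p21]
    · linarith only [q20]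
    · linarith only [p20]
    · linarith only [q13]
    · linarith only [p13]
    · linarith only [q12]
    · linarith only [p12]
    · linarith only [q11]
    · linarith only [p11]
    · linarith only [q10]
    · linarith only [p10]
    · linarith only [q03]
    · linarith only [p03]
    · linarith only [q02]
    · linarith only [p02]
    · linarith only [q01]
    · linarith only [p01]
    · linarith only [q00]
    · linarith only [p00]
    · linarith only [h10]
    · linarith only [h9]
    · linarith only [h8]
    · linarith only [h7]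
    · linarith only [h6]
    · linarith only [h5]
    · linarith only [h4]
    · linarith only [h3]
    · linarith only [h2]
    · linarith only [h1]
    · linarith only [h0]
  · simp only [d1e1_B_al, List.forall_mem_cons, List.not_mem_nil, false_imp_iff, implies_true, and_true,
      lval, vv, List.map_cons, List.map_nil, List.sum_cons, List.sum_nil, List.getD_cons_succ, List.getD_cons_zero]
    refine ⟨?_, ?_, ?_, ?_, ?_, ?_, ?_, ?_, ?_, ?_⟩
    · rcases p04 with h | h | h | h
      · exact Or.inl (by linarith only [h])
      · exact Or.inr (Or.inl (by linarith only [h]))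
      · exact Or.inr (Or.inr (Or.inl (by linarith only [h])))
      · exact Or.inr (Or.inr (Or.inr (by linarith only [h])))
    · rcases p14 with h | h | h | h
      · exact Or.inl (by linarith only [h])
      · exact Or.inr (Or.inl (by linarith only [h]))
      · exact Or.inr (Or.inr (Or.inl (by linarith only [h])))
      · exact Or.inr (Or.inr (Or.inr (by linarith only [h])))
    · rcases p24 with h | h | h | h
      · exact Or.inl (by linarith only [h])
      · exact Or.inr (Or.inl (by linarith only [h]))
      · exact Or.inr (Or.inr (Or.inl (by linarith only [h])))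
      · exact Or.inr (Or.inr (Or.inr (by linarith only [h])))
    · rcases p34 with h | h | h | h
      · exact Or.inl (by linarith only [h])
      · exact Or.inr (Or.inl (by linarith only [h]))
      · exact Or.inr (Or.inr (Or.inl (by linarith only [h])))
      · exact Or.inr (Or.inr (Or.inr (by linarith only [h])))
    · rcases p44 with h | h | h | h
      · exact Or.inl (by linarith only [h])
      · exact Or.inr (Or.inl (by linarith only [h]))
      · exact Or.inr (Or.inr (Or.inl (by linarith only [h])))
      · exact Or.inr (Or.inr (Or.inr (by linarith only [h])))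
    · rcases q04 with h | h | h | h
      · exact Or.inl (by linarith only [h])
      · exact Or.inr (Or.inl (by linarith only [h]))
      · exact Or.inr (Or.inr (Or.inl (by linarith only [h])))
      · exact Or.inr (Or.inr (Or.inr (by linarith only [h])))
    · rcases q14 with h | h | h | h
      · exact Or.inl (by linarith only [h])
      · exact Or.inr (Or.inl (by linarith only [h]))
      · exact Or.inr (Or.inr (Or.inl (by linarith only [h])))
      · exact Or.inr (Or.inr (Or.inr (by linarith only [h])))
    · rcases q24 with h | h | h | h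
      · exact Or.inl (by linarith only [h])
      · exact Or.inr (Or.inl (by linarith only [h]))
      · exact Or.inr (Or.inr (Or.inl (by linarith only [h])))
      · exact Or.inr (Or.inr (Or.inr (by linarith only [h])))
    · rcases q34 with h | h | h | h
      · exact Or.inl (by linarith only [h])
      · exact Or.inr (Or.inl (by linarith only [h]))
      · exact Or.inr (Or.inr (Or.inl (by linarith only [h])))
      · exact Or.inr (Or.inr (Or.inr (by linarith only [h])))
    · rcases q44 with h | h | h | h
      · exact Or.inl (by linarith only [h])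
      · exact Or.inr (Or.inl (by linarith only [h]))
      · exact Or.inr (Or.inr (Or.inl (by linarith only [h])))
      · exact Or.inr (Or.inr (Or.inr (by linarith only [h])))
  · exact hp

theorem d1e1_A_f (k t i j i' j' : ℤ)
    (h0 : 0 ≤ (-3) + k)
    (h1 : 0 ≤ (-1) + t)
    (h2 : 0 ≤ (-1) + k + (-1) * t)
    (h3 : 0 ≤ (-1) + (-1) * k + (2) * t)
    (h4 : 0 ≤ (-1) + i)
    (h5 : 0 ≤ (1) + (2) * k + (-1) * i)
    (h6 : 0 ≤ (-1) + j)
    (h7 : 0 ≤ (2) * k + (2) * t + (-1) * j)
    (h8 : 0 ≤ (-1) + i')
    (h9 : 0 ≤ (1) + (2) * k + (-1) * i')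
    (h10 : 0 ≤ (-1) + j')
    (h11 : 0 ≤ (2) * k + (2) * t + (-1) * j')
    (h12 : 0 ≤ (-1) + (-1) * j + j')
    (hp : List.Perm ([dd i j ((2) * k) ((1)), dd i j ((1)) ((2) * k), dd i j ((1)) ((1) + (2) * k), dd i j ((1) + (2) * t) ((2) * k + (2) * t), dd i j ((2) * k) ((2) * k + (2) * t)] : List ℤ)
      [dd i' j' ((2) * k) ((1)), dd i' j' ((1)) ((2) * k), dd i' j' ((1)) ((1) + (2) * k), dd i' j' ((1) + (2) * t) ((2) * k + (2) * t), dd i' j' ((2) * k) ((2) * k + (2) * t)]) : False := by
  have hs := hp.sum_eq
  have p0 := dd_facts i j ((2) * k) ((1))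
  have q0 := dd_facts i' j' ((2) * k) ((1))
  have p1 := dd_facts i j ((1)) ((2) * k)
  have q1 := dd_facts i' j' ((1)) ((2) * k)
  have p2 := dd_facts i j ((1)) ((1) + (2) * k)
  have q2 := dd_facts i' j' ((1)) ((1) + (2) * k)
  have p3 := dd_facts i j ((1) + (2) * t) ((2) * k + (2) * t)
  have q3 := dd_facts i' j' ((1) + (2) * t) ((2) * k + (2) * t)
  have p4 := dd_facts i j ((2) * k) ((2) * k + (2) * t)
  have q4 := dd_facts i' j' ((2) * k) ((2) * k + (2) * t)
  generalize dd i j ((2) * k) ((1)) = D0 at hp hs p0
  generalize dd i' j' ((2) * k) ((1)) = E0 at hp hs q0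
  generalize dd i j ((1)) ((2) * k) = D1 at hp hs p1
  generalize dd i' j' ((1)) ((2) * k) = E1 at hp hs q1
  generalize dd i j ((1)) ((1) + (2) * k) = D2 at hp hs p2
  generalize dd i' j' ((1)) ((1) + (2) * k) = E2 at hp hs q2
  generalize dd i j ((1) + (2) * t) ((2) * k + (2) * t) = D3 at hp hs p3
  generalize dd i' j' ((1) + (2) * t) ((2) * k + (2) * t) = E3 at hp hs q3
  generalize dd i j ((2) * k) ((2) * k + (2) * t) = D4 at hp hs p4
  generalize dd i' j' ((2) * k) ((2) * k + (2) * t) = E4 at hp hs q4
  simp only [List.sum_cons, List.sum_nil] at hs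
  obtain ⟨p00, p01, p02, p03, p04⟩ := p0
  obtain ⟨q00, q01, q02, q03, q04⟩ := q0
  obtain ⟨p10, p11, p12, p13, p14⟩ := p1
  obtain ⟨q10, q11, q12, q13, q14⟩ := q1
  obtain ⟨p20, p21, p22, p23, p24⟩ := p2
  obtain ⟨q20, q21, q22, q23, q24⟩ := q2
  obtain ⟨p30, p31, p32, p33, p34⟩ := p3
  obtain ⟨q30, q31, q32, q33, q34⟩ := q3
  obtain ⟨p40, p41, p42, p43, p44⟩ := p4
  obtain ⟨q40, q41, q42, q43, q44⟩ := q4
  refine mt_false d1e1_A_al d1e1_A_R d1e1_A_t d1e1_A_k d1e1_A_H d1e1_A_h d1e1_A_ac d1e1_A_a d1e1_A_c (vv [1, k, t, i, j, i', j', D0, D1, D2, D3, D4, E0, E1, E2, E3, E4]) rfl ?_ ?_ ?_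
  · simp only [d1e1_A_R, List.forall_mem_cons, List.not_mem_nil, false_imp_iff, implies_true, and_true,
      lval, vv, List.map_cons, List.map_nil, List.sum_cons, List.sum_nil, List.getD_cons_succ, List.getD_cons_zero]
    refine ⟨?_, ?_, ?_, ?_, ?_, ?_, ?_, ?_, ?_, ?_, ?_, ?_, ?_, ?_, ?_, ?_, ?_, ?_, ?_, ?_, ?_, ?_, ?_, ?_, ?_, ?_, ?_, ?_, ?_, ?_, ?_, ?_, ?_, ?_, ?_, ?_, ?_, ?_, ?_, ?_, ?_, ?_, ?_, ?_, ?_, ?_, ?_, ?_, ?_, ?_, ?_, ?_, ?_, ?_, ?_⟩
    · linarith only [hs]
    · linarith only [hs]
    · linarith only [q43]
    · linarith only [p43]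
    · linarith only [q42]
    · linarith only [p42]
    · linarith only [q41]
    · linarith only [p41]
    · linarith only [q40]
    · linarith only [p40]
    · linarith only [q33]
    · linarith only [p33]
    · linarith only [q32]
    · linarith only [p32]
    · linarith only [q31]
    · linarith only [p31]
    · linarith only [q30]
    · linarith only [p30]
    · linarith only [q23]
    · linarith only [p23]
    · linarith only [q22]
    · linarith only [p22]
    · linarith only [q21]
    · linarith only [p21]
    · linarith only [q20]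
    · linarith only [p20]
    · linarith only [q13]
    · linarith only [p13]
    · linarith only [q12]
    · linarith only [p12]
    · linarith only [q11]
    · linarith only [p11]
    · linarith only [q10]
    · linarith only [p10]
    · linarith only [q03]
    · linarith only [p03]
    · linarith only [q02]
    · linarith only [p02]
    · linarith only [q01]
    · linarith only [p01]
    · linarith only [q00]
    · linarith only [p00]
    · linarith only [h12]
    · linarith only [h11]
    · linarith only [h10]
    · linarith only [h9]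
    · linarith only [h8]
    · linarith only [h7]
    · linarith only [h6]
    · linarith only [h5]
    · linarith only [h4]
    · linarith only [h3]
    · linarith only [h2]
    · linarith only [h1]
    · linarith only [h0]
  · simp only [d1e1_A_al, List.forall_mem_cons, List.not_mem_nil, false_imp_iff, implies_true, and_true,
      lval, vv, List.map_cons, List.map_nil, List.sum_cons, List.sum_nil, List.getD_cons_succ, List.getD_cons_zero]
    refine ⟨?_, ?_, ?_, ?_, ?_, ?_, ?_, ?_, ?_, ?_⟩
    · rcases p04 with h | h | h | h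
      · exact Or.inl (by linarith only [h])
      · exact Or.inr (Or.inl (by linarith only [h]))
      · exact Or.inr (Or.inr (Or.inl (by linarith only [h])))
      · exact Or.inr (Or.inr (Or.inr (by linarith only [h])))
    · rcases p14 with h | h | h | h
      · exact Or.inl (by linarith only [h])
      · exact Or.inr (Or.inl (by linarith only [h]))
      · exact Or.inr (Or.inr (Or.inl (by linarith only [h])))
      · exact Or.inr (Or.inr (Or.inr (by linarith only [h])))
    · rcases p24 with h | h | h | h
      · exact Or.inl (by linarith only [h])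
      · exact Or.inr (Or.inl (by linarith only [h]))
      · exact Or.inr (Or.inr (Or.inl (by linarith only [h])))
      · exact Or.inr (Or.inr (Or.inr (by linarith only [h])))
    · rcases p34 with h | h | h | h
      · exact Or.inl (by linarith only [h])
      · exact Or.inr (Or.inl (by linarith only [h]))
      · exact Or.inr (Or.inr (Or.inl (by linarith only [h])))
      · exact Or.inr (Or.inr (Or.inr (by linarith only [h])))
    · rcases p44 with h | h | h | h
      · exact Or.inl (by linarith only [h])
      · exact Or.inr (Or.inl (by linarith only [h]))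
      · exact Or.inr (Or.inr (Or.inl (by linarith only [h])))
      · exact Or.inr (Or.inr (Or.inr (by linarith only [h])))
    · rcases q04 with h | h | h | h
      · exact Or.inl (by linarith only [h])
      · exact Or.inr (Or.inl (by linarith only [h]))
      · exact Or.inr (Or.inr (Or.inl (by linarith only [h])))
      · exact Or.inr (Or.inr (Or.inr (by linarith only [h])))
    · rcases q14 with h | h | h | h
      · exact Or.inl (by linarith only [h])
      · exact Or.inr (Or.inl (by linarith only [h]))
      · exact Or.inr (Or.inr (Or.inl (by linarith only [h])))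
      · exact Or.inr (Or.inr (Or.inr (by linarith only [h])))
    · rcases q24 with h | h | h | h
      · exact Or.inl (by linarith only [h])
      · exact Or.inr (Or.inl (by linarith only [h]))
      · exact Or.inr (Or.inr (Or.inl (by linarith only [h])))
      · exact Or.inr (Or.inr (Or.inr (by linarith only [h])))
    · rcases q34 with h | h | h | h
      · exact Or.inl (by linarith only [h])
      · exact Or.inr (Or.inl (by linarith only [h]))
      · exact Or.inr (Or.inr (Or.inl (by linarith only [h])))
      · exact Or.inr (Or.inr (Or.inr (by linarith only [h])))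
    · rcases q44 with h | h | h | h
      · exact Or.inl (by linarith only [h])
      · exact Or.inr (Or.inl (by linarith only [h]))
      · exact Or.inr (Or.inr (Or.inl (by linarith only [h])))
      · exact Or.inr (Or.inr (Or.inr (by linarith only [h])))
  · exact hp

end Mdim86
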