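import Pool.Agent.LibMdim86.Cfg
import Pool.Agent.LibMdim86.MFamA
import Pool.Agent.LibMdim86.MFamB
import Pool.Agent.LibMdim86.MFamC
import Pool.Agent.LibMdim86.MFamD

/-!
# Families with four or five points
-/

namespace Mdim86

/-- a resolving set from an explicit list -/
theorem res_of_list {n m : ℤ} (l : List (ℤ × ℤ)) (hnd : l.Nodup) (hsub : ∀ w ∈ l, InG n m w)
    (hA : ∀ i j i' j', 1 ≤ i → i ≤ n → 1 ≤ j → j ≤ m → 1 ≤ i' → i' ≤ n → 1 ≤ j' → j' ≤ m → j < j' →
      (l.map fun w => dd i j w.1 w.2).Perm (l.map fun w => dd i' j' w.1 w.2) → False)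
    (hB : ∀ i j i', 1 ≤ i → i ≤ n → 1 ≤ j → j ≤ m → 1 ≤ i' → i' ≤ n → i < i' →
      (l.map fun w => dd i j w.1 w.2).Perm (l.map fun w => dd i' j w.1 w.2) → False) :
    ∃ W, Res n m W ∧ W.card = l.length := by
  classical
  refine ⟨l.toFinset, ⟨fun w hw => hsub w (List.mem_toFinset.1 hw), ?_⟩, List.toFinset_card_of_nodup hnd⟩
  rintro ⟨i, j⟩ ⟨i', j'⟩ ⟨h1, h2, h3, h4⟩ ⟨h5, h6, h7, h8⟩ he
  have hv : l.toFinset.val = (l : Multiset (ℤ × ℤ)) := by
    rw [List.toFinset_val, List.dedup_eq_self.2 hnd]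
  unfold rep at he
  rw [hv, Multiset.map_coe, Multiset.map_coe, Multiset.coe_eq_coe] at he
  simp only at he h1 h2 h3 h4 h5 h6 h7 h8
  rcases lt_trichotomy j j' with h | h | h
  · exact (hA i j i' j' h1 h2 h3 h4 h5 h6 h7 h8 h he).elim
  · subst h
    rcases lt_trichotomy i i' with h | h | h
    · exact (hB i j i' h1 h2 h3 h4 h5 h6 h he).elim
    · rw [h]
    · exact (hB i' j i h5 h6 h3 h4 h1 h2 h he.symm).elim
  · exact (hA i' j' i j h5 h6 h7 h8 h1 h2 h3 h4 h he.symm).elim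

theorem up_a {k t : ℤ}
    (h0 : 0 ≤ (-2) + k)
    (h1 : 0 ≤ (-1) + (-2) * k + t)
    (h2 : 0 ≤ (3) * k + (-1) * t) :
    ∃ W, Res (2 * k + 1) (t) W ∧ W.card = 4 := by
  refine res_of_list [((1), (1)), ((1), (2) * k), ((1), (1) + (2) * k), ((1) + (2) * k, (1) + (2) * k)] ?_ ?_ ?_ ?_
  · simp only [List.nodup_cons, List.mem_cons, Prod.mk.injEq, List.not_mem_nil, or_false, not_false_eq_true,
      List.nodup_nil, and_true, not_or]
    refine ⟨⟨?_, ?_, ?_⟩, ⟨?_, ?_⟩, ?_⟩ <;> omega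
  · intro w hw
    simp only [List.mem_cons, List.not_mem_nil, or_false] at hw
    rcases hw with rfl | rfl | rfl | rfl <;> refine ⟨?_, ?_, ?_, ?_⟩ <;> simp only <;> omega
  · intro i j i' j' g1 g2 g3 g4 g5 g6 g7 g8 g9 hp
    exact a_A_f k t i j i' j' (by omega) (by omega) (by omega) (by omega) (by omega) (by omega) (by omega) (by omega) (by omega) (by omega) (by omega) (by omega) hp
  · intro i j i' g1 g2 g3 g4 g5 g6 g9 hp
    exact a_B_f k t i j i' (by omega) (by omega) (by omega) (by omega) (by omega) (by omega) (by omega) (by omega) (by omega) (by omega) hp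

theorem up_b {k t : ℤ}
    (h0 : 0 ≤ (-3) + k)
    (h1 : 0 ≤ (-1) + (-2) * k + t)
    (h2 : 0 ≤ (-1) + (3) * k + (-1) * t) :
    ∃ W, Res (2 * k) (t) W ∧ W.card = 4 := by
  refine res_of_list [((1), (1)), ((2) * k, (2) * k), ((2), (1) + (2) * k), ((3), (1) + (2) * k)] ?_ ?_ ?_ ?_
  · simp only [List.nodup_cons, List.mem_cons, Prod.mk.injEq, List.not_mem_nil, or_false, not_false_eq_true,
      List.nodup_nil, and_true, not_or]
    refine ⟨⟨?_, ?_, ?_⟩, ⟨?_, ?_⟩, ?_⟩ <;> omega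
  · intro w hw
    simp only [List.mem_cons, List.not_mem_nil, or_false] at hw
    rcases hw with rfl | rfl | rfl | rfl <;> refine ⟨?_, ?_, ?_, ?_⟩ <;> simp only <;> omega
  · intro i j i' j' g1 g2 g3 g4 g5 g6 g7 g8 g9 hp
    exact b_A_f k t i j i' j' (by omega) (by omega) (by omega) (by omega) (by omega) (by omega) (by omega) (by omega) (by omega) (by omega) (by omega) (by omega) hp
  · intro i j i' g1 g2 g3 g4 g5 g6 g9 hp
    exact b_B_f k t i j i' (by omega) (by omega) (by omega) (by omega) (by omega) (by omega) (by omega) (by omega) (by omega) (by omega) hp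

theorem up_c {k : ℤ}
    (h0 : 0 ≤ (-3) + k) :
    ∃ W, Res (2 * k) (2 * k) W ∧ W.card = 4 := by
  refine res_of_list [((1), (1)), ((-1) + (2) * k, (1)), ((-1) + (2) * k, (2)), ((2) * k, (2) * k)] ?_ ?_ ?_ ?_
  · simp only [List.nodup_cons, List.mem_cons, Prod.mk.injEq, List.not_mem_nil, or_false, not_false_eq_true,
      List.nodup_nil, and_true, not_or]
    refine ⟨⟨?_, ?_, ?_⟩, ⟨?_, ?_⟩, ?_⟩ <;> omega
  · intro w hw
    simp only [List.mem_cons, List.not_mem_nil, or_false] at hw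
    rcases hw with rfl | rfl | rfl | rfl <;> refine ⟨?_, ?_, ?_, ?_⟩ <;> simp only <;> omega
  · intro i j i' j' g1 g2 g3 g4 g5 g6 g7 g8 g9 hp
    exact c_A_f k i j i' j' (by omega) (by omega) (by omega) (by omega) (by omega) (by omega) (by omega) (by omega) (by omega) (by omega) hp
  · intro i j i' g1 g2 g3 g4 g5 g6 g9 hp
    exact c_B_f k i j i' (by omega) (by omega) (by omega) (by omega) (by omega) (by omega) (by omega) (by omega) hp

theorem up_d1e0 {k t : ℤ}
    (h0 : 0 ≤ (-3) + k)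
    (h1 : 0 ≤ (-1) + t)
    (h2 : 0 ≤ (-1) + k + (-1) * t)
    (h3 : 0 ≤ (-1) * k + (2) * t) :
    ∃ W, Res (2 * k) (2 * k + 2 * t) W ∧ W.card = 5 := by
  refine res_of_list [((2) * k, (1)), ((1), (2) * k), ((1), (1) + (2) * k), ((1) + (2) * t, (2) * k + (2) * t), ((2) * k, (2) * k + (2) * t)] ?_ ?_ ?_ ?_
  · simp only [List.nodup_cons, List.mem_cons, Prod.mk.injEq, List.not_mem_nil, or_false, not_false_eq_true,
      List.nodup_nil, and_true, not_or]
    refine ⟨⟨?_, ?_, ?_, ?_⟩, ⟨?_, ?_, ?_⟩, ⟨?_, ?_⟩, ?_⟩ <;> omega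
  · intro w hw
    simp only [List.mem_cons, List.not_mem_nil, or_false] at hw
    rcases hw with rfl | rfl | rfl | rfl | rfl <;> refine ⟨?_, ?_, ?_, ?_⟩ <;> simp only <;> omega
  · intro i j i' j' g1 g2 g3 g4 g5 g6 g7 g8 g9 hp
    exact d1e0_A_f k t i j i' j' (by omega) (by omega) (by omega) (by omega) (by omega) (by omega) (by omega) (by omega) (by omega) (by omega) (by omega) (by omega) (by omega) hp
  · intro i j i' g1 g2 g3 g4 g5 g6 g9 hp
    exact d1e0_B_f k t i j i' (by omega) (by omega) (by omega) (by omega) (by omega) (by omega) (by omega) (by omega) (by omega) (by omega) (by omega) hp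

theorem up_d1e1 {k t : ℤ}
    (h0 : 0 ≤ (-3) + k)
    (h1 : 0 ≤ (-1) + t)
    (h2 : 0 ≤ (-1) + k + (-1) * t)
    (h3 : 0 ≤ (-1) + (-1) * k + (2) * t) :
    ∃ W, Res (2 * k + 1) (2 * k + 2 * t) W ∧ W.card = 5 := by
  refine res_of_list [((2) * k, (1)), ((1), (2) * k), ((1), (1) + (2) * k), ((1) + (2) * t, (2) * k + (2) * t), ((2) * k, (2) * k + (2) * t)] ?_ ?_ ?_ ?_
  · simp only [List.nodup_cons, List.mem_cons, Prod.mk.injEq, List.not_mem_nil, or_false, not_false_eq_true,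
      List.nodup_nil, and_true, not_or]
    refine ⟨⟨?_, ?_, ?_, ?_⟩, ⟨?_, ?_, ?_⟩, ⟨?_, ?_⟩, ?_⟩ <;> omega
  · intro w hw
    simp only [List.mem_cons, List.not_mem_nil, or_false] at hw
    rcases hw with rfl | rfl | rfl | rfl | rfl <;> refine ⟨?_, ?_, ?_, ?_⟩ <;> simp only <;> omega
  · intro i j i' j' g1 g2 g3 g4 g5 g6 g7 g8 g9 hp
    exact d1e1_A_f k t i j i' j' (by omega) (by omega) (by omega) (by omega) (by omega) (by omega) (by omega) (by omega) (by omega) (by omega) (by omega) (by omega) (by omega) hp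
  · intro i j i' g1 g2 g3 g4 g5 g6 g9 hp
    exact d1e1_B_f k t i j i' (by omega) (by omega) (by omega) (by omega) (by omega) (by omega) (by omega) (by omega) (by omega) (by omega) (by omega) hp

theorem up_d2 {k t : ℤ}
    (h0 : 0 ≤ (-3) + k)
    (h1 : 0 ≤ t)
    (h2 : 0 ≤ (-1) + k + (-1) * t)
    (h3 : 0 ≤ (1) + (-1) * k + (2) * t) :
    ∃ W, Res (2 * k) (2 * k + 2 * t + 1) W ∧ W.card = 5 := by
  refine res_of_list [((1), (1)), ((2) * k, (2) * k), ((-1) + (2) * k + (-2) * t, (1) + (2) * k + (2) * t), ((2), (2)), ((3), (3))] ?_ ?_ ?_ ?_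
  · simp only [List.nodup_cons, List.mem_cons, Prod.mk.injEq, List.not_mem_nil, or_false, not_false_eq_true,
      List.nodup_nil, and_true, not_or]
    refine ⟨⟨?_, ?_, ?_, ?_⟩, ⟨?_, ?_, ?_⟩, ⟨?_, ?_⟩, ?_⟩ <;> omega
  · intro w hw
    simp only [List.mem_cons, List.not_mem_nil, or_false] at hw
    rcases hw with rfl | rfl | rfl | rfl | rfl <;> refine ⟨?_, ?_, ?_, ?_⟩ <;> simp only <;> omega
  · intro i j i' j' g1 g2 g3 g4 g5 g6 g7 g8 g9 hp
    exact d2_A_f k t i j i' j' (by omega) (by omega) (by omega) (by omega) (by omega) (by omega) (by omega) (by omega) (by omega) (by omega) (by omega) (by omega) (by omega) hp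
  · intro i j i' g1 g2 g3 g4 g5 g6 g9 hp
    exact d2_B_f k t i j i' (by omega) (by omega) (by omega) (by omega) (by omega) (by omega) (by omega) (by omega) (by omega) (by omega) (by omega) hp

theorem up_d3 {k t : ℤ}
    (h0 : 0 ≤ (-3) + k)
    (h1 : 0 ≤ t)
    (h2 : 0 ≤ (-1) + k + (-1) * t)
    (h3 : 0 ≤ (-1) * k + (2) * t) :
    ∃ W, Res (2 * k + 1) (2 * k + 2 * t + 1) W ∧ W.card = 5 := by
  refine res_of_list [((1), (1)), ((2) * k, (2) * k), ((-1) + (2) * k + (-2) * t, (1) + (2) * k + (2) * t), ((2), (1)), ((-1) + (2) * k, (1))] ?_ ?_ ?_ ?_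
  · simp only [List.nodup_cons, List.mem_cons, Prod.mk.injEq, List.not_mem_nil, or_false, not_false_eq_true,
      List.nodup_nil, and_true, not_or]
    refine ⟨⟨?_, ?_, ?_, ?_⟩, ⟨?_, ?_, ?_⟩, ⟨?_, ?_⟩, ?_⟩ <;> omega
  · intro w hw
    simp only [List.mem_cons, List.not_mem_nil, or_false] at hw
    rcases hw with rfl | rfl | rfl | rfl | rfl <;> refine ⟨?_, ?_, ?_, ?_⟩ <;> simp only <;> omega
  · intro i j i' j' g1 g2 g3 g4 g5 g6 g7 g8 g9 hp
    exact d3_A_f k t i j i' j' (by omega) (by omega) (by omega) (by omega) (by omega) (by omega) (by omega) (by omega) (by omega) (by omega) (by omega) (by omega) (by omega) hp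
  · intro i j i' g1 g2 g3 g4 g5 g6 g9 hp
    exact d3_B_f k t i j i' (by omega) (by omega) (by omega) (by omega) (by omega) (by omega) (by omega) (by omega) (by omega) (by omega) (by omega) hp

theorem up_e1xe0 {k t : ℤ}
    (h0 : 0 ≤ (-3) + k)
    (h1 : 0 ≤ t)
    (h2 : 0 ≤ (-2) + k + (-1) * t) :
    ∃ W, Res (2 * k) (4 * k + 2 * t) W ∧ W.card = 5 := by
  refine res_of_list [((1), (1)), ((2) * k, (2) * k), ((1), (-1) + (4) * k), ((2) + (2) * t, (4) * k + (2) * t), ((2), (3))] ?_ ?_ ?_ ?_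
  · simp only [List.nodup_cons, List.mem_cons, Prod.mk.injEq, List.not_mem_nil, or_false, not_false_eq_true,
      List.nodup_nil, and_true, not_or]
    refine ⟨⟨?_, ?_, ?_, ?_⟩, ⟨?_, ?_, ?_⟩, ⟨?_, ?_⟩, ?_⟩ <;> omega
  · intro w hw
    simp only [List.mem_cons, List.not_mem_nil, or_false] at hw
    rcases hw with rfl | rfl | rfl | rfl | rfl <;> refine ⟨?_, ?_, ?_, ?_⟩ <;> simp only <;> omega
  · intro i j i' j' g1 g2 g3 g4 g5 g6 g7 g8 g9 hp
    exact e1xe0_A_f k t i j i' j' (by omega) (by omega) (by omega) (by omega) (by omega) (by omega) (by omega) (by omega) (by omega) (by omega) (by omega) (by omega) hp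
  · intro i j i' g1 g2 g3 g4 g5 g6 g9 hp
    exact e1xe0_B_f k t i j i' (by omega) (by omega) (by omega) (by omega) (by omega) (by omega) (by omega) (by omega) (by omega) (by omega) hp

theorem up_e1xe1 {k t : ℤ}
    (h0 : 0 ≤ (-3) + k)
    (h1 : 0 ≤ t)
    (h2 : 0 ≤ (-2) + k + (-1) * t) :
    ∃ W, Res (2 * k + 1) (4 * k + 2 * t) W ∧ W.card = 5 := by
  refine res_of_list [((1), (1)), ((2) * k, (2) * k), ((1), (-1) + (4) * k), ((2) + (2) * t, (4) * k + (2) * t), ((2), (3))] ?_ ?_ ?_ ?_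
  · simp only [List.nodup_cons, List.mem_cons, Prod.mk.injEq, List.not_mem_nil, or_false, not_false_eq_true,
      List.nodup_nil, and_true, not_or]
    refine ⟨⟨?_, ?_, ?_, ?_⟩, ⟨?_, ?_, ?_⟩, ⟨?_, ?_⟩, ?_⟩ <;> omega
  · intro w hw
    simp only [List.mem_cons, List.not_mem_nil, or_false] at hw
    rcases hw with rfl | rfl | rfl | rfl | rfl <;> refine ⟨?_, ?_, ?_, ?_⟩ <;> simp only <;> omega
  · intro i j i' j' g1 g2 g3 g4 g5 g6 g7 g8 g9 hp
    exact e1xe1_A_f k t i j i' j' (by omega) (by omega) (by omega) (by omega) (by omega) (by omega) (by omega) (by omega) (by omega) (by omega) (by omega) (by omega) hp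
  · intro i j i' g1 g2 g3 g4 g5 g6 g9 hp
    exact e1xe1_B_f k t i j i' (by omega) (by omega) (by omega) (by omega) (by omega) (by omega) (by omega) (by omega) (by omega) (by omega) hp

theorem up_e2xe0 {k t : ℤ}
    (h0 : 0 ≤ (-2) + k)
    (h1 : 0 ≤ (-1) + t)
    (h2 : 0 ≤ (-1) + k + (-1) * t) :
    ∃ W, Res (2 * k) (4 * k + 2 * t - 1) W ∧ W.card = 5 := by
  refine res_of_list [((2) * t, (1)), ((1) + (2) * t, (2)), ((1), (1) + (2) * t), ((2) * k, (2) * k + (2) * t), ((1), (-1) + (4) * k + (2) * t)] ?_ ?_ ?_ ?_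
  · simp only [List.nodup_cons, List.mem_cons, Prod.mk.injEq, List.not_mem_nil, or_false, not_false_eq_true,
      List.nodup_nil, and_true, not_or]
    refine ⟨⟨?_, ?_, ?_, ?_⟩, ⟨?_, ?_, ?_⟩, ⟨?_, ?_⟩, ?_⟩ <;> omega
  · intro w hw
    simp only [List.mem_cons, List.not_mem_nil, or_false] at hw
    rcases hw with rfl | rfl | rfl | rfl | rfl <;> refine ⟨?_, ?_, ?_, ?_⟩ <;> simp only <;> omega
  · intro i j i' j' g1 g2 g3 g4 g5 g6 g7 g8 g9 hp
    exact e2xe0_A_f k t i j i' j' (by omega) (by omega) (by omega) (by omega) (by omega) (by omega) (by omega) (by omega) (by omega) (by omega) (by omega) (by omega) hp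
  · intro i j i' g1 g2 g3 g4 g5 g6 g9 hp
    exact e2xe0_B_f k t i j i' (by omega) (by omega) (by omega) (by omega) (by omega) (by omega) (by omega) (by omega) (by omega) (by omega) hp

theorem up_e2xe1 {k t : ℤ}
    (h0 : 0 ≤ (-2) + k)
    (h1 : 0 ≤ (-1) + t)
    (h2 : 0 ≤ (-1) + k + (-1) * t) :
    ∃ W, Res (2 * k + 1) (4 * k + 2 * t - 1) W ∧ W.card = 5 := by
  refine res_of_list [((2) * t, (1)), ((1) + (2) * t, (2)), ((1), (1) + (2) * t), ((2) * k, (2) * k + (2) * t), ((1), (-1) + (4) * k + (2) * t)] ?_ ?_ ?_ ?_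
  · simp only [List.nodup_cons, List.mem_cons, Prod.mk.injEq, List.not_mem_nil, or_false, not_false_eq_true,
      List.nodup_nil, and_true, not_or]
    refine ⟨⟨?_, ?_, ?_, ?_⟩, ⟨?_, ?_, ?_⟩, ⟨?_, ?_⟩, ?_⟩ <;> omega
  · intro w hw
    simp only [List.mem_cons, List.not_mem_nil, or_false] at hw
    rcases hw with rfl | rfl | rfl | rfl | rfl <;> refine ⟨?_, ?_, ?_, ?_⟩ <;> simp only <;> omega
  · intro i j i' j' g1 g2 g3 g4 g5 g6 g7 g8 g9 hp
    exact e2xe1_A_f k t i j i' j' (by omega) (by omega) (by omega) (by omega) (by omega) (by omega) (by omega) (by omega) (by omega) (by omega) (by omega) (by omega) hp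
  · intro i j i' g1 g2 g3 g4 g5 g6 g9 hp
    exact e2xe1_B_f k t i j i' (by omega) (by omega) (by omega) (by omega) (by omega) (by omega) (by omega) (by omega) (by omega) (by omega) hp

theorem up_e3xe0 {k : ℤ}
    (h0 : 0 ≤ (-3) + k) :
    ∃ W, Res (2 * k) (6 * k - 2) W ∧ W.card = 5 := by
  refine res_of_list [((1), (1)), ((2), (3)), ((2) * k, (2) * k), ((1), (-1) + (4) * k), ((2) * k, (-2) + (6) * k)] ?_ ?_ ?_ ?_
  · simp only [List.nodup_cons, List.mem_cons, Prod.mk.injEq, List.not_mem_nil, or_false, not_false_eq_true,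
      List.nodup_nil, and_true, not_or]
    refine ⟨⟨?_, ?_, ?_, ?_⟩, ⟨?_, ?_, ?_⟩, ⟨?_, ?_⟩, ?_⟩ <;> omega
  · intro w hw
    simp only [List.mem_cons, List.not_mem_nil, or_false] at hw
    rcases hw with rfl | rfl | rfl | rfl | rfl <;> refine ⟨?_, ?_, ?_, ?_⟩ <;> simp only <;> omega
  · intro i j i' j' g1 g2 g3 g4 g5 g6 g7 g8 g9 hp
    exact e3xe0_A_f k i j i' j' (by omega) (by omega) (by omega) (by omega) (by omega) (by omega) (by omega) (by omega) (by omega) (by omega) hp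
  · intro i j i' g1 g2 g3 g4 g5 g6 g9 hp
    exact e3xe0_B_f k i j i' (by omega) (by omega) (by omega) (by omega) (by omega) (by omega) (by omega) (by omega) hp

theorem up_e3xe1 {k : ℤ}
    (h0 : 0 ≤ (-4) + k) :
    ∃ W, Res (2 * k + 1) (6 * k - 2) W ∧ W.card = 5 := by
  refine res_of_list [((1), (1)), ((2), (3)), ((2) * k, (2) * k), ((1), (-1) + (4) * k), ((2) * k, (-2) + (6) * k)] ?_ ?_ ?_ ?_
  · simp only [List.nodup_cons, List.mem_cons, Prod.mk.injEq, List.not_mem_nil, or_false, not_false_eq_true,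
      List.nodup_nil, and_true, not_or]
    refine ⟨⟨?_, ?_, ?_, ?_⟩, ⟨?_, ?_, ?_⟩, ⟨?_, ?_⟩, ?_⟩ <;> omega
  · intro w hw
    simp only [List.mem_cons, List.not_mem_nil, or_false] at hw
    rcases hw with rfl | rfl | rfl | rfl | rfl <;> refine ⟨?_, ?_, ?_, ?_⟩ <;> simp only <;> omega
  · intro i j i' j' g1 g2 g3 g4 g5 g6 g7 g8 g9 hp
    exact e3xe1_A_f k i j i' j' (by omega) (by omega) (by omega) (by omega) (by omega) (by omega) (by omega) (by omega) (by omega) (by omega) hp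
  · intro i j i' g1 g2 g3 g4 g5 g6 g9 hp
    exact e3xe1_B_f k i j i' (by omega) (by omega) (by omega) (by omega) (by omega) (by omega) (by omega) (by omega) hp

end Mdim86
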