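import Pool.Agent.LibMdim86.Cfg

/-!
# The lower bound for four rows
-/

namespace Mdim86

variable {m : ℤ} {K : ℕ} {a b : ℕ → ℤ}

theorem F4_left (h : Cfg 4 m K a b) (hK : 2 ≤ K) (hm : 1 ≤ m) : b 0 = 1 ∨ b 0 + b 1 ≤ 5 := by
  obtain ⟨u, hu, v, hv, huv⟩ := h.cover (by norm_num) (j := 1) le_rfl hm
  have c1 := h.an u hu
  have c2 := h.a1 v hv
  have c3 := neg_le_abs (1 - b u)
  have c4 := neg_le_abs (1 - b v)
  have c5 := h.b1 0 (by omega)
  have c6 := h.mono 0 u (by omega) hu
  have c7 := h.mono 0 v (by omega) hv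
  rcases lt_trichotomy u v with h1 | h1 | h1
  · have := h.mono 1 v (by omega) hv
    omega
  · subst h1
    omega
  · have := h.mono 1 u (by omega) hu
    omega

theorem F4_gap (h : Cfg 4 m K a b) {l : ℕ} (hl : l + 1 < K) : b (l + 1) ≤ b l + 3 := by
  by_contra hc
  push Not at hc
  obtain ⟨u, hu, v, hv, huv⟩ := h.cover (by norm_num) (j := b l + 2)
    (by have := h.b1 l (by omega); omega) (by have := h.bm (l + 1) hl; omega)
  have key : ∀ w < K, 2 ≤ |b l + 2 - b w| := by
    intro w hw
    rcases le_or_gt w l with h1 | h1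
    · have c1 := h.mono w l h1 (by omega)
      have c2 := le_abs_self (b l + 2 - b w)
      omega
    · have c1 := h.mono (l + 1) w h1 hw
      have c2 := neg_le_abs (b l + 2 - b w)
      omega
  have c1 := key u hu
  have c2 := key v hv
  have c3 := h.an u hu
  have c4 := h.a1 v hv
  omega

theorem F4_slack (h : Cfg 4 m K a b) (k l : ℕ) (hkl : k ≤ l) (hl : l < K) :
    b l - b k ≤ 3 * ((l : ℤ) - k) := by
  induction l with
  | zero =>
    have : k = 0 := by omega
    subst this
    simp
  | succ l ih =>
    rcases Nat.lt_or_ge l k with h1 | h1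
    · have : k = l + 1 := by omega
      subst this
      simp
    · have c1 := ih h1 (by omega)
      have c2 := F4_gap h hl
      push_cast
      omega

theorem F4_row (h : Cfg 4 m K a b) {k w : ℕ} (hk : k < K) (hw : w < K) : |a k - a w| ≤ 3 := by
  have c1 := h.a1 k hk
  have c2 := h.an k hk
  have c3 := h.a1 w hw
  have c4 := h.an w hw
  rw [abs_le]
  omega

theorem F4_left1 (h : Cfg 4 m K a b) (hK : 5 ≤ K) (hm : m = 3 * K - 5) : b 0 = 1 := by
  by_contra h0
  have hb0 := h.b1 0 (by omega)
  have h5 : b 0 + b 1 ≤ 5 := (F4_left h (by omega) (by omega)).resolve_left h0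
  have h01 := h.mono 0 1 (by omega) (by omega)
  have hb0' : b 0 = 2 := by omega
  have hR := F4_left h.flipCol (by omega) (by omega)
  have hbm := h.bm (K - 1) (by omega)
  have e1 : K - 1 - 0 = K - 1 := by omega
  have e2 : K - 1 - 1 = K - 2 := by omega
  simp only [e1, e2] at hR
  have s1 := F4_slack h 2 (K - 1) (by omega) (by omega)
  have s2 := F4_slack h 2 (K - 2) (by omega) (by omega)
  have s3 := F4_slack h (K - 2) (K - 1) (by omega) (by omega)
  have c1 : ((K - 1 : ℕ) : ℤ) = K - 1 := by omega
  have c2 : ((K - 2 : ℕ) : ℤ) = K - 2 := by omega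
  rw [c1] at s1
  rw [c2] at s2
  push_cast at s1 s2
  have hb2 : 4 ≤ b 2 := by
    rcases hR with hR | hR <;> omega
  have hw2 : ∀ w < K, w ≠ 0 → w ≠ 1 → 4 ≤ b w := by
    intro w hw w0 w1
    have := h.mono 2 w (by omega) hw
    omega
  have hb1 : b 1 = 2 ∨ b 1 = 3 := by omega
  rcases hb1 with hb1 | hb1
  · have hne : a 0 ≠ a 1 := by
      have := h.ne 0 1 (by omega) (by omega)
      omega
    refine h.fold (u := 0) (v := 1) (i := a 0) (i' := a 1) (j := 1) (by omega) (by omega)
      (by omega) (h.a1 0 (by omega)) (h.an 0 (by omega)) le_rfl (by omega) (h.a1 1 (by omega))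
      (h.an 1 (by omega)) hne rfl (Or.inl (by rw [hb0', hb1])) ?_
    intro w hw w0 w1
    have d1 := hw2 w hw w0 w1
    have d2 := neg_le_abs (1 - b w)
    have d3 := F4_row h (k := 0) (w := w) (by omega) hw
    have d4 := F4_row h (k := 1) (w := w) (by omega) hw
    constructor <;> omega
  · obtain ⟨u, hu, v, hv, huv⟩ := h.cover (by norm_num) (j := 1) le_rfl (by omega)
    have d1 := h.an u hu
    have d2 := h.a1 v hv
    have d3 := neg_le_abs (1 - b u)
    have d4 := neg_le_abs (1 - b v)
    have d5 := h.mono 0 u (by omega) hu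
    have d6 := h.mono 0 v (by omega) hv
    have d7 : u = 0 ∨ u = 1 := by
      by_contra hc
      have := hw2 u hu (by omega) (by omega)
      omega
    have d8 : v = 0 ∨ v = 1 := by
      by_contra hc
      have := hw2 v hv (by omega) (by omega)
      omega
    have d9 := h.an 0 (by omega)
    have d10 := h.a1 0 (by omega)
    have d11 := h.an 1 (by omega)
    have d12 := h.a1 1 (by omega)
    have hrow : (a 0 = 1 ∧ a 1 = 4) ∨ (a 0 = 4 ∧ a 1 = 1) := by
      rcases d7 with rfl | rfl <;> rcases d8 with rfl | rfl <;> omega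
    refine h.fold (u := 0) (v := 1) (i := 2) (i' := 3) (j := 2) (by omega) (by omega)
      (by omega) (by norm_num) (by norm_num) (by norm_num) (by omega) (by norm_num)
      (by norm_num) (by norm_num) (by omega) (Or.inr ?_) ?_
    · rcases hrow with ⟨r1, r2⟩ | ⟨r1, r2⟩ <;> rw [r1, hb0', hb1] <;> norm_num
    · intro w hw w0 w1
      have f1 := hw2 w hw w0 w1
      have f2 := neg_le_abs (2 - b w)
      have f3 := h.a1 w hw
      have f4 := h.an w hw
      have f5 : |2 - a w| ≤ 2 := by rw [abs_le]; omega
      have f6 : |3 - a w| ≤ 2 := by rw [abs_le]; omega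
      constructor <;> omega

theorem F4_dec : ∀ x ∈ Finset.Icc (1 : ℤ) 4, ∀ y ∈ Finset.Icc (1 : ℤ) 4,
    ∀ z ∈ Finset.Icc (1 : ℤ) 4, ∃ j ∈ Finset.Icc (0 : ℤ) 3, ∃ i ∈ Finset.Icc (1 : ℤ) 4,
    ∃ i' ∈ Finset.Icc (1 : ℤ) 4, i < i' ∧
      ({dd i j x 0, dd i j y 1, dd i j z 3} : Multiset ℤ) =
        {dd i' j x 0, dd i' j y 1, dd i' j z 3} := by
  decide +kernel

theorem F4_split {k : ℕ} (hk : k + 2 < K) (f : ℕ → ℤ) :
    (Multiset.range K).map f = {f k, f (k + 1), f (k + 2)} +
      ((Multiset.range K).filter (fun x => x ≠ k ∧ x ≠ k + 1 ∧ x ≠ k + 2)).map f := by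
  have hr : Multiset.range K = {k, k + 1, k + 2} +
      (Multiset.range K).filter (fun x => x ≠ k ∧ x ≠ k + 1 ∧ x ≠ k + 2) := by
    have h1 := Multiset.filter_add_not (fun x => x ≠ k ∧ x ≠ k + 1 ∧ x ≠ k + 2) (Multiset.range K)
    conv_lhs => rw [← h1, add_comm]
    congr 1
    refine (Multiset.Nodup.ext ((Multiset.nodup_range K).filter _) ?_).2 ?_
    · simp
    · intro x
      simp only [Multiset.mem_filter, Multiset.mem_range, Multiset.insert_eq_cons,
        Multiset.mem_cons, Multiset.mem_singleton]
      omega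
  conv_lhs => rw [hr, Multiset.map_add]
  simp [Multiset.insert_eq_cons]

/-- three points in columns `c, c + 1, c + 3`, the others far away -/
theorem F4_three (h : Cfg 4 m K a b) {k : ℕ} (hk : k + 2 < K) (h1 : b (k + 1) = b k + 1)
    (h2 : b (k + 2) = b k + 3) (hl : ∀ w < k, b w ≤ b k - 3)
    (hr : ∀ w, k + 2 < w → w < K → b k + 6 ≤ b w) : False := by
  have r1 := h.a1 k (by omega)
  have r2 := h.an k (by omega)
  have r3 := h.a1 (k + 1) (by omega)
  have r4 := h.an (k + 1) (by omega)
  have r5 := h.a1 (k + 2) (by omega)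
  have r6 := h.an (k + 2) (by omega)
  obtain ⟨j, hj, i, hi, i', hi', hii, he⟩ := F4_dec (a k) (Finset.mem_Icc.2 ⟨r1, r2⟩) (a (k + 1))
    (Finset.mem_Icc.2 ⟨r3, r4⟩) (a (k + 2)) (Finset.mem_Icc.2 ⟨r5, r6⟩)
  rw [Finset.mem_Icc] at hj hi hi'
  have b1 := h.b1 k (by omega)
  have b2 := h.bm (k + 2) (by omega)
  have t0 : ∀ i x : ℤ, dd i (b k + j) x (b k) = dd i j x 0 := by
    intro i x
    unfold dd
    congr 2
    ring
  have t1 : ∀ i x : ℤ, dd i (b k + j) x (b (k + 1)) = dd i j x 1 := by
    intro i x
    unfold dd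
    rw [h1]
    congr 2
    ring
  have t2 : ∀ i x : ℤ, dd i (b k + j) x (b (k + 2)) = dd i j x 3 := by
    intro i x
    unfold dd
    rw [h2]
    congr 2
    ring
  have hrp : rp K a b i (b k + j) = rp K a b i' (b k + j) := by
    unfold rp
    rw [F4_split hk, F4_split hk (fun k_1 => dd i' (b k + j) (a k_1) (b k_1))]
    congr 1
    · simp only [t0, t1, t2]
      exact he
    · refine Multiset.map_congr rfl fun x hx => ?_
      rw [Multiset.mem_filter, Multiset.mem_range] at hx
      obtain ⟨hxK, x1, x2, x3⟩ := hx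
      have y1 := h.a1 x hxK
      have y2 := h.an x hxK
      have y3 : 3 ≤ |b k + j - b x| := by
        rcases Nat.lt_or_ge x k with hx | hx
        · have := hl x hx
          have := le_abs_self (b k + j - b x)
          omega
        · have := hr x (by omega) hxK
          have := neg_le_abs (b k + j - b x)
          omega
      have y4 : |i - a x| ≤ 3 := by rw [abs_le]; omega
      have y5 : |i' - a x| ≤ 3 := by rw [abs_le]; omega
      unfold dd
      rw [max_eq_right (y4.trans y3), max_eq_right (y5.trans y3)]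
  have := h.inj _ _ _ _ hi.1 hi.2 (by omega) (by omega) hi'.1 hi'.2 (by omega) (by omega) hrp
  omega

theorem lb_four (h : Cfg 4 m K a b) (hK : 5 ≤ K) (hm : m = 3 * K - 5) : False := by
  have hb0 := F4_left1 h hK hm
  have hbm : b (K - 1) = m := by
    have h1 := F4_left1 h.flipCol hK hm
    have e1 : K - 1 - 0 = K - 1 := by omega
    simp only [e1] at h1
    omega
  have hA : ∀ w < K, b w ≤ 1 + 3 * w := by
    intro w hw
    have := F4_slack h 0 w (by omega) hw
    push_cast at this
    omega
  have hB : ∀ w < K, 3 * (w : ℤ) - 2 ≤ b w := by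
    intro w hw
    have := F4_slack h w (K - 1) (by omega) (by omega)
    have c1 : ((K - 1 : ℕ) : ℤ) = K - 1 := by omega
    rw [c1] at this
    omega
  -- no gap `0`
  have h6 : ∀ l, l + 1 < K → b (l + 1) ≠ b l := by
    intro l hl he
    have hne : a l ≠ a (l + 1) := by
      have := h.ne l (l + 1) (by omega) (by omega)
      omega
    refine h.fold (u := l) (v := l + 1) (i := a l) (i' := a (l + 1)) (j := b l) (by omega)
      (by omega) (by omega) (h.a1 l (by omega)) (h.an l (by omega)) (h.b1 l (by omega))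
      (h.bm l (by omega)) (h.a1 (l + 1) (by omega))
      (h.an (l + 1) (by omega)) hne rfl (Or.inl (by rw [he])) ?_
    intro w hw w0 w1
    have d3 := F4_row h (k := l) (w := w) (by omega) hw
    have d4 := F4_row h (k := l + 1) (w := w) (by omega) hw
    have d5 : 3 ≤ |b l - b w| := by
      have e1 := hB (l + 1) hl
      have e2 := hA l (by omega)
      have e3 := hA w hw
      have e4 := hB w hw
      push_cast at e1
      rcases Nat.lt_or_ge w l with h1 | h1
      · have := le_abs_self (b l - b w)
        omega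
      · have := neg_le_abs (b l - b w)
        omega
    constructor <;> omega
  -- some gap is `2`
  have h7 : ∃ l, l + 1 < K ∧ b (l + 1) = b l + 2 := by
    by_contra hc
    push Not at hc
    have hpar : ∀ l < K, ∃ t : ℤ, b l = 1 + l + 2 * t := by
      intro l
      induction l with
      | zero => intro _; exact ⟨0, by rw [hb0]; simp⟩
      | succ l ih =>
        intro hl
        obtain ⟨t, ht⟩ := ih (by omega)
        have e1 := hc l hl
        have e2 := h6 l hl
        have e3 := F4_gap h hl
        have e4 := h.mono l (l + 1) (by omega) hl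
        have e5 : b (l + 1) = b l + 1 ∨ b (l + 1) = b l + 3 := by omega
        rcases e5 with e5 | e5
        · exact ⟨t, by push_cast; omega⟩
        · exact ⟨t + 1, by push_cast; omega⟩
    obtain ⟨t, ht⟩ := hpar (K - 1) (by omega)
    have c1 : ((K - 1 : ℕ) : ℤ) = K - 1 := by omega
    rw [c1] at ht
    omega
  obtain ⟨l, hl, hg⟩ := h7
  -- a neighbour gap is `1`
  have h8 : (∃ k, k + 1 = l ∧ b l = b k + 1) ∨ (l + 2 < K ∧ b (l + 2) = b (l + 1) + 1) := by
    by_contra hc
    push Not at hc
    obtain ⟨hc1, hc2⟩ := hc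
    have hfar : ∀ w < K, w ≠ l → w ≠ l + 1 → 3 ≤ |b l + 1 - b w| := by
      intro w hw w0 w1
      rcases Nat.lt_or_ge w l with h1 | h1
      · obtain ⟨k, rfl⟩ : ∃ k, l = k + 1 := ⟨l - 1, by omega⟩
        have e1 := hc1 k rfl
        have e2 := h6 k (by omega)
        have e3 := h.mono k (k + 1) (by omega) (by omega)
        have e4 := h.mono w k (by omega) (by omega)
        have := le_abs_self (b (k + 1) + 1 - b w)
        omega
      · have e1 := hc2 (by omega)
        have e2 := h6 (l + 1) (by omega)
        have e3 := h.mono (l + 1) (l + 2) (by omega) (by omega)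
        have e4 := h.mono (l + 2) w (by omega) hw
        have := neg_le_abs (b l + 1 - b w)
        have e5 : b (l + 1 + 1) = b (l + 2) := rfl
        omega
    have hbl := h.b1 l (by omega)
    have hbl' := h.bm (l + 1) hl
    obtain ⟨u, hu, v, hv, huv⟩ := h.cover (by norm_num) (j := b l + 1) (by omega) (by omega)
    have hdist : ∀ w < K, 1 ≤ |b l + 1 - b w| := by
      intro w hw
      by_cases w0 : w = l
      · subst w0; have := le_abs_self (b w + 1 - b w); omega
      · by_cases w1 : w = l + 1
        · subst w1; have := neg_le_abs (b l + 1 - b (l + 1)); omega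
        · have := hfar w hw w0 w1; omega
    have d1 := h.an u hu
    have d2 := h.a1 v hv
    have d3 := hdist u hu
    have d4 := hdist v hv
    have hu' : u = l ∨ u = l + 1 := by
      by_contra hcon
      have := hfar u hu (by omega) (by omega)
      omega
    have hv' : v = l ∨ v = l + 1 := by
      by_contra hcon
      have := hfar v hv (by omega) (by omega)
      omega
    have hne : a l ≠ a (l + 1) := by
      rcases hu' with rfl | rfl <;> rcases hv' with rfl | rfl <;> omega
    refine h.fold (u := l) (v := l + 1) (i := a l) (i' := a (l + 1)) (j := b l + 1) (by omega)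
      (by omega) (by omega) (h.a1 l (by omega)) (h.an l (by omega)) (by omega)
      (by omega) (h.a1 (l + 1) (by omega))
      (h.an (l + 1) (by omega)) hne rfl (Or.inl ?_) ?_
    · rw [hg, show b l + 1 - b l = 1 by ring, show b l + 1 - (b l + 2) = -1 by ring]
      norm_num
    intro w hw w0 w1
    have f3 := F4_row h (k := l) (w := w) (by omega) hw
    have f4 := F4_row h (k := l + 1) (w := w) (by omega) hw
    have f5 := hfar w hw w0 w1
    constructor <;> omega
  rcases h8 with ⟨k, rfl, hk⟩ | ⟨hl2, hk⟩
  · refine F4_three h (k := k) (by omega) hk (by rw [show k + 2 = k + 1 + 1 from rfl]; omega) ?_ ?_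
    · intro w hw
      have e1 := hA w (by omega)
      have e2 := hB (k + 1 + 1) hl
      push_cast at e2
      omega
    · intro w hw1 hw2
      have e1 := hA k (by omega)
      have e2 := hB w hw2
      omega
  · refine F4_three h.flipCol (k := K - 1 - (l + 2)) (by omega) ?_ ?_ ?_ ?_
    · have e1 : K - 1 - (K - 1 - (l + 2) + 1) = l + 1 := by omega
      have e2 : K - 1 - (K - 1 - (l + 2)) = l + 2 := by omega
      simp only [e1, e2]
      omega
    · have e1 : K - 1 - (K - 1 - (l + 2) + 2) = l := by omega
      have e2 : K - 1 - (K - 1 - (l + 2)) = l + 2 := by omega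
      simp only [e1, e2]
      omega
    · intro w hw
      have e2 : K - 1 - (K - 1 - (l + 2)) = l + 2 := by omega
      simp only [e2]
      have e3 := hA l (by omega)
      have e4 := hB (K - 1 - w) (by omega)
      have e5 : l + 3 ≤ K - 1 - w := by omega
      omega
    · intro w hw1 hw2
      have e2 : K - 1 - (K - 1 - (l + 2)) = l + 2 := by omega
      simp only [e2]
      have e3 := hB (l + 2) hl2
      have e4 := hA (K - 1 - w) (by omega)
      have e5 : K - 1 - w + 1 ≤ l := by omega
      push_cast at e3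
      omega

end Mdim86
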