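import Pool.Agent.LibMdim86.Cfg

/-!
# General lower bound
-/

namespace Mdim86

variable {n m : ℤ} {K : ℕ} {a b : ℕ → ℤ}

/-- fold in the two most central rows between the rows of `u` and `v` -/
theorem Cfg.foldC (h : Cfg n m K a b) {u v : ℕ} (hu : u < K) (hv : v < K) {j c : ℤ}
    (h3 : 1 ≤ j) (h4 : j ≤ m) (hD : a u ≠ a v) (hc : c = (|a u - a v| - 1) / 2)
    (hM : |j - b u| = |j - b v| ∨ (|j - b u| ≤ c ∧ |j - b v| ≤ c))
    (hw : ∀ w < K, w ≠ u → w ≠ v → n - 1 - c ≤ |j - b w|) : False := by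
  have huv : u ≠ v := by rintro rfl; exact hD rfl
  have u1 := h.a1 u hu
  have u2 := h.an u hu
  have v1 := h.a1 v hv
  have v2 := h.an v hv
  rcases abs_cases (a u - a v) with ⟨e, e'⟩ | ⟨e, e'⟩
  · rw [e] at hc
    refine h.fold hu hv huv (i := a v + c) (i' := a u - c) (j := j) (by omega) (by omega) h3 h4
      (by omega) (by omega) (by omega) (by omega) ?_ ?_
    · rcases hM with hM | ⟨m1, m2⟩
      · exact Or.inl hM
      · right
        have q1 : c ≤ |a v + c - a u| := by rw [abs_of_nonpos (by omega)]; omega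
        have q2 : c ≤ |a u - c - a u| := by rw [abs_of_nonpos (by omega)]; omega
        exact ⟨m2.trans q1, m1.trans q1, m2.trans q2, m1.trans q2⟩
    · intro w hw1 hw2 hw3
      have := hw w hw1 hw2 hw3
      have w1 := h.a1 w hw1
      have w2 := h.an w hw1
      exact ⟨le_trans (abs_le.2 ⟨by omega, by omega⟩) this,
        le_trans (abs_le.2 ⟨by omega, by omega⟩) this⟩
  · rw [e] at hc
    refine h.fold hu hv huv (i := a u + c) (i' := a v - c) (j := j) (by omega) (by omega) h3 h4
      (by omega) (by omega) (by omega) (by omega) ?_ ?_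
    · rcases hM with hM | ⟨m1, m2⟩
      · exact Or.inl hM
      · right
        have q1 : c ≤ |a u + c - a u| := by rw [abs_of_nonneg (by omega)]; omega
        have q2 : c ≤ |a v - c - a u| := by rw [abs_of_nonneg (by omega)]; omega
        exact ⟨m2.trans q1, m1.trans q1, m2.trans q2, m1.trans q2⟩
    · intro w hw1 hw2 hw3
      have := hw w hw1 hw2 hw3
      have w1 := h.a1 w hw1
      have w2 := h.an w hw1
      exact ⟨le_trans (abs_le.2 ⟨by omega, by omega⟩) this,
        le_trans (abs_le.2 ⟨by omega, by omega⟩) this⟩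

/-- cover lemma in a column strictly between two consecutive columns -/
theorem Cfg.gapcov (h : Cfg n m K a b) (hn : 2 ≤ n) {k : ℕ} (hk : k + 1 < K) {j : ℤ}
    (h1 : b k < j) (h2 : j < b (k + 1)) :
    (1 ≤ k ∧ 2 * j ≤ n - 1 + b k + b (k - 1)) ∨ 2 * b (k + 1) - 2 * j ≤ n - 1 ∨
      ∃ u v, u ≤ k ∧ k + 1 ≤ v ∧ v < K ∧ b v - b u ≤ |a u - a v| := by
  have hb1 := h.b1 k (by omega)
  have hbm := h.bm (k + 1) (by omega)
  obtain ⟨u, hu, v, hv, huv⟩ := h.cover hn (j := j) (by omega) (by omega)
  have u1 := h.a1 u hu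
  have u2 := h.an u hu
  have v1 := h.a1 v hv
  have v2 := h.an v hv
  rcases Nat.lt_or_ge k u with ku | ku
  · have e1 := h.mono (k + 1) u (by omega) hu
    rw [abs_of_nonpos (show j - b u ≤ 0 by omega)] at huv
    rcases Nat.lt_or_ge k v with kv | kv
    · have e2 := h.mono (k + 1) v (by omega) hv
      rw [abs_of_nonpos (show j - b v ≤ 0 by omega)] at huv
      right; left; omega
    · have e2 := h.mono v k kv (by omega)
      rw [abs_of_nonneg (show 0 ≤ j - b v by omega)] at huv
      right; right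
      refine ⟨v, u, kv, by omega, hu, ?_⟩
      rw [abs_sub_comm]
      exact le_trans (by omega) (le_abs_self _)
  · have e1 := h.mono u k ku (by omega)
    rw [abs_of_nonneg (show 0 ≤ j - b u by omega)] at huv
    rcases Nat.lt_or_ge k v with kv | kv
    · have e2 := h.mono (k + 1) v (by omega) hv
      rw [abs_of_nonpos (show j - b v ≤ 0 by omega)] at huv
      right; right
      refine ⟨u, v, ku, by omega, hv, ?_⟩
      exact le_trans (by omega) (le_abs_self _)
    · have e2 := h.mono v k kv (by omega)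
      rw [abs_of_nonneg (show 0 ≤ j - b v by omega)] at huv
      left
      have hne : u ≠ v := by rintro rfl; omega
      rcases Nat.lt_or_ge u v with h3 | h3
      · have e3 := h.mono u (k - 1) (by omega) (by omega)
        exact ⟨by omega, by omega⟩
      · have e3 := h.mono v (k - 1) (by omega) (by omega)
        exact ⟨by omega, by omega⟩

/-- a gap of length `n - 1` (`n` odd) -/
theorem Cfg.stepX (h : Cfg n m K a b) (hn : 5 ≤ n) (hodd : n % 2 = 1) {k : ℕ} (hk : k + 1 < K)
    (hb : b (k + 1) = b k + (n - 1)) (hl : ∀ w < k, b w + (n - 2) ≤ b k) :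
    b (k + 2) = b (k + 1) ∧ k + 3 < K ∧ b (k + 3) ≤ b (k + 1) + (n - 1) / 2 := by
  have hb1 := h.b1 k (by omega)
  have hbm := h.bm (k + 1) (by omega)
  obtain ⟨v, hv1, hvK, hbv, hav⟩ : ∃ v, k + 1 ≤ v ∧ v < K ∧ b v = b (k + 1) ∧
      (a k = 1 ∧ a v = n ∨ a k = n ∧ a v = 1) := by
    rcases h.gapcov (by omega) hk (j := b k + 1) (by omega) (by omega) with
      ⟨h1, h2⟩ | h2 | ⟨u, v, hu, hv, hvK, huv⟩
    · have := hl (k - 1) (by omega)
      omega
    · omega
    · have e1 := h.mono (k + 1) v hv hvK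
      have e2 := h.mono u k hu (by omega)
      have u1 := h.a1 u (by omega)
      have u2 := h.an u (by omega)
      have v1 := h.a1 v hvK
      have v2 := h.an v hvK
      have e3 : |a u - a v| ≤ n - 1 := abs_le.2 ⟨by omega, by omega⟩
      have hu2 : u = k := by
        by_contra hc
        have := hl u (by omega)
        omega
      subst hu2
      refine ⟨v, hv, hvK, by omega, ?_⟩
      rcases abs_cases (a u - a v) with ⟨e, e'⟩ | ⟨e, e'⟩ <;> rw [e] at huv <;> omega
  have hak := h.a1 k (by omega)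
  -- a second point of the column `b (k + 1)`
  obtain ⟨w, hw1, hwK, hwv, hbw, haw⟩ : ∃ w, k + 1 ≤ w ∧ w < K ∧ w ≠ v ∧ b w = b (k + 1) ∧
      (a v = 1 ∧ a w = n ∨ a v = n ∧ a w = 1) := by
    by_contra hc
    push Not at hc
    refine h.fold (u := k) (v := v) (by omega) hvK (by omega) (i := (n - 1) / 2)
      (i' := (n - 1) / 2 + 2) (j := b k + (n - 1) / 2) (by omega) (by omega) (by omega) (by omega)
      (by omega) (by omega) (by omega) (by omega) (Or.inl ?_) ?_
    · rw [abs_of_nonneg (by omega), abs_of_nonpos (by omega)]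
      omega
    · intro w hwK hwk hwv
      have w1 := h.a1 w hwK
      have w2 := h.an w hwK
      rcases Nat.lt_or_ge w k with h1 | h1
      · have := hl w h1
        rw [abs_of_nonneg (show 0 ≤ b k + (n - 1) / 2 - b w by omega)]
        exact ⟨abs_le.2 ⟨by omega, by omega⟩, abs_le.2 ⟨by omega, by omega⟩⟩
      · have e1 := h.mono (k + 1) w (by omega) hwK
        rw [abs_of_nonpos (show b k + (n - 1) / 2 - b w ≤ 0 by omega)]
        by_cases h2 : b w = b (k + 1)
        · have h3 := hc w (by omega) hwK hwv h2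
          have h4 := h.ne w v
          have h5 := h.ne v w
          have h6 : a w ≠ a v := by
            rcases Nat.lt_or_ge w v with h7 | h7
            · have := h4 h7 hvK
              omega
            · have := h5 (by omega) hwK
              omega
          have h7 : a w ≠ 1 ∧ a w ≠ n := by
            rcases hav with ⟨q1, q2⟩ | ⟨q1, q2⟩
            · exact ⟨fun h8 => h3.2 q2 h8, fun h8 => h6 (by omega)⟩
            · exact ⟨fun h8 => h6 (by omega), fun h8 => h3.1 q2 h8⟩
          exact ⟨abs_le.2 ⟨by omega, by omega⟩, abs_le.2 ⟨by omega, by omega⟩⟩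
        · exact ⟨abs_le.2 ⟨by omega, by omega⟩, abs_le.2 ⟨by omega, by omega⟩⟩
  -- a third point near that column
  obtain ⟨x, hx1, hxK, hxv, hxw, hbx⟩ : ∃ x, k + 1 ≤ x ∧ x < K ∧ x ≠ v ∧ x ≠ w ∧
      b x ≤ b (k + 1) + (n - 1) / 2 := by
    by_contra hc
    push Not at hc
    have hDv : |a v - a w| = n - 1 := by
      rcases haw with ⟨q1, q2⟩ | ⟨q1, q2⟩
      · rw [q1, q2, abs_of_nonpos (by omega)]; omega
      · rw [q1, q2, abs_of_nonneg (by omega)]
    refine h.foldC (u := v) (v := w) hvK hwK (j := b (k + 1)) (c := (n - 1) / 2 - 1) (by omega)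
      (by omega) (by omega) (by rw [hDv]; omega) (Or.inl ?_) ?_
    · rw [hbv, hbw]
    · intro y hyK hyv hyw
      rcases Nat.lt_or_ge y (k + 1) with h1 | h1
      · have := h.mono y k (by omega) (by omega)
        rw [abs_of_nonneg (by omega)]
        omega
      · have h2 := hc y h1 hyK hyv hyw
        rw [abs_of_nonpos (by omega)]
        omega
  refine ⟨?_, by omega, ?_⟩
  · have e1 := h.mono (k + 1) (k + 2) (by omega) (by omega)
    rcases Nat.lt_or_ge v w with h1 | h1
    · have := h.mono (k + 2) w (by omega) hwK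
      omega
    · have := h.mono (k + 2) v (by omega) hvK
      omega
  · have hmax : k + 3 ≤ v ∨ k + 3 ≤ w ∨ k + 3 ≤ x := by omega
    rcases hmax with h1 | h1 | h1
    · have := h.mono (k + 3) v (by omega) hvK
      omega
    · have := h.mono (k + 3) w (by omega) hwK
      omega
    · have := h.mono (k + 3) x (by omega) hxK
      omega

/-- the standard bounds for the `k`-th column -/
def HH (S : ℤ) (b : ℕ → ℤ) (k : ℕ) : Prop :=
  b k ≤ 1 + k * S ∧ b (k - 1) + b k ≤ 2 + (2 * k - 1) * S

/-- the first exceptional situation -/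
def XX (n S : ℤ) (K : ℕ) (b : ℕ → ℤ) (k : ℕ) : Prop :=
  n = S + 2 ∧ b (k - 1) = 1 + (k - 1) * S ∧ b k = 2 + k * S ∧ b (k + 1) = 2 + k * S ∧ k + 2 < K ∧
    b (k + 2) ≤ 2 + k * S + (n - 1) / 2

/-- the second exceptional situation -/
def EE (n S : ℤ) (K : ℕ) (b : ℕ → ℤ) : Prop :=
  n = S + 2 ∧ 2 ≤ b 0 ∧ b 0 + b 1 = n + 1 ∧ 2 < K ∧ b 2 ≤ n

/-- cover in column 1 when it is empty -/
theorem Cfg.cov1 (h : Cfg n m K a b) (hn : 2 ≤ n) (hm : 1 ≤ m) (hb : 2 ≤ b 0) :
    ∃ u v, u < K ∧ v < K ∧ u ≠ v ∧ b u + b v - 2 ≤ a u - a v ∧ 2 ≤ b u ∧ 2 ≤ b v := by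
  obtain ⟨u, hu, v, hv, huv⟩ := h.cover hn (j := 1) le_rfl hm
  have e1 := h.mono 0 u (by omega) hu
  have e2 := h.mono 0 v (by omega) hv
  rw [abs_of_nonpos (by omega), abs_of_nonpos (by omega)] at huv
  exact ⟨u, v, hu, hv, by rintro rfl; omega, by omega, by omega, by omega⟩

theorem Cfg.base (h : Cfg n m K a b) (hn : 4 ≤ n) (hm : 1 ≤ m) {S : ℤ}
    (hS : S = n - 1 ∨ S = n - 2) (hS2 : S % 2 = 1) (hS3 : 3 ≤ S) (hK : 1 < K) :
    HH S b 1 ∨ XX n S K b 1 ∨ EE n S K b := by
  have h0 := h.b1 0 (by omega)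
  have h01 := h.mono 0 1 (by omega) hK
  unfold HH XX EE
  simp only [Nat.cast_one, Nat.sub_self, one_mul, sub_self, zero_mul, add_zero, mul_one]
  rcases eq_or_ne (b 0) 1 with hb0 | hb0
  · rcases lt_or_ge (1 + S) (b 1) with h1 | h1
    · rcases h.gapcov (by omega) (k := 0) hK (j := 2) (by omega) (by show (2 : ℤ) < b 1; omega) with
        ⟨h2, _⟩ | h2 | ⟨u, v, hu, hv, hvK, huv⟩
      · omega
      · simp only [zero_add] at h2
        omega
      · have hu0 : u = 0 := by omega
        subst hu0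
        have e1 := h.mono 1 v (by omega) hvK
        have u1 := h.a1 0 (by omega)
        have u2 := h.an 0 (by omega)
        have v1 := h.a1 v hvK
        have v2 := h.an v hvK
        have e3 : |a 0 - a v| ≤ n - 1 := abs_le.2 ⟨by omega, by omega⟩
        have hSn : S = n - 2 := by omega
        have hx := h.stepX (k := 0) (by omega) (by omega) hK (by simp only [zero_add]; omega)
          (fun w hw => by omega)
        simp only [zero_add] at hx
        simp only [Nat.reduceAdd]
        obtain ⟨x1, x2, x3⟩ := hx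
        right; left
        refine ⟨by omega, by omega, by omega, by omega, by omega, by omega⟩
    · left
      refine ⟨by omega, by omega⟩
  · obtain ⟨u, v, hu, hv, huv, hc, hu2, hv2⟩ := h.cov1 (by omega) hm (by omega)
    have u1 := h.a1 u hu
    have u2 := h.an u hu
    have v1 := h.a1 v hv
    have v2 := h.an v hv
    have hsum : b 0 + b 1 ≤ b u + b v := by
      rcases Nat.lt_or_ge u v with h1 | h1
      · have e1 := h.mono 0 u (by omega) hu
        have e2 := h.mono 1 v (by omega) hv
        omega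
      · have e1 := h.mono 0 v (by omega) hv
        have e2 := h.mono 1 u (by omega) hu
        omega
    rcases lt_or_ge (S + 2) (b 0 + b 1) with h1 | h1
    · right; right
      have hSn : S = n - 2 := by omega
      have hau : a u = n := by omega
      have hav : a v = 1 := by omega
      obtain ⟨w, hwK, hwu, hwv, hbw⟩ : ∃ w < K, w ≠ u ∧ w ≠ v ∧ b w ≤ n := by
        by_contra hcon
        push Not at hcon
        refine h.foldC (u := u) (v := v) hu hv (j := (n - 1) / 2 + 1) (c := (n - 1) / 2 - 1)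
          (by omega) ?_ (by omega) ?_ (Or.inl ?_) ?_
        · have := h.bm u hu
          have := h.bm v hv
          omega
        · rw [hau, hav, abs_of_nonneg (by omega)]
          omega
        · rcases le_total (b u) (b v) with h2 | h2
          · rw [abs_of_nonneg (by omega), abs_of_nonpos (by omega)]
            omega
          · rw [abs_of_nonpos (by omega), abs_of_nonneg (by omega)]
            omega
        · intro w hwK hwu hwv
          have := hcon w hwK hwu hwv
          rw [abs_of_nonpos (by omega)]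
          omega
      have hmax : 2 ≤ u ∨ 2 ≤ v ∨ 2 ≤ w := by omega
      refine ⟨by omega, by omega, by omega, by omega, ?_⟩
      rcases hmax with h2 | h2 | h2
      · have := h.mono 2 u h2 hu
        omega
      · have := h.mono 2 v h2 hv
        omega
      · have := h.mono 2 w h2 hwK
        omega
    · left
      refine ⟨by omega, by omega⟩

theorem Cfg.main (h : Cfg n m K a b) (hn : 4 ≤ n) (hm : 1 ≤ m) {S : ℤ}
    (hS : S = n - 1 ∨ S = n - 2) (hS2 : S % 2 = 1) (hS3 : 3 ≤ S) :
    ∀ k : ℕ, k + 1 < K → HH S b (k + 1) ∨ XX n S K b (k + 1) ∨ (k = 0 ∧ EE n S K b) := by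
  intro k
  induction k with
  | zero =>
    intro hk
    rcases h.base hn hm hS hS2 hS3 hk with h1 | h1 | h1
    · exact Or.inl h1
    · exact Or.inr (Or.inl h1)
    · exact Or.inr (Or.inr ⟨rfl, h1⟩)
  | succ k ih =>
    intro hk
    have ih := ih (by omega)
    have hmon := h.mono (k + 1) (k + 2) (by omega) (by omega)
    have hmon' := h.mono k (k + 1) (by omega) (by omega)
    unfold HH XX EE at *
    simp only [Nat.add_sub_cancel] at *
    rw [show k + 1 + 1 = k + 2 by rfl] at *
    push_cast at *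
    obtain ⟨T, hT⟩ : ∃ T : ℤ, T = k * S := ⟨_, rfl⟩
    rw [show ((k : ℤ) + 1) * S = T + S by rw [hT]; ring,
      show (2 * ((k : ℤ) + 1) - 1) * S = 2 * T + S by rw [hT]; ring,
      show ((k : ℤ) + 1 - 1) * S = T by rw [hT]; ring] at ih
    rw [show ((k : ℤ) + 2) * S = T + 2 * S by rw [hT]; ring,
      show (2 * ((k : ℤ) + 2) - 1) * S = 2 * T + 3 * S by rw [hT]; ring,
      show ((k : ℤ) + 2 - 1) * S = T + S by rw [hT]; ring]
    rcases ih with ⟨i1, i2⟩ | ⟨i1, i2, i3, i4, i5, i6⟩ | ⟨rfl, i1, i2, i3, i4, i5⟩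
    · rcases lt_or_ge (1 + T + 2 * S) (b (k + 2)) with h1 | h1
      · rcases h.gapcov (by omega) (k := k + 1) hk (j := 2 + T + S) (by omega)
          (by show (2 + T + S : ℤ) < b (k + 2); omega) with
          ⟨_, h2⟩ | h2 | ⟨u, v, hu, hv, hvK, huv⟩
        · simp only [Nat.add_sub_cancel] at h2
          omega
        · rw [show k + 1 + 1 = k + 2 by rfl] at h2
          omega
        · have e1 := h.mono (k + 2) v (by omega) hvK
          have e2 := h.mono u (k + 1) (by omega) (by omega)
          have u1 := h.a1 u (by omega)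
          have u2 := h.an u (by omega)
          have v1 := h.a1 v hvK
          have v2 := h.an v hvK
          have e3 : |a u - a v| ≤ n - 1 := abs_le.2 ⟨by omega, by omega⟩
          have hSn : S = n - 2 := by omega
          have hx := h.stepX (k := k + 1) (by omega) (by omega) hk
            (by show b (k + 2) = _; omega) (fun w hw => by
            have := h.mono w k (by omega) (by omega)
            omega)
          obtain ⟨x1, x2, x3⟩ := hx
          rw [show k + 1 + 2 = k + 2 + 1 by omega, show k + 1 + 1 = k + 2 by omega] at x1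
          rw [show k + 1 + 3 = k + 2 + 2 by omega, show k + 1 + 1 = k + 2 by omega] at x3
          right; left
          refine ⟨by omega, by omega, by omega, by omega, by omega, by omega⟩
      · left
        refine ⟨by omega, by omega⟩
    · left
      refine ⟨by omega, by omega⟩
    · left
      simp only [Nat.cast_zero, zero_mul] at hT
      simp only [zero_add] at *
      refine ⟨by omega, by omega⟩

theorem hS_facts (hn : 4 ≤ n) {S : ℤ} (hS : S = if Even n then n - 1 else n - 2) :
    (S = n - 1 ∨ S = n - 2) ∧ S % 2 = 1 ∧ 3 ≤ S := by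
  rcases Int.even_or_odd n with h | h
  · rw [if_pos h] at hS
    have := Int.even_iff.1 h
    omega
  · rw [if_neg (Int.not_even_iff_odd.2 h)] at hS
    have := Int.odd_iff.1 h
    omega

/-- the general lower bound -/
theorem lb_card {n m : ℤ} {K : ℕ} {a b : ℕ → ℤ} (h : Cfg n m K a b) (hn : 4 ≤ n) (hm : 2 ≤ m) {S : ℤ}
    (hS : S = if Even n then n - 1 else n - 2) : m - 1 ≤ ((K : ℤ) - 1) * S := by
  obtain ⟨s1, s2, s3⟩ := hS_facts hn hS
  have hK : 2 ≤ K := by
    by_contra hK
    obtain ⟨u, hu, v, hv, huv⟩ := h.cover (by omega) (j := 1) le_rfl (by omega)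
    obtain ⟨u', hu', v', hv', huv'⟩ := h.cover (by omega) (j := m) (by omega) le_rfl
    have : u = 0 := by omega
    have : v = 0 := by omega
    have : u' = 0 := by omega
    have : v' = 0 := by omega
    subst_vars
    have := abs_nonneg (1 - b 0)
    have := abs_nonneg (m - b 0)
    have h1 : |1 - b 0| = 0 := by omega
    have h2 : |m - b 0| = 0 := by omega
    rw [abs_eq_zero] at h1 h2
    omega
  obtain ⟨k, rfl⟩ : ∃ k, K = k + 2 := ⟨K - 2, by omega⟩
  have hbm := h.bm (k + 1) (by omega)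
  rcases h.main hn (by omega) s1 s2 s3 k (by omega) with ⟨i1, i2⟩ | ⟨i1, i2, i3, i4, i5, i6⟩ |
    ⟨i0, i1, i2, i3, i4, i5⟩
  · simp only [Nat.add_sub_cancel] at i2
    push_cast at i1 i2 ⊢
    obtain ⟨T, hT⟩ : ∃ T : ℤ, T = k * S := ⟨_, rfl⟩
    rw [show ((k : ℤ) + 1) * S = T + S by rw [hT]; ring] at i1
    rw [show (2 * ((k : ℤ) + 1) - 1) * S = 2 * T + S by rw [hT]; ring] at i2
    rw [show ((k : ℤ) + 2 - 1) * S = T + S by rw [hT]; ring]
    rcases eq_or_ne (b (k + 1)) m with h1 | h1
    · omega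
    · obtain ⟨u, hu, v, hv, huv⟩ := h.cover (by omega) (j := m) (by omega) le_rfl
      have e1 := h.mono u (k + 1) (by omega) (by omega)
      have e2 := h.mono v (k + 1) (by omega) (by omega)
      rw [abs_of_nonneg (by omega), abs_of_nonneg (by omega)] at huv
      have u2 := h.an u hu
      have v1 := h.a1 v hv
      have hne : u ≠ v := by rintro rfl; omega
      rcases Nat.lt_or_ge u v with h3 | h3
      · have e3 := h.mono u k (by omega) (by omega)
        omega
      · have e3 := h.mono v k (by omega) (by omega)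
        omega
  · omega
  · omega

/-- lower bounds for the columns, by reflection -/
theorem Cfg.lowb (h : Cfg n m K a b) (hn : 4 ≤ n) (hm : 1 ≤ m) {S sg : ℤ}
    (hS : S = n - 1 ∨ S = n - 2) (hS2 : S % 2 = 1) (hS3 : 3 ≤ S)
    (hmK : m = 1 + ((K : ℤ) - 1) * S - sg) {l : ℕ} (hl : l + 2 ≤ K) :
    1 + l * S - sg ≤ b l ∨
      (l * S - sg ≤ b l ∧ XX n S K (fun k => m + 1 - b (K - 1 - k)) (K - 1 - l)) := by
  obtain ⟨q, rfl⟩ : ∃ q, K = l + 2 + q := ⟨K - (l + 2), by omega⟩
  have hq := h.flipCol.main hn hm hS hS2 hS3 q (by omega)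
  have e1 : l + 2 + q - 1 - l = q + 1 := by omega
  rw [e1]
  have e2 : l + 2 + q - 1 - (q + 1) = l := by omega
  obtain ⟨T, hT⟩ : ∃ T : ℤ, T = l * S := ⟨_, rfl⟩
  obtain ⟨Q, hQ⟩ : ∃ Q : ℤ, Q = q * S := ⟨_, rfl⟩
  have hm' : m = 1 + T + Q + S - sg := by
    rw [hmK, hT, hQ]; push_cast; ring
  rcases hq with ⟨i1, i2⟩ | hx | ⟨rfl, i1, i2, i3, i4, i5⟩
  · left
    simp only [e2] at i1
    push_cast at i1
    rw [show ((q : ℤ) + 1) * S = Q + S by rw [hQ]; ring] at i1
    omega
  · right
    refine ⟨?_, hx⟩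
    obtain ⟨i1, i2, i3, i4, i5, i6⟩ := hx
    simp only [e2] at i3
    push_cast at i3
    rw [show ((q : ℤ) + 1) * S = Q + S by rw [hQ]; ring] at i3
    omega
  · left
    simp only [add_zero] at i2 i3 e2
    simp only [Nat.cast_zero, zero_mul] at hQ
    rw [show l + 2 - 1 - 0 = l + 1 by omega] at i2 i3
    rw [show l + 2 - 1 - 1 = l by omega] at i3
    omega

/-- the exceptional situation `XX` does not occur -/
theorem Cfg.noX (h : Cfg n m K a b) (hn : 4 ≤ n) (hm : 1 ≤ m) {S sg : ℤ}
    (hS : S = n - 1 ∨ S = n - 2) (hS2 : S % 2 = 1) (hS3 : 3 ≤ S)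
    (hmK : m = 1 + ((K : ℤ) - 1) * S - sg) (hsg : sg ≤ S - 2) {k : ℕ} (hk : 1 ≤ k)
    (hx : XX n S K b k) : False := by
  obtain ⟨x1, x2, x3, x4, x5, x6⟩ := hx
  obtain ⟨T, hT⟩ : ∃ T : ℤ, T = k * S := ⟨_, rfl⟩
  rw [show ((k : ℤ) - 1) * S = T - S by rw [hT]; ring] at x2
  rw [← hT] at x3 x4 x6
  rcases Nat.lt_or_ge (k + 3) K with h1 | h1
  · have hl := h.lowb hn hm hS hS2 hS3 hmK (l := k + 2) (by omega)
    push_cast at hl
    rw [show ((k : ℤ) + 2) * S = T + 2 * S by rw [hT]; ring] at hl
    rcases hl with h2 | ⟨h2, _⟩ <;> omega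
  · obtain rfl : K = k + 3 := by omega
    have hm' : m = 1 + T + 2 * S - sg := by rw [hmK, hT]; push_cast; ring
    have e1 : k + 3 - 1 - 0 = k + 2 := by omega
    have e2 : k + 3 - 1 - (0 + 1) = k + 1 := by omega
    have e3 : k + 3 - 1 - 1 = k + 1 := by omega
    rcases h.flipCol.main hn hm hS hS2 hS3 0 (by omega) with ⟨i1, i2⟩ | ⟨i1, i2, i3, i4, i5, i6⟩ |
      ⟨_, i1, i2, i3, i4, i5⟩
    · simp only [Nat.add_sub_cancel, e1, e2] at i2
      push_cast at i2
      rw [one_mul] at i2
      omega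
    · simp only [Nat.add_sub_cancel, e1] at i2
      push_cast at i2
      rw [zero_mul] at i2
      omega
    · simp only [e1, e3] at i2 i3
      omega

/-- the first column contains a point -/
theorem Cfg.b0 (h : Cfg n m K a b) (hn : 2 ≤ n) (hm : 1 ≤ m) (hK : 2 < K) (hb2 : n + 1 ≤ b 2) :
    b 0 = 1 := by
  by_contra hb
  have h01 := h.b1 0 (by omega)
  have hbm2 := h.bm 2 hK
  obtain ⟨u, v, hu, hv, huv, hc, hu2, hv2⟩ := h.cov1 hn hm (by omega)
  have u1 := h.a1 u hu
  have u2 := h.an u hu
  have v1 := h.a1 v hv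
  have v2 := h.an v hv
  have hu3 : u < 2 := by
    by_contra hcon
    have := h.mono 2 u (by omega) hu
    omega
  have hv3 : v < 2 := by
    by_contra hcon
    have := h.mono 2 v (by omega) hv
    omega
  have hm1 := h.bm u hu
  have hm2 := h.bm v hv
  have hD : |a u - a v| = a u - a v := abs_of_nonneg (by omega)
  refine h.foldC (u := u) (v := v) hu hv (j := (b u + b v + 1) / 2) (c := (a u - a v - 1) / 2)
    (by omega) (by omega) (by omega) (by rw [hD]) (Or.inr ⟨abs_le.2 ⟨by omega, by omega⟩,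
      abs_le.2 ⟨by omega, by omega⟩⟩) ?_
  intro w hwK hwu hwv
  have := h.mono 2 w (by omega) hwK
  rw [abs_of_nonpos (by omega)]
  omega

/-- every gap is odd -/
theorem Cfg.oddgap (h : Cfg n m K a b) (hn : 2 ≤ n) (hgap : ∀ k, k + 2 < K → b k + n ≤ b (k + 2))
    {k : ℕ} (hk : k + 1 < K) : (b (k + 1) - b k) % 2 = 1 := by
  by_contra hodd
  have hmon := h.mono k (k + 1) (by omega) hk
  have hb1 := h.b1 k (by omega)
  have hbm := h.bm (k + 1) hk
  obtain ⟨e, he⟩ : ∃ e, b (k + 1) = b k + 2 * e := ⟨(b (k + 1) - b k) / 2, by omega⟩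
  have hoth : ∀ w < K, w ≠ k → w ≠ k + 1 → n - e ≤ |b k + e - b w| := by
    intro w hwK hwk hwk1
    rcases Nat.lt_or_ge w k with h1 | h1
    · have e1 := h.mono w (k - 1) (by omega) (by omega)
      have e2 := hgap (k - 1) (by omega)
      rw [show k - 1 + 2 = k + 1 by omega] at e2
      exact le_trans (by omega) (le_abs_self _)
    · have e1 := h.mono (k + 2) w (by omega) hwK
      have e2 := hgap k (by omega)
      rw [abs_sub_comm]
      exact le_trans (by omega) (le_abs_self _)
  have k1 := h.a1 k (by omega)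
  have k2 := h.an k (by omega)
  have k3 := h.a1 (k + 1) hk
  have k4 := h.an (k + 1) hk
  have hD : a k ≠ a (k + 1) ∧ 2 * e ≤ |a k - a (k + 1)| := by
    rcases eq_or_ne e 0 with h0 | h0
    · have := h.ne k (k + 1) (by omega) hk
      have h2 : a k ≠ a (k + 1) := by
        rcases this with h3 | h3
        · exact h3
        · omega
      have := abs_nonneg (a k - a (k + 1))
      exact ⟨h2, by omega⟩
    · obtain ⟨u, hu, v, hv, huv⟩ := h.cover hn (j := b k + e) (by omega) (by omega)
      have u1 := h.a1 u hu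
      have u2 := h.an u hu
      have v1 := h.a1 v hv
      have v2 := h.an v hv
      have hall : ∀ w < K, e ≤ |b k + e - b w| := by
        intro w hwK
        rcases Nat.lt_or_ge k w with h1 | h1
        · have e1 := h.mono (k + 1) w (by omega) hwK
          rw [abs_sub_comm]
          exact le_trans (by omega) (le_abs_self _)
        · have e1 := h.mono w k (by omega) (by omega)
          exact le_trans (by omega) (le_abs_self _)
      have hau := hall u hu
      have hav := hall v hv
      have hu3 : u = k ∨ u = k + 1 := by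
        by_contra hcon
        have := hoth u hu (by omega) (by omega)
        omega
      have hv3 : v = k ∨ v = k + 1 := by
        by_contra hcon
        have := hoth v hv (by omega) (by omega)
        omega
      rcases hu3 with rfl | rfl <;> rcases hv3 with rfl | rfl
      · omega
      · exact ⟨by omega, le_trans (by omega) (le_abs_self _)⟩
      · rw [abs_sub_comm]
        exact ⟨by omega, le_trans (by omega) (le_abs_self _)⟩
      · omega
  refine h.foldC (u := k) (v := k + 1) (by omega) hk (j := b k + e) (by omega) (by omega) hD.1 rfl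
    (Or.inl ?_) ?_
  · rw [he, show b k + e - b k = e by ring, show b k + e - (b k + 2 * e) = -e by ring, abs_neg]
  · intro w hwK hwk hwk1
    have := hoth w hwK hwk hwk1
    omega

theorem rp_flip (K : ℕ) (a b : ℕ → ℤ) (m i j : ℤ) :
    rp K (fun k => a (K - 1 - k)) (fun k => m + 1 - b (K - 1 - k)) i j = rp K a b i (m + 1 - j) := by
  unfold rp
  have hr : (Multiset.range K).map (fun k => K - 1 - k) = Multiset.range K := by
    have := List.Perm.trans (List.reverse_perm (List.range K)) (List.Perm.refl _)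
    rw [← Multiset.coe_range, Multiset.map_coe, Multiset.coe_eq_coe]
    refine List.Perm.trans ?_ this
    apply List.Perm.of_eq
    apply List.ext_getElem
    · simp
    · intro k h1 h2
      simp
  conv_rhs => rw [← hr, Multiset.map_map]
  refine Multiset.map_congr rfl fun k _ => ?_
  simp only [Function.comp_apply]
  have := dd_flip' m i (m + 1 - j) (a (K - 1 - k)) (b (K - 1 - k))
  rw [show m + 1 - (m + 1 - j) = j by ring] at this
  exact this

/-- with all gaps equal to `S`, a vertex of the first column with distances `1, S, 2 S, ...` -/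
theorem Cfg.endrow (h : Cfg n m K a b) (hn : 4 ≤ n) (hK : 2 < K) {S : ℤ}
    (hS : S = n - 1 ∨ S = n - 2) (hS3 : 3 ≤ S) (hb : ∀ k < K, b k = 1 + k * S) :
    ∃ i, 1 ≤ i ∧ i ≤ n ∧ rp K a b i 1 = (Multiset.range K).map fun k : ℕ =>
      if k = 0 then (1 : ℤ) else k * S := by
  have b0 : b 0 = 1 := by rw [hb 0 (by omega)]; simp
  have b1 : b 1 = 1 + S := by rw [hb 1 (by omega)]; simp
  have b2 : ∀ w < K, 2 ≤ w → 1 + 2 * S ≤ b w := by
    intro w hw h2
    rw [hb w hw]
    have : (2 : ℤ) ≤ w := by exact_mod_cast h2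
    nlinarith
  have hbm := h.bm 1 (by omega)
  obtain ⟨u, hu, v, hv, huv⟩ := h.cover (by omega) (j := 2) (by omega) (by omega)
  have u1 := h.a1 u hu
  have u2 := h.an u hu
  have v1 := h.a1 v hv
  have v2 := h.an v hv
  have f0 : |2 - b 0| = 1 := by rw [b0]; norm_num
  have f1 : |2 - b 1| = S - 1 := by rw [b1, abs_of_nonpos (by omega)]; omega
  have f2 : ∀ w < K, 2 ≤ w → 2 * S - 1 ≤ |2 - b w| := by
    intro w hw h2
    have := b2 w hw h2
    rw [abs_of_nonpos (by omega)]
    omega
  have f3 : ∀ w < K, 1 ≤ |2 - b w| := by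
    intro w hw
    rcases (show w = 0 ∨ w = 1 ∨ 2 ≤ w by omega) with rfl | rfl | h2
    · omega
    · omega
    · have := f2 w hw h2; omega
  have g1 := f3 u hu
  have g2 := f3 v hv
  have hD : S ≤ |a 0 - a 1| := by
    rcases (show u = 0 ∨ u = 1 ∨ 2 ≤ u by omega) with rfl | rfl | h2
    · rcases (show v = 0 ∨ v = 1 ∨ 2 ≤ v by omega) with rfl | rfl | h3
      · omega
      · exact le_trans (by omega) (le_abs_self _)
      · have := f2 v hv h3; omega
    · rcases (show v = 0 ∨ v = 1 ∨ 2 ≤ v by omega) with rfl | rfl | h3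
      · rw [abs_sub_comm]
        exact le_trans (by omega) (le_abs_self _)
      · omega
      · have := f2 v hv h3; omega
    · have := f2 u hu h2; omega
  have p1 := h.a1 0 (by omega)
  have p2 := h.an 0 (by omega)
  have p3 := h.a1 1 (by omega)
  have p4 := h.an 1 (by omega)
  obtain ⟨i, hi1, hi2, hi0, hiS⟩ : ∃ i, 1 ≤ i ∧ i ≤ n ∧ |i - a 0| = 1 ∧ |i - a 1| ≤ S := by
    rcases abs_cases (a 0 - a 1) with ⟨e, e'⟩ | ⟨e, e'⟩
    · refine ⟨a 0 - 1, by omega, by omega, ?_, abs_le.2 ⟨by omega, by omega⟩⟩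
      rw [show a 0 - 1 - a 0 = -1 by ring]; norm_num
    · refine ⟨a 0 + 1, by omega, by omega, ?_, abs_le.2 ⟨by omega, by omega⟩⟩
      rw [show a 0 + 1 - a 0 = 1 by ring]; norm_num
  refine ⟨i, hi1, hi2, ?_⟩
  unfold rp
  refine Multiset.map_congr rfl fun w hw => ?_
  rw [Multiset.mem_range] at hw
  unfold dd
  have w1 := h.a1 w hw
  have w2 := h.an w hw
  rcases (show w = 0 ∨ w = 1 ∨ 2 ≤ w by omega) with rfl | rfl | h2
  · rw [if_pos rfl, b0, hi0]; simp
  · rw [if_neg one_ne_zero, b1, Nat.cast_one, one_mul,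
      show (1 : ℤ) - (1 + S) = -S by ring, abs_neg, abs_of_nonneg (show 0 ≤ S by omega)]
    exact max_eq_right hiS
  · rw [if_neg (by omega)]
    have e1 := b2 w hw h2
    have e2 := hb w hw
    rw [abs_of_nonpos (show 1 - b w ≤ 0 by omega)]
    rw [max_eq_right]
    · omega
    · exact abs_le.2 ⟨by omega, by omega⟩

theorem lb_struct {n m : ℤ} {K : ℕ} {a b : ℕ → ℤ} (h : Cfg n m K a b) (hn : 4 ≤ n) (hK : 4 ≤ K)
    {S r : ℤ} (hS : S = if Even n then n - 1 else n - 2) (hr1 : 1 ≤ r) (hrS : r ≤ S)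
    (hm : m - 1 = ((K : ℤ) - 2) * S + r) : Odd r ∧ r < S := by
  obtain ⟨s1, s2, s3⟩ := hS_facts hn hS
  rcases eq_or_ne r 1 with hr | hr
  · rw [hr]
    exact ⟨odd_one, by omega⟩
  have hK' : (4 : ℤ) ≤ K := by exact_mod_cast hK
  have hm1 : 1 ≤ m := by nlinarith
  obtain ⟨sg, hsg⟩ : ∃ sg, sg = S - r := ⟨_, rfl⟩
  have hmK : m = 1 + ((K : ℤ) - 1) * S - sg := by rw [hsg]; linarith
  have hsg2 : sg ≤ S - 2 := by omega
  -- lower bounds
  have hlow : ∀ l, l + 2 ≤ K → 1 + l * S - sg ≤ b l := by
    intro l hl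
    rcases h.lowb hn hm1 s1 s2 s3 hmK hl with h1 | ⟨_, h1⟩
    · exact h1
    · exact (h.flipCol.noX hn hm1 s1 s2 s3 hmK hsg2 (by omega) h1).elim
  have hb2 : n + 1 ≤ b 2 := by
    have := hlow 2 (by omega)
    push_cast at this
    omega
  have hb0 : b 0 = 1 := h.b0 (by omega) hm1 (by omega) hb2
  have hup : ∀ l, l < K → b l ≤ 1 + l * S := by
    intro l hl
    rcases Nat.eq_zero_or_pos l with rfl | h0
    · rw [hb0]; simp
    · obtain ⟨k, rfl⟩ : ∃ k, l = k + 1 := ⟨l - 1, by omega⟩
      rcases h.main hn hm1 s1 s2 s3 k hl with h1 | h1 | ⟨_, h1⟩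
      · exact h1.1
      · exact (h.noX hn hm1 s1 s2 s3 hmK hsg2 (by omega) h1).elim
      · have := h1.2.1
        omega
  have hbm : b (K - 1) = m := by
    have h1 := hup (K - 3) (by omega)
    have := h.flipCol.b0 (by omega) hm1 (by omega) (by
      show n + 1 ≤ m + 1 - b (K - 1 - 2)
      rw [show K - 1 - 2 = K - 3 by omega]
      have e1 : ((K - 3 : ℕ) : ℤ) = K - 3 := by omega
      rw [e1] at h1
      have e2 : ((K : ℤ) - 3) * S = (K - 1) * S - 2 * S := by ring
      rw [e2] at h1
      omega)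
    simp only [Nat.sub_zero] at this
    omega
  have hlow' : ∀ l, l < K → 1 + l * S - sg ≤ b l := by
    intro l hl
    rcases Nat.lt_or_ge l (K - 1) with h1 | h1
    · exact hlow l (by omega)
    · obtain rfl : l = K - 1 := by omega
      rw [hbm, hmK]
      have e1 : ((K - 1 : ℕ) : ℤ) = K - 1 := by omega
      rw [e1]
  have hgap : ∀ k, k + 2 < K → b k + n ≤ b (k + 2) := by
    intro k hk
    have h1 := hup k (by omega)
    have h2 := hlow' (k + 2) hk
    push_cast at h2
    rw [show ((k : ℤ) + 2) * S = k * S + 2 * S by ring] at h2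
    omega
  have hpar : ∀ k, k < K → (b k - b 0 - k) % 2 = 0 := by
    intro k
    induction k with
    | zero => intro _; simp
    | succ k ih =>
      intro hk
      have h1 := ih (by omega)
      have h2 := h.oddgap (by omega) hgap (k := k) hk
      push_cast
      omega
  have hodd : r % 2 = 1 := by
    have h1 := hpar (K - 1) (by omega)
    have e1 : ((K - 1 : ℕ) : ℤ) = K - 1 := by omega
    rw [hbm, hb0, e1, hm] at h1
    obtain ⟨s, hs⟩ : ∃ s, S = 2 * s + 1 := ⟨S / 2, by omega⟩
    have e2 : ((K : ℤ) - 2) * S = 2 * ((K - 2) * s) + (K - 2) := by rw [hs]; ring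
    rw [e2] at h1
    omega
  refine ⟨Int.odd_iff.2 hodd, ?_⟩
  by_contra hcon
  have hsg0 : sg = 0 := by omega
  have hb : ∀ k < K, b k = 1 + k * S := by
    intro k hk
    have h1 := hup k hk
    have h2 := hlow' k hk
    omega
  obtain ⟨i, hi1, hi2, hi⟩ := h.endrow hn (by omega) s1 s3 hb
  obtain ⟨i', hi1', hi2', hi'⟩ := h.flipCol.endrow hn (by omega) s1 s3 (by
    intro k hk
    show m + 1 - b (K - 1 - k) = 1 + k * S
    rw [hb (K - 1 - k) (by omega), hmK, hsg0]
    have e1 : ((K - 1 - k : ℕ) : ℤ) = K - 1 - k := by omega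
    rw [e1]
    ring)
  rw [rp_flip, show m + 1 - 1 = m by ring] at hi'
  have := h.inj i 1 i' m hi1 hi2 le_rfl hm1 hi1' hi2' hm1 le_rfl (hi.trans hi'.symm)
  nlinarith

end Mdim86
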