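import Pool.Agent.LibMdim86.Root

/-!
# Match trees: two vertices with the same multiset of distances to given points
-/

namespace Mdim86

/-- match trees -/
inductive MT
  | L (c : ℕ) : MT
  | S (f : ℕ) (t1 t2 : MT) : MT
  | U (f c : ℕ) (t : MT) : MT
  | T (l : ℕ) (t0 t1 t2 t3 : MT) : MT
  | M (l : ℕ) (t0 t1 t2 t3 t4 : MT) : MT
  | W (l : ℕ) (t0 t1 t2 t3 t4 : MT) : MT

/-- `2^(28 N)` -/
def pw (N : ℕ) : ℕ := Nat.pow (nat_lit 2) (Nat.mul (nat_lit 28) N)

/-- the form `v x - v y` -/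
def vsub (x y : ℕ) : ℕ := Nat.sub (Nat.add OO (pw x)) (pw y)

/-- push `v x - v y` and `v y - v x` -/
def peq (HH len x y : ℕ) (k : ℕ → ℕ → Bool) : Bool :=
  psh HH len (vsub y x) (fun HH' len' => psh HH' len' (vsub x y) k)

/-- lookup of alternatives -/
def nth4 (k : ℕ → ℕ → ℕ → ℕ → Bool) (l : List (ℕ × ℕ × ℕ × ℕ)) : ℕ → Bool :=
  List.rec (motive := fun _ => ℕ → Bool) (fun _ => false)
    (fun w _ ih n => Nat.rec (motive := fun _ => Bool) (k w.1 w.2.1 w.2.2.1 w.2.2.2) (fun m _ => ih m) n) l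

/-- the checker: `N` variables; `dv`, `ev` first indices of the distances of the two vertices -/
noncomputable def mchk (N dv ev : ℕ) (alts : List (ℕ × ℕ × ℕ × ℕ)) (t : MT) :
    ℕ → ℕ → List ℕ → List ℕ → Bool :=
  MT.rec (motive := fun _ => ℕ → ℕ → List ℕ → List ℕ → Bool)
    (fun c HH len _ _ => imp HH len (Nat.sub OO (nat_lit 1)) OO c (fun _ => true))
    (fun f _ _ ih1 ih2 HH len ds es => dec N f (fun X =>
      and (psh HH len X (fun HH' len' => ih1 HH' len' ds es))
        (and (Nat.ble (Nat.succ X) (Nat.mul (nat_lit 2) OO))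
          (psh HH len (Nat.sub (Nat.mul (nat_lit 2) OO) (Nat.succ X)) (fun HH' len' => ih2 HH' len' ds es)))))
    (fun f c _ ih HH len ds es => dec N f (fun X =>
      imp HH len X OO c (fun _ => psh HH len X (fun HH' len' => ih HH' len' ds es))))
    (fun l _ _ _ _ ih0 ih1 ih2 ih3 HH len ds es => nth4 (fun X0 X1 X2 X3 =>
      and (psh HH len X0 (fun HH' len' => ih0 HH' len' ds es))
        (and (psh HH len X1 (fun HH' len' => ih1 HH' len' ds es))
          (and (psh HH len X2 (fun HH' len' => ih2 HH' len' ds es))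
            (psh HH len X3 (fun HH' len' => ih3 HH' len' ds es))))) alts l)
    (fun l _ _ _ _ _ ih0 ih1 ih2 ih3 ih4 HH len ds es =>
      and (ds.elem l)
      (and (or (!(es.elem (nat_lit 0))) (peq HH len (Nat.add dv l) ev (fun HH' len' => ih0 HH' len' (ds.erase l) (es.erase (nat_lit 0)))))
      (and (or (!(es.elem (nat_lit 1))) (peq HH len (Nat.add dv l) (Nat.add ev (nat_lit 1)) (fun HH' len' => ih1 HH' len' (ds.erase l) (es.erase (nat_lit 1)))))
      (and (or (!(es.elem (nat_lit 2))) (peq HH len (Nat.add dv l) (Nat.add ev (nat_lit 2)) (fun HH' len' => ih2 HH' len' (ds.erase l) (es.erase (nat_lit 2)))))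
      (and (or (!(es.elem (nat_lit 3))) (peq HH len (Nat.add dv l) (Nat.add ev (nat_lit 3)) (fun HH' len' => ih3 HH' len' (ds.erase l) (es.erase (nat_lit 3)))))
      (or (!(es.elem (nat_lit 4))) (peq HH len (Nat.add dv l) (Nat.add ev (nat_lit 4)) (fun HH' len' => ih4 HH' len' (ds.erase l) (es.erase (nat_lit 4))))))))))
    (fun l _ _ _ _ _ ih0 ih1 ih2 ih3 ih4 HH len ds es =>
      and (es.elem l)
      (and (or (!(ds.elem (nat_lit 0))) (peq HH len dv (Nat.add ev l) (fun HH' len' => ih0 HH' len' (ds.erase (nat_lit 0)) (es.erase l))))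
      (and (or (!(ds.elem (nat_lit 1))) (peq HH len (Nat.add dv (nat_lit 1)) (Nat.add ev l) (fun HH' len' => ih1 HH' len' (ds.erase (nat_lit 1)) (es.erase l))))
      (and (or (!(ds.elem (nat_lit 2))) (peq HH len (Nat.add dv (nat_lit 2)) (Nat.add ev l) (fun HH' len' => ih2 HH' len' (ds.erase (nat_lit 2)) (es.erase l))))
      (and (or (!(ds.elem (nat_lit 3))) (peq HH len (Nat.add dv (nat_lit 3)) (Nat.add ev l) (fun HH' len' => ih3 HH' len' (ds.erase (nat_lit 3)) (es.erase l))))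
      (or (!(ds.elem (nat_lit 4))) (peq HH len (Nat.add dv (nat_lit 4)) (Nat.add ev l) (fun HH' len' => ih4 HH' len' (ds.erase (nat_lit 4)) (es.erase l))))))))) t

variable {v : ℕ → ℤ} {N : ℕ}

lemma pw_eq (x : ℕ) : ((pw x : ℕ) : ℤ) = BB ^ x := by
  have : pw x = 2 ^ (28 * x) := rfl
  rw [this]; push_cast; unfold BB; rw [pow_mul]; norm_num

lemma pw_le {x : ℕ} (hx : x < SL) : pw x ≤ OO := by
  have h1 : pw x ≤ pw 31 := by
    have : ∀ y, pw y = 2 ^ (28 * y) := fun _ => rfl
    rw [this, this]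
    unfold SL at hx
    exact Nat.pow_le_pow_right (by norm_num) (by omega)
  have h2 : pw 31 ≤ OO := by decide +kernel
  exact h1.trans h2

lemma vsub_rep (hN : N ≤ SL) {x y : ℕ} (hx : x < N) (hy : y < N) : NR v N 2 (vsub x y) (v x - v y) := by
  unfold NR
  have e : ((vsub x y : ℕ) : ℤ) - OO = 1 * BB ^ x - 1 * BB ^ y := by
    have : vsub x y = OO + pw x - pw y := rfl
    rw [this, Nat.cast_sub ((pw_le (lt_of_lt_of_le hy hN)).trans (Nat.le_add_right _ _))]
    push_cast
    rw [pw_eq, pw_eq]; ring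
  rw [e]
  have := (Rep.single (v := v) x hx hN 1).sub (Rep.single (v := v) y hy hN 1)
  simpa using this

lemma peq_sound (hN : N ≤ SL) {HH len x y : ℕ} {k : ℕ → ℕ → Bool} (hx : x < N) (hy : y < N)
    (hH : Hyp v N HH len) (he : v x = v y) (h : peq HH len x y k = true) :
    ∃ HH' len', k HH' len' = true ∧ Hyp v N HH' len' := by
  unfold peq at h
  obtain ⟨HH', len', h1, h2⟩ := psh_sound (x := v y - v x) hH (by omega)
    (Rep.mono (vsub_rep hN hy hx) le_rfl (by norm_num)) h
  exact psh_sound (x := v x - v y) h2 (by omega) (Rep.mono (vsub_rep hN hx hy) le_rfl (by norm_num)) h1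

/-- the alternatives: for each entry one of the four forms is nonnegative -/
def Alt (v : ℕ → ℤ) (N : ℕ) (alts : List (ℕ × ℕ × ℕ × ℕ)) : Prop :=
  ∀ w ∈ alts, ∃ x0 x1 x2 x3 : ℤ, NR v N 64 w.1 x0 ∧ NR v N 64 w.2.1 x1 ∧ NR v N 64 w.2.2.1 x2 ∧
    NR v N 64 w.2.2.2 x3 ∧ (0 ≤ x0 ∨ 0 ≤ x1 ∨ 0 ≤ x2 ∨ 0 ≤ x3)

lemma nth4_sound (k : ℕ → ℕ → ℕ → ℕ → Bool) : ∀ (l : List (ℕ × ℕ × ℕ × ℕ)) (n : ℕ), nth4 k l n = true →
    ∃ w ∈ l, k w.1 w.2.1 w.2.2.1 w.2.2.2 = true := by
  intro l
  induction l with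
  | nil => intro n h; cases h
  | cons w ws ih =>
    intro n h
    cases n with
    | zero => exact ⟨w, List.mem_cons_self, h⟩
    | succ n =>
      obtain ⟨w', h1, h2⟩ := ih n h
      exact ⟨w', List.mem_cons_of_mem _ h1, h2⟩

lemma perm_erase {F G : ℕ → ℤ} {ds es : List ℕ} (h : (ds.map F).Perm (es.map G)) {l q : ℕ} (hl : l ∈ ds)
    (hq : q ∈ es) (he : F l = G q) : ((ds.erase l).map F).Perm ((es.erase q).map G) := by
  have h1 : (ds.map F).Perm (F l :: (ds.erase l).map F) := (List.perm_cons_erase hl).map F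
  have h2 : (es.map G).Perm (G q :: (es.erase q).map G) := (List.perm_cons_erase hq).map G
  have h3 := (h1.symm.trans h).trans h2
  rw [he] at h3
  exact h3.cons_inv

theorem mchk_sound {dv ev : ℕ} {alts : List (ℕ × ℕ × ℕ × ℕ)} (hv : v 0 = 1) (hN0 : 0 < N) (hN : N ≤ SL)
    (hdv : dv + 5 ≤ N) (hev : ev + 5 ≤ N) (ha : Alt v N alts) :
    ∀ (t : MT) (HH len : ℕ) (ds es : List ℕ), Hyp v N HH len → (∀ l ∈ ds, l < 5) → (∀ l ∈ es, l < 5) →
      (ds.map fun l => v (dv + l)).Perm (es.map fun l => v (ev + l)) →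
      mchk N dv ev alts t HH len ds es = true → False := by
  intro t
  induction t with
  | L c =>
    intro HH len ds es hH _ _ _ h
    have h' : imp HH len (Nat.sub OO (nat_lit 1)) OO c (fun _ => true) = true := h
    have := (imp_sound hv hN0 hN hH (t := -1) (by
      have e := OO_cast
      have e' : ((Nat.sub OO (nat_lit 1) : ℕ) : ℤ) - OO = -1 := e
      rw [e']; exact (Rep.const hv hN0 hN (-1)).mono le_rfl (by norm_num)) h').1
    omega
  | S f t1 t2 ih1 ih2 =>
    intro HH len ds es hH hds hes hp h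
    have h' : dec N f (fun X =>
      and (psh HH len X (fun HH' len' => mchk N dv ev alts t1 HH' len' ds es))
        (and (Nat.ble (Nat.succ X) (2 * OO))
          (psh HH len (2 * OO - Nat.succ X) (fun HH' len' => mchk N dv ev alts t2 HH' len' ds es)))) = true := h
    obtain ⟨X, y, hX, hy⟩ := dec_sound (v := v) hN h'
    simp only [Bool.and_eq_true, Nat.ble_eq] at hX
    obtain ⟨h1, h2, h3⟩ := hX
    rcases le_or_gt 0 y with h0 | h0
    · obtain ⟨HH', len', hk, hH'⟩ := psh_sound hH h0 (hy.mono le_rfl (by norm_num)) h1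
      exact ih1 _ _ _ _ hH' hds hes hp hk
    · obtain ⟨HH', len', hk, hH'⟩ := psh_sound (x := -y - 1) hH (by omega) (by
        have := (hy.neg.sub (Rep.const hv hN0 hN 1)).mono (le_refl N) (show (1024 : ℤ) + |1| ≤ 2048 by norm_num)
        have e : (((2 * OO - Nat.succ X : ℕ) : ℤ) - OO) = -((X : ℤ) - OO) - 1 := by
          rw [Nat.cast_sub h2]; push_cast; ring
        unfold NR
        rw [e]; exact this) h3
      exact ih2 _ _ _ _ hH' hds hes hp hk
  | U f c t ih =>
    intro HH len ds es hH hds hes hp h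
    have h' : dec N f (fun X =>
      imp HH len X OO c (fun _ => psh HH len X (fun HH' len' => mchk N dv ev alts t HH' len' ds es))) = true := h
    obtain ⟨X, y, hX, hy⟩ := dec_sound (v := v) hN h'
    obtain ⟨h0, c', hc'⟩ := imp_sound hv hN0 hN hH (hy.mono le_rfl (by norm_num)) hX
    obtain ⟨HH', len', hk, hH'⟩ := psh_sound hH h0 (hy.mono le_rfl (by norm_num)) hc'
    exact ih _ _ _ _ hH' hds hes hp hk
  | T l t0 t1 t2 t3 ih0 ih1 ih2 ih3 =>
    intro HH len ds es hH hds hes hp h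
    have h' : nth4 (fun X0 X1 X2 X3 =>
      and (psh HH len X0 (fun HH' len' => mchk N dv ev alts t0 HH' len' ds es))
        (and (psh HH len X1 (fun HH' len' => mchk N dv ev alts t1 HH' len' ds es))
          (and (psh HH len X2 (fun HH' len' => mchk N dv ev alts t2 HH' len' ds es))
            (psh HH len X3 (fun HH' len' => mchk N dv ev alts t3 HH' len' ds es))))) alts l = true := h
    obtain ⟨w, hw, hk⟩ := nth4_sound _ _ _ h'
    simp only [Bool.and_eq_true] at hk
    obtain ⟨k0, k1, k2, k3⟩ := hk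
    obtain ⟨x0, x1, x2, x3, r0, r1, r2, r3, hx⟩ := ha w hw
    rcases hx with hx | hx | hx | hx
    · obtain ⟨HH', len', hk, hH'⟩ := psh_sound hH hx (Rep.mono r0 le_rfl (by norm_num)) k0
      exact ih0 _ _ _ _ hH' hds hes hp hk
    · obtain ⟨HH', len', hk, hH'⟩ := psh_sound hH hx (Rep.mono r1 le_rfl (by norm_num)) k1
      exact ih1 _ _ _ _ hH' hds hes hp hk
    · obtain ⟨HH', len', hk, hH'⟩ := psh_sound hH hx (Rep.mono r2 le_rfl (by norm_num)) k2
      exact ih2 _ _ _ _ hH' hds hes hp hk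
    · obtain ⟨HH', len', hk, hH'⟩ := psh_sound hH hx (Rep.mono r3 le_rfl (by norm_num)) k3
      exact ih3 _ _ _ _ hH' hds hes hp hk
  | M l t0 t1 t2 t3 t4 ih0 ih1 ih2 ih3 ih4 =>
    intro HH len ds es hH hds hes hp h
    have h' : and (ds.elem l)
      (and (or (!(es.elem 0)) (peq HH len (dv + l) ev (fun HH' len' => mchk N dv ev alts t0 HH' len' (ds.erase l) (es.erase 0))))
      (and (or (!(es.elem 1)) (peq HH len (dv + l) (ev + 1) (fun HH' len' => mchk N dv ev alts t1 HH' len' (ds.erase l) (es.erase 1))))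
      (and (or (!(es.elem 2)) (peq HH len (dv + l) (ev + 2) (fun HH' len' => mchk N dv ev alts t2 HH' len' (ds.erase l) (es.erase 2))))
      (and (or (!(es.elem 3)) (peq HH len (dv + l) (ev + 3) (fun HH' len' => mchk N dv ev alts t3 HH' len' (ds.erase l) (es.erase 3))))
      (or (!(es.elem 4)) (peq HH len (dv + l) (ev + 4) (fun HH' len' => mchk N dv ev alts t4 HH' len' (ds.erase l) (es.erase 4)))))))) = true := h
    simp only [Bool.and_eq_true, List.elem_eq_mem, decide_eq_true_eq, Bool.or_eq_true, Bool.not_eq_true',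
      decide_eq_false_iff_not] at h'
    obtain ⟨hl, k0, k1, k2, k3, k4⟩ := h'
    have hl5 := hds l hl
    have hmem : v (dv + l) ∈ es.map fun l => v (ev + l) :=
      hp.subset (List.mem_map.2 ⟨l, hl, rfl⟩)
    obtain ⟨q, hq, hqe⟩ := List.mem_map.1 hmem
    have hq5 := hes q hq
    have hds' : ∀ x ∈ ds.erase l, x < 5 := fun x hx => hds x (List.mem_of_mem_erase hx)
    have hes' : ∀ x ∈ es.erase q, x < 5 := fun x hx => hes x (List.mem_of_mem_erase hx)
    have hp' := perm_erase hp hl hq hqe.symm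
    have hq' : q = 0 ∨ q = 1 ∨ q = 2 ∨ q = 3 ∨ q = 4 := by omega
    rcases hq' with rfl | rfl | rfl | rfl | rfl
    · rcases k0 with k0 | k0
      · exact k0 hq
      · obtain ⟨HH', len', hk, hH'⟩ := peq_sound hN (by omega) (by omega) hH hqe.symm k0
        exact ih0 _ _ _ _ hH' hds' hes' hp' hk
    · rcases k1 with k0 | k0
      · exact k0 hq
      · obtain ⟨HH', len', hk, hH'⟩ := peq_sound hN (by omega) (by omega) hH hqe.symm k0
        exact ih1 _ _ _ _ hH' hds' hes' hp' hk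
    · rcases k2 with k0 | k0
      · exact k0 hq
      · obtain ⟨HH', len', hk, hH'⟩ := peq_sound hN (by omega) (by omega) hH hqe.symm k0
        exact ih2 _ _ _ _ hH' hds' hes' hp' hk
    · rcases k3 with k0 | k0
      · exact k0 hq
      · obtain ⟨HH', len', hk, hH'⟩ := peq_sound hN (by omega) (by omega) hH hqe.symm k0
        exact ih3 _ _ _ _ hH' hds' hes' hp' hk
    · rcases k4 with k0 | k0
      · exact k0 hq
      · obtain ⟨HH', len', hk, hH'⟩ := peq_sound hN (by omega) (by omega) hH hqe.symm k0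
        exact ih4 _ _ _ _ hH' hds' hes' hp' hk
  | W l t0 t1 t2 t3 t4 ih0 ih1 ih2 ih3 ih4 =>
    intro HH len ds es hH hds hes hp h
    have h' : and (es.elem l)
      (and (or (!(ds.elem 0)) (peq HH len dv (ev + l) (fun HH' len' => mchk N dv ev alts t0 HH' len' (ds.erase 0) (es.erase l))))
      (and (or (!(ds.elem 1)) (peq HH len (dv + 1) (ev + l) (fun HH' len' => mchk N dv ev alts t1 HH' len' (ds.erase 1) (es.erase l))))
      (and (or (!(ds.elem 2)) (peq HH len (dv + 2) (ev + l) (fun HH' len' => mchk N dv ev alts t2 HH' len' (ds.erase 2) (es.erase l))))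
      (and (or (!(ds.elem 3)) (peq HH len (dv + 3) (ev + l) (fun HH' len' => mchk N dv ev alts t3 HH' len' (ds.erase 3) (es.erase l))))
      (or (!(ds.elem 4)) (peq HH len (dv + 4) (ev + l) (fun HH' len' => mchk N dv ev alts t4 HH' len' (ds.erase 4) (es.erase l)))))))) = true := h
    simp only [Bool.and_eq_true, List.elem_eq_mem, decide_eq_true_eq, Bool.or_eq_true, Bool.not_eq_true',
      decide_eq_false_iff_not] at h'
    obtain ⟨hl, k0, k1, k2, k3, k4⟩ := h'
    have hl5 := hes l hl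
    have hmem : v (ev + l) ∈ ds.map fun l => v (dv + l) :=
      hp.symm.subset (List.mem_map.2 ⟨l, hl, rfl⟩)
    obtain ⟨q, hq, hqe⟩ := List.mem_map.1 hmem
    have hq5 := hds q hq
    have hds' : ∀ x ∈ ds.erase q, x < 5 := fun x hx => hds x (List.mem_of_mem_erase hx)
    have hes' : ∀ x ∈ es.erase l, x < 5 := fun x hx => hes x (List.mem_of_mem_erase hx)
    have hp' := perm_erase hp hq hl hqe
    have hq' : q = 0 ∨ q = 1 ∨ q = 2 ∨ q = 3 ∨ q = 4 := by omega
    rcases hq' with rfl | rfl | rfl | rfl | rfl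
    · rcases k0 with k0 | k0
      · exact k0 hq
      · obtain ⟨HH', len', hk, hH'⟩ := peq_sound hN (by omega) (by omega) hH hqe k0
        exact ih0 _ _ _ _ hH' hds' hes' hp' hk
    · rcases k1 with k0 | k0
      · exact k0 hq
      · obtain ⟨HH', len', hk, hH'⟩ := peq_sound hN (by omega) (by omega) hH hqe k0
        exact ih1 _ _ _ _ hH' hds' hes' hp' hk
    · rcases k2 with k0 | k0
      · exact k0 hq
      · obtain ⟨HH', len', hk, hH'⟩ := peq_sound hN (by omega) (by omega) hH hqe k0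
        exact ih2 _ _ _ _ hH' hds' hes' hp' hk
    · rcases k3 with k0 | k0
      · exact k0 hq
      · obtain ⟨HH', len', hk, hH'⟩ := peq_sound hN (by omega) (by omega) hH hqe k0
        exact ih3 _ _ _ _ hH' hds' hes' hp' hk
    · rcases k4 with k0 | k0
      · exact k0 hq
      · obtain ⟨HH', len', hk, hH'⟩ := peq_sound hN (by omega) (by omega) hH hqe k0
        exact ih4 _ _ _ _ hH' hds' hes' hp' hk

/-- four sparse forms -/
abbrev F4 := List (ℕ × ℤ) × List (ℕ × ℤ) × List (ℕ × ℤ) × List (ℕ × ℤ)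

/-- codes of four sparse forms -/
def code4 (w : F4) : ℕ × ℕ × ℕ × ℕ := (lnat w.1, lnat w.2.1, lnat w.2.2.1, lnat w.2.2.2)

/-- requirements on four sparse forms -/
def lok4 (N : ℕ) (w : F4) : Bool := lok N w.1 && lok N w.2.1 && lok N w.2.2.1 && lok N w.2.2.2

/-- the main consequence: a checked match tree gives a contradiction -/
theorem mt_false {N dv ev K : ℕ} (al : List F4) (R : List (List (ℕ × ℤ))) (t : MT)
    (h1 : (decide (N ≤ SL) && decide (dv + 5 ≤ N) && decide (ev + 5 ≤ N) && decide (K ≤ 5) &&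
      al.all (lok4 N) && R.all (lok N)) = true)
    (HH : ℕ) (hHH : HH = pack (R.map lnat)) (alts : List (ℕ × ℕ × ℕ × ℕ)) (ha : alts = al.map code4)
    (hc : mchk N dv ev alts t HH R.length (List.range K) (List.range K) = true)
    (v : ℕ → ℤ) (hv : v 0 = 1) (hR : ∀ l ∈ R, 0 ≤ lval v l)
    (hA : ∀ w ∈ al, 0 ≤ lval v w.1 ∨ 0 ≤ lval v w.2.1 ∨ 0 ≤ lval v w.2.2.1 ∨ 0 ≤ lval v w.2.2.2)
    (hp : ((List.range K).map fun l => v (dv + l)).Perm ((List.range K).map fun l => v (ev + l))) :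
    False := by
  simp only [Bool.and_eq_true, decide_eq_true_eq] at h1
  obtain ⟨⟨⟨⟨⟨h2, h3⟩, h4⟩, h5⟩, h6⟩, h7⟩ := h1
  subst hHH; subst ha
  refine mchk_sound hv (by omega) h2 h3 h4 ?_ t _ _ (List.range K) (List.range K)
    (hyp_pack h2 R h7 hR) ?_ ?_ hp hc
  · intro w hw
    obtain ⟨x, hx, rfl⟩ := List.mem_map.1 hw
    rw [List.all_eq_true] at h6
    have h8 := h6 x hx
    unfold lok4 at h8
    simp only [Bool.and_eq_true] at h8
    obtain ⟨⟨⟨a0, a1⟩, a2⟩, a3⟩ := h8
    exact ⟨_, _, _, _, (lnat_rep h2 a0).1, (lnat_rep h2 a1).1, (lnat_rep h2 a2).1, (lnat_rep h2 a3).1, hA x hx⟩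
  · intro l hl; rw [List.mem_range] at hl; omega
  · intro l hl; rw [List.mem_range] at hl; omega

/-- variable assignment from a list -/
def vv (l : List ℤ) (x : ℕ) : ℤ := l.getD x 0

/-- the linear facts about one distance -/
lemma dd_facts (i j a b : ℤ) : i - a ≤ dd i j a b ∧ a - i ≤ dd i j a b ∧ j - b ≤ dd i j a b ∧
    b - j ≤ dd i j a b ∧ (dd i j a b ≤ i - a ∨ dd i j a b ≤ a - i ∨ dd i j a b ≤ j - b ∨
      dd i j a b ≤ b - j) := by
  unfold dd
  rcases max_choice |i - a| |j - b| with h | h <;> rcases abs_cases (i - a) with h1 | h1 <;>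
    rcases abs_cases (j - b) with h2 | h2 <;> rw [max_def] at * <;> split_ifs at * <;> omega

end Mdim86
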