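import Pool.Agent.LibMdim86.Root

namespace Mdim86

set_option maxRecDepth 100000

def t1e_nl : List (ℕ × ℤ) := [(1, 2)]
def t1e_ml : List (ℕ × ℤ) := [(2, 1)]
def t1e_pl : List (List (ℕ × ℤ) × List (ℕ × ℤ)) := [([(3, 1)], [(4, 1)])]
def t1e_R : List (List (ℕ × ℤ)) := [[(0, 1), (1, 2), (3, -2)], [(1, -2), (2, 1)], [(2, 1), (4, -1)], [(0, -1), (4, 1)], [(1, 2), (3, -1)], [(0, -1), (3, 1)], [(0, -2), (1, 1)]]
def t1e_n : ℕ := 0x10000001000000100000010000001000000100000010000001000000100000010000001000000100000010000001000000100000010000001000000100000010000001000000100000010000001000000100000010000001000000100000010000001000000100000010020001000
def t1e_m : ℕ := 0x10000001000000100000010000001000000100000010000001000000100000010000001000000100000010000001000000100000010000001000000100000010000001000000100000010000001000000100000010000001000000100000010000001000000100100010000001000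
def t1e_p : List (ℕ × ℕ) := [(0x10000001000000100000010000001000000100000010000001000000100000010000001000000100000010000001000000100000010000001000000100000010000001000000100000010000001000000100000010000001000000100000010000001001000100000010000001000, 0x10000001000000100000010000001000000100000010000001000000100000010000001000000100000010000001000000100000010000001000000100000010000001000000100000010000001000000100000010000001000000100000010010001000000100000010000001000)]
def t1e_H : ℕ := 0x10000001000000100000010000001000000100000010000001000000100000010000001000000100000010000001000000100000010000001000000100000010000001000000100000010000001000000100000010000001000000100000010000001000000100000010010000ffe00010000001000000100000010000001000000100000010000001000000100000010000001000000100000010000001000000100000010000001000000100000010000001000000100000010000001000000100000010000001000000100000010000001001000100000010000000fff00010000001000000100000010000001000000100000010000001000000100000010000001000000100000010000001000000100000010000001000000100000010000001000000100000010000001000000100000010000001000000100000010000000fff00010000001002000100000010000001000000100000010000001000000100000010000001000000100000010000001000000100000010000001000000100000010000001000000100000010000001000000100000010000001000000100000010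000001000000100000010010001000000100000010000000fff0001000000100000010000001000000100000010000001000000100000010000001000000100000010000001000000100000010000001000000100000010000001000000100000010000001000000100000010000001000000100000010000000fff00010000001001000100000010000001000000100000010000001000000100000010000001000000100000010000001000000100000010000001000000100000010000001000000100000010000001000000100000010000001000000100000010000001000000100000010000001000000100000010010000ffe000100000010000001000000100000010000001000000100000010000001000000100000010000001000000100000010000001000000100000010000001000000100000010000001000000100000010000001000000100000010000001000000100000010000000ffe000100000010020001001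
def t1e_t : Tr := .U 0x7e12082 0x4082 (.S 0x8215e81 (.C 0x2084 0x8215f01 0x8212081 0x8215f01 0xbc 0x10004281000408100084810e0418300044010004281000408100043810004401000400100040010004001) (.S 0x7e16081 (.U 0x8215f81 0x4381 (.C 0x2084 0x2181 0x8212081 0x2181 0xa8 0x1001058110043820c0c001000858112042830004501001058110043820c0c0010004481000450100040010004101000410100041010004101)) (.C 0x2084 0x2201 0x8212081 0x2201 0xa8 0x100085010a0400100085011004203000448100085010a040010004401000448100040010004101000410100041010004101)))

theorem t1e_c : chk t1e_n t1e_m t1e_p t1e_t 5 t1e_H 7 = true := by decide +kernel
theorem t1e_k : (lok 5 t1e_nl && lok 5 t1e_ml && t1e_pl.all (fun p => lok 5 p.1 && lok 5 p.2) &&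
    t1e_R.all (lok 5)) = true := by decide +kernel
theorem t1e_h : t1e_H = pack (t1e_R.map lnat) := by decide +kernel
theorem t1e_en : t1e_n = lnat t1e_nl := by decide +kernel
theorem t1e_em : t1e_m = lnat t1e_ml := by decide +kernel
theorem t1e_ep : t1e_p = t1e_pl.map fun p => (lnat p.1, lnat p.2) := by decide +kernel

end Mdim86
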