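import Pool.Agent.LibMdim86.T1e

namespace Mdim86

set_option maxRecDepth 100000

def t1o_nl : List (ℕ × ℤ) := [(0, 1), (1, 2)]
def t1o_ml : List (ℕ × ℤ) := [(2, 1)]
def t1o_pl : List (List (ℕ × ℤ) × List (ℕ × ℤ)) := [([(3, 1)], [(4, 1)])]
def t1o_R : List (List (ℕ × ℤ)) := [[(0, 2), (1, 2), (3, -2)], [(0, -1), (1, -2), (2, 1)], [(2, 1), (4, -1)], [(0, -1), (4, 1)], [(0, 1), (1, 2), (3, -1)], [(0, -1), (3, 1)], [(0, -2), (1, 1)]]
def t1o_n : ℕ := 0x10000001000000100000010000001000000100000010000001000000100000010000001000000100000010000001000000100000010000001000000100000010000001000000100000010000001000000100000010000001000000100000010000001000000100000010020001001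
def t1o_m : ℕ := 0x10000001000000100000010000001000000100000010000001000000100000010000001000000100000010000001000000100000010000001000000100000010000001000000100000010000001000000100000010000001000000100000010000001000000100100010000001000
def t1o_p : List (ℕ × ℕ) := [(0x10000001000000100000010000001000000100000010000001000000100000010000001000000100000010000001000000100000010000001000000100000010000001000000100000010000001000000100000010000001000000100000010000001001000100000010000001000, 0x10000001000000100000010000001000000100000010000001000000100000010000001000000100000010000001000000100000010000001000000100000010000001000000100000010000001000000100000010000001000000100000010010001000000100000010000001000)]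
def t1o_H : ℕ := 0x10000001000000100000010000001000000100000010000001000000100000010000001000000100000010000001000000100000010000001000000100000010000001000000100000010000001000000100000010000001000000100000010000001000000100000010010000ffe00010000001000000100000010000001000000100000010000001000000100000010000001000000100000010000001000000100000010000001000000100000010000001000000100000010000001000000100000010000001000000100000010000001001000100000010000000fff00010000001000000100000010000001000000100000010000001000000100000010000001000000100000010000001000000100000010000001000000100000010000001000000100000010000001000000100000010000001000000100000010000000fff00010000001002000100100010000001000000100000010000001000000100000010000001000000100000010000001000000100000010000001000000100000010000001000000100000010000001000000100000010000001000000100000010000001000000100000010010001000000100000010000000fff0001000000100000010000001000000100000010000001000000100000010000001000000100000010000001000000100000010000001000000100000010000001000000100000010000001000000100000010000001000000100000010000000fff00010000001001000100000010000001000000100000010000001000000100000010000001000000100000010000001000000100000010000001000000100000010000001000000100000010000001000000100000010000001000000100000010000001000000100000010000001000000100000010010000ffe0000fff00010000001000000100000010000001000000100000010000001000000100000010000001000000100000010000001000000100000010000001000000100000010000001000000100000010000001000000100000010000001000000100000010000000ffe000100000010020001002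
def t1o_t : Tr := .S 0x8215e81 (.C 0x2084 0x8215f01 0x8212081 0x8215f01 0xbc 0x10004201000408100084020c0410400043810004201000408100043010004381000400100040010004001) (.S 0x7e16081 (.U 0x8215f81 0x4301 (.C 0x2084 0x2181 0x8212081 0x2181 0xa8 0x100085010e043010a0800100085021004204000448100085010e043010a080010004401000448100040010004101000410100041010004101)) (.C 0x2084 0x2201 0x8212081 0x2201 0xa8 0x100104810a08201020c00100084820e04184000440100104810a08201020c0010004381000440100040010004101000410100041010004101))

theorem t1o_c : chk t1o_n t1o_m t1o_p t1o_t 5 t1o_H 7 = true := by decide +kernel
theorem t1o_k : (lok 5 t1o_nl && lok 5 t1o_ml && t1o_pl.all (fun p => lok 5 p.1 && lok 5 p.2) &&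
    t1o_R.all (lok 5)) = true := by decide +kernel
theorem t1o_h : t1o_H = pack (t1o_R.map lnat) := by decide +kernel
theorem t1o_en : t1o_n = lnat t1o_nl := by decide +kernel
theorem t1o_em : t1o_m = lnat t1o_ml := by decide +kernel
theorem t1o_ep : t1o_p = t1o_pl.map fun p => (lnat p.1, lnat p.2) := by decide +kernel

end Mdim86
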