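import Pool.Agent.LibMdim86.Cfg
import Pool.Agent.LibMdim86.Match
import Pool.Agent.LibMdim86.T1e
import Pool.Agent.LibMdim86.T1o
import Pool.Agent.LibMdim86.T2e
import Pool.Agent.LibMdim86.T2o
import Pool.Agent.LibMdim86.T3e
import Pool.Agent.LibMdim86.T3o

/-!
# At least four points
-/

namespace Mdim86

variable {n m : ℤ} {K : ℕ} {a b : ℕ → ℤ}

lemma Cfg.good (h : Cfg n m K a b) : Good n m ((List.range K).map fun k => (a k, b k)) where
  coll i j i' j' h1 h2 h3 h4 h5 h6 h7 h8 hp := by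
    refine h.inj i j i' j' h1 h2 h3 h4 h5 h6 h7 h8 ?_
    rw [List.map_map, List.map_map] at hp
    unfold rp
    rw [← Multiset.coe_range, Multiset.map_coe, Multiset.map_coe, Multiset.coe_eq_coe]
    exact hp
  nodup := by
    refine List.Nodup.map_on ?_ List.nodup_range
    intro x hx y hy hxy
    rw [List.mem_range] at hx hy
    rw [Prod.ext_iff] at hxy
    simp only at hxy
    by_contra hne
    rcases Nat.lt_or_gt_of_ne hne with h1 | h1
    · have := h.ne x y h1 hy; omega
    · have := h.ne y x h1 hx; omega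

theorem low1e {k : ℤ} (h : Cfg (2 * k) m 1 a b) (hk : 2 ≤ k) (hm : 2 * k ≤ m)
    (hr : a 0 + a 0 ≤ 2 * k + 1) : False := by
  have g := h.good
  have a0 := h.a1 0 (by norm_num)
  have a0' := h.an 0 (by norm_num)
  have b0 := h.b1 0 (by norm_num)
  have b0' := h.bm 0 (by norm_num)
  refine tree_false t1e_nl t1e_ml t1e_pl t1e_R t1e_t (by decide) (by norm_num) t1e_k t1e_H t1e_h t1e_n t1e_m
    t1e_en t1e_em t1e_p t1e_ep t1e_c (vv [1, k, m, a 0, b 0]) rfl ?_ ?_
  · simp only [t1e_R, List.forall_mem_cons, List.not_mem_nil, false_imp_iff, implies_true, and_true,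
      lval, vv, List.map_cons, List.map_nil, List.sum_cons, List.sum_nil, List.getD_cons_succ, List.getD_cons_zero]
    refine ⟨?_, ?_, ?_, ?_, ?_, ?_, ?_⟩ <;> linarith
  · simpa [t1e_nl, t1e_ml, t1e_pl, lval, vv, List.range_succ] using g

theorem low1o {k : ℤ} (h : Cfg (2 * k + 1) m 1 a b) (hk : 2 ≤ k) (hm : 2 * k + 1 ≤ m)
    (hr : a 0 + a 0 ≤ 2 * k + 2) : False := by
  have g := h.good
  have a0 := h.a1 0 (by norm_num)
  have a0' := h.an 0 (by norm_num)
  have b0 := h.b1 0 (by norm_num)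
  have b0' := h.bm 0 (by norm_num)
  refine tree_false t1o_nl t1o_ml t1o_pl t1o_R t1o_t (by decide) (by norm_num) t1o_k t1o_H t1o_h t1o_n t1o_m
    t1o_en t1o_em t1o_p t1o_ep t1o_c (vv [1, k, m, a 0, b 0]) rfl ?_ ?_
  · simp only [t1o_R, List.forall_mem_cons, List.not_mem_nil, false_imp_iff, implies_true, and_true,
      lval, vv, List.map_cons, List.map_nil, List.sum_cons, List.sum_nil, List.getD_cons_succ, List.getD_cons_zero]
    refine ⟨?_, ?_, ?_, ?_, ?_, ?_, ?_⟩ <;> linarith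
  · simpa [t1o_nl, t1o_ml, t1o_pl, lval, vv, List.range_succ, add_comm] using g

theorem low2e {k : ℤ} (h : Cfg (2 * k) m 2 a b) (hk : 2 ≤ k) (hm : 2 * k ≤ m)
    (hr : a 0 + a 1 ≤ 2 * k + 1) : False := by
  have g := h.good
  have a0 := h.a1 0 (by norm_num)
  have a0' := h.an 0 (by norm_num)
  have a1 := h.a1 1 (by norm_num)
  have a1' := h.an 1 (by norm_num)
  have b0 := h.b1 0 (by norm_num)
  have b01 := h.mono 0 1 (by norm_num) (by norm_num)
  have b1' := h.bm 1 (by norm_num)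
  refine tree_false t2e_nl t2e_ml t2e_pl t2e_R t2e_t (by decide) (by norm_num) t2e_k t2e_H t2e_h t2e_n t2e_m
    t2e_en t2e_em t2e_p t2e_ep t2e_c (vv [1, k, m, a 0, a 1, b 0, b 1]) rfl ?_ ?_
  · simp only [t2e_R, List.forall_mem_cons, List.not_mem_nil, false_imp_iff, implies_true, and_true,
      lval, vv, List.map_cons, List.map_nil, List.sum_cons, List.sum_nil, List.getD_cons_succ, List.getD_cons_zero]
    refine ⟨?_, ?_, ?_, ?_, ?_, ?_, ?_, ?_, ?_, ?_⟩ <;> linarith
  · simpa [t2e_nl, t2e_ml, t2e_pl, lval, vv, List.range_succ] using g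

theorem low2o {k : ℤ} (h : Cfg (2 * k + 1) m 2 a b) (hk : 2 ≤ k) (hm : 2 * k + 1 ≤ m)
    (hr : a 0 + a 1 ≤ 2 * k + 2) : False := by
  have g := h.good
  have a0 := h.a1 0 (by norm_num)
  have a0' := h.an 0 (by norm_num)
  have a1 := h.a1 1 (by norm_num)
  have a1' := h.an 1 (by norm_num)
  have b0 := h.b1 0 (by norm_num)
  have b01 := h.mono 0 1 (by norm_num) (by norm_num)
  have b1' := h.bm 1 (by norm_num)
  refine tree_false t2o_nl t2o_ml t2o_pl t2o_R t2o_t (by decide) (by norm_num) t2o_k t2o_H t2o_h t2o_n t2o_m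
    t2o_en t2o_em t2o_p t2o_ep t2o_c (vv [1, k, m, a 0, a 1, b 0, b 1]) rfl ?_ ?_
  · simp only [t2o_R, List.forall_mem_cons, List.not_mem_nil, false_imp_iff, implies_true, and_true,
      lval, vv, List.map_cons, List.map_nil, List.sum_cons, List.sum_nil, List.getD_cons_succ, List.getD_cons_zero]
    refine ⟨?_, ?_, ?_, ?_, ?_, ?_, ?_, ?_, ?_, ?_⟩ <;> linarith
  · simpa [t2o_nl, t2o_ml, t2o_pl, lval, vv, List.range_succ, add_comm] using g

theorem low3e {k : ℤ} (h : Cfg (2 * k) m 3 a b) (hk : 2 ≤ k) (hm : 2 * k ≤ m)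
    (hr : a 0 + a 2 ≤ 2 * k + 1) : False := by
  have g := h.good
  have a0 := h.a1 0 (by norm_num)
  have a0' := h.an 0 (by norm_num)
  have a1 := h.a1 1 (by norm_num)
  have a1' := h.an 1 (by norm_num)
  have a2 := h.a1 2 (by norm_num)
  have a2' := h.an 2 (by norm_num)
  have b0 := h.b1 0 (by norm_num)
  have b01 := h.mono 0 1 (by norm_num) (by norm_num)
  have b12 := h.mono 1 2 (by norm_num) (by norm_num)
  have b2' := h.bm 2 (by norm_num)
  refine tree_false t3e_nl t3e_ml t3e_pl t3e_R t3e_t (by decide) (by norm_num) t3e_k t3e_H t3e_h t3e_n t3e_m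
    t3e_en t3e_em t3e_p t3e_ep t3e_c (vv [1, k, m, a 0, a 1, a 2, b 0, b 1, b 2]) rfl ?_ ?_
  · simp only [t3e_R, List.forall_mem_cons, List.not_mem_nil, false_imp_iff, implies_true, and_true,
      lval, vv, List.map_cons, List.map_nil, List.sum_cons, List.sum_nil, List.getD_cons_succ, List.getD_cons_zero]
    refine ⟨?_, ?_, ?_, ?_, ?_, ?_, ?_, ?_, ?_, ?_, ?_, ?_, ?_⟩ <;> linarith
  · simpa [t3e_nl, t3e_ml, t3e_pl, lval, vv, List.range_succ] using g

theorem low3o {k : ℤ} (h : Cfg (2 * k + 1) m 3 a b) (hk : 2 ≤ k) (hm : 2 * k + 1 ≤ m)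
    (hr : a 0 + a 2 ≤ 2 * k + 2) : False := by
  have g := h.good
  have a0 := h.a1 0 (by norm_num)
  have a0' := h.an 0 (by norm_num)
  have a1 := h.a1 1 (by norm_num)
  have a1' := h.an 1 (by norm_num)
  have a2 := h.a1 2 (by norm_num)
  have a2' := h.an 2 (by norm_num)
  have b0 := h.b1 0 (by norm_num)
  have b01 := h.mono 0 1 (by norm_num) (by norm_num)
  have b12 := h.mono 1 2 (by norm_num) (by norm_num)
  have b2' := h.bm 2 (by norm_num)
  refine tree_false t3o_nl t3o_ml t3o_pl t3o_R t3o_t (by decide) (by norm_num) t3o_k t3o_H t3o_h t3o_n t3o_m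
    t3o_en t3o_em t3o_p t3o_ep t3o_c (vv [1, k, m, a 0, a 1, a 2, b 0, b 1, b 2]) rfl ?_ ?_
  · simp only [t3o_R, List.forall_mem_cons, List.not_mem_nil, false_imp_iff, implies_true, and_true,
      lval, vv, List.map_cons, List.map_nil, List.sum_cons, List.sum_nil, List.getD_cons_succ, List.getD_cons_zero]
    refine ⟨?_, ?_, ?_, ?_, ?_, ?_, ?_, ?_, ?_, ?_, ?_, ?_, ?_⟩ <;> linarith
  · simpa [t3o_nl, t3o_ml, t3o_pl, lval, vv, List.range_succ, add_comm] using g

/-- at least four points are needed -/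
theorem low_small (h : Cfg n m K a b) (hn : 4 ≤ n) (hm : n ≤ m) : 4 ≤ K := by
  by_contra hK
  have hK' : K = 0 ∨ K = 1 ∨ K = 2 ∨ K = 3 := by omega
  -- we may assume `a 0 + a (K - 1) ≤ n + 1`
  have key : ∀ a : ℕ → ℤ, Cfg n m K a b → a 0 + a (K - 1) ≤ n + 1 → False := by
    intro a h hr
    obtain ⟨k, hk⟩ := Int.even_or_odd' n
    rcases hK' with rfl | rfl | rfl | rfl
    · have := h.inj 1 1 2 1 le_rfl (by omega) le_rfl (by omega) (by norm_num) (by omega) le_rfl (by omega)
        (by unfold rp; simp)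
      omega
    · simp only [Nat.sub_self] at hr
      rcases hk with rfl | rfl
      · exact low1e h (by omega) hm hr
      · exact low1o h (by omega) hm (by omega)
    · simp only [show 2 - 1 = 1 from rfl] at hr
      rcases hk with rfl | rfl
      · exact low2e h (by omega) hm hr
      · exact low2o h (by omega) hm (by omega)
    · simp only [show 3 - 1 = 2 from rfl] at hr
      rcases hk with rfl | rfl
      · exact low3e h (by omega) hm hr
      · exact low3o h (by omega) hm (by omega)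
  rcases le_or_gt (a 0 + a (K - 1)) (n + 1) with h1 | h1
  · exact key a h h1
  · exact key _ h.flipRow (by omega)

end Mdim86
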