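import Pool.Agent.LibMdim86.Low
import Pool.Agent.LibMdim86.T4e
import Pool.Agent.LibMdim86.T4o

/-!
# Four points do not suffice for `m ≥ ⌊3n/2⌋`
-/

namespace Mdim86

variable {n m : ℤ} {a b : ℕ → ℤ}

theorem low4e {k : ℤ} (h : Cfg (2 * k) m 4 a b) (hk : 2 ≤ k) (hm : 3 * k ≤ m)
    (hr : a 0 + a 3 ≤ 2 * k + 1) (hc : b 0 + b 3 ≤ m + 1) : False := by
  have g := h.good
  have a0 := h.a1 0 (by norm_num)
  have a0' := h.an 0 (by norm_num)
  have a1 := h.a1 1 (by norm_num)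
  have a1' := h.an 1 (by norm_num)
  have a2 := h.a1 2 (by norm_num)
  have a2' := h.an 2 (by norm_num)
  have a3 := h.a1 3 (by norm_num)
  have a3' := h.an 3 (by norm_num)
  have b0 := h.b1 0 (by norm_num)
  have b01 := h.mono 0 1 (by norm_num) (by norm_num)
  have b12 := h.mono 1 2 (by norm_num) (by norm_num)
  have b23 := h.mono 2 3 (by norm_num) (by norm_num)
  have b3' := h.bm 3 (by norm_num)
  refine treeQ_false t4e_qs t4e_nl t4e_ml t4e_pl t4e_R t4e_t (by decide) (by norm_num) t4e_k t4e_H t4e_h t4e_n t4e_m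
    t4e_en t4e_em t4e_p t4e_ep t4e_q t4e_c (vv [1, k, m, a 0, a 1, a 2, a 3, b 0, b 1, b 2, b 3]) rfl ?_ ?_
  · simp only [t4e_R, List.forall_mem_cons, List.not_mem_nil, false_imp_iff, implies_true, and_true,
      lval, vv, List.map_cons, List.map_nil, List.sum_cons, List.sum_nil, List.getD_cons_succ, List.getD_cons_zero]
    refine ⟨?_, ?_, ?_, ?_, ?_, ?_, ?_, ?_, ?_, ?_, ?_, ?_, ?_, ?_, ?_, ?_, ?_⟩ <;> linarith
  · simpa [t4e_nl, t4e_ml, t4e_pl, lval, vv, List.range_succ] using g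

theorem low4o {k : ℤ} (h : Cfg (2 * k + 1) m 4 a b) (hk : 2 ≤ k) (hm : 3 * k + 1 ≤ m)
    (hr : a 0 + a 3 ≤ 2 * k + 2) (hc : b 0 + b 3 ≤ m + 1) : False := by
  have g := h.good
  have a0 := h.a1 0 (by norm_num)
  have a0' := h.an 0 (by norm_num)
  have a1 := h.a1 1 (by norm_num)
  have a1' := h.an 1 (by norm_num)
  have a2 := h.a1 2 (by norm_num)
  have a2' := h.an 2 (by norm_num)
  have a3 := h.a1 3 (by norm_num)
  have a3' := h.an 3 (by norm_num)
  have b0 := h.b1 0 (by norm_num)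
  have b01 := h.mono 0 1 (by norm_num) (by norm_num)
  have b12 := h.mono 1 2 (by norm_num) (by norm_num)
  have b23 := h.mono 2 3 (by norm_num) (by norm_num)
  have b3' := h.bm 3 (by norm_num)
  refine treeQ_false t4o_qs t4o_nl t4o_ml t4o_pl t4o_R t4o_t (by decide) (by norm_num) t4o_k t4o_H t4o_h t4o_n t4o_m
    t4o_en t4o_em t4o_p t4o_ep t4o_q t4o_c (vv [1, k, m, a 0, a 1, a 2, a 3, b 0, b 1, b 2, b 3]) rfl ?_ ?_
  · simp only [t4o_R, List.forall_mem_cons, List.not_mem_nil, false_imp_iff, implies_true, and_true,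
      lval, vv, List.map_cons, List.map_nil, List.sum_cons, List.sum_nil, List.getD_cons_succ, List.getD_cons_zero]
    refine ⟨?_, ?_, ?_, ?_, ?_, ?_, ?_, ?_, ?_, ?_, ?_, ?_, ?_, ?_, ?_, ?_, ?_⟩ <;> linarith
  · simpa [t4o_nl, t4o_ml, t4o_pl, lval, vv, List.range_succ, add_comm] using g

/-- four points do not suffice for `m ≥ ⌊3n/2⌋` -/
theorem low_four (h : Cfg n m 4 a b) (hn : 4 ≤ n) (hm : 3 * n / 2 ≤ m) : False := by
  have key : ∀ a b : ℕ → ℤ, Cfg n m 4 a b → a 0 + a 3 ≤ n + 1 → b 0 + b 3 ≤ m + 1 → False := by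
    intro a b h hr hc
    obtain ⟨k, hk⟩ := Int.even_or_odd' n
    rcases hk with rfl | rfl
    · exact low4e h (by omega) (by omega) hr hc
    · exact low4o h (by omega) (by omega) (by omega) hc
  have key2 : ∀ b : ℕ → ℤ, ∀ a : ℕ → ℤ, Cfg n m 4 a b → b 0 + b 3 ≤ m + 1 → False := by
    intro b a h hc
    rcases le_or_gt (a 0 + a 3) (n + 1) with h1 | h1
    · exact key a b h h1 hc
    · exact key _ b h.flipRow (by omega) hc
  rcases le_or_gt (b 0 + b 3) (m + 1) with h1 | h1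
  · exact key2 b a h h1
  · exact key2 _ _ h.flipCol (by simp only [show 4 - 1 - 0 = 3 from rfl, show 4 - 1 - 3 = 0 from rfl]; omega)

end Mdim86
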