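import Pool.Agent.LibMdim86.Defs

set_option autoImplicit false

/-!
# Small cases: finite checks and explicit resolving sets
-/

namespace Mdim86

/-- distance in natural coordinates -/
def smDist (x w : ℕ × ℕ) : ℕ :=
  max ((x.1 - w.1) + (w.1 - x.1)) ((x.2 - w.2) + (w.2 - x.2))

/-- natural coordinates to integer coordinates -/
def smC (x : ℕ × ℕ) : ℤ × ℤ := ((x.1 : ℤ), (x.2 : ℤ))

theorem smC_inj : Function.Injective smC := by
  intro x y h
  have h1 : (x.1 : ℤ) = (y.1 : ℤ) := congrArg Prod.fst h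
  have h2 : (x.2 : ℤ) = (y.2 : ℤ) := congrArg Prod.snd h
  exact Prod.ext (by exact_mod_cast h1) (by exact_mod_cast h2)

theorem smAbs (a b : ℕ) : |(a : ℤ) - (b : ℤ)| = (((a - b) + (b - a) : ℕ) : ℤ) := by
  rcases le_total a b with h | h
  · rw [abs_of_nonpos (by have : (a : ℤ) ≤ b := by exact_mod_cast h
                          linarith)]
    omega
  · rw [abs_of_nonneg (by have : (b : ℤ) ≤ a := by exact_mod_cast h
                          linarith)]
    omega

theorem smDist_cast (x w : ℕ × ℕ) :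
    dd (smC x).1 (smC x).2 (smC w).1 (smC w).2 = (smDist x w : ℤ) := by
  simp only [dd, smC, smDist, smAbs]
  push_cast
  rfl

/-- the vertices of the grid -/
def smV (n m : ℕ) : List (ℕ × ℕ) :=
  (List.range n).flatMap fun i => (List.range m).map fun j => (i + 1, j + 1)

theorem mem_smV {n m : ℕ} {x : ℕ × ℕ} : x ∈ smV n m ↔ 1 ≤ x.1 ∧ x.1 ≤ n ∧ 1 ≤ x.2 ∧ x.2 ≤ m := by
  simp only [smV, List.mem_flatMap, List.mem_map, List.mem_range]
  constructor
  · rintro ⟨i, hi, j, hj, rfl⟩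
    simp only
    omega
  · rintro ⟨h1, h2, h3, h4⟩
    refine ⟨x.1 - 1, by omega, x.2 - 1, by omega, ?_⟩
    exact Prod.ext (by simp only; omega) (by simp only; omega)

theorem inG_smC {n m : ℕ} {x : ℕ × ℕ} : InG n m (smC x) ↔ x ∈ smV n m := by
  rw [mem_smV]
  simp only [InG, smC]
  omega

theorem exists_smC {n m : ℕ} {x : ℤ × ℤ} (h : InG n m x) : ∃ v ∈ smV n m, smC v = x := by
  obtain ⟨h1, h2, h3, h4⟩ := h
  refine ⟨(x.1.toNat, x.2.toNat), ?_, ?_⟩
  · rw [mem_smV]
    simp only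
    omega
  · simp only [smC]
    exact Prod.ext (by simp only; omega) (by simp only; omega)

/-- the code of a vertex -/
def smCode (L : List (ℕ × ℕ)) (x : ℕ × ℕ) : ℕ := (L.map fun w => 8 ^ smDist x w).sum

/-- the representation with respect to the image of a list -/
theorem rep_smC {L : List (ℕ × ℕ)} {W : Finset (ℤ × ℤ)}
    (hW : W.val = ((L.map smC : List (ℤ × ℤ)) : Multiset (ℤ × ℤ))) (x : ℕ × ℕ) :
    rep W (smC x) = (((L.map (smDist x) : List ℕ) : Multiset ℕ)).map (fun d : ℕ => (d : ℤ)) := by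
  rw [rep, hW]
  simp only [Multiset.map_coe, List.map_map]
  congr 1
  apply List.map_congr_left
  intro w _
  exact smDist_cast x w

/-- equal representations have equal codes -/
theorem code_eq_of_rep {L : List (ℕ × ℕ)} {W : Finset (ℤ × ℤ)}
    (hW : W.val = ((L.map smC : List (ℤ × ℤ)) : Multiset (ℤ × ℤ))) {x y : ℕ × ℕ}
    (h : rep W (smC x) = rep W (smC y)) : smCode L x = smCode L y := by
  rw [rep_smC hW, rep_smC hW] at h
  have h1 := Multiset.map_injective (f := fun d : ℕ => (d : ℤ)) Nat.cast_injective h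
  have h2 := congrArg (fun s : Multiset ℕ => (s.map (fun d => 8 ^ d)).sum) h1
  simp only [Multiset.map_coe, List.map_map, Multiset.sum_coe] at h2
  exact h2

/-- a multiset with at most seven elements, all at most four, is determined by its code -/
theorem sm_unique (s t : Multiset ℕ) (hs : ∀ d ∈ s, d < 5) (ht : ∀ d ∈ t, d < 5)
    (hsc : s.card ≤ 7) (htc : t.card ≤ 7)
    (h : (s.map (fun d => 8 ^ d)).sum = (t.map (fun d => 8 ^ d)).sum) : s = t := by
  have key : ∀ u : Multiset ℕ, (∀ d ∈ u, d < 5) →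
      (u.map (fun d => 8 ^ d)).sum = ∑ d ∈ Finset.range 5, u.count d * 8 ^ d := by
    intro u hu
    rw [Finset.sum_multiset_map_count]
    simp only [smul_eq_mul]
    apply Finset.sum_subset
    · intro d hd
      rw [Multiset.mem_toFinset] at hd
      exact Finset.mem_range.mpr (hu d hd)
    · intro d _ hd
      rw [Multiset.mem_toFinset] at hd
      rw [Multiset.count_eq_zero_of_notMem hd, zero_mul]
  rw [key s hs, key t ht] at h
  simp only [Finset.sum_range_succ, Finset.sum_range_zero, zero_add, pow_zero, mul_one] at h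
  have hc : ∀ (u : Multiset ℕ) (d : ℕ), u.card ≤ 7 → u.count d ≤ 7 := fun u d hu =>
    (Multiset.count_le_card d u).trans hu
  have s0 := hc s 0 hsc
  have s1 := hc s 1 hsc
  have s2 := hc s 2 hsc
  have s3 := hc s 3 hsc
  have s4 := hc s 4 hsc
  have t0 := hc t 0 htc
  have t1 := hc t 1 htc
  have t2 := hc t 2 htc
  have t3 := hc t 3 htc
  have t4 := hc t 4 htc
  norm_num at h
  ext d
  by_cases hd : d < 5
  · have hd' : d = 0 ∨ d = 1 ∨ d = 2 ∨ d = 3 ∨ d = 4 := by omega
    rcases hd' with rfl | rfl | rfl | rfl | rfl <;> omega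
  · rw [Multiset.count_eq_zero_of_notMem (fun h' => hd (hs d h')),
      Multiset.count_eq_zero_of_notMem (fun h' => hd (ht d h'))]

/-- membership test -/
def smMem (a : ℕ) : List ℕ → Bool
  | [] => false
  | b :: l => Nat.beq a b || smMem a l

/-- test for a repeated entry -/
def smDup : List ℕ → Bool
  | [] => false
  | a :: l => smMem a l || smDup l

theorem smMem_iff (a : ℕ) (l : List ℕ) : smMem a l = true ↔ a ∈ l := by
  induction l with
  | nil => simp [smMem]
  | cons b l ih => simp [smMem, ih]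

theorem smDup_iff (l : List ℕ) : smDup l = true ↔ ¬ l.Nodup := by
  induction l with
  | nil => simp [smDup]
  | cons b l ih =>
    simp only [smDup, Bool.or_eq_true, smMem_iff, ih, List.nodup_cons]
    tauto

/-- search through all sublists of length at most `k` -/
def smChk : List (List ℕ) → List ℕ → ℕ → Bool
  | [], acc, _ => smDup acc
  | _ :: _, acc, 0 => smDup acc
  | A :: L, acc, k + 1 => smChk L acc (k + 1) && smChk L (List.zipWith (fun a b => a + b) acc A) k

theorem sm_zip (V : List (ℕ × ℕ)) (f g : ℕ × ℕ → ℕ) :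
    List.zipWith (fun a b => a + b) (V.map f) (V.map g) = V.map fun x => f x + g x := by
  induction V with
  | nil => rfl
  | cons v V ih => simp only [List.map_cons, List.zipWith_cons_cons, ih]

theorem smChk_spec (V : List (ℕ × ℕ)) (Ls : List (ℕ × ℕ)) :
    ∀ (f : ℕ × ℕ → ℕ) (k : ℕ),
      smChk (Ls.map fun w => V.map fun x => 8 ^ smDist x w) (V.map f) k = true →
      ∀ S : List (ℕ × ℕ), S.Sublist Ls → S.length ≤ k →
        smDup (V.map fun x => f x + smCode S x) = true := by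
  induction Ls with
  | nil =>
    intro f k h S hS _
    rw [List.sublist_nil] at hS
    subst hS
    simpa [smChk, smCode] using h
  | cons w Ls ih =>
    intro f k h S hS hk
    cases k with
    | zero =>
      have : S = [] := List.length_eq_zero_iff.mp (by omega)
      subst this
      simpa [smChk, smCode] using h
    | succ k =>
      simp only [List.map_cons, smChk, Bool.and_eq_true, sm_zip] at h
      cases hS with
      | cons _ hS' => exact ih f (k + 1) h.1 S hS' hk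
      | @cons_cons S' _ _ hS' =>
        have h1 := ih (fun x => f x + 8 ^ smDist x w) k h.2 S' hS' (by simpa using hk)
        simpa [smCode, add_assoc] using h1

theorem sm_lower {n m k : ℕ} (hn : n ≤ 5) (hm : m ≤ 5) (hk : k ≤ 7) (A : List (List ℕ))
    (hA : (smV n m).map (fun w => (smV n m).map fun x => 8 ^ smDist x w) = A)
    (h : smChk A ((smV n m).map fun _ => 0) k = true) (W : Finset (ℤ × ℤ)) (hW : Res n m W) :
    k + 1 ≤ W.card := by
  classical
  by_contra hcon
  have hndV : (smV n m).Nodup := by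
    unfold smV
    rw [List.nodup_flatMap]
    refine ⟨?_, ?_⟩
    · intro i _
      exact (List.nodup_range).map (fun a b hab => by simpa using hab)
    · refine List.Pairwise.imp ?_ (List.nodup_range (n := n))
      intro i j hij
      simp only [Function.onFun, List.disjoint_left, List.mem_map, List.mem_range]
      rintro _ ⟨a, _, rfl⟩ ⟨b, _, hb⟩
      have := congrArg Prod.fst hb
      simp only at this
      omega
  set L : List (ℕ × ℕ) := (smV n m).filter (fun v => decide (smC v ∈ W)) with hL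
  have hLnd : (L.map smC).Nodup := (hndV.filter _).map smC_inj
  have hWL : W.val = ((L.map smC : List (ℤ × ℤ)) : Multiset (ℤ × ℤ)) := by
    have h1 : W = (L.map smC).toFinset := by
      ext x
      rw [List.mem_toFinset, List.mem_map]
      constructor
      · intro hx
        obtain ⟨v, hv, rfl⟩ := exists_smC (hW.sub x hx)
        exact ⟨v, by rw [hL, List.mem_filter]; exact ⟨hv, by simpa using hx⟩, rfl⟩
      · rintro ⟨v, hv, rfl⟩
        rw [hL, List.mem_filter] at hv
        simpa using hv.2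
    have h2 : ((L.map smC).toFinset).val = ((L.map smC : List (ℤ × ℤ)) : Multiset (ℤ × ℤ)) := by
      rw [List.toFinset_val, hLnd.dedup]
    rw [← h2, ← h1]
  have hcard : L.length = W.card := by
    have h1 := congrArg Multiset.card hWL
    simp only [Multiset.coe_card, List.length_map] at h1
    exact h1.symm
  have hsub : L.Sublist (smV n m) := List.filter_sublist
  have h1 := smChk_spec (smV n m) (smV n m) (fun _ => 0) k (by rw [hA]; exact h) L hsub (by omega)
  rw [smDup_iff] at h1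
  apply h1
  apply List.Nodup.map_on _ hndV
  intro x hx y hy hxy
  simp only [zero_add] at hxy
  apply smC_inj
  apply hW.inj _ _ (inG_smC.mpr hx) (inG_smC.mpr hy)
  rw [rep_smC hWL, rep_smC hWL]
  congr 1
  have hlt : ∀ z ∈ smV n m, ∀ d ∈ ((L.map (smDist z) : List ℕ) : Multiset ℕ), d < 5 := by
    intro z hz d hd
    rw [Multiset.mem_coe, List.mem_map] at hd
    obtain ⟨w, hw, rfl⟩ := hd
    have hwV : w ∈ smV n m := hsub.subset hw
    rw [mem_smV] at hz hwV
    unfold smDist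
    rw [max_lt_iff]
    omega
  apply sm_unique _ _ (hlt x hx) (hlt y hy)
  · simp only [Multiset.coe_card, List.length_map]
    omega
  · simp only [Multiset.coe_card, List.length_map]
    omega
  · simpa [smCode, Function.comp_def] using hxy

def smA44 : List (List ℕ) := [[1, 8, 64, 512, 8, 8, 64, 512, 64, 64, 64, 512, 512, 512, 512, 512],
  [8, 1, 8, 64, 8, 8, 8, 64, 64, 64, 64, 64, 512, 512, 512, 512],
  [64, 8, 1, 8, 64, 8, 8, 8, 64, 64, 64, 64, 512, 512, 512, 512],
  [512, 64, 8, 1, 512, 64, 8, 8, 512, 64, 64, 64, 512, 512, 512, 512],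
  [8, 8, 64, 512, 1, 8, 64, 512, 8, 8, 64, 512, 64, 64, 64, 512],
  [8, 8, 8, 64, 8, 1, 8, 64, 8, 8, 8, 64, 64, 64, 64, 64],
  [64, 8, 8, 8, 64, 8, 1, 8, 64, 8, 8, 8, 64, 64, 64, 64],
  [512, 64, 8, 8, 512, 64, 8, 1, 512, 64, 8, 8, 512, 64, 64, 64],
  [64, 64, 64, 512, 8, 8, 64, 512, 1, 8, 64, 512, 8, 8, 64, 512],
  [64, 64, 64, 64, 8, 8, 8, 64, 8, 1, 8, 64, 8, 8, 8, 64],
  [64, 64, 64, 64, 64, 8, 8, 8, 64, 8, 1, 8, 64, 8, 8, 8],
  [512, 64, 64, 64, 512, 64, 8, 8, 512, 64, 8, 1, 512, 64, 8, 8],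
  [512, 512, 512, 512, 64, 64, 64, 512, 8, 8, 64, 512, 1, 8, 64, 512],
  [512, 512, 512, 512, 64, 64, 64, 64, 8, 8, 8, 64, 8, 1, 8, 64],
  [512, 512, 512, 512, 64, 64, 64, 64, 64, 8, 8, 8, 64, 8, 1, 8],
  [512, 512, 512, 512, 512, 64, 64, 64, 512, 64, 8, 8, 512, 64, 8, 1]]

def smA45 : List (List ℕ) := [[1, 8, 64, 512, 4096, 8, 8, 64, 512, 4096, 64, 64, 64, 512, 4096, 512, 512, 512, 512, 4096],
  [8, 1, 8, 64, 512, 8, 8, 8, 64, 512, 64, 64, 64, 64, 512, 512, 512, 512, 512, 512],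
  [64, 8, 1, 8, 64, 64, 8, 8, 8, 64, 64, 64, 64, 64, 64, 512, 512, 512, 512, 512],
  [512, 64, 8, 1, 8, 512, 64, 8, 8, 8, 512, 64, 64, 64, 64, 512, 512, 512, 512, 512],
  [4096, 512, 64, 8, 1, 4096, 512, 64, 8, 8, 4096, 512, 64, 64, 64, 4096, 512, 512, 512, 512],
  [8, 8, 64, 512, 4096, 1, 8, 64, 512, 4096, 8, 8, 64, 512, 4096, 64, 64, 64, 512, 4096],
  [8, 8, 8, 64, 512, 8, 1, 8, 64, 512, 8, 8, 8, 64, 512, 64, 64, 64, 64, 512],
  [64, 8, 8, 8, 64, 64, 8, 1, 8, 64, 64, 8, 8, 8, 64, 64, 64, 64, 64, 64],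
  [512, 64, 8, 8, 8, 512, 64, 8, 1, 8, 512, 64, 8, 8, 8, 512, 64, 64, 64, 64],
  [4096, 512, 64, 8, 8, 4096, 512, 64, 8, 1, 4096, 512, 64, 8, 8, 4096, 512, 64, 64, 64],
  [64, 64, 64, 512, 4096, 8, 8, 64, 512, 4096, 1, 8, 64, 512, 4096, 8, 8, 64, 512, 4096],
  [64, 64, 64, 64, 512, 8, 8, 8, 64, 512, 8, 1, 8, 64, 512, 8, 8, 8, 64, 512],
  [64, 64, 64, 64, 64, 64, 8, 8, 8, 64, 64, 8, 1, 8, 64, 64, 8, 8, 8, 64],
  [512, 64, 64, 64, 64, 512, 64, 8, 8, 8, 512, 64, 8, 1, 8, 512, 64, 8, 8, 8],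
  [4096, 512, 64, 64, 64, 4096, 512, 64, 8, 8, 4096, 512, 64, 8, 1, 4096, 512, 64, 8, 8],
  [512, 512, 512, 512, 4096, 64, 64, 64, 512, 4096, 8, 8, 64, 512, 4096, 1, 8, 64, 512, 4096],
  [512, 512, 512, 512, 512, 64, 64, 64, 64, 512, 8, 8, 8, 64, 512, 8, 1, 8, 64, 512],
  [512, 512, 512, 512, 512, 64, 64, 64, 64, 64, 64, 8, 8, 8, 64, 64, 8, 1, 8, 64],
  [512, 512, 512, 512, 512, 512, 64, 64, 64, 64, 512, 64, 8, 8, 8, 512, 64, 8, 1, 8],
  [4096, 512, 512, 512, 512, 4096, 512, 64, 64, 64, 4096, 512, 64, 8, 8, 4096, 512, 64, 8, 1]]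

theorem small44 (W : Finset (ℤ × ℤ)) (h : Res 4 4 W) : 6 ≤ W.card :=
  sm_lower (n := 4) (m := 4) (k := 5) (by norm_num) (by norm_num) (by norm_num) smA44
    (by decide +kernel) (by decide +kernel) W h

theorem small45 (W : Finset (ℤ × ℤ)) (h : Res 4 5 W) : 5 ≤ W.card :=
  sm_lower (n := 4) (m := 5) (k := 4) (by norm_num) (by norm_num) (by norm_num) smA45
    (by decide +kernel) (by decide +kernel) W h

/-- explicit resolving sets -/
theorem sm_upper (n m : ℕ) (L : List (ℕ × ℕ)) (hL : L.Nodup) (hsub : ∀ w ∈ L, w ∈ smV n m)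
    (hcode : smDup ((smV n m).map (smCode L)) = false) :
    ∃ W : Finset (ℤ × ℤ), Res n m W ∧ W.card = L.length := by
  classical
  have hnd : (L.map smC).Nodup := hL.map smC_inj
  have hval : ((L.map smC).toFinset).val = ((L.map smC : List (ℤ × ℤ)) : Multiset (ℤ × ℤ)) := by
    rw [List.toFinset_val, hnd.dedup]
  refine ⟨(L.map smC).toFinset, ⟨?_, ?_⟩, ?_⟩
  · intro w hw
    rw [List.mem_toFinset, List.mem_map] at hw
    obtain ⟨v, hv, rfl⟩ := hw
    exact inG_smC.mpr (hsub v hv)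
  · intro x y hx hy hxy
    obtain ⟨v, hv, rfl⟩ := exists_smC hx
    obtain ⟨w, hw, rfl⟩ := exists_smC hy
    have h1 := code_eq_of_rep hval hxy
    have h2 : ((smV n m).map (smCode L)).Nodup := by
      by_contra h3
      rw [← smDup_iff] at h3
      rw [h3] at hcode
      exact Bool.noConfusion hcode
    exact congrArg smC (List.inj_on_of_nodup_map h2 hv hw h1)
  · rw [List.toFinset_card_of_nodup hnd, List.length_map]

theorem up_4_4 : ∃ W : Finset (ℤ × ℤ), Res 4 4 W ∧ W.card = 6 :=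
  sm_upper 4 4 [(1, 1), (3, 1), (3, 3), (3, 4), (4, 1), (4, 3)] (by decide +kernel) (by decide +kernel)
    (by decide +kernel)

theorem up_4_5 : ∃ W : Finset (ℤ × ℤ), Res 4 5 W ∧ W.card = 5 :=
  sm_upper 4 5 [(1, 2), (4, 1), (4, 2), (4, 3), (4, 5)] (by decide +kernel) (by decide +kernel)
    (by decide +kernel)

theorem up_4_6 : ∃ W : Finset (ℤ × ℤ), Res 4 6 W ∧ W.card = 5 :=
  sm_upper 4 6 [(1, 2), (1, 3), (3, 1), (4, 1), (4, 6)] (by decide +kernel) (by decide +kernel)
    (by decide +kernel)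

theorem up_4_7 : ∃ W : Finset (ℤ × ℤ), Res 4 7 W ∧ W.card = 5 :=
  sm_upper 4 7 [(1, 1), (1, 3), (1, 4), (3, 2), (4, 7)] (by decide +kernel) (by decide +kernel)
    (by decide +kernel)

theorem up_4_8 : ∃ W : Finset (ℤ × ℤ), Res 4 8 W ∧ W.card = 5 :=
  sm_upper 4 8 [(1, 4), (2, 8), (3, 8), (4, 1), (4, 7)] (by decide +kernel) (by decide +kernel)
    (by decide +kernel)

theorem up_4_9 : ∃ W : Finset (ℤ × ℤ), Res 4 9 W ∧ W.card = 5 :=
  sm_upper 4 9 [(1, 6), (2, 1), (4, 2), (4, 3), (4, 9)] (by decide +kernel) (by decide +kernel)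
    (by decide +kernel)

theorem up_4_10 : ∃ W : Finset (ℤ × ℤ), Res 4 10 W ∧ W.card = 6 :=
  sm_upper 4 10 [(1, 4), (1, 5), (1, 10), (3, 9), (4, 1), (4, 8)] (by decide +kernel) (by decide +kernel)
    (by decide +kernel)

theorem up_5_7 : ∃ W : Finset (ℤ × ℤ), Res 5 7 W ∧ W.card = 5 :=
  sm_upper 5 7 [(1, 4), (3, 2), (4, 2), (4, 7), (5, 2)] (by decide +kernel) (by decide +kernel)
    (by decide +kernel)

theorem up_5_8 : ∃ W : Finset (ℤ × ℤ), Res 5 8 W ∧ W.card = 5 :=
  sm_upper 5 8 [(1, 3), (1, 5), (4, 2), (4, 8), (5, 1)] (by decide +kernel) (by decide +kernel)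
    (by decide +kernel)

theorem up_5_9 : ∃ W : Finset (ℤ × ℤ), Res 5 9 W ∧ W.card = 5 :=
  sm_upper 5 9 [(2, 1), (3, 2), (1, 3), (4, 6), (1, 9)] (by decide +kernel) (by decide +kernel)
    (by decide +kernel)

theorem up_5_10 : ∃ W : Finset (ℤ × ℤ), Res 5 10 W ∧ W.card = 5 :=
  sm_upper 5 10 [(1, 4), (1, 9), (4, 1), (4, 7), (5, 7)] (by decide +kernel) (by decide +kernel)
    (by decide +kernel)

theorem up_7_16 : ∃ W : Finset (ℤ × ℤ), Res 7 16 W ∧ W.card = 5 :=
  sm_upper 7 16 [(1, 6), (1, 16), (6, 1), (7, 1), (7, 11)] (by decide +kernel) (by decide +kernel)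
    (by decide +kernel)

end Mdim86
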