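import Pool.Agent.LibMdim86.Defs

/-!
# Three rows
-/

namespace Mdim86

namespace Three

lemma cnt {W : Finset (ℤ × ℤ)} {x y : ℤ × ℤ} (h : rep W x = rep W y) (q : ℤ → Prop)
    [DecidablePred q] :
    (W.filter fun w => q (dd x.1 x.2 w.1 w.2)).card =
      (W.filter fun w => q (dd y.1 y.2 w.1 w.2)).card := by
  have h1 := congrArg (Multiset.countP q) h
  unfold rep at h1
  rw [Multiset.countP_map, Multiset.countP_map] at h1
  exact h1

lemma rep_congr {W : Finset (ℤ × ℤ)} {x y : ℤ × ℤ}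
    (h : ∀ w ∈ W, dd x.1 x.2 w.1 w.2 = dd y.1 y.2 w.1 w.2) : rep W x = rep W y :=
  Multiset.map_congr rfl fun w hw => h w hw

lemma rep_swap {W : Finset (ℤ × ℤ)} {x y p q : ℤ × ℤ} (hp : p ∈ W) (hq : q ∈ W) (hpq : p ≠ q)
    (h : ∀ w ∈ W, w ≠ p → w ≠ q → dd x.1 x.2 w.1 w.2 = dd y.1 y.2 w.1 w.2)
    (h1 : dd x.1 x.2 p.1 p.2 = dd y.1 y.2 q.1 q.2)
    (h2 : dd x.1 x.2 q.1 q.2 = dd y.1 y.2 p.1 p.2) : rep W x = rep W y := by
  classical
  have hq' : q ∈ W.erase p := Finset.mem_erase.2 ⟨hpq.symm, hq⟩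
  have e : W.val = p ::ₘ q ::ₘ ((W.erase p).erase q).val := by
    rw [Finset.erase_val, Multiset.cons_erase (show q ∈ (W.erase p).val from hq'), Finset.erase_val,
      Multiset.cons_erase (show p ∈ W.val from hp)]
  unfold rep
  rw [e, Multiset.map_cons, Multiset.map_cons, Multiset.map_cons, Multiset.map_cons, h1, h2,
    Multiset.cons_swap]
  congr 2
  refine Multiset.map_congr rfl fun w hw => ?_
  have hw' : w ∈ (W.erase p).erase q := hw
  rw [Finset.mem_erase, Finset.mem_erase] at hw'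
  exact h w hw'.2.2 hw'.2.1 hw'.1

/-- an empty column has a doubled neighbour -/
lemma empty_nbr {m : ℤ} {W : Finset (ℤ × ℤ)} (h : Res 3 m W) {j : ℤ} (h1 : 1 ≤ j) (hm : j ≤ m)
    (hj : ∀ w ∈ W, w.2 ≠ j) : ((1, j - 1) ∈ W ∧ (3, j - 1) ∈ W) ∨ ((1, j + 1) ∈ W ∧ (3, j + 1) ∈ W) := by
  have hrow : ∀ w ∈ W, 1 ≤ w.1 ∧ w.1 ≤ 3 := fun w hw => ⟨(h.sub w hw).1, (h.sub w hw).2.1⟩
  -- first: rows 1 and 2
  have hA : ¬ ((3, j - 1) ∉ W ∧ (3, j + 1) ∉ W) := by
    rintro ⟨ha, hb⟩
    have := h.inj (1, j) (2, j) ⟨by norm_num, by norm_num, h1, hm⟩ ⟨by norm_num, by norm_num, h1, hm⟩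
      (rep_congr fun w hw => by
        obtain ⟨a, b⟩ := w
        have hr := hrow _ hw
        have hc := hj _ hw
        have e1 : ¬ (a = 3 ∧ b = j - 1) := by rintro ⟨rfl, rfl⟩; exact ha hw
        have e2 : ¬ (a = 3 ∧ b = j + 1) := by rintro ⟨rfl, rfl⟩; exact hb hw
        simp only [dd, abs_eq_max_neg] at *
        omega)
    simp at this
  have hB : ¬ ((1, j - 1) ∉ W ∧ (1, j + 1) ∉ W) := by
    rintro ⟨ha, hb⟩
    have := h.inj (3, j) (2, j) ⟨by norm_num, by norm_num, h1, hm⟩ ⟨by norm_num, by norm_num, h1, hm⟩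
      (rep_congr fun w hw => by
        obtain ⟨a, b⟩ := w
        have hr := hrow _ hw
        have hc := hj _ hw
        have e1 : ¬ (a = 1 ∧ b = j - 1) := by rintro ⟨rfl, rfl⟩; exact ha hw
        have e2 : ¬ (a = 1 ∧ b = j + 1) := by rintro ⟨rfl, rfl⟩; exact hb hw
        simp only [dd, abs_eq_max_neg] at *
        omega)
    simp at this
  by_contra hcon
  have key : ∀ c c' : ℤ, (c = j - 1 ∧ c' = j + 1) ∨ (c = j + 1 ∧ c' = j - 1) →
      (1, c) ∈ W → (3, c') ∈ W → (3, c) ∉ W → (1, c') ∉ W → False := by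
    intro c c' hcc hp hq h3 h4
    have := h.inj (1, j) (3, j) ⟨by norm_num, by norm_num, h1, hm⟩ ⟨by norm_num, by norm_num, h1, hm⟩
      (rep_swap hp hq (by simp) (fun w hw hwp hwq => by
        obtain ⟨a, b⟩ := w
        have hr := hrow _ hw
        have hc := hj _ hw
        have e1 : ¬ (a = 3 ∧ b = c) := by rintro ⟨rfl, rfl⟩; exact h3 hw
        have e2 : ¬ (a = 1 ∧ b = c') := by rintro ⟨rfl, rfl⟩; exact h4 hw
        have e3 : ¬ (a = 1 ∧ b = c) := by rintro ⟨rfl, rfl⟩; exact hwp rfl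
        have e4 : ¬ (a = 3 ∧ b = c') := by rintro ⟨rfl, rfl⟩; exact hwq rfl
        simp only [dd, abs_eq_max_neg] at *
        omega) (by simp only [dd, abs_eq_max_neg]; omega) (by simp only [dd, abs_eq_max_neg]; omega))
    simp at this
  by_cases a1 : (1, j - 1) ∈ W <;> by_cases a2 : (1, j + 1) ∈ W <;>
    by_cases a3 : (3, j - 1) ∈ W <;> by_cases a4 : (3, j + 1) ∈ W <;>
    first
    | exact hcon (Or.inl ⟨a1, a3⟩)
    | exact hcon (Or.inr ⟨a2, a4⟩)
    | exact hA ⟨a3, a4⟩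
    | exact hB ⟨a1, a2⟩
    | exact key (j - 1) (j + 1) (Or.inl ⟨rfl, rfl⟩) a1 a4 a3 a2
    | exact key (j + 1) (j - 1) (Or.inr ⟨rfl, rfl⟩) a2 a3 a4 a1

/-- a doubled column has at most one empty neighbour -/
lemma doubled_nbr {m : ℤ} {W : Finset (ℤ × ℤ)} (h : Res 3 m W) {c : ℤ} (h1 : (1, c) ∈ W)
    (h3 : (3, c) ∈ W) (ha : ∀ w ∈ W, w.2 ≠ c - 1) (hb : ∀ w ∈ W, w.2 ≠ c + 1) : False := by
  have hc := h.sub _ h1
  have := h.inj (1, c) (3, c) ⟨by norm_num, by norm_num, hc.2.2.1, hc.2.2.2⟩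
    ⟨by norm_num, by norm_num, hc.2.2.1, hc.2.2.2⟩
    (rep_swap h1 h3 (by simp) (fun w hw hwp hwq => by
      have hr := h.sub w hw
      obtain ⟨a, b⟩ := w
      have e1 := ha _ hw
      have e2 := hb _ hw
      have e3 : ¬ (a = 1 ∧ b = c) := by rintro ⟨rfl, rfl⟩; exact hwp rfl
      have e4 : ¬ (a = 3 ∧ b = c) := by rintro ⟨rfl, rfl⟩; exact hwq rfl
      simp only [dd, InG, abs_eq_max_neg] at *
      omega) (by simp only [dd, abs_eq_max_neg]; omega) (by simp only [dd, abs_eq_max_neg]; omega))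
  simp at this

/-- lower bound -/
theorem lb {m : ℕ} {W : Finset (ℤ × ℤ)} (h : Res 3 m W) : m ≤ W.card := by
  classical
  have hφ : ∀ j : ℤ, ∃ w : ℤ × ℤ, 1 ≤ j → j ≤ m → w ∈ W ∧
      ((w.2 = j ∧ ((1, j) ∈ W → w.1 = 1)) ∨
        ((∀ v ∈ W, v.2 ≠ j) ∧ w.1 = 3 ∧ (1, w.2) ∈ W ∧ (w.2 = j - 1 ∨ w.2 = j + 1))) := by
    intro j
    by_cases hj : 1 ≤ j ∧ j ≤ m
    · by_cases h1 : (1, j) ∈ W
      · exact ⟨(1, j), fun _ _ => ⟨h1, Or.inl ⟨rfl, fun _ => rfl⟩⟩⟩
      · by_cases h2 : ∃ w ∈ W, w.2 = j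
        · obtain ⟨w, hw, hwj⟩ := h2
          exact ⟨w, fun _ _ => ⟨hw, Or.inl ⟨hwj, fun h3 => absurd h3 h1⟩⟩⟩
        · push Not at h2
          rcases empty_nbr h hj.1 hj.2 h2 with h3 | h3
          · exact ⟨(3, j - 1), fun _ _ => ⟨h3.2, Or.inr ⟨h2, rfl, h3.1, Or.inl rfl⟩⟩⟩
          · exact ⟨(3, j + 1), fun _ _ => ⟨h3.2, Or.inr ⟨h2, rfl, h3.1, Or.inr rfl⟩⟩⟩
    · exact ⟨0, fun h1 h2 => absurd ⟨h1, h2⟩ hj⟩
  choose φ hφ using hφ
  have hc : (Finset.Icc (1 : ℤ) m).card = m := by simp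
  rw [← hc]
  refine Finset.card_le_card_of_injOn φ (fun j hj => ?_) ?_
  · rw [Finset.coe_Icc] at hj
    exact (hφ j hj.1 hj.2).1
  · intro i hi j hj hij
    rw [Finset.coe_Icc] at hi hj
    obtain ⟨mi, ci⟩ := hφ i hi.1 hi.2
    obtain ⟨mj, cj⟩ := hφ j hj.1 hj.2
    rw [← hij] at mj cj
    rcases ci with ⟨c1, c2⟩ | ⟨c1, c2, c3, c4⟩ <;> rcases cj with ⟨d1, d2⟩ | ⟨d1, d2, d3, d4⟩
    · rw [← c1, ← d1]
    · exfalso
      rw [c1] at d3
      have := c2 d3
      omega
    · exfalso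
      rw [d1] at c3
      have := d2 c3
      omega
    · by_contra hne
      have hw : φ i = (3, (φ i).2) := Prod.ext c2 rfl
      rw [hw] at mi
      have e : (i = (φ i).2 - 1 ∧ j = (φ i).2 + 1) ∨ (j = (φ i).2 - 1 ∧ i = (φ i).2 + 1) := by
        omega
      rcases e with ⟨e1, e2⟩ | ⟨e1, e2⟩
      · exact doubled_nbr h c3 mi (by rw [← e1]; exact c1) (by rw [← e2]; exact d1)
      · exact doubled_nbr h c3 mi (by rw [← e1]; exact d1) (by rw [← e2]; exact c1)

/-! ### the finite checks -/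

/-- distance of two vertices of the grid with `m` columns, numbered row by row -/
def nd (m x y : ℕ) : ℕ := max (x / m - y / m + (y / m - x / m)) (x % m - y % m + (y % m - x % m))

/-- insertion in a sorted list -/
def ins (a : ℕ) : List ℕ → List ℕ
  | [] => [a]
  | b :: l => if a ≤ b then a :: b :: l else b :: ins a l

/-- sorting -/
def srt : List ℕ → List ℕ
  | [] => []
  | a :: l => ins a (srt l)

/-- some entry occurs twice -/
def hasDup : List (List ℕ) → Bool
  | [] => false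
  | a :: l => l.contains a || hasDup l

/-- the list of points `L` does not resolve the grid with three rows and `m` columns -/
def bad (m : ℕ) (L : List ℕ) : Bool :=
  hasDup ((List.range (3 * m)).map fun x => srt (L.map (nd m x)))

theorem bad5 : (List.sublistsLen 5 (List.range 15)).all (bad 5) = true := by decide +kernel

theorem bad4 : (List.sublistsLen 4 (List.range 12)).all (bad 4) = true := by decide +kernel

theorem bad3 : ((List.range 9).sublists).all (bad 3) = true := by decide +kernel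

lemma ins_perm (a : ℕ) (l : List ℕ) : (ins a l).Perm (a :: l) := by
  induction l with
  | nil => exact List.Perm.refl _
  | cons b l ih =>
    unfold ins
    split_ifs
    · exact List.Perm.refl _
    · exact (ih.cons b).trans (List.Perm.swap a b l)

lemma srt_perm (l : List ℕ) : (srt l).Perm l := by
  induction l with
  | nil => exact List.Perm.refl _
  | cons a l ih => exact (ins_perm a _).trans (ih.cons a)

lemma not_nodup_of_hasDup (l : List (List ℕ)) (h : hasDup l = true) : ¬ l.Nodup := by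
  induction l with
  | nil => simp [hasDup] at h
  | cons a l ih =>
    intro hn
    rw [List.nodup_cons] at hn
    simp only [hasDup, Bool.or_eq_true, List.contains_iff_mem] at h
    rcases h with h | h
    · exact hn.1 h
    · exact ih h hn.2

/-- vertex number `k` -/
def vx (m k : ℕ) : ℤ × ℤ := (((k / m : ℕ) : ℤ) + 1, ((k % m : ℕ) : ℤ) + 1)

lemma dd_vx (m x y : ℕ) : dd (vx m x).1 (vx m x).2 (vx m y).1 (vx m y).2 = (nd m x y : ℤ) := by
  unfold dd vx nd
  generalize x / m = a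
  generalize y / m = b
  generalize x % m = c
  generalize y % m = d
  simp only [abs_eq_max_neg]
  omega

lemma vx_inj {m : ℕ} {x y : ℕ} (h : vx m x = vx m y) : x = y := by
  unfold vx at h
  simp only [Prod.mk.injEq, add_left_inj, Nat.cast_inj] at h
  rw [← Nat.div_add_mod x m, ← Nat.div_add_mod y m, h.1, h.2]

lemma vx_surj {m : ℕ} {w : ℤ × ℤ} (h : InG 3 m w) : ∃ k < 3 * m, vx m k = w := by
  obtain ⟨a, b⟩ := w
  obtain ⟨h1, h2, h3, h4⟩ := h
  simp only at h1 h2 h3 h4
  have hm : 0 < m := by omega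
  obtain ⟨i, rfl⟩ : ∃ i : ℕ, a = i + 1 := ⟨(a - 1).toNat, by omega⟩
  obtain ⟨j, rfl⟩ : ∃ j : ℕ, b = j + 1 := ⟨(b - 1).toNat, by omega⟩
  have hj : j < m := by omega
  have hi : i ≤ 2 := by omega
  refine ⟨m * i + j, by nlinarith, ?_⟩
  unfold vx
  rw [Nat.mul_add_div hm, Nat.div_eq_of_lt hj, Nat.mul_add_mod, Nat.mod_eq_of_lt hj]
  simp

lemma vx_mem {m k : ℕ} (hk : k < 3 * m) : InG 3 m (vx m k) := by
  have hm : 0 < m := by omega
  have h1 : k / m < 3 := by rw [Nat.div_lt_iff_lt_mul hm]; exact hk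
  have h2 : k % m < m := Nat.mod_lt _ hm
  unfold vx InG
  generalize k / m = c at *
  generalize k % m = d at *
  simp only
  omega

lemma rep_vx {m : ℕ} {W : Finset (ℤ × ℤ)} {L : List ℕ}
    (hval : W.val = ((L.map (vx m) : List (ℤ × ℤ)) : Multiset (ℤ × ℤ))) (z : ℕ) :
    rep W (vx m z) = (((L.map (nd m z)).map (fun t : ℕ => (t : ℤ)) : List ℤ) : Multiset ℤ) := by
  unfold rep
  rw [hval, Multiset.map_coe, List.map_map, List.map_map]
  congr 1
  refine List.map_congr_left fun k _ => ?_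
  exact dd_vx m z k

lemma not_res_of_bad {m : ℕ} {W : Finset (ℤ × ℤ)}
    (hb : ∀ L : List ℕ, L.Sublist (List.range (3 * m)) → L.length = W.card → bad m L = true)
    (h : Res 3 m W) : False := by
  classical
  set L : List ℕ := (List.range (3 * m)).filter fun k => decide (vx m k ∈ W) with hL
  rcases Nat.eq_zero_or_pos m with rfl | hm
  · have := hb [] (by simp) (by
      symm
      rw [List.length_nil, Finset.card_eq_zero, Finset.eq_empty_iff_forall_notMem]
      intro w hw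
      have := h.sub w hw
      unfold InG at this
      omega)
    simp [bad, hasDup] at this
  have hval : W.val = ((L.map (vx m) : List (ℤ × ℤ)) : Multiset (ℤ × ℤ)) := by
    have hnd : (L.map (vx m)).Nodup :=
      List.Nodup.map (fun x y hxy => vx_inj hxy) (List.nodup_range.filter _)
    refine (Multiset.Nodup.ext W.nodup (Multiset.coe_nodup.2 hnd)).2 fun w => ?_
    rw [Finset.mem_val, Multiset.mem_coe, List.mem_map]
    constructor
    · intro hw
      obtain ⟨k, hk, rfl⟩ := vx_surj (h.sub w hw)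
      exact ⟨k, by rw [hL, List.mem_filter]; exact ⟨List.mem_range.2 hk, by simpa using hw⟩, rfl⟩
    · rintro ⟨k, hk, rfl⟩
      rw [hL, List.mem_filter] at hk
      simpa using hk.2
  have hlen : L.length = W.card := by
    rw [Finset.card_def, hval, Multiset.coe_card, List.length_map]
  have hbad := not_nodup_of_hasDup _ (hb L List.filter_sublist hlen)
  apply hbad
  refine List.Nodup.map_on (fun x hx y hy hxy => ?_) List.nodup_range
  rw [List.mem_range] at hx hy
  have hperm : (L.map (nd m x)).Perm (L.map (nd m y)) := by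
    refine (srt_perm _).symm.trans ?_
    rw [hxy]
    exact srt_perm _
  refine vx_inj (h.inj _ _ (vx_mem hx) (vx_mem hy) ?_)
  rw [rep_vx hval, rep_vx hval, Multiset.coe_eq_coe]
  exact hperm.map _

theorem no_res3 {W : Finset (ℤ × ℤ)} (h : Res 3 (3 : ℕ) W) : False :=
  not_res_of_bad (m := 3) (fun L hL _ => by
    have := bad3
    rw [List.all_eq_true] at this
    exact this L (List.mem_sublists.2 hL)) h

theorem no_res4 {W : Finset (ℤ × ℤ)} (h : Res 3 (4 : ℕ) W) : W.card ≠ 4 := fun hc =>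
  not_res_of_bad (m := 4) (fun L hL hl => by
    have := bad4
    rw [List.all_eq_true] at this
    exact this L (List.mem_sublistsLen.2 ⟨hL, hl.trans hc⟩)) h

theorem no_res5 {W : Finset (ℤ × ℤ)} (h : Res 3 (5 : ℕ) W) : W.card ≠ 5 := fun hc =>
  not_res_of_bad (m := 5) (fun L hL hl => by
    have := bad5
    rw [List.all_eq_true] at this
    exact this L (List.mem_sublistsLen.2 ⟨hL, hl.trans hc⟩)) h

lemma res_of_good {m : ℕ} (L : List ℕ) (hn : L.Nodup) (hL : ∀ k ∈ L, k < 3 * m)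
    (hg : ∀ x < 3 * m, ∀ y < x, ¬ (L.map (nd m x)).Perm (L.map (nd m y))) :
    ∃ W : Finset (ℤ × ℤ), Res 3 m W ∧ W.card = L.length := by
  have hnd : (L.map (vx m)).Nodup := List.Nodup.map (fun x y hxy => vx_inj hxy) hn
  let W : Finset (ℤ × ℤ) := ⟨((L.map (vx m) : List (ℤ × ℤ)) : Multiset (ℤ × ℤ)),
    Multiset.coe_nodup.2 hnd⟩
  have hval : W.val = ((L.map (vx m) : List (ℤ × ℤ)) : Multiset (ℤ × ℤ)) := rfl
  refine ⟨W, ⟨fun w hw => ?_, fun x y hx hy hxy => ?_⟩, ?_⟩
  · rw [← Finset.mem_val, hval, Multiset.mem_coe, List.mem_map] at hw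
    obtain ⟨k, hk, rfl⟩ := hw
    exact vx_mem (hL k hk)
  · obtain ⟨k, hk, rfl⟩ := vx_surj hx
    obtain ⟨l, hl, rfl⟩ := vx_surj hy
    rw [rep_vx hval, rep_vx hval] at hxy
    have hp : (L.map (nd m k)).Perm (L.map (nd m l)) := by
      rw [← Multiset.coe_eq_coe]
      refine Multiset.map_injective (f := fun t : ℕ => (t : ℤ)) (fun a b hab => by simpa using hab) ?_
      rw [Multiset.map_coe, Multiset.map_coe]
      exact hxy
    rcases lt_trichotomy k l with hkl | hkl | hkl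
    · exact absurd hp.symm (hg l hl k hkl)
    · rw [hkl]
    · exact absurd hp (hg k hk l hkl)
  · rw [Finset.card_def, hval, Multiset.coe_card, List.length_map]

theorem up4 : ∃ W : Finset (ℤ × ℤ), Res 3 (4 : ℕ) W ∧ W.card = 5 :=
  res_of_good (m := 4) [2, 6, 8, 10, 11] (by decide) (by decide) (by decide +kernel)

theorem up5 : ∃ W : Finset (ℤ × ℤ), Res 3 (5 : ℕ) W ∧ W.card = 6 :=
  res_of_good (m := 5) [2, 3, 4, 10, 12, 14] (by decide) (by decide) (by decide +kernel)

theorem up6 : ∃ W : Finset (ℤ × ℤ), Res 3 (6 : ℕ) W ∧ W.card = 6 :=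
  res_of_good (m := 6) [1, 2, 3, 6, 15, 17] (by decide) (by decide) (by decide +kernel)

theorem up7 : ∃ W : Finset (ℤ × ℤ), Res 3 (7 : ℕ) W ∧ W.card = 7 :=
  res_of_good (m := 7) [0, 1, 3, 4, 13, 15, 19] (by decide) (by decide) (by decide +kernel)

/-! ### the family -/

/-- the points `(1,1)`, `(3,3)`, `(1,3), (1,4), ..., (1,m)` -/
noncomputable def fam (m : ℕ) : Finset (ℤ × ℤ) :=
  insert (1, 1) (insert (3, 3) ((Finset.Icc (3 : ℤ) m).image fun c => ((1 : ℤ), c)))

lemma mem_fam {m : ℕ} {w : ℤ × ℤ} :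
    w ∈ fam m ↔ (w.1 = 1 ∧ w.2 = 1) ∨ (w.1 = 3 ∧ w.2 = 3) ∨ (w.1 = 1 ∧ 3 ≤ w.2 ∧ w.2 ≤ m) := by
  obtain ⟨a, b⟩ := w
  unfold fam
  rw [Finset.mem_insert, Finset.mem_insert, Finset.mem_image]
  simp only [Prod.mk.injEq, Finset.mem_Icc]
  constructor
  · rintro (h | h | ⟨c, hc, rfl, rfl⟩)
    · exact Or.inl h
    · exact Or.inr (Or.inl h)
    · exact Or.inr (Or.inr ⟨rfl, hc⟩)
  · rintro (h | h | ⟨rfl, h⟩)
    · exact Or.inl h
    · exact Or.inr (Or.inl h)
    · exact Or.inr (Or.inr ⟨b, h, rfl, rfl⟩)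

lemma card_fam {m : ℕ} (hm : 2 ≤ m) : (fam m).card = m := by
  unfold fam
  rw [Finset.card_insert_of_notMem, Finset.card_insert_of_notMem,
    Finset.card_image_of_injective _ (fun a b h => (Prod.mk.inj h).2), Int.card_Icc]
  · omega
  · simp
  · simp

lemma fam_col {m : ℕ} (hm : 8 ≤ m) {i j i' j' : ℤ} (hx : InG 3 m (i, j)) (hy : InG 3 m (i', j'))
    (h : rep (fam m) (i, j) = rep (fam m) (i', j')) : max (j - 1) (m - j) ≤ max (j' - 1) (m - j') := by
  by_contra hcon
  push Not at hcon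
  have hc := cnt h (fun t => max (j - 1) (m - j) ≤ t)
  have h0 : ((fam m).filter fun w => max (j - 1) (m - j) ≤ dd i' j' w.1 w.2) = ∅ := by
    rw [Finset.filter_eq_empty_iff]
    rintro ⟨a, b⟩ hw
    rw [mem_fam] at hw
    simp only [InG, dd, abs_eq_max_neg] at *
    omega
  have h1 : 0 < ((fam m).filter fun w => max (j - 1) (m - j) ≤ dd i j w.1 w.2).card := by
    rw [Finset.card_pos]
    by_cases hj : m - j ≤ j - 1
    · refine ⟨(1, 1), ?_⟩
      rw [Finset.mem_filter, mem_fam]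
      refine ⟨Or.inl ⟨rfl, rfl⟩, ?_⟩
      simp only [InG, dd, abs_eq_max_neg] at *
      omega
    · refine ⟨(1, (m : ℤ)), ?_⟩
      rw [Finset.mem_filter, mem_fam]
      refine ⟨Or.inr (Or.inr ⟨rfl, by simp only; omega⟩), ?_⟩
      simp only [InG, dd, abs_eq_max_neg] at *
      omega
  simp only at hc
  rw [hc, h0] at h1
  simp at h1

lemma fam_mirror {m : ℕ} (hm : 8 ≤ m) {i j i' j' : ℤ} (hx : InG 3 m (i, j))
    (hy : InG 3 m (i', j')) (h : rep (fam m) (i, j) = rep (fam m) (i', j')) (hj : j < j')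
    (hjj : j + j' = m + 1) : False := by
  have hc := cnt h (fun t => m - j - 1 ≤ t)
  simp only at hc
  by_cases h2 : 2 * j = m
  · have h0 : ((fam m).filter fun w => m - j - 1 ≤ dd i' j' w.1 w.2) ⊆
        {((1 : ℤ), (1 : ℤ)), ((1 : ℤ), (m : ℤ))} := by
      rintro ⟨a, b⟩ hw
      rw [Finset.mem_filter, mem_fam] at hw
      simp only [Finset.mem_insert, Finset.mem_singleton, Prod.mk.injEq]
      simp only [InG, dd, abs_eq_max_neg] at *
      omega
    have h1 : ({((1 : ℤ), (1 : ℤ)), ((1 : ℤ), (m : ℤ)), ((1 : ℤ), (m : ℤ) - 1)} : Finset (ℤ × ℤ)) ⊆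
        ((fam m).filter fun w => m - j - 1 ≤ dd i j w.1 w.2) := by
      rintro ⟨a, b⟩ hw
      rw [Finset.mem_filter, mem_fam]
      simp only [Finset.mem_insert, Finset.mem_singleton, Prod.mk.injEq] at hw
      simp only [InG, dd, abs_eq_max_neg] at *
      omega
    have h3 := Finset.card_le_card h0
    have h4 := Finset.card_le_card h1
    have h5 : ({((1 : ℤ), (1 : ℤ)), ((1 : ℤ), (m : ℤ)), ((1 : ℤ), (m : ℤ) - 1)} :
        Finset (ℤ × ℤ)).card = 3 := by
      rw [Finset.card_insert_of_notMem, Finset.card_insert_of_notMem, Finset.card_singleton]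
      · simp only [Finset.mem_singleton, Prod.mk.injEq]
        omega
      · simp only [Finset.mem_insert, Finset.mem_singleton, Prod.mk.injEq]
        omega
    have h6 : ({((1 : ℤ), (1 : ℤ)), ((1 : ℤ), (m : ℤ))} : Finset (ℤ × ℤ)).card ≤ 2 :=
      Finset.card_le_two
    omega
  · have h0 : ((fam m).filter fun w => m - j - 1 ≤ dd i' j' w.1 w.2) ⊆
        {((1 : ℤ), (1 : ℤ))} := by
      rintro ⟨a, b⟩ hw
      rw [Finset.mem_filter, mem_fam] at hw
      simp only [Finset.mem_singleton, Prod.mk.injEq]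
      simp only [InG, dd, abs_eq_max_neg] at *
      omega
    have h1 : ({((1 : ℤ), (m : ℤ)), ((1 : ℤ), (m : ℤ) - 1)} : Finset (ℤ × ℤ)) ⊆
        ((fam m).filter fun w => m - j - 1 ≤ dd i j w.1 w.2) := by
      rintro ⟨a, b⟩ hw
      rw [Finset.mem_filter, mem_fam]
      simp only [Finset.mem_insert, Finset.mem_singleton, Prod.mk.injEq] at hw
      simp only [InG, dd, abs_eq_max_neg] at *
      omega
    have h3 := Finset.card_le_card h0
    have h4 := Finset.card_le_card h1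
    have h5 : ({((1 : ℤ), (m : ℤ)), ((1 : ℤ), (m : ℤ) - 1)} : Finset (ℤ × ℤ)).card = 2 := by
      rw [Finset.card_insert_of_notMem, Finset.card_singleton]
      simp only [Finset.mem_singleton, Prod.mk.injEq]
      omega
    rw [Finset.card_singleton] at h3
    omega

lemma fam_row3 {m : ℕ} (hm : 8 ≤ m) {i j : ℤ} (hx : InG 3 m (i, j)) (hi : i ≤ 2)
    (h : rep (fam m) (i, j) = rep (fam m) (3, j)) : False := by
  have hc := cnt h (fun t => t ≤ 1)
  simp only at hc
  by_cases h2 : 2 ≤ j ∧ j ≤ 4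
  · have h0 : ((fam m).filter fun w => dd 3 j w.1 w.2 ≤ 1) ⊆ {((3 : ℤ), (3 : ℤ))} := by
      rintro ⟨a, b⟩ hw
      rw [Finset.mem_filter, mem_fam] at hw
      simp only [Finset.mem_singleton, Prod.mk.injEq]
      simp only [InG, dd, abs_eq_max_neg] at *
      omega
    have h1 : ({((1 : ℤ), (3 : ℤ)), ((1 : ℤ), if j = 2 then 1 else (4 : ℤ))} : Finset (ℤ × ℤ)) ⊆
        ((fam m).filter fun w => dd i j w.1 w.2 ≤ 1) := by
      rintro ⟨a, b⟩ hw
      rw [Finset.mem_filter, mem_fam]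
      simp only [Finset.mem_insert, Finset.mem_singleton, Prod.mk.injEq] at hw
      simp only [InG, dd, abs_eq_max_neg] at *
      split_ifs at hw <;> omega
    have h3 := Finset.card_le_card h0
    have h4 := Finset.card_le_card h1
    have h5 : ({((1 : ℤ), (3 : ℤ)), ((1 : ℤ), if j = 2 then 1 else (4 : ℤ))} :
        Finset (ℤ × ℤ)).card = 2 := by
      rw [Finset.card_insert_of_notMem, Finset.card_singleton]
      simp only [Finset.mem_singleton, Prod.mk.injEq]
      split_ifs <;> omega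
    rw [Finset.card_singleton] at h3
    omega
  · have h0 : ((fam m).filter fun w => dd 3 j w.1 w.2 ≤ 1) = ∅ := by
      rw [Finset.filter_eq_empty_iff]
      rintro ⟨a, b⟩ hw
      rw [mem_fam] at hw
      simp only [InG, dd, abs_eq_max_neg] at *
      omega
    have h1 : 0 < ((fam m).filter fun w => dd i j w.1 w.2 ≤ 1).card := by
      rw [Finset.card_pos]
      refine ⟨(1, j), ?_⟩
      rw [Finset.mem_filter, mem_fam]
      have e0 : j = 1 ∨ (3 ≤ j ∧ j ≤ m) := by
        simp only [InG] at *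
        omega
      refine ⟨e0.elim (fun e => Or.inl ⟨rfl, e⟩) fun e => Or.inr (Or.inr ⟨rfl, e⟩), ?_⟩
      simp only [InG, dd, abs_eq_max_neg] at *
      omega
    rw [hc, h0] at h1
    simp at h1

lemma fam_row2 {m : ℕ} {j : ℤ} (hx : InG 3 m (1, j))
    (h : rep (fam m) (1, j) = rep (fam m) (2, j)) : False := by
  by_cases h2 : 2 ≤ j ∧ j ≤ 4
  · have hc := cnt h (fun t => t ≤ 1)
    simp only at hc
    have h0 : ((fam m).filter fun w => dd 1 j w.1 w.2 ≤ 1) ⊂
        ((fam m).filter fun w => dd 2 j w.1 w.2 ≤ 1) := by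
      rw [Finset.ssubset_iff_of_subset]
      · refine ⟨(3, 3), ?_, ?_⟩
        · rw [Finset.mem_filter, mem_fam]
          refine ⟨Or.inr (Or.inl ⟨rfl, rfl⟩), ?_⟩
          simp only [InG, dd, abs_eq_max_neg] at *
          omega
        · rw [Finset.mem_filter]
          rintro ⟨-, h4⟩
          simp only [InG, dd, abs_eq_max_neg] at *
          omega
      · rintro ⟨a, b⟩ hw
        rw [Finset.mem_filter, mem_fam] at hw ⊢
        simp only [InG, dd, abs_eq_max_neg] at *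
        omega
    have h3 := Finset.card_lt_card h0
    omega
  · have hc := cnt h (fun t => t ≤ 0)
    simp only at hc
    have h0 : ((fam m).filter fun w => dd 2 j w.1 w.2 ≤ 0) = ∅ := by
      rw [Finset.filter_eq_empty_iff]
      rintro ⟨a, b⟩ hw
      rw [mem_fam] at hw
      simp only [InG, dd, abs_eq_max_neg] at *
      omega
    have h1 : 0 < ((fam m).filter fun w => dd 1 j w.1 w.2 ≤ 0).card := by
      rw [Finset.card_pos]
      refine ⟨(1, j), ?_⟩
      rw [Finset.mem_filter, mem_fam]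
      have e0 : j = 1 ∨ (3 ≤ j ∧ j ≤ m) := by
        simp only [InG] at *
        omega
      refine ⟨e0.elim (fun e => Or.inl ⟨rfl, e⟩) fun e => Or.inr (Or.inr ⟨rfl, e⟩), ?_⟩
      simp only [InG, dd, abs_eq_max_neg] at *
      omega
    rw [hc, h0] at h1
    simp at h1

theorem up_gen {m : ℕ} (hm : 8 ≤ m) : Res 3 m (fam m) := by
  refine ⟨?_, ?_⟩
  · rintro ⟨a, b⟩ hw
    rw [mem_fam] at hw
    simp only [InG] at *
    omega
  · rintro ⟨i, j⟩ ⟨i', j'⟩ hx hy h
    have h1 := fam_col hm hx hy h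
    have h2 := fam_col hm hy hx h.symm
    have hjj : j = j' := by
      by_contra hne
      have e : j + j' = m + 1 := by simp only [InG] at *; omega
      rcases lt_or_gt_of_ne hne with hlt | hlt
      · exact fam_mirror hm hx hy h hlt e
      · exact fam_mirror hm hy hx h.symm hlt (by omega)
    subst hjj
    have hi : i = i' := by
      by_contra hne
      have e : (i ≤ 2 ∧ i' = 3) ∨ (i = 3 ∧ i' ≤ 2) ∨ (i = 1 ∧ i' = 2) ∨ (i = 2 ∧ i' = 1) := by
        simp only [InG] at *; omega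
      rcases e with ⟨e1, rfl⟩ | ⟨rfl, e1⟩ | ⟨rfl, rfl⟩ | ⟨rfl, rfl⟩
      · exact fam_row3 hm hx e1 h
      · exact fam_row3 hm hy e1 h.symm
      · exact fam_row2 hx h
      · exact fam_row2 hy h.symm
    rw [hi]

end Three

open Three in
/-- The grids with three rows. -/
theorem three {m : ℕ} (hm : 3 ≤ m) :
    (⨅ W : {W : Finset (ℤ × ℤ) // Res 3 m W}, (W.1.card : ℕ∞)) = value 3 m := by
  have key : ∀ k : ℕ, (∃ W : Finset (ℤ × ℤ), Res 3 m W ∧ W.card = k) →
      (∀ W : Finset (ℤ × ℤ), Res 3 m W → k ≤ W.card) →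
      (⨅ W : {W : Finset (ℤ × ℤ) // Res 3 m W}, (W.1.card : ℕ∞)) = k := by
    rintro k ⟨W, hW, hk⟩ hlb
    refine le_antisymm ?_ (le_iInf fun W => by exact_mod_cast hlb W.1 W.2)
    refine (iInf_le _ (⟨W, hW⟩ : {W : Finset (ℤ × ℤ) // Res 3 m W})).trans ?_
    simp only
    rw [hk]
  rcases (show m = 3 ∨ m = 4 ∨ m = 5 ∨ m = 6 ∨ m = 7 ∨ 8 ≤ m by omega) with
    rfl | rfl | rfl | rfl | rfl | h8
  · haveI : IsEmpty {W : Finset (ℤ × ℤ) // Res 3 (3 : ℕ) W} := ⟨fun W => no_res3 W.2⟩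
    rw [iInf_of_empty]
    rfl
  · rw [key 5 up4 fun W h => ?_]
    · simp [value]
    · have := lb h
      have := no_res4 h
      omega
  · rw [key 6 up5 fun W h => ?_]
    · simp [value]
    · have := lb h
      have := no_res5 h
      omega
  · rw [key 6 up6 fun W h => lb h]
    simp [value]
  · rw [key 7 up7 fun W h => lb h]
    simp [value]
  · rw [key m ⟨fam m, up_gen h8, card_fam (by omega)⟩ fun W h => lb h]
    unfold value
    rw [if_pos rfl, if_neg (by omega), if_neg (by omega), if_neg (by omega)]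

end Mdim86
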