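import Pool.Agent.LibMdim86.Win

/-!
# Upper bounds for three or more periods
-/

namespace Mdim86

/-- the zigzag `(1, c), (1 + s, c + s), (1, c + 2 s), …` -/
def zig (s c : ℤ) (t : ℕ) : ℤ × ℤ := (if t % 2 = 0 then 1 else 1 + s, c + t * s)

/-- the first `T + 1` points of the zigzag -/
def Z (s c : ℤ) (T : ℕ) : Finset (ℤ × ℤ) := (Finset.range (T + 1)).image (zig s c)

variable {n m s r : ℤ} {q : ℕ}

lemma dd_spec (i j a b : ℤ) : (i - a ≤ dd i j a b ∧ a - i ≤ dd i j a b ∧ j - b ≤ dd i j a b ∧
    b - j ≤ dd i j a b) ∧ (dd i j a b = i - a ∨ dd i j a b = a - i ∨ dd i j a b = j - b ∨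
    dd i j a b = b - j) := by
  unfold dd
  rcases abs_cases (i - a) with ⟨h1, h2⟩ | ⟨h1, h2⟩ <;>
    rcases abs_cases (j - b) with ⟨h3, h4⟩ | ⟨h3, h4⟩ <;>
    rw [h1, h3] <;> omega

lemma mem_Z {s c : ℤ} {T : ℕ} {w : ℤ × ℤ} : w ∈ Z s c T ↔ ∃ t ≤ T, zig s c t = w := by
  unfold Z
  rw [Finset.mem_image]
  constructor
  · rintro ⟨t, ht, h⟩
    exact ⟨t, by rw [Finset.mem_range] at ht; omega, h⟩
  · rintro ⟨t, ht, h⟩
    exact ⟨t, by rw [Finset.mem_range]; omega, h⟩

lemma card_Z {s : ℤ} (c : ℤ) (hs : 0 < s) (T : ℕ) : (Z s c T).card = T + 1 := by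
  unfold Z
  rw [Finset.card_image_of_injective, Finset.card_range]
  intro t t' h
  have h2 : c + t * s = c + t' * s := congrArg Prod.snd h
  have h3 : (t : ℤ) = t' := by
    have : (t : ℤ) * s = t' * s := by linarith
    exact mul_right_cancel₀ hs.ne' this
  exact_mod_cast h3

/-- equal representations give equal numbers of points with a property of the distance -/
lemma card_of_rep {W : Finset (ℤ × ℤ)} {x y : ℤ × ℤ} (he : rep W x = rep W y) (T : ℤ) :
    (W.filter fun w => T ≤ dd x.1 x.2 w.1 w.2).card =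
      (W.filter fun w => T ≤ dd y.1 y.2 w.1 w.2).card := by
  have key : ∀ z : ℤ × ℤ, (W.filter fun w => T ≤ dd z.1 z.2 w.1 w.2).card =
      (rep W z).countP (fun d => T ≤ d) := by
    intro z
    unfold rep
    rw [Multiset.countP_map, Finset.card_def, Finset.filter_val]
  rw [key, key, he]

lemma mem_of_rep {W : Finset (ℤ × ℤ)} {x y : ℤ × ℤ} (he : rep W x = rep W y) {w : ℤ × ℤ}
    (hw : w ∈ W) : ∃ w' ∈ W, dd y.1 y.2 w'.1 w'.2 = dd x.1 x.2 w.1 w.2 := by
  have h1 : dd x.1 x.2 w.1 w.2 ∈ rep W x := by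
    unfold rep
    exact Multiset.mem_map.2 ⟨w, hw, rfl⟩
  rw [he] at h1
  unfold rep at h1
  obtain ⟨w', h2, h3⟩ := Multiset.mem_map.1 h1
  exact ⟨w', h2, h3⟩

/-- the points outside a list `l` may be dropped when they do not separate `x` and `y` -/
lemma rep_list {W : Finset (ℤ × ℤ)} {l : List (ℤ × ℤ)} (hnd : l.Nodup) (hl : ∀ w ∈ l, w ∈ W)
    {x y : ℤ × ℤ} (h : ∀ w ∈ W, w ∉ l → dd x.1 x.2 w.1 w.2 = dd y.1 y.2 w.1 w.2)
    (he : rep W x = rep W y) :
    (l.map fun w : ℤ × ℤ => dd x.1 x.2 w.1 w.2).Perm (l.map fun w : ℤ × ℤ => dd y.1 y.2 w.1 w.2) := by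
  classical
  have hsub : l.toFinset ⊆ W := by
    intro w hw
    exact hl w (List.mem_toFinset.1 hw)
  have hval : ∀ z : ℤ × ℤ, rep W z = ((l.map fun w : ℤ × ℤ => dd z.1 z.2 w.1 w.2 : List ℤ) : Multiset ℤ) +
      (W \ l.toFinset).val.map fun w => dd z.1 z.2 w.1 w.2 := by
    intro z
    have h1 : W.val = (l : Multiset (ℤ × ℤ)) + (W \ l.toFinset).val := by
      have h2 : (l : Multiset (ℤ × ℤ)) = l.toFinset.val := by
        rw [List.toFinset_val, List.Nodup.dedup hnd]
      rw [h2]
      have h3 := Finset.union_sdiff_of_subset hsub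
      have h4 : Disjoint l.toFinset (W \ l.toFinset) := Finset.disjoint_sdiff
      rw [← Finset.disjUnion_val _ _ h4, Finset.disjUnion_eq_union, h3]
    unfold rep
    conv_lhs => rw [h1]
    rw [Multiset.map_add, Multiset.map_coe]
  rw [hval x, hval y] at he
  have h5 : (W \ l.toFinset).val.map (fun w => dd x.1 x.2 w.1 w.2) =
      (W \ l.toFinset).val.map (fun w => dd y.1 y.2 w.1 w.2) := by
    refine Multiset.map_congr rfl fun w hw => ?_
    have h6 : w ∈ W \ l.toFinset := hw
    rw [Finset.mem_sdiff, List.mem_toFinset] at h6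
    exact h w h6.1 h6.2
  rw [h5] at he
  have h7 := add_right_cancel he
  exact Multiset.coe_eq_coe.1 h7

/-- Criterion: it is enough to separate the rows of every column. -/
theorem crit {W : Finset (ℤ × ℤ)} {al : ℤ} (hsub : ∀ w ∈ W, InG n m w) (hal : 1 ≤ al)
    (hm : 2 * (n - 1) + 2 * al ≤ m - 1) {w0 w1 w2 : ℤ × ℤ} (h0 : w0 ∈ W) (h0' : w0.2 = 1)
    (hA : ∀ w ∈ W, w ≠ w0 → 1 + al ≤ w.2) (h1 : w1 ∈ W) (h1' : w1.2 = 1 + al)
    (h2 : w2 ∈ W) (h2' : w2.2 = m) (hC : ∀ w ∈ W, w ≠ w2 → w.2 < m - al)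
    (hcol : ∀ i i' j, 1 ≤ i → i < i' → i' ≤ n → 1 ≤ j → j ≤ m → rep W (i, j) ≠ rep W (i', j)) :
    Res n m W := by
  classical
  refine ⟨hsub, ?_⟩
  -- the maximal distance
  have hle : ∀ x : ℤ × ℤ, InG n m x → ∀ w ∈ W, dd x.1 x.2 w.1 w.2 ≤ max (x.2 - 1) (m - x.2) := by
    intro x hx w hw
    obtain ⟨a1, a2, a3, a4⟩ := hx
    obtain ⟨b1, b2, b3, b4⟩ := hsub w hw
    have := dd_spec x.1 x.2 w.1 w.2
    omega
  have hex : ∀ x : ℤ × ℤ, InG n m x → ∃ w ∈ W, dd x.1 x.2 w.1 w.2 = max (x.2 - 1) (m - x.2) := by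
    intro x hx
    obtain ⟨a1, a2, a3, a4⟩ := hx
    rcases le_total (x.2 - 1) (m - x.2) with h | h
    · refine ⟨w2, h2, ?_⟩
      obtain ⟨b1, b2, b3, b4⟩ := hsub w2 h2
      have := dd_spec x.1 x.2 w2.1 w2.2
      omega
    · refine ⟨w0, h0, ?_⟩
      obtain ⟨b1, b2, b3, b4⟩ := hsub w0 h0
      have := dd_spec x.1 x.2 w0.1 w0.2
      omega
  have hmax : ∀ x y : ℤ × ℤ, InG n m x → InG n m y → rep W x = rep W y →
      max (x.2 - 1) (m - x.2) ≤ max (y.2 - 1) (m - y.2) := by
    intro x y hx hy he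
    obtain ⟨w, hw, e1⟩ := hex x hx
    obtain ⟨w', hw', e2⟩ := mem_of_rep he hw
    rw [← e1, ← e2]
    exact hle y hy w' hw'
  -- two mirrored columns
  have hmir : ∀ x y : ℤ × ℤ, InG n m x → InG n m y → rep W x = rep W y → x.2 < y.2 →
      y.2 = m + 1 - x.2 → False := by
    intro x y hx hy he hlt hy2
    obtain ⟨a1, a2, a3, a4⟩ := hx
    obtain ⟨c1, c2, c3, c4⟩ := hy
    have hc := card_of_rep he (m - al - x.2)
    have hsubset : (W.filter fun w => m - al - x.2 ≤ dd x.1 x.2 w.1 w.2) ⊆
        if 1 ≤ 2 * x.2 - m + al then {w0, w2} else {w2} := by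
      intro w hw
      rw [Finset.mem_filter] at hw
      obtain ⟨hw1, hw2⟩ := hw
      obtain ⟨b1, b2, b3, b4⟩ := hsub w hw1
      by_cases e2 : w = w2
      · subst e2
        split_ifs <;> simp
      · have e3 := hC w hw1 e2
        by_cases e0 : w = w0
        · subst e0
          have := dd_spec x.1 x.2 w.1 w.2
          rw [if_pos (by omega)]
          simp
        · have e4 := hA w hw1 e0
          exfalso
          have := dd_spec x.1 x.2 w.1 w.2
          omega
    have hne02 : w0 ≠ w2 := by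
      rintro rfl
      omega
    have hne01 : w0 ≠ w1 := by
      rintro rfl
      omega
    have hne12 : w1 ≠ w2 := by
      rintro rfl
      omega
    have hsup : (if 1 ≤ 2 * x.2 - m + al then {w0, w1, w2} else {w0, w1}) ⊆
        (W.filter fun w => m - al - x.2 ≤ dd y.1 y.2 w.1 w.2) := by
      have m0 : w0 ∈ (W.filter fun w => m - al - x.2 ≤ dd y.1 y.2 w.1 w.2) := by
        rw [Finset.mem_filter]
        refine ⟨h0, ?_⟩
        have := dd_spec y.1 y.2 w0.1 w0.2
        omega
      have m1 : w1 ∈ (W.filter fun w => m - al - x.2 ≤ dd y.1 y.2 w.1 w.2) := by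
        rw [Finset.mem_filter]
        refine ⟨h1, ?_⟩
        have := dd_spec y.1 y.2 w1.1 w1.2
        omega
      split_ifs with hif
      · have m2 : w2 ∈ (W.filter fun w => m - al - x.2 ≤ dd y.1 y.2 w.1 w.2) := by
          rw [Finset.mem_filter]
          refine ⟨h2, ?_⟩
          have := dd_spec y.1 y.2 w2.1 w2.2
          omega
        intro w hw
        simp only [Finset.mem_insert, Finset.mem_singleton] at hw
        rcases hw with rfl | rfl | rfl
        · exact m0
        · exact m1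
        · exact m2
      · intro w hw
        simp only [Finset.mem_insert, Finset.mem_singleton] at hw
        rcases hw with rfl | rfl
        · exact m0
        · exact m1
    have k1 := Finset.card_le_card hsubset
    have k2 := Finset.card_le_card hsup
    split_ifs at k1 k2 with hif
    · have k3 : ({w0, w2} : Finset (ℤ × ℤ)).card = 2 := Finset.card_pair hne02
      have k4 : ({w0, w1, w2} : Finset (ℤ × ℤ)).card = 3 :=
        Finset.card_eq_three.2 ⟨w0, w1, w2, hne01, hne02, hne12, rfl⟩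
      omega
    · have k3 : ({w2} : Finset (ℤ × ℤ)).card = 1 := Finset.card_singleton _
      have k4 : ({w0, w1} : Finset (ℤ × ℤ)).card = 2 := Finset.card_pair hne01
      omega
  intro x y hx hy he
  have q1 := hmax x y hx hy he
  have q2 := hmax y x hy hx he.symm
  have hx' := hx
  have hy' := hy
  obtain ⟨a1, a2, a3, a4⟩ := hx'
  obtain ⟨c1, c2, c3, c4⟩ := hy'
  have q3 : x.2 = y.2 ∨ y.2 = m + 1 - x.2 := by omega
  by_cases hxy : x.2 = y.2
  · by_contra hne
    have hne1 : x.1 ≠ y.1 := fun h => hne (Prod.ext h hxy)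
    rcases lt_or_gt_of_ne hne1 with h | h
    · refine hcol x.1 y.1 x.2 a1 h c2 a3 a4 ?_
      have e1 : (x.1, x.2) = x := rfl
      have e2 : (y.1, x.2) = y := by rw [hxy]
      rw [e1, e2]
      exact he
    · refine hcol y.1 x.1 x.2 c1 h a2 a3 a4 ?_
      have e1 : (x.1, x.2) = x := rfl
      have e2 : (y.1, x.2) = y := by rw [hxy]
      rw [e1, e2]
      exact he.symm
  · exfalso
    have q4 : y.2 = m + 1 - x.2 := by
      rcases q3 with h | h
      · exact absurd h hxy
      · exact h
    rcases lt_or_gt_of_ne hxy with h | h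
    · exact hmir x y hx hy he h q4
    · exact hmir y x hy hx he.symm h (by omega)

lemma zig_fst (s c : ℤ) (t : ℕ) : (t % 2 = 0 ∧ (zig s c t).1 = 1) ∨ (t % 2 = 1 ∧ (zig s c t).1 = 1 + s) := by
  unfold zig
  rcases Nat.mod_two_eq_zero_or_one t with h | h
  · left; exact ⟨h, by simp [h]⟩
  · right; exact ⟨h, by simp [h]⟩

lemma zig_snd (s c : ℤ) (t : ℕ) : (zig s c t).2 = c + t * s := rfl

lemma s_facts (hn : 4 ≤ n) (hs : s = if Even n then n - 1 else n - 2) :
    3 ≤ s ∧ (∃ k, s = 2 * k + 1) ∧ (s = n - 1 ∨ s = n - 2) := by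
  rcases Int.even_or_odd n with h | h
  · rw [if_pos h] at hs
    obtain ⟨k, hk⟩ := h
    exact ⟨by omega, ⟨k - 1, by omega⟩, Or.inl hs⟩
  · rw [if_neg (by rw [Int.not_even_iff_odd]; exact h)] at hs
    obtain ⟨k, hk⟩ := h
    exact ⟨by omega, ⟨k - 1, by omega⟩, Or.inr hs⟩

/-- the last row, `n` odd -/
lemma row_n {W : Finset (ℤ × ℤ)} {i j : ℤ} (hi : 1 ≤ i) (hin : i ≤ n - 1)
    (hfar : ∀ w ∈ W, (w.2 ≤ j - (n - 1) ∨ j + (n - 1) ≤ w.2) ∨ (1 ≤ w.1 ∧ w.1 ≤ n - 1))
    {w0 : ℤ × ℤ} (hw0 : w0 ∈ W) (h1 : w0.1 = 1) (h2 : j - (n - 2) ≤ w0.2) (h3 : w0.2 ≤ j + (n - 2)) :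
    rep W (i, j) ≠ rep W (n, j) := by
  intro he
  have hc := card_of_rep he (n - 1)
  have hlt : (W.filter fun w => n - 1 ≤ dd (i, j).1 (i, j).2 w.1 w.2).card <
      (W.filter fun w => n - 1 ≤ dd (n, j).1 (n, j).2 w.1 w.2).card := by
    apply Finset.card_lt_card
    rw [Finset.ssubset_iff_of_subset]
    · refine ⟨w0, ?_, ?_⟩
      · rw [Finset.mem_filter]
        refine ⟨hw0, ?_⟩
        have := dd_spec n j w0.1 w0.2
        show n - 1 ≤ dd n j w0.1 w0.2
        omega
      · rw [Finset.mem_filter]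
        rintro ⟨_, h4⟩
        have := dd_spec i j w0.1 w0.2
        have h5 : n - 1 ≤ dd i j w0.1 w0.2 := h4
        omega
    · intro w hw
      rw [Finset.mem_filter] at hw ⊢
      obtain ⟨h4, h5⟩ := hw
      refine ⟨h4, ?_⟩
      have h6 : n - 1 ≤ dd i j w.1 w.2 := h5
      show n - 1 ≤ dd n j w.1 w.2
      have := dd_spec i j w.1 w.2
      have := dd_spec n j w.1 w.2
      have := hfar w h4
      omega
  omega

lemma perm_pair {a b c d : ℤ} (h : [a, b].Perm [c, d]) : (a = c ∧ b = d) ∨ (a = d ∧ b = c) := by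
  have h1 := h.sum_eq
  simp only [List.sum_cons, List.sum_nil, add_zero] at h1
  have h2 : a ∈ [c, d] := h.mem_iff.1 (by simp)
  simp only [List.mem_cons, List.not_mem_nil, or_false] at h2
  omega

/-- the columns covered by the zigzag -/
theorem generic {W : Finset (ℤ × ℤ)} (hn : 4 ≤ n) (hs : s = if Even n then n - 1 else n - 2)
    {c : ℤ} {T : ℕ} (hT : 1 ≤ T) (hZ : Z s c T ⊆ W) {i i' j : ℤ} (hc : c ≤ j) (hj : j ≤ c + T * s)
    (hfar : ∀ w ∈ W, w ∉ Z s c T → (w.2 ≤ j - (n - 1) ∨ j + (n - 1) ≤ w.2))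
    (hrow : ∀ w ∈ W, 1 ≤ w.1 ∧ w.1 ≤ n) (hi : 1 ≤ i) (hii : i < i') (hin : i' ≤ n) :
    rep W (i, j) ≠ rep W (i', j) := by
  obtain ⟨s3, ⟨ks, hks⟩, hns⟩ := s_facts hn hs
  -- the period
  obtain ⟨t, u, htu, hu0, hus⟩ : ∃ (t : ℕ) (u : ℤ), j = c + t * s + u ∧ 0 ≤ u ∧ u < s := by
    refine ⟨((j - c) / s).toNat, (j - c) % s, ?_, Int.emod_nonneg _ (by omega), Int.emod_lt_of_pos _ (by omega)⟩
    have h1 : 0 ≤ (j - c) / s := Int.ediv_nonneg (by omega) (by omega)
    rw [Int.toNat_of_nonneg h1]
    have := Int.mul_ediv_add_emod (j - c) s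
    linarith [mul_comm s ((j - c) / s)]
  have htT : t ≤ T := by
    by_contra hcon
    have h1 : (T : ℤ) + 1 ≤ t := by omega
    nlinarith
  have hmemZ : ∀ t' ≤ T, zig s c t' ∈ W := fun t' h => hZ (mem_Z.2 ⟨t', h, rfl⟩)
  -- the rows of zigzag points
  have hZrow : ∀ w ∈ Z s c T, 1 ≤ w.1 ∧ w.1 ≤ 1 + s := by
    intro w hw
    obtain ⟨t', _, rfl⟩ := mem_Z.1 hw
    have := zig_fst s c t'
    omega
  have hlast : t = T → u = 0 := by
    intro h
    rw [← h] at hj
    omega
  by_cases hodd : i' = n ∧ s = n - 2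
  · obtain ⟨hi', hsn⟩ := hodd
    rw [hi']
    -- a zigzag point of row `1` close to the column
    have hex : ∃ t' ≤ T, (zig s c t').1 = 1 ∧ j - (n - 2) ≤ (zig s c t').2 ∧
        (zig s c t').2 ≤ j + (n - 2) := by
      rcases zig_fst s c t with ⟨h1, h2⟩ | ⟨h1, h2⟩
      · refine ⟨t, htT, h2, ?_, ?_⟩ <;> rw [zig_snd] <;> omega
      · rcases eq_or_ne u 0 with h3 | h3
        · have h4 := zig_fst s c (t - 1)
          refine ⟨t - 1, by omega, by omega, ?_, ?_⟩ <;> rw [zig_snd] <;>
            rw [show ((t - 1 : ℕ) : ℤ) * s = t * s - s by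
              rw [Nat.cast_sub (by omega)]; push_cast; ring] <;> omega
        · have h4 := zig_fst s c (t + 1)
          have h5 : t ≠ T := fun h => h3 (hlast h)
          refine ⟨t + 1, by omega, by omega, ?_, ?_⟩ <;> rw [zig_snd] <;>
            rw [show ((t + 1 : ℕ) : ℤ) * s = t * s + s by push_cast; ring] <;> omega
    obtain ⟨t', ht', h1, h2, h3⟩ := hex
    refine row_n hi (by omega) ?_ (hmemZ t' ht') h1 h2 h3
    intro w hw
    by_cases hwZ : w ∈ Z s c T
    · have := hZrow w hwZ
      right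
      omega
    · left
      exact hfar w hw hwZ
  · have hi' : i' ≤ 1 + s := by
      rcases hns with h1 | h1
      · omega
      · by_contra hcon
        exact hodd ⟨by omega, h1⟩
    intro he
    -- points that do not separate
    have hsame : ∀ w ∈ W, ((w.2 ≤ j - (n - 1) ∨ j + (n - 1) ≤ w.2) ∨
        ((w.2 ≤ j - s ∨ j + s ≤ w.2) ∧ 1 ≤ w.1 ∧ w.1 ≤ 1 + s)) →
        dd (i, j).1 (i, j).2 w.1 w.2 = dd (i', j).1 (i', j).2 w.1 w.2 := by
      intro w hw h
      have := hrow w hw
      show dd i j w.1 w.2 = dd i' j w.1 w.2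
      have := dd_spec i j w.1 w.2
      have := dd_spec i' j w.1 w.2
      omega
    rcases lt_or_eq_of_le htT with htT' | htT'
    · have hp := rep_list (l := [zig s c t, zig s c (t + 1)]) ?_ ?_ ?_ he
      · simp only [List.map_cons, List.map_nil, zig_snd] at hp
        rw [show ((t + 1 : ℕ) : ℤ) * s = t * s + s by push_cast; ring] at hp
        have hq := perm_pair hp
        have e1 : c + t * s = j - u := by omega
        have e2 : c + (t * s + s) = j + (s - u) := by omega
        rw [e1, e2] at hq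
        rcases zig_fst s c t with ⟨h1, h2⟩ | ⟨h1, h2⟩
        · have h3 : (zig s c (t + 1)).1 = 1 + s := by
            have := zig_fst s c (t + 1)
            omega
          rw [h2, h3] at hq
          have := dd_spec i j 1 (j - u)
          have := dd_spec i' j 1 (j - u)
          have := dd_spec i j (1 + s) (j + (s - u))
          have := dd_spec i' j (1 + s) (j + (s - u))
          omega
        · have h3 : (zig s c (t + 1)).1 = 1 := by
            have := zig_fst s c (t + 1)
            omega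
          rw [h2, h3] at hq
          have := dd_spec i j (1 + s) (j - u)
          have := dd_spec i' j (1 + s) (j - u)
          have := dd_spec i j 1 (j + (s - u))
          have := dd_spec i' j 1 (j + (s - u))
          omega
      · rw [List.nodup_cons]
        refine ⟨?_, List.nodup_singleton _⟩
        rw [List.mem_singleton]
        intro h
        have h1 := congrArg Prod.snd h
        rw [zig_snd, zig_snd, show ((t + 1 : ℕ) : ℤ) * s = t * s + s by push_cast; ring] at h1
        omega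
      · intro w hw
        simp only [List.mem_cons, List.not_mem_nil, or_false] at hw
        rcases hw with rfl | rfl
        · exact hmemZ _ htT
        · exact hmemZ _ htT'
      · intro w hw hwl
        refine hsame w hw ?_
        by_cases hwZ : w ∈ Z s c T
        · right
          refine ⟨?_, hZrow w hwZ⟩
          obtain ⟨t', ht', rfl⟩ := mem_Z.1 hwZ
          simp only [List.mem_cons, List.not_mem_nil, or_false, not_or] at hwl
          have h1 : t' ≠ t := fun h => hwl.1 (by rw [h])
          have h2 : t' ≠ t + 1 := fun h => hwl.2 (by rw [h])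
          rw [zig_snd]
          rcases lt_or_gt_of_ne h1 with h3 | h3
          · left
            have h4 : (t' : ℤ) + 1 ≤ t := by omega
            nlinarith
          · right
            have h4 : (t : ℤ) + 2 ≤ t' := by omega
            nlinarith
        · left
          exact hfar w hw hwZ
    · have hu := hlast htT'
      have hp := rep_list (l := [zig s c t]) ?_ ?_ ?_ he
      · simp only [List.map_cons, List.map_nil, zig_snd] at hp
        have e1 : c + t * s = j := by omega
        have hq := hp.sum_eq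
        simp only [List.sum_cons, List.sum_nil, add_zero] at hq
        rw [e1] at hq
        have := dd_spec i j (zig s c t).1 j
        have := dd_spec i' j (zig s c t).1 j
        rcases zig_fst s c t with ⟨h1, h2⟩ | ⟨h1, h2⟩ <;> omega
      · exact List.nodup_singleton _
      · intro w hw
        rw [List.mem_singleton] at hw
        rw [hw]
        exact hmemZ _ htT
      · intro w hw hwl
        refine hsame w hw ?_
        by_cases hwZ : w ∈ Z s c T
        · right
          refine ⟨?_, hZrow w hwZ⟩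
          obtain ⟨t', ht', rfl⟩ := mem_Z.1 hwZ
          rw [List.mem_singleton] at hwl
          have h1 : t' ≠ t := fun h => hwl (by rw [h])
          rw [zig_snd]
          left
          have h4 : (t' : ℤ) + 1 ≤ t := by omega
          nlinarith
        · left
          exact hfar w hw hwZ

/-- from a family of extra points and a window to a resolving set -/
theorem fam {E : Finset (ℤ × ℤ)} (hn : 4 ≤ n) (hs : s = if Even n then n - 1 else n - 2)
    {c : ℤ} {T : ℕ} (hT : 1 ≤ T) (hc : 1 ≤ c) (hmT : m = c + T * s) {J : ℤ} (hcJ : c ≤ J + 1)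
    (hE1 : ∀ w ∈ E, 1 ≤ w.1 ∧ w.1 ≤ n) (hE2 : ∀ w ∈ E, 1 ≤ w.2 ∧ w.2 + (n - 1) ≤ J + 1)
    (hJm : J + 1 ≤ m)
    {al : ℤ} (hal : 1 ≤ al)
    (hm : 2 * (n - 1) + 2 * al ≤ m - 1) {w0 w1 : ℤ × ℤ} (h0 : w0 ∈ E ∪ Z s c T) (h0' : w0.2 = 1)
    (hA : ∀ w ∈ E ∪ Z s c T, w ≠ w0 → 1 + al ≤ w.2) (h1 : w1 ∈ E ∪ Z s c T) (h1' : w1.2 = 1 + al)
    (hEm : ∀ w ∈ E, w.2 < m - al) (has : al < s)
    (hwin : ∀ i i' j, 1 ≤ i → i < i' → i' ≤ n → 1 ≤ j → j ≤ J →
      rep (E ∪ Z s c T) (i, j) ≠ rep (E ∪ Z s c T) (i', j)) :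
    Res n m (E ∪ Z s c T) := by
  obtain ⟨s3, ⟨ks, hks⟩, hns⟩ := s_facts hn hs
  have hTs : (0 : ℤ) ≤ T * s := by positivity
  have hZ1 : ∀ w ∈ Z s c T, (1 ≤ w.1 ∧ w.1 ≤ 1 + s) ∧ c ≤ w.2 ∧ w.2 ≤ m := by
    intro w hw
    obtain ⟨t', ht', rfl⟩ := mem_Z.1 hw
    have h3 := zig_fst s c t'
    rw [zig_snd]
    have h4 : (t' : ℤ) ≤ T := by exact_mod_cast ht'
    have h5 : (0 : ℤ) ≤ t' * s := by positivity
    have h6 : (t' : ℤ) * s ≤ T * s := by nlinarith
    omega
  have hw2 : (zig s c T) ∈ E ∪ Z s c T := Finset.mem_union_right _ (mem_Z.2 ⟨T, le_rfl, rfl⟩)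
  refine crit (al := al) (w0 := w0) (w1 := w1) (w2 := zig s c T) ?_ hal hm h0 h0' hA h1 h1' hw2
    (by rw [zig_snd, hmT]) ?_ ?_
  · intro w hw
    rcases Finset.mem_union.1 hw with h | h
    · have e1 := hE1 w h
      have e2 := hE2 w h
      have e3 := hEm w h
      exact ⟨by omega, by omega, by omega, by omega⟩
    · have e1 := hZ1 w h
      exact ⟨by omega, by omega, by omega, by omega⟩
  · intro w hw hne
    rcases Finset.mem_union.1 hw with h | h
    · exact hEm w h
    · obtain ⟨t', ht', rfl⟩ := mem_Z.1 h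
      have h3 : t' ≠ T := fun h => hne (by rw [h])
      have h4 : (t' : ℤ) + 1 ≤ T := by omega
      rw [zig_snd]
      nlinarith
  · intro i i' j hi hii hin hj hjm
    rcases le_or_gt j J with h | h
    · exact hwin i i' j hi hii hin hj h
    · refine generic hn hs hT Finset.subset_union_right (c := c) (T := T) (by omega) (by omega) ?_ ?_
        hi hii hin
      · intro w hw hwZ
        have h3 : w ∈ E := by
          rcases Finset.mem_union.1 hw with h | h
          · exact h
          · exact absurd h hwZ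
        have e2 := hE2 w h3
        left
        omega
      · intro w hw
        rcases Finset.mem_union.1 hw with h | h
        · exact hE1 w h
        · have := hZ1 w h
          omega

/-- the window: only the points of the list `l` matter -/
lemma window {W : Finset (ℤ × ℤ)} {l : List (ℤ × ℤ)} (hnd : l.Nodup) (hl : ∀ w ∈ l, w ∈ W)
    {i i' j : ℤ} (hi : 1 ≤ i) (hii : i < i') (hin : i' ≤ n) (hrow : ∀ w ∈ W, 1 ≤ w.1 ∧ w.1 ≤ n)
    (h : ∀ w ∈ W, w ∉ l → j + (n - 1) ≤ w.2)
    (hp : (l.map fun w : ℤ × ℤ => dd i j w.1 w.2).Perm (l.map fun w : ℤ × ℤ => dd i' j w.1 w.2) → False) :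
    rep W (i, j) ≠ rep W (i', j) := by
  intro he
  refine hp (rep_list (x := (i, j)) (y := (i', j)) hnd hl ?_ he)
  intro w hw hwl
  have h1 := h w hw hwl
  have h2 := hrow w hw
  show dd i j w.1 w.2 = dd i' j w.1 w.2
  have := dd_spec i j w.1 w.2
  have := dd_spec i' j w.1 w.2
  omega

/-- F1: `{(1+r, 1)} ∪ Z s (1+r) q` -/
theorem up_F1 (hn : 4 ≤ n) (hs : s = if Even n then n - 1 else n - 2) (hq : 3 ≤ q) (hr : 1 ≤ r)
    (hrs : r < s) (ho : Odd r) (hm : m - 1 = q * s + r) : ∃ W, Res n m W ∧ W.card = q + 2 := by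
  obtain ⟨s3, ⟨ks, hks⟩, hns⟩ := s_facts hn hs
  obtain ⟨kr, hkr⟩ := ho
  have hqs : 3 * s ≤ q * s := by
    have : (3 : ℤ) ≤ q := by exact_mod_cast hq
    nlinarith
  have hrow : ∀ w ∈ ({(1 + r, 1)} ∪ Z s (1 + r) q : Finset (ℤ × ℤ)), 1 ≤ w.1 ∧ w.1 ≤ n := by
    intro w hw
    rcases Finset.mem_union.1 hw with h | h
    · rw [Finset.mem_singleton] at h
      subst h
      dsimp only
      omega
    · obtain ⟨t', ht', rfl⟩ := mem_Z.1 h
      have := zig_fst s (1 + r) t'
      omega
  refine ⟨{(1 + r, 1)} ∪ Z s (1 + r) q, fam (J := n - 1) (al := r) (w0 := (1 + r, 1)) (w1 := (1, 1 + r))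
    hn hs (by omega) (by omega) (by omega) (by omega) ?_ ?_ (by omega) hr (by omega) ?_ rfl ?_ ?_ rfl ?_
    hrs ?_, ?_⟩
  · intro w hw
    rw [Finset.mem_singleton] at hw
    subst hw
    dsimp only
    omega
  · intro w hw
    rw [Finset.mem_singleton] at hw
    subst hw
    dsimp only
    omega
  · exact Finset.mem_union_left _ (Finset.mem_singleton_self _)
  · intro w hw hne
    rcases Finset.mem_union.1 hw with h | h
    · rw [Finset.mem_singleton] at h
      exact absurd h hne
    · obtain ⟨t', ht', rfl⟩ := mem_Z.1 h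
      rw [zig_snd]
      have h5 : (0 : ℤ) ≤ t' * s := by positivity
      omega
  · refine Finset.mem_union_right _ (mem_Z.2 ⟨0, by omega, ?_⟩)
    unfold zig
    simp
  · intro w hw
    rw [Finset.mem_singleton] at hw
    subst hw
    dsimp only
    omega
  · intro i i' j hi hii hin hj hjJ
    refine window (l := [(1 + r, 1), (1, 1 + r), (1 + s, 1 + r + s)]) ?_ ?_ hi hii hin hrow ?_
      (win1 hn hs hr hrs ⟨kr, hkr⟩ hj hjJ hi hii hin)
    · simp only [List.nodup_cons, List.mem_cons, List.not_mem_nil, or_false, Prod.mk.injEq,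
        not_or, not_and, List.nodup_nil, and_true, not_false_eq_true]
      omega
    · intro w hw
      simp only [List.mem_cons, List.not_mem_nil, or_false] at hw
      rcases hw with rfl | rfl | rfl
      · exact Finset.mem_union_left _ (Finset.mem_singleton_self _)
      · refine Finset.mem_union_right _ (mem_Z.2 ⟨0, by omega, ?_⟩)
        unfold zig
        simp
      · refine Finset.mem_union_right _ (mem_Z.2 ⟨1, by omega, ?_⟩)
        unfold zig
        simp
    · intro w hw hwl
      rcases Finset.mem_union.1 hw with h | h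
      · rw [Finset.mem_singleton] at h
        subst h
        simp at hwl
      · obtain ⟨t', ht', rfl⟩ := mem_Z.1 h
        have h0 : t' ≠ 0 := by
          rintro rfl
          apply hwl
          unfold zig
          simp
        have h1 : t' ≠ 1 := by
          rintro rfl
          apply hwl
          unfold zig
          simp
        have h2 : (2 : ℤ) ≤ t' := by omega
        have h3 : 2 * s ≤ t' * s := by nlinarith
        rw [zig_snd]
        omega
  · rw [Finset.card_union_of_disjoint, Finset.card_singleton, card_Z _ (by omega)]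
    · omega
    · rw [Finset.disjoint_singleton_left]
      intro h
      obtain ⟨t', ht', h⟩ := mem_Z.1 h
      have h2 := congrArg Prod.snd h
      rw [zig_snd] at h2
      dsimp only at h2
      have h5 : (0 : ℤ) ≤ t' * s := by positivity
      omega

/-- F2: `{(r, 1), (r+1, 2)} ∪ Z s (1+r) q` -/
theorem up_F2 (hn : 4 ≤ n) (hs : s = if Even n then n - 1 else n - 2) (hq : 3 ≤ q) (hr : 1 ≤ r)
    (hrs : r < s) (ho : Even r) (hm : m - 1 = q * s + r) : ∃ W, Res n m W ∧ W.card = q + 3 := by
  obtain ⟨s3, ⟨ks, hks⟩, hns⟩ := s_facts hn hs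
  obtain ⟨kr, hkr⟩ := ho
  have hqs : 3 * s ≤ q * s := by
    have : (3 : ℤ) ≤ q := by exact_mod_cast hq
    nlinarith
  have hE : ∀ w ∈ ({(r, 1), (r + 1, 2)} : Finset (ℤ × ℤ)), (w.1 = r ∧ w.2 = 1) ∨ (w.1 = r + 1 ∧ w.2 = 2) := by
    intro w hw
    rw [Finset.mem_insert, Finset.mem_singleton] at hw
    rcases hw with rfl | rfl
    · left; exact ⟨rfl, rfl⟩
    · right; exact ⟨rfl, rfl⟩
  have hrow : ∀ w ∈ ({(r, 1), (r + 1, 2)} ∪ Z s (1 + r) q : Finset (ℤ × ℤ)), 1 ≤ w.1 ∧ w.1 ≤ n := by
    intro w hw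
    rcases Finset.mem_union.1 hw with h | h
    · have := hE w h
      omega
    · obtain ⟨t', ht', rfl⟩ := mem_Z.1 h
      have := zig_fst s (1 + r) t'
      omega
  refine ⟨{(r, 1), (r + 1, 2)} ∪ Z s (1 + r) q, fam (J := n) (al := 1) (w0 := (r, 1)) (w1 := (r + 1, 2))
    hn hs (by omega) (by omega) (by omega) (by omega) ?_ ?_ (by omega) le_rfl (by omega) ?_ rfl ?_ ?_ rfl ?_
    (by omega) ?_, ?_⟩
  · intro w hw
    have := hE w hw
    omega
  · intro w hw
    have := hE w hw
    omega
  · exact Finset.mem_union_left _ (by simp)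
  · intro w hw hne
    rcases Finset.mem_union.1 hw with h | h
    · rcases hE w h with ⟨h1, h2⟩ | ⟨h1, h2⟩
      · exact absurd (Prod.ext h1 h2) hne
      · omega
    · obtain ⟨t', ht', rfl⟩ := mem_Z.1 h
      rw [zig_snd]
      have h5 : (0 : ℤ) ≤ t' * s := by positivity
      omega
  · exact Finset.mem_union_left _ (by simp)
  · intro w hw
    have := hE w hw
    omega
  · intro i i' j hi hii hin hj hjJ
    refine window (l := [(r, 1), (r + 1, 2), (1, 1 + r), (1 + s, 1 + r + s)]) ?_ ?_ hi hii hin hrow ?_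
      (win2 hn hs hr hrs ⟨kr, hkr⟩ hj hjJ hi hii hin)
    · simp only [List.nodup_cons, List.mem_cons, List.not_mem_nil, or_false, Prod.mk.injEq,
        not_or, not_and, List.nodup_nil, and_true, not_false_eq_true]
      omega
    · intro w hw
      simp only [List.mem_cons, List.not_mem_nil, or_false] at hw
      rcases hw with rfl | rfl | rfl | rfl
      · exact Finset.mem_union_left _ (by simp)
      · exact Finset.mem_union_left _ (by simp)
      · refine Finset.mem_union_right _ (mem_Z.2 ⟨0, by omega, ?_⟩)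
        unfold zig
        simp
      · refine Finset.mem_union_right _ (mem_Z.2 ⟨1, by omega, ?_⟩)
        unfold zig
        simp
    · intro w hw hwl
      rcases Finset.mem_union.1 hw with h | h
      · rw [Finset.mem_insert, Finset.mem_singleton] at h
        rcases h with rfl | rfl <;> simp at hwl
      · obtain ⟨t', ht', rfl⟩ := mem_Z.1 h
        have h0 : t' ≠ 0 := by
          rintro rfl
          apply hwl
          unfold zig
          simp
        have h1 : t' ≠ 1 := by
          rintro rfl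
          apply hwl
          unfold zig
          simp
        have h2 : (2 : ℤ) ≤ t' := by omega
        have h3 : 2 * s ≤ t' * s := by nlinarith
        rw [zig_snd]
        omega
  · rw [Finset.card_union_of_disjoint, Finset.card_pair, card_Z _ (by omega)]
    · omega
    · intro h
      have h2 : (1 : ℤ) = 2 := congrArg Prod.snd h
      omega
    · rw [Finset.disjoint_left]
      intro w hw h
      obtain ⟨t', ht', rfl⟩ := mem_Z.1 h
      have h2 := hE _ hw
      rw [zig_snd] at h2
      have h5 : (0 : ℤ) ≤ t' * s := by positivity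
      omega

/-- F3: `{(2, 3)} ∪ Z s 1 (q + 1)` -/
theorem up_F3 (hn : 6 ≤ n) (hs : s = if Even n then n - 1 else n - 2) (hq : 3 ≤ q)
    (hm : m - 1 = (q + 1) * s) : ∃ W, Res n m W ∧ W.card = q + 3 := by
  obtain ⟨s3, ⟨ks, hks⟩, hns⟩ := s_facts (by omega) hs
  have hqs : 4 * s ≤ (q + 1) * s := by
    have : (3 : ℤ) ≤ q := by exact_mod_cast hq
    nlinarith
  have hcast : (((q + 1 : ℕ) : ℤ)) * s = (q + 1) * s := by push_cast; ring
  have hrow : ∀ w ∈ ({(2, 3)} ∪ Z s 1 (q + 1) : Finset (ℤ × ℤ)), 1 ≤ w.1 ∧ w.1 ≤ n := by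
    intro w hw
    rcases Finset.mem_union.1 hw with h | h
    · rw [Finset.mem_singleton] at h
      subst h
      dsimp only
      omega
    · obtain ⟨t', ht', rfl⟩ := mem_Z.1 h
      have := zig_fst s 1 t'
      omega
  have hpos : ∀ t : ℕ, t ≠ 0 → s ≤ t * s := by
    intro t ht
    have : (1 : ℤ) ≤ t := by omega
    nlinarith
  refine ⟨{(2, 3)} ∪ Z s 1 (q + 1), fam (J := n + 1) (al := 2) (w0 := (1, 1)) (w1 := (2, 3))
    (by omega) hs (by omega) (by omega) (by omega) (by omega) ?_ ?_ (by omega) (by omega) (by omega) ?_ rfl ?_ ?_ rfl ?_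
    (by omega) ?_, ?_⟩
  · intro w hw
    rw [Finset.mem_singleton] at hw
    subst hw
    dsimp only
    omega
  · intro w hw
    rw [Finset.mem_singleton] at hw
    subst hw
    dsimp only
    omega
  · refine Finset.mem_union_right _ (mem_Z.2 ⟨0, by omega, ?_⟩)
    unfold zig
    simp
  · intro w hw hne
    rcases Finset.mem_union.1 hw with h | h
    · rw [Finset.mem_singleton] at h
      subst h
      dsimp only
      omega
    · obtain ⟨t', ht', rfl⟩ := mem_Z.1 h
      have h0 : t' ≠ 0 := by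
        rintro rfl
        apply hne
        unfold zig
        simp
      rw [zig_snd]
      have h5 := hpos t' h0
      omega
  · exact Finset.mem_union_left _ (Finset.mem_singleton_self _)
  · intro w hw
    rw [Finset.mem_singleton] at hw
    subst hw
    dsimp only
    omega
  · intro i i' j hi hii hin hj hjJ
    refine window (l := [(1, 1), (2, 3), (1 + s, 1 + s), (1, 1 + 2 * s)]) ?_ ?_ hi hii hin hrow ?_
      (win3 hn hs hj hjJ hi hii hin)
    · simp only [List.nodup_cons, List.mem_cons, List.not_mem_nil, or_false, Prod.mk.injEq,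
        not_or, not_and, List.nodup_nil, and_true, not_false_eq_true]
      omega
    · intro w hw
      simp only [List.mem_cons, List.not_mem_nil, or_false] at hw
      rcases hw with rfl | rfl | rfl | rfl
      · refine Finset.mem_union_right _ (mem_Z.2 ⟨0, by omega, ?_⟩)
        unfold zig
        simp
      · exact Finset.mem_union_left _ (Finset.mem_singleton_self _)
      · refine Finset.mem_union_right _ (mem_Z.2 ⟨1, by omega, ?_⟩)
        unfold zig
        simp
      · refine Finset.mem_union_right _ (mem_Z.2 ⟨2, by omega, ?_⟩)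
        unfold zig
        simp
    · intro w hw hwl
      rcases Finset.mem_union.1 hw with h | h
      · rw [Finset.mem_singleton] at h
        subst h
        simp at hwl
      · obtain ⟨t', ht', rfl⟩ := mem_Z.1 h
        have h0 : t' ≠ 0 := by
          rintro rfl
          apply hwl
          unfold zig
          simp
        have h1 : t' ≠ 1 := by
          rintro rfl
          apply hwl
          unfold zig
          simp
        have h1' : t' ≠ 2 := by
          rintro rfl
          apply hwl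
          unfold zig
          simp
        have h2 : (3 : ℤ) ≤ t' := by omega
        have h3 : 3 * s ≤ t' * s := by nlinarith
        rw [zig_snd]
        omega
  · rw [Finset.card_union_of_disjoint, Finset.card_singleton, card_Z _ (by omega)]
    · omega
    · rw [Finset.disjoint_singleton_left]
      intro h
      obtain ⟨t', ht', h⟩ := mem_Z.1 h
      have h2 := congrArg Prod.snd h
      rw [zig_snd] at h2
      dsimp only at h2
      rcases eq_or_ne t' 0 with h0 | h0
      · subst h0
        simp at h2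
      · have h5 := hpos t' h0
        omega

lemma win5 : ∀ j ∈ Finset.Icc (1 : ℤ) 7, ∀ i ∈ Finset.Icc (1 : ℤ) 5, ∀ i' ∈ Finset.Icc (1 : ℤ) 5, i < i' →
    ¬ ([(5, 1), (1, 3), (1, 4), (4, 7), (1, 10)].map fun w : ℤ × ℤ => dd i j w.1 w.2).Perm
      ([(5, 1), (1, 3), (1, 4), (4, 7), (1, 10)].map fun w : ℤ × ℤ => dd i' j w.1 w.2) := by
  decide +kernel

lemma win4 : ∀ j ∈ Finset.Icc (1 : ℤ) 5, ∀ i ∈ Finset.Icc (1 : ℤ) 4, ∀ i' ∈ Finset.Icc (1 : ℤ) 4, i < i' →
    ¬ ([(1, 2), (4, 2), (1, 1), (4, 4), (1, 7)].map fun w : ℤ × ℤ => dd i j w.1 w.2).Perm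
      ([(1, 2), (4, 2), (1, 1), (4, 4), (1, 7)].map fun w : ℤ × ℤ => dd i' j w.1 w.2) := by
  decide +kernel

/-- `n = 5`: `{(5, 1), (1, 3)} ∪ Z 3 4 q` -/
theorem up_5 (hq : 3 ≤ q) (hm : m = 4 + 3 * q) : ∃ W, Res 5 m W ∧ W.card = q + 3 := by
  have hs : (3 : ℤ) = if Even (5 : ℤ) then 5 - 1 else 5 - 2 := by
    rw [if_neg (by decide)]
    norm_num
  have hE : ∀ w ∈ ({(5, 1), (1, 3)} : Finset (ℤ × ℤ)), (w.1 = 5 ∧ w.2 = 1) ∨ (w.1 = 1 ∧ w.2 = 3) := by
    intro w hw
    rw [Finset.mem_insert, Finset.mem_singleton] at hw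
    rcases hw with rfl | rfl
    · left; exact ⟨rfl, rfl⟩
    · right; exact ⟨rfl, rfl⟩
  have hrow : ∀ w ∈ ({(5, 1), (1, 3)} ∪ Z 3 4 q : Finset (ℤ × ℤ)), 1 ≤ w.1 ∧ w.1 ≤ 5 := by
    intro w hw
    rcases Finset.mem_union.1 hw with h | h
    · have := hE w h
      omega
    · obtain ⟨t', ht', rfl⟩ := mem_Z.1 h
      have := zig_fst 3 4 t'
      omega
  refine ⟨{(5, 1), (1, 3)} ∪ Z 3 4 q, fam (J := 7) (al := 2) (w0 := (5, 1)) (w1 := (1, 3))
    (by omega) hs (by omega) (by omega) (by omega) (by omega) ?_ ?_ (by omega) (by omega) (by omega) ?_ rfl ?_ ?_ rfl ?_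
    (by omega) ?_, ?_⟩
  · intro w hw
    have := hE w hw
    omega
  · intro w hw
    have := hE w hw
    omega
  · exact Finset.mem_union_left _ (by simp)
  · intro w hw hne
    rcases Finset.mem_union.1 hw with h | h
    · rcases hE w h with ⟨h1, h2⟩ | ⟨h1, h2⟩
      · exact absurd (Prod.ext h1 h2) hne
      · omega
    · obtain ⟨t', ht', rfl⟩ := mem_Z.1 h
      rw [zig_snd]
      omega
  · exact Finset.mem_union_left _ (by simp)
  · intro w hw
    have := hE w hw
    omega
  · intro i i' j hi hii hin hj hjJ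
    refine window (l := [(5, 1), (1, 3), (1, 4), (4, 7), (1, 10)]) (by decide) ?_ hi hii hin hrow ?_
      (win5 j (Finset.mem_Icc.2 ⟨hj, hjJ⟩) i (Finset.mem_Icc.2 ⟨hi, by omega⟩) i'
        (Finset.mem_Icc.2 ⟨by omega, hin⟩) hii)
    · intro w hw
      simp only [List.mem_cons, List.not_mem_nil, or_false] at hw
      rcases hw with rfl | rfl | rfl | rfl | rfl
      · exact Finset.mem_union_left _ (by simp)
      · exact Finset.mem_union_left _ (by simp)
      · refine Finset.mem_union_right _ (mem_Z.2 ⟨0, by omega, ?_⟩)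
        unfold zig
        simp
      · refine Finset.mem_union_right _ (mem_Z.2 ⟨1, by omega, ?_⟩)
        unfold zig
        simp
      · refine Finset.mem_union_right _ (mem_Z.2 ⟨2, by omega, ?_⟩)
        unfold zig
        simp
    · intro w hw hwl
      rcases Finset.mem_union.1 hw with h | h
      · rw [Finset.mem_insert, Finset.mem_singleton] at h
        rcases h with rfl | rfl <;> simp at hwl
      · obtain ⟨t', ht', rfl⟩ := mem_Z.1 h
        have h0 : t' ≠ 0 := by
          rintro rfl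
          apply hwl
          unfold zig
          simp
        have h1 : t' ≠ 1 := by
          rintro rfl
          apply hwl
          unfold zig
          simp
        have h1' : t' ≠ 2 := by
          rintro rfl
          apply hwl
          unfold zig
          simp
        rw [zig_snd]
        omega
  · rw [Finset.card_union_of_disjoint, Finset.card_pair, card_Z _ (by omega)]
    · omega
    · intro h
      have h2 : (1 : ℤ) = 3 := congrArg Prod.snd h
      omega
    · rw [Finset.disjoint_left]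
      intro w hw h
      obtain ⟨t', ht', rfl⟩ := mem_Z.1 h
      have h2 := hE _ hw
      rw [zig_snd] at h2
      omega

/-- `n = 4`: `{(1, 2), (4, 2)} ∪ Z 3 1 (q + 1)` -/
theorem up_4 (hq : 3 ≤ q) (hm : m = 4 + 3 * q) : ∃ W, Res 4 m W ∧ W.card = q + 4 := by
  have hs : (3 : ℤ) = if Even (4 : ℤ) then 4 - 1 else 4 - 2 := by
    rw [if_pos (by decide)]
    norm_num
  have hE : ∀ w ∈ ({(1, 2), (4, 2)} : Finset (ℤ × ℤ)), (w.1 = 1 ∧ w.2 = 2) ∨ (w.1 = 4 ∧ w.2 = 2) := by
    intro w hw
    rw [Finset.mem_insert, Finset.mem_singleton] at hw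
    rcases hw with rfl | rfl
    · left; exact ⟨rfl, rfl⟩
    · right; exact ⟨rfl, rfl⟩
  have hrow : ∀ w ∈ ({(1, 2), (4, 2)} ∪ Z 3 1 (q + 1) : Finset (ℤ × ℤ)), 1 ≤ w.1 ∧ w.1 ≤ 4 := by
    intro w hw
    rcases Finset.mem_union.1 hw with h | h
    · have := hE w h
      omega
    · obtain ⟨t', ht', rfl⟩ := mem_Z.1 h
      have := zig_fst 3 1 t'
      omega
  refine ⟨{(1, 2), (4, 2)} ∪ Z 3 1 (q + 1), fam (J := 5) (al := 1) (w0 := (1, 1)) (w1 := (1, 2))
    le_rfl hs (by omega) (by omega) (by omega) (by omega) ?_ ?_ (by omega) (by omega) (by omega) ?_ rfl ?_ ?_ rfl ?_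
    (by omega) ?_, ?_⟩
  · intro w hw
    have := hE w hw
    omega
  · intro w hw
    have := hE w hw
    omega
  · refine Finset.mem_union_right _ (mem_Z.2 ⟨0, by omega, ?_⟩)
    unfold zig
    simp
  · intro w hw hne
    rcases Finset.mem_union.1 hw with h | h
    · have := hE w h
      omega
    · obtain ⟨t', ht', rfl⟩ := mem_Z.1 h
      have h0 : t' ≠ 0 := by
        rintro rfl
        apply hne
        unfold zig
        simp
      rw [zig_snd]
      omega
  · exact Finset.mem_union_left _ (by simp)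
  · intro w hw
    have := hE w hw
    omega
  · intro i i' j hi hii hin hj hjJ
    refine window (l := [(1, 2), (4, 2), (1, 1), (4, 4), (1, 7)]) (by decide) ?_ hi hii hin hrow ?_
      (win4 j (Finset.mem_Icc.2 ⟨hj, hjJ⟩) i (Finset.mem_Icc.2 ⟨hi, by omega⟩) i'
        (Finset.mem_Icc.2 ⟨by omega, hin⟩) hii)
    · intro w hw
      simp only [List.mem_cons, List.not_mem_nil, or_false] at hw
      rcases hw with rfl | rfl | rfl | rfl | rfl
      · exact Finset.mem_union_left _ (by simp)
      · exact Finset.mem_union_left _ (by simp)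
      · refine Finset.mem_union_right _ (mem_Z.2 ⟨0, by omega, ?_⟩)
        unfold zig
        simp
      · refine Finset.mem_union_right _ (mem_Z.2 ⟨1, by omega, ?_⟩)
        unfold zig
        simp
      · refine Finset.mem_union_right _ (mem_Z.2 ⟨2, by omega, ?_⟩)
        unfold zig
        simp
    · intro w hw hwl
      rcases Finset.mem_union.1 hw with h | h
      · rw [Finset.mem_insert, Finset.mem_singleton] at h
        rcases h with rfl | rfl <;> simp at hwl
      · obtain ⟨t', ht', rfl⟩ := mem_Z.1 h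
        have h0 : t' ≠ 0 := by
          rintro rfl
          apply hwl
          unfold zig
          simp
        have h1 : t' ≠ 1 := by
          rintro rfl
          apply hwl
          unfold zig
          simp
        have h1' : t' ≠ 2 := by
          rintro rfl
          apply hwl
          unfold zig
          simp
        rw [zig_snd]
        omega
  · rw [Finset.card_union_of_disjoint, Finset.card_pair, card_Z _ (by omega)]
    · omega
    · intro h
      have h2 : (1 : ℤ) = 4 := congrArg Prod.fst h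
      omega
    · rw [Finset.disjoint_left]
      intro w hw h
      obtain ⟨t', ht', rfl⟩ := mem_Z.1 h
      have h2 := hE _ hw
      rw [zig_snd] at h2
      omega

end Mdim86
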