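import Pool.Agent.LibMdim86.Bridge
import Pool.Agent.LibMdim86.LbGen
import Pool.Agent.LibMdim86.LbFour
import Pool.Agent.LibMdim86.Small
import Pool.Agent.LibMdim86.Three
import Pool.Agent.LibMdim86.Zig
import Pool.Agent.LibMdim86.Fin
import Pool.Agent.LibMdim86.Low4

/-!
# The multiset dimension of the strong product of two paths
-/

namespace Mdim86

/-- the infimum from two bounds -/
lemma inf_eq {n m : ℤ} {K : ℕ} (hlow : ∀ W : Finset (ℤ × ℤ), Res n m W → K ≤ W.card)
    (hup : ∃ W : Finset (ℤ × ℤ), Res n m W ∧ W.card = K) :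
    (⨅ W : {W : Finset (ℤ × ℤ) // Res n m W}, (W.1.card : ℕ∞)) = K := by
  obtain ⟨W, hW, hc⟩ := hup
  apply le_antisymm
  · have h := iInf_le (fun W : {W : Finset (ℤ × ℤ) // Res n m W} => (W.1.card : ℕ∞)) ⟨W, hW⟩
    simp only [hc] at h
    exact h
  · exact le_iInf fun W => by exact_mod_cast hlow W.1 W.2

lemma tr {n m N M : ℤ} {c d : ℕ} (h1 : N = n) (h2 : M = m) (h3 : c = d)
    (h : ∃ W, Res N M W ∧ W.card = c) : ∃ W, Res n m W ∧ W.card = d := by
  subst h1; subst h2; subst h3; exact h

/-- lower bounds -/
theorem low_all {n m : ℤ} {W : Finset (ℤ × ℤ)} (hW : Res n m W) (hn : 4 ≤ n) (hnm : n ≤ m) {s r : ℤ}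
    {q : ℕ} (hs : s = if Even n then n - 1 else n - 2) (hr1 : 1 ≤ r) (hrs : r ≤ s)
    (hm : m - 1 = q * s + r) :
    4 ≤ W.card ∧ (3 * n / 2 ≤ m → 5 ≤ W.card) ∧ q + 2 ≤ W.card ∧
      (¬ (Odd r ∧ r < s) → q + 3 ≤ W.card) := by
  obtain ⟨a, b, h⟩ := Cfg.of_res hW
  generalize W.card = K at h
  have h4 := low_small h hn hnm
  have h5 : 3 * n / 2 ≤ m → 5 ≤ K := by
    intro h6
    by_contra h7
    have h8 : K = 4 := by omega
    subst h8
    exact low_four h hn h6
  have hc := lb_card h hn (by omega) hs
  have hq : q + 2 ≤ K := by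
    have h6 : (q : ℤ) * s < ((K : ℤ) - 1) * s := by omega
    have h7 : (q : ℤ) < (K : ℤ) - 1 := lt_of_mul_lt_mul_right h6 (by omega)
    omega
  refine ⟨h4, h5, hq, fun ho => ?_⟩
  by_contra h6
  have h7 : K = q + 2 := by omega
  have h8 : m - 1 = ((K : ℤ) - 2) * s + r := by
    rw [hm, h7]; push_cast; ring
  exact ho (lb_struct h hn h4 hs hr1 hrs h8)

theorem four {m : ℕ} (hm : 4 ≤ m) :
    (⨅ W : {W : Finset (ℤ × ℤ) // Res 4 m W}, (W.1.card : ℕ∞)) = value 4 m := by
  unfold value
  rw [if_neg (by norm_num), if_pos rfl]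
  rcases Nat.eq_or_lt_of_le hm with rfl | hm4
  · rw [if_pos rfl]
    exact inf_eq (K := 6) (fun W hW => small44 W hW) up_4_4
  rw [if_neg (by omega)]
  rcases Nat.eq_or_lt_of_le hm4 with rfl | hm5
  · exact inf_eq (K := 5) (fun W hW => small45 W hW) up_4_5
  have hm6 : 6 ≤ m := hm5
  set q := (m - 2) / 3 with hq
  have hr3 : (m - 2) % 3 < 3 := Nat.mod_lt _ (by norm_num)
  have hdm : 3 * q + (m - 2) % 3 = m - 2 := Nat.div_add_mod _ _
  have hs : (3 : ℤ) = if Even (4 : ℤ) then 4 - 1 else 4 - 2 := by
    rw [if_pos (by decide)]; norm_num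
  set ρ := (m - 2) % 3 with hρ
  clear_value q ρ
  apply inf_eq
  · intro W hW
    obtain ⟨-, l5, l2, l3⟩ := low_all (r := (ρ : ℤ) + 1) (q := q) hW le_rfl (by omega) hs (by omega)
      (by omega) (by omega)
    have l5' := l5 (by omega)
    have hρ3 : ρ = 0 ∨ ρ = 1 ∨ ρ = 2 := by omega
    rcases hρ3 with rfl | rfl | rfl
    · omega
    · have := l3 (by rintro ⟨h1, -⟩; revert h1; decide)
      omega
    · have h3 := l3 (by rintro ⟨-, h1⟩; revert h1; decide)
      by_contra h4
      obtain ⟨a, b, h⟩ := Cfg.of_res hW
      exact lb_four h l5' (by omega)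
  · rcases Nat.lt_or_ge m 11 with h11 | h11
    · interval_cases m
      · exact tr rfl rfl (by omega) up_4_6
      · exact tr rfl rfl (by omega) up_4_7
      · exact tr rfl rfl (by omega) up_4_8
      · exact tr rfl rfl (by omega) up_4_9
      · exact tr rfl rfl (by omega) up_4_10
    · have hρ3 : ρ = 0 ∨ ρ = 1 ∨ ρ = 2 := by omega
      rcases hρ3 with rfl | rfl | rfl
      · exact tr rfl rfl (by omega) (up_F1 (n := 4) (m := m) (s := 3) (r := 1) (q := q) le_rfl hs
          (by omega) le_rfl (by norm_num) odd_one (by omega))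
      · exact tr rfl rfl (by omega) (up_F2 (n := 4) (m := m) (s := 3) (r := 2) (q := q) le_rfl hs
          (by omega) (by norm_num) (by norm_num) even_two (by omega))
      · exact tr rfl rfl (by omega) (up_4 (m := m) (q := q) (by omega) (by omega))

theorem five {n m : ℕ} (hn : 5 ≤ n) (hnm : n ≤ m) :
    (⨅ W : {W : Finset (ℤ × ℤ) // Res n m W}, (W.1.card : ℕ∞)) = value n m := by
  unfold value
  rw [if_neg (by omega), if_neg (by omega)]
  obtain ⟨k, hk⟩ := Nat.even_or_odd' n
  -- the number `s` and the division
  obtain ⟨s, hsdef⟩ : ∃ s : ℕ, s = if Even n then n - 1 else n - 2 := ⟨_, rfl⟩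
  have hsk : s + 1 = 2 * k := by
    rcases hk with hk | hk
    · rw [if_pos (by rw [hk]; exact even_two_mul k)] at hsdef; omega
    · rw [if_neg (by rw [hk]; simp)] at hsdef; omega
  have hsz : (s : ℤ) = if Even (n : ℤ) then (n : ℤ) - 1 else (n : ℤ) - 2 := by
    rcases hk with hk | hk
    · rw [if_pos (by rw [hk]; push_cast; exact even_two_mul _)]; omega
    · rw [if_neg (by rw [hk]; push_cast; simp)]; omega
  have hr3 : (m - 2) % s < s := Nat.mod_lt _ (by omega)
  have hdm : s * ((m - 2) / s) + (m - 2) % s = m - 2 := Nat.div_add_mod _ _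
  simp only [← hsdef]
  set q := (m - 2) / s with hq
  set ρ := (m - 2) % s with hρ
  have hq1 : 3 * n / 2 ≤ m → 1 ≤ q := by
    intro h
    exact Nat.div_pos (by omega) (by omega)
  clear_value q ρ
  have hmz : (m : ℤ) - 1 = q * s + ((ρ : ℤ) + 1) := by
    have : ((s * q + ρ : ℕ) : ℤ) = ((m - 2 : ℕ) : ℤ) := by rw [hdm]
    push_cast [show 2 ≤ m by omega] at this
    linarith
  have low := fun (W : Finset (ℤ × ℤ)) (hW : Res n m W) =>
    low_all (r := (ρ : ℤ) + 1) (q := q) hW (by omega) (by omega) hsz (by omega) (by omega) hmz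
  split_ifs with hm3 hodd
  · -- small `m`
    refine inf_eq (K := 4) (fun W hW => (low W hW).1) ?_
    rcases hk with hk | hk
    · rcases Nat.eq_or_lt_of_le hnm with hnm' | hnm'
      · exact tr (by omega) (by omega) rfl (up_c (k := k) (by omega))
      · exact tr (by omega) rfl rfl (up_b (k := k) (t := m) (by omega) (by omega) (by omega))
    · exact tr (by omega) rfl rfl (up_a (k := k) (t := m) (by omega) (by omega) (by omega))
  · -- `r` odd, `r ≠ s`
    have hq1 := hq1 (by omega)
    refine inf_eq ?_ ?_
    · intro W hW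
      obtain ⟨-, l5, l2, -⟩ := low W hW
      have := l5 (by omega)
      omega
    obtain ⟨⟨t, ht⟩, hrs⟩ := hodd
    rcases Nat.lt_or_ge q 3 with hq3 | hq3
    · interval_cases q
      · -- q = 1
        rcases hk with hk | hk
        · exact tr (by omega) (by omega) (by omega) (up_d2 (k := k) (t := t) (by omega) (by omega)
            (by omega) (by omega))
        · rcases Nat.lt_or_ge k 3 with hk3 | hk3
          · exact tr (by omega) (by omega) (by omega) up_5_7
          · exact tr (by omega) (by omega) (by omega) (up_d3 (k := k) (t := t) (by omega) (by omega)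
              (by omega) (by omega))
      · -- q = 2
        rcases hk with hk | hk
        · exact tr (by omega) (by omega) (by omega) (up_e1xe0 (k := k) (t := t) (by omega) (by omega)
            (by omega))
        · rcases Nat.lt_or_ge k 3 with hk3 | hk3
          · exact tr (by omega) (by omega) (by omega) up_5_8
          · exact tr (by omega) (by omega) (by omega) (up_e1xe1 (k := k) (t := t) (by omega) (by omega)
              (by omega))
    · exact tr rfl rfl (by omega) (up_F1 (n := n) (m := m) (s := s) (r := (ρ : ℤ) + 1) (q := q)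
        (by omega) hsz hq3 (by omega) (by omega) ⟨t, by omega⟩ hmz)
  · have hq1 := hq1 (by omega)
    refine inf_eq ?_ ?_
    · intro W hW
      obtain ⟨-, l5, -, l3⟩ := low W hW
      have h5 := l5 (by omega)
      have h3 := l3 (by
        rintro ⟨⟨t, ht⟩, h2⟩
        exact hodd ⟨⟨t.toNat, by omega⟩, by omega⟩)
      omega
    rcases Nat.even_or_odd' (ρ + 1) with ⟨t, ht | ht⟩
    · -- `r` even
      rcases Nat.lt_or_ge q 3 with hq3 | hq3
      · interval_cases q
        · rcases hk with hk | hk
          · exact tr (by omega) (by omega) (by omega) (up_d1e0 (k := k) (t := t) (by omega) (by omega)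
              (by omega) (by omega))
          · exact tr (by omega) (by omega) (by omega) (up_d1e1 (k := k) (t := t) (by omega) (by omega)
              (by omega) (by omega))
        · rcases hk with hk | hk
          · exact tr (by omega) (by omega) (by omega) (up_e2xe0 (k := k) (t := t) (by omega) (by omega)
              (by omega))
          · exact tr (by omega) (by omega) (by omega) (up_e2xe1 (k := k) (t := t) (by omega) (by omega)
              (by omega))
      · exact tr rfl rfl (by omega) (up_F2 (n := n) (m := m) (s := s) (r := (ρ : ℤ) + 1) (q := q)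
          (by omega) hsz hq3 (by omega) (by omega) ⟨t, by omega⟩ hmz)
    · -- `r = s`
      have hrs : ρ + 1 = s := by
        by_contra hne
        exact hodd ⟨⟨t, ht⟩, hne⟩
      rcases Nat.lt_or_ge q 3 with hq3 | hq3
      · interval_cases q
        · rcases hk with hk | hk
          · exact tr (by omega) (by omega) (by omega) (up_d2 (k := k) (t := t) (by omega) (by omega)
              (by omega) (by omega))
          · rcases Nat.lt_or_ge k 3 with hk3 | hk3
            · exact tr (by omega) (by omega) (by omega) up_5_7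
            · exact tr (by omega) (by omega) (by omega) (up_d3 (k := k) (t := t) (by omega) (by omega)
                (by omega) (by omega))
        · rcases hk with hk | hk
          · exact tr (by omega) (by omega) (by omega) (up_e3xe0 (k := k) (by omega))
          · rcases Nat.lt_or_ge k 3 with hk3 | hk3
            · exact tr (by omega) (by omega) (by omega) up_5_10
            · rcases Nat.lt_or_ge k 4 with hk4 | hk4
              · exact tr (by omega) (by omega) (by omega) up_7_16
              · exact tr (by omega) (by omega) (by omega) (up_e3xe1 (k := k) (by omega))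
      · have hmz' : (m : ℤ) - 1 = ((q : ℤ) + 1) * s := by
          have : ((ρ : ℤ) + 1) = s := by omega
          rw [hmz, this]; ring
        rcases Nat.lt_or_ge n 6 with hn6 | hn6
        · have hn5 : n = 5 := by omega
          have hs3 : s = 3 := by omega
          refine tr (by omega) rfl (by omega) (up_5 (m := m) (q := q) hq3 ?_)
          rw [hs3] at hmz'
          push_cast at hmz'
          linarith
        · exact tr rfl rfl (by omega) (up_F3 (n := n) (m := m) (s := s) (q := q) (by omega) hsz hq3 hmz')

/-- the multiset dimension of the strong product of two paths, `3 ≤ n ≤ m` -/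
theorem main {n m : ℕ} (hn : 3 ≤ n) (hnm : n ≤ m) :
    mdim (strongProd (SimpleGraph.pathGraph n) (SimpleGraph.pathGraph m)) = value n m := by
  rw [mdim_grid (by omega) (by omega)]
  rcases Nat.lt_or_ge n 5 with h | h
  · interval_cases n
    · exact three hnm
    · exact four hnm
  · exact five h hnm

end Mdim86
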