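import Pool.Agent.LibMdim86.Tree

/-!
# Root of a case tree: base hypotheses given as sparse linear forms
-/

namespace Mdim86

/-- packed value of a sparse form -/
def lsum (l : List (ℕ × ℤ)) : ℤ := (l.map fun p => p.2 * BB ^ p.1).sum

/-- value of a sparse form -/
def lval (v : ℕ → ℤ) (l : List (ℕ × ℤ)) : ℤ := (l.map fun p => p.2 * v p.1).sum

/-- size of a sparse form -/
def lsize (l : List (ℕ × ℤ)) : ℤ := (l.map fun p => |p.2|).sum

/-- offset code of a sparse form -/
def lnat (l : List (ℕ × ℤ)) : ℕ := (OO + lsum l).toNat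

/-- packed list of hypotheses -/
def pack : List ℕ → ℕ
  | [] => 0
  | X :: l => Nat.add (Nat.mul (pack l) WW) X

/-- the requirements on a sparse form -/
def lok (N : ℕ) (l : List (ℕ × ℤ)) : Bool :=
  l.all (fun p => decide (p.1 < N)) && decide (lsize l ≤ 64) && decide (0 ≤ OO + lsum l) &&
    decide (OO + lsum l < WW)

variable {v : ℕ → ℤ} {N : ℕ}

lemma lrep (hN : N ≤ SL) : ∀ l : List (ℕ × ℤ), (∀ p ∈ l, p.1 < N) →
    Rep v N (lsize l) (lsum l) (lval v l) := by
  intro l
  induction l with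
  | nil => intro _; simpa [lsize, lsum, lval] using Rep.zero N v
  | cons p l ih =>
    intro h
    have h1 := ih fun q hq => h q (List.mem_cons_of_mem _ hq)
    have h2 := Rep.single (v := v) p.1 (h p List.mem_cons_self) hN p.2
    have := h2.add h1
    simpa [lsize, lsum, lval] using this

lemma lnat_rep (hN : N ≤ SL) {l : List (ℕ × ℤ)} (h : lok N l = true) :
    NR v N 64 (lnat l) (lval v l) ∧ lnat l < WW := by
  unfold lok at h
  simp only [Bool.and_eq_true, decide_eq_true_eq, List.all_eq_true] at h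
  obtain ⟨⟨⟨h1, h2⟩, h3⟩, h4⟩ := h
  have e : ((lnat l : ℕ) : ℤ) = OO + lsum l := Int.toNat_of_nonneg h3
  constructor
  · unfold NR
    rw [e, add_sub_cancel_left]
    exact (lrep hN l h1).mono le_rfl h2
  · zify; rw [e]; exact h4

lemma hyp_pack (hN : N ≤ SL) : ∀ R : List (List (ℕ × ℤ)), (R.all (lok N)) = true →
    (∀ l ∈ R, 0 ≤ lval v l) → Hyp v N (pack (R.map lnat)) R.length := by
  intro R
  induction R with
  | nil => intro _ _ s hs; simp at hs
  | cons l R ih =>
    intro h1 h2
    rw [List.all_cons, Bool.and_eq_true] at h1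
    have h3 := ih h1.2 fun l' hl' => h2 l' (List.mem_cons_of_mem _ hl')
    obtain ⟨h4, h5⟩ := lnat_rep (v := v) hN h1.1
    exact h3.push h5 (h2 l List.mem_cons_self) (Rep.mono h4 le_rfl (by norm_num))

/-- the main consequence: a checked tree gives a contradiction -/
theorem tree_false {K : ℕ} (nl ml : List (ℕ × ℤ)) (pl : List (List (ℕ × ℤ) × List (ℕ × ℤ)))
    (R : List (List (ℕ × ℤ))) (t : Tr) (hK : K ≤ SL) (hK0 : 0 < K)
    (h1 : (lok K nl && lok K ml && pl.all (fun p => lok K p.1 && lok K p.2) && R.all (lok K)) = true)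
    (HH : ℕ) (hHH : HH = pack (R.map lnat)) (n m : ℕ) (hn : n = lnat nl) (hm : m = lnat ml)
    (pts : List (ℕ × ℕ)) (hpts : pts = pl.map fun p => (lnat p.1, lnat p.2))
    (hc : chk n m pts t K HH R.length = true)
    (v : ℕ → ℤ) (hv : v 0 = 1) (hR : ∀ l ∈ R, 0 ≤ lval v l)
    (hg : Good (lval v nl) (lval v ml) (pl.map fun p => (lval v p.1, lval v p.2))) : False := by
  simp only [Bool.and_eq_true] at h1
  obtain ⟨⟨⟨h2, h3⟩, h4⟩, h5⟩ := h1
  subst hn; subst hm; subst hHH; subst hpts
  refine chk_sound hg t K v _ _ hv hK0 hK (lnat_rep hK h2).1 (lnat_rep hK h3).1 ?_ (hyp_pack hK R h5 hR) hc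
  unfold PRep
  rw [List.all_eq_true] at h4
  clear hg hc
  induction pl with
  | nil => exact .nil
  | cons p pl ih =>
    have := h4 p List.mem_cons_self
    rw [Bool.and_eq_true] at this
    exact .cons ⟨(lnat_rep hK this.1).1, (lnat_rep hK this.2).1⟩
      (ih fun x hx => h4 x (List.mem_cons_of_mem _ hx))

end Mdim86
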