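import Pool.Agent.LibMdim86.TreeQ

namespace Mdim86

def t4o_n : ℕ := 0x10000001000000100000010000001000000100000010000001000000100000010000001000000100000010000001000000100000010000001000000100000010000001000000100000010000001000000100000010000001000000100000010000001000000100000010020001001
def t4o_m : ℕ := 0x10000001000000100000010000001000000100000010000001000000100000010000001000000100000010000001000000100000010000001000000100000010000001000000100000010000001000000100000010000001000000100000010000001000000100100010000001000
def t4o_p : List (ℕ × ℕ) := [(0x10000001000000100000010000001000000100000010000001000000100000010000001000000100000010000001000000100000010000001000000100000010000001000000100000010000001000000100000010000001000000100000010000001001000100000010000001000, 0x10000001000000100000010000001000000100000010000001000000100000010000001000000100000010000001000000100000010000001000000100000010000001000000100000010000001000000100000010010001000000100000010000001000000100000010000001000), (0x10000001000000100000010000001000000100000010000001000000100000010000001000000100000010000001000000100000010000001000000100000010000001000000100000010000001000000100000010000001000000100000010010001000000100000010000001000, 0x10000001000000100000010000001000000100000010000001000000100000010000001000000100000010000001000000100000010000001000000100000010000001000000100000010000001000000100100010000001000000100000010000001000000100000010000001000), (0x10000001000000100000010000001000000100000010000001000000100000010000001000000100000010000001000000100000010000001000000100000010000001000000100000010000001000000100000010000001000000100100010000001000000100000010000001000,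 0x10000001000000100000010000001000000100000010000001000000100000010000001000000100000010000001000000100000010000001000000100000010000001000000100000010000001001000100000010000001000000100000010000001000000100000010000001000), (0x10000001000000100000010000001000000100000010000001000000100000010000001000000100000010000001000000100000010000001000000100000010000001000000100000010000001000000100000010000001001000100000010000001000000100000010000001000, 0x10000001000000100000010000001000000100000010000001000000100000010000001000000100000010000001000000100000010000001000000100000010000001000000100000010010001000000100000010000001000000100000010000001000000100000010000001000)]

end Mdim86
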