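import Pool.Agent.LibMdim86.Core
import Pool.Agent.LibMdim86.Defs

/-!
# Case trees for lower bounds: no resolving configuration
-/

namespace Mdim86

/-- a configuration of points with integer coordinates in the `n x m` grid, resolving -/
structure Good (n m : ℤ) (pts : List (ℤ × ℤ)) : Prop where
  coll : ∀ i j i' j' : ℤ, 1 ≤ i → i ≤ n → 1 ≤ j → j ≤ m → 1 ≤ i' → i' ≤ n → 1 ≤ j' → j' ≤ m →
    (pts.map fun w => dd i j w.1 w.2).Perm (pts.map fun w => dd i' j' w.1 w.2) → i = i' ∧ j = j'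
  nodup : pts.Nodup

/-- case trees -/
inductive Tr
  | L (c : ℕ) : Tr
  | S (f : ℕ) (t1 t2 : Tr) : Tr
  | P (f : ℕ) (t0 t1 : Tr) : Tr
  | U (f c : ℕ) (t : Tr) : Tr
  | C (i j i' j' mt c : ℕ) : Tr
  | D (p q c : ℕ) : Tr

/-- one of the four linear branches of the distance, as a difference -/
def frm {α : Type} (f : ℕ) (I J a b : α) : α × α :=
  match f with
  | 0 => (I, a)
  | 1 => (a, I)
  | 2 => (J, b)
  | _ => (b, J)

/-- the inequalities saying that branch `f` is the maximal one, as differences -/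
def vts {α : Type} (add : α → α → α) (f : ℕ) (I J a b : α) : List (α × α) :=
  match f with
  | 0 => [(add I b, add a J), (add I J, add a b)]
  | 1 => [(add a b, add I J), (add a J, add I b)]
  | 2 => [(add J a, add b I), (add J I, add b a)]
  | _ => [(add b a, add J I), (add b I, add J a)]

/-- prove all targets, reading certificates from the stream -/
def impAll (HH len : ℕ) (k : ℕ → Bool) (l : List (ℕ × ℕ)) : ℕ → Bool :=
  List.rec (motive := fun _ => ℕ → Bool) (fun c => k c)
    (fun T _ ih c => imp HH len T.1 T.2 c ih) l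

/-- targets for one point -/
def tgs {α : Type} (add : α → α → α) (fx fy : ℕ) (I J I' J' a b a' b' : α) : List (α × α) :=
  List.append (vts add fx I J a b) (List.append (vts add fy I' J' a' b')
    [(add (frm fx I J a b).1 (frm fy I' J' a' b').2, add (frm fx I J a b).2 (frm fy I' J' a' b').1),
     (add (frm fy I' J' a' b').1 (frm fx I J a b).2, add (frm fy I' J' a' b').2 (frm fx I J a b).1)])

/-- lookup with a continuation -/
def nth (k : ℕ → ℕ → Bool) (l : List (ℕ × ℕ)) : ℕ → Bool :=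
  List.rec (motive := fun _ => ℕ → Bool) (fun _ => false)
    (fun w _ ih n => Nat.rec (motive := fun _ => Bool) (k w.1 w.2) (fun m _ => ih m) n) l

/-- go through the points; `mt` gives for each point the partner and the branches -/
def goC (HH len : ℕ) (I J I' J' : ℕ) (all : List (ℕ × ℕ)) (k : ℕ → ℕ → List ℕ → Bool)
    (ws : List (ℕ × ℕ)) : ℕ → ℕ → List ℕ → Bool :=
  List.rec (motive := fun _ => ℕ → ℕ → List ℕ → Bool) (fun mt c pi => k mt c pi)
    (fun w _ ih mt c pi =>
      nth (fun a' b' =>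
        impAll HH len (fun c' => ih (Nat.div mt (nat_lit 128)) c' (Nat.mod mt (nat_lit 4) :: pi))
          (tgs Nat.add (Nat.mod (Nat.div mt (nat_lit 4)) (nat_lit 4)) (Nat.mod (Nat.div mt (nat_lit 16)) (nat_lit 4))
            I J I' J' w.1 w.2 a' b') c) all (Nat.mod mt (nat_lit 4))) ws

/-- the form showing that the two vertices differ (to be compared with one) -/
def dst {α : Type} (k : ℕ) (I J I' J' : α) : α × α :=
  match k with
  | 0 => (I, I')
  | 1 => (I', I)
  | 2 => (J, J')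
  | _ => (J', J)

/-- push a form on the packed list -/
def psh (HH len X : ℕ) (k : ℕ → ℕ → Bool) : Bool :=
  and (Nat.ble (Nat.succ X) WW) (k (Nat.add (Nat.mul HH WW) X) (Nat.succ len))

/-- `2^(28 N + 1)` -/
def zz (N : ℕ) : ℕ := Nat.mul (nat_lit 2) (Nat.pow (nat_lit 2) (Nat.mul (nat_lit 28) N))

/-- the checker -/
noncomputable def chk (n m : ℕ) (pts : List (ℕ × ℕ)) (t : Tr) : ℕ → ℕ → ℕ → Bool :=
  Tr.rec (motive := fun _ => ℕ → ℕ → ℕ → Bool)
    (fun c _ HH len => imp HH len (Nat.sub OO (nat_lit 1)) OO c (fun _ => true))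
    (fun f _ _ ih1 ih2 N HH len => dec N f (fun X =>
      and (psh HH len X (ih1 N))
        (and (Nat.ble (Nat.succ X) (Nat.mul (nat_lit 2) OO))
          (psh HH len (Nat.sub (Nat.mul (nat_lit 2) OO) (Nat.succ X)) (ih2 N)))))
    (fun f _ _ ih0 ih1 N HH len => dec N f (fun X =>
      and (Nat.ble (Nat.succ N) (nat_lit 32))
      (and (Nat.ble (Nat.succ (zz N)) X)
      (and (Nat.ble X (Nat.mul (nat_lit 2) OO))
      (and
        (psh HH len (Nat.sub (Nat.add (zz N) (Nat.mul (nat_lit 2) OO)) X) (fun HH' len' =>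
          psh HH' len' (Nat.sub X (zz N)) (ih0 (Nat.succ N))))
        (psh HH len (Nat.sub (Nat.add (Nat.succ (zz N)) (Nat.mul (nat_lit 2) OO)) X) (fun HH' len' =>
          psh HH' len' (Nat.sub X (Nat.succ (zz N))) (ih1 (Nat.succ N)))))))))
    (fun f c _ ih N HH len => dec N f (fun X =>
      imp HH len X OO c (fun _ => psh HH len X (ih N))))
    (fun i j i' j' mt c N HH len => dec N i (fun I => dec N j (fun J => dec N i' (fun I' => dec N j' (fun J' =>
      goC HH len I J I' J' pts (fun mt' c' pi =>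
        and (pi.isPerm (List.range pts.length))
        (impAll HH len (fun _ => true)
          [(I, Nat.succ OO), (n, I), (J, Nat.succ OO), (m, J), (I', Nat.succ OO), (n, I'), (J', Nat.succ OO), (m, J'),
            ((dst mt' I J I' J').1, Nat.succ (dst mt' I J I' J').2)] c')) pts mt c [])))))
    (fun p q c _ HH len => nth (fun a b => nth (fun a' b' =>
        and (!(Nat.beq p q))
        (impAll HH len (fun _ => true) [(a, a'), (a', a), (b, b'), (b', b)] c)) pts q) pts p) t

/-- the packed points represent the real points -/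
def PRep (v : ℕ → ℤ) (N : ℕ) (pts : List (ℕ × ℕ)) (vals : List (ℤ × ℤ)) : Prop :=
  List.Forall₂ (fun w x => Rep v N 64 ((w.1 : ℤ) - OO) x.1 ∧ Rep v N 64 ((w.2 : ℤ) - OO) x.2) pts vals

variable {v : ℕ → ℤ} {N : ℕ}

/-- a target represented -/
def TRep (v : ℕ → ℤ) (N : ℕ) (T : ℕ × ℕ) (t : ℤ × ℤ) : Prop := Rep v N 4096 ((T.1 : ℤ) - T.2) (t.1 - t.2)

lemma impAll_sound (hv : v 0 = 1) (hN0 : 0 < N) (hN : N ≤ SL) {HH len : ℕ} (hH : Hyp v N HH len)
    (k : ℕ → Bool) :
    ∀ (Ts : List (ℕ × ℕ)) (ts : List (ℤ × ℤ)) (c : ℕ), List.Forall₂ (TRep v N) Ts ts →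
      impAll HH len k Ts c = true → (∀ t ∈ ts, t.2 ≤ t.1) ∧ ∃ c', k c' = true := by
  intro Ts
  induction Ts with
  | nil => intro ts c h hk; cases h; exact ⟨by simp, c, hk⟩
  | cons T Ts ih =>
    intro ts c h he
    cases h with
    | cons h1 h2 =>
      rename_i t0 ts0
      have he' : imp HH len T.1 T.2 c (impAll HH len k Ts) = true := he
      obtain ⟨h3, c1, hc1⟩ := imp_sound hv hN0 hN hH h1 he'
      obtain ⟨h4, h5⟩ := ih _ _ h2 hc1
      refine ⟨?_, h5⟩
      intro t ht
      rw [List.mem_cons] at ht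
      rcases ht with rfl | ht
      · omega
      · exact h4 t ht

lemma PRep.fresh {pts : List (ℕ × ℕ)} {vals : List (ℤ × ℤ)} (h : PRep v N pts vals) (v' : ℕ → ℤ)
    (hv : ∀ i, i < N → v i = v' i) : PRep v' (N + 1) pts vals := by
  unfold PRep at *
  refine h.imp ?_
  intro a b hab
  exact ⟨(hab.1.fresh v' hv).mono (by omega) le_rfl, (hab.2.fresh v' hv).mono (by omega) le_rfl⟩

/-- representation of a number with bound `M` -/
def NR (v : ℕ → ℤ) (N : ℕ) (M : ℤ) (X : ℕ) (x : ℤ) : Prop := Rep v N M ((X : ℤ) - OO) x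

lemma NR.dif {M M' : ℤ} {X X' : ℕ} {x x' : ℤ} (h : NR v N M X x) (h' : NR v N M' X' x') :
    Rep v N (M + M') ((X : ℤ) - X') (x - x') := by
  have := Rep.sub h h'
  have e : ((X : ℤ) - OO) - ((X' : ℤ) - OO) = (X : ℤ) - X' := by ring
  rwa [e] at this

lemma NR.dif2 {M1 M2 M3 M4 : ℤ} {X Y Z W : ℕ} {x y z w : ℤ} (h1 : NR v N M1 X x) (h2 : NR v N M2 Y y)
    (h3 : NR v N M3 Z z) (h4 : NR v N M4 W w) (hM : M1 + M2 + (M3 + M4) ≤ 4096) :
    TRep v N (Nat.add X Y, Nat.add Z W) (x + y, z + w) := by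
  have a := (Rep.add h1 h2).sub (Rep.add h3 h4)
  have e : ((X : ℤ) - OO + ((Y : ℤ) - OO)) - ((Z : ℤ) - OO + ((W : ℤ) - OO))
      = ((Nat.add X Y : ℕ) : ℤ) - (Nat.add Z W : ℕ) := by
    have e1 : Nat.add X Y = X + Y := rfl
    have e2 : Nat.add Z W = Z + W := rfl
    rw [e1, e2]; push_cast; ring
  rw [e] at a
  exact a.mono le_rfl hM

lemma vts_rep {I J a b : ℕ} {i j x y : ℤ} (f : ℕ) (hI : NR v N 1024 I i) (hJ : NR v N 1024 J j)
    (ha : NR v N 64 a x) (hb : NR v N 64 b y) :
    List.Forall₂ (TRep v N) (vts Nat.add f I J a b) (vts (· + ·) f i j x y) := by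
  unfold vts
  split
  · exact .cons (hI.dif2 hb ha hJ (by norm_num)) (.cons (hI.dif2 hJ ha hb (by norm_num)) .nil)
  · exact .cons (ha.dif2 hb hI hJ (by norm_num)) (.cons (ha.dif2 hJ hI hb (by norm_num)) .nil)
  · exact .cons (hJ.dif2 ha hb hI (by norm_num)) (.cons (hJ.dif2 hI hb ha (by norm_num)) .nil)
  · exact .cons (hb.dif2 ha hJ hI (by norm_num)) (.cons (hb.dif2 hI hJ ha (by norm_num)) .nil)

lemma frm_rep {I J a b : ℕ} {i j x y : ℤ} (f : ℕ) (hI : NR v N 1024 I i) (hJ : NR v N 1024 J j)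
    (ha : NR v N 64 a x) (hb : NR v N 64 b y) :
    NR v N 1024 (frm f I J a b).1 (frm f i j x y).1 ∧ NR v N 1024 (frm f I J a b).2 (frm f i j x y).2 := by
  have ha' : NR v N 1024 a x := Rep.mono ha le_rfl (by norm_num)
  have hb' : NR v N 1024 b y := Rep.mono hb le_rfl (by norm_num)
  unfold frm
  split
  · exact ⟨hI, ha'⟩
  · exact ⟨ha', hI⟩
  · exact ⟨hJ, hb'⟩
  · exact ⟨hb', hJ⟩

lemma forall₂_append {α β : Type*} {R : α → β → Prop} {a : List α} {b : List β} {c : List α} {d : List β}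
    (h1 : List.Forall₂ R a b) (h2 : List.Forall₂ R c d) : List.Forall₂ R (a ++ c) (b ++ d) := by
  induction h1 with
  | nil => simpa using h2
  | cons h _ ih => exact .cons h ih

lemma dd_h {i j x y F : ℤ} (h1 : |i - x| ≤ F) (h2 : |j - y| ≤ F) (h3 : F = |i - x| ∨ F = |j - y|) :
    dd i j x y = F := by
  unfold dd
  apply le_antisymm (max_le h1 h2)
  rcases h3 with h | h
  · rw [h]; exact le_max_left _ _
  · rw [h]; exact le_max_right _ _

lemma vts_dd {f : ℕ} {i j x y : ℤ} (h : ∀ t ∈ vts (· + ·) f i j x y, t.2 ≤ t.1) :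
    dd i j x y = (frm f i j x y).1 - (frm f i j x y).2 := by
  unfold frm
  unfold vts at h
  split at h
  all_goals
    simp only [List.mem_cons, List.not_mem_nil, or_false, forall_eq_or_imp, forall_eq] at h
    obtain ⟨h1, h2⟩ := h
  · exact dd_h (abs_le.2 ⟨by omega, by omega⟩) (abs_le.2 ⟨by omega, by omega⟩)
      (Or.inl (abs_of_nonneg (by omega)).symm)
  · exact dd_h (abs_le.2 ⟨by omega, by omega⟩) (abs_le.2 ⟨by omega, by omega⟩)
      (Or.inl (by rw [abs_of_nonpos (by omega)]; ring))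
  · exact dd_h (abs_le.2 ⟨by omega, by omega⟩) (abs_le.2 ⟨by omega, by omega⟩)
      (Or.inr (abs_of_nonneg (by omega)).symm)
  · exact dd_h (abs_le.2 ⟨by omega, by omega⟩) (abs_le.2 ⟨by omega, by omega⟩)
      (Or.inr (by rw [abs_of_nonpos (by omega)]; ring))

lemma nth_sound {R : ℕ × ℕ → ℤ × ℤ → Prop} (k : ℕ → ℕ → Bool) : ∀ (a : List (ℕ × ℕ)) (b : List (ℤ × ℤ))
    (n : ℕ), List.Forall₂ R a b → nth k a n = true → ∃ w y, k w.1 w.2 = true ∧ b[n]? = some y ∧ R w y := by
  intro a
  induction a with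
  | nil => intro b n _ h; cases h
  | cons w ws ih =>
    intro b n h hk
    cases h with
    | cons h1 h2 =>
      rename_i y ys
      cases n with
      | zero =>
        have hk' : k w.1 w.2 = true := hk
        exact ⟨w, y, hk', by simp, h1⟩
      | succ n =>
        have hk' : nth k ws n = true := hk
        obtain ⟨w', y', h3, h4, h5⟩ := ih _ _ h2 hk'
        exact ⟨w', y', h3, by simpa using h4, h5⟩

lemma goC_sound (hv : v 0 = 1) (hN0 : 0 < N) (hN : N ≤ SL) {HH len : ℕ} (hH : Hyp v N HH len)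
    {I J I' J' : ℕ} {i j i' j' : ℤ} (hI : NR v N 1024 I i) (hJ : NR v N 1024 J j)
    (hI' : NR v N 1024 I' i') (hJ' : NR v N 1024 J' j') {all : List (ℕ × ℕ)} {allv : List (ℤ × ℤ)}
    (hall : PRep v N all allv) (k : ℕ → ℕ → List ℕ → Bool) :
    ∀ (ws : List (ℕ × ℕ)) (wv : List (ℤ × ℤ)) (mt c : ℕ) (pi0 : List ℕ),
    PRep v N ws wv → goC HH len I J I' J' all k ws mt c pi0 = true →
    ∃ (ls : List ℕ) (mt' c' : ℕ), k mt' c' (ls.reverse ++ pi0) = true ∧
      List.Forall₂ (fun x l => ∃ y : ℤ × ℤ, allv[l]? = some y ∧ dd i j x.1 x.2 = dd i' j' y.1 y.2) wv ls := by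
  intro ws
  induction ws with
  | nil =>
    intro wv mt c pi0 h he
    cases h
    exact ⟨[], mt, c, he, .nil⟩
  | cons w ws ih =>
    intro wv mt c pi0 h he
    cases h with
    | cons h1 h2 =>
      rename_i x xs
      have he' : nth (fun a' b' =>
        impAll HH len (fun c' => goC HH len I J I' J' all k ws (mt / 128) c' (mt % 4 :: pi0))
          (tgs Nat.add (mt / 4 % 4) (mt / 16 % 4) I J I' J' w.1 w.2 a' b') c) all (mt % 4) = true := he
      obtain ⟨w', y, hk, hy, hyr⟩ := nth_sound _ _ _ _ hall he'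
      have fx := frm_rep (mt / 4 % 4) hI hJ h1.1 h1.2
      have fy := frm_rep (mt / 16 % 4) hI' hJ' hyr.1 hyr.2
      obtain ⟨key, c', hc'⟩ := impAll_sound hv hN0 hN hH _ _
        (tgs (· + ·) (mt / 4 % 4) (mt / 16 % 4) i j i' j' x.1 x.2 y.1 y.2) _
        (forall₂_append (vts_rep (mt / 4 % 4) hI hJ h1.1 h1.2) (forall₂_append
        (vts_rep (mt / 16 % 4) hI' hJ' hyr.1 hyr.2)
        (.cons (fx.1.dif2 fy.2 fx.2 fy.1 (by norm_num)) (.cons (fy.1.dif2 fx.2 fy.2 fx.1 (by norm_num)) .nil)))) hk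
      obtain ⟨ls, mt', c'', hls, hf⟩ := ih _ _ _ _ h2 hc'
      refine ⟨(mt % 4) :: ls, mt', c'', by simpa using hls, .cons ⟨y, hy, ?_⟩ hf⟩
      have k1 : dd i j x.1 x.2 = (frm (mt / 4 % 4) i j x.1 x.2).1 - (frm (mt / 4 % 4) i j x.1 x.2).2 :=
        vts_dd fun t ht => key t (by
          unfold tgs; rw [List.append_eq, List.append_eq]; simp [ht])
      have k2 : dd i' j' y.1 y.2 = (frm (mt / 16 % 4) i' j' y.1 y.2).1 - (frm (mt / 16 % 4) i' j' y.1 y.2).2 :=
        vts_dd fun t ht => key t (by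
          unfold tgs; rw [List.append_eq, List.append_eq]; simp [ht])
      have k3 := key ((frm (mt / 4 % 4) i j x.1 x.2).1 + (frm (mt / 16 % 4) i' j' y.1 y.2).2,
        (frm (mt / 4 % 4) i j x.1 x.2).2 + (frm (mt / 16 % 4) i' j' y.1 y.2).1) (by
          unfold tgs; rw [List.append_eq, List.append_eq]; simp)
      have k4 := key ((frm (mt / 16 % 4) i' j' y.1 y.2).1 + (frm (mt / 4 % 4) i j x.1 x.2).2,
        (frm (mt / 16 % 4) i' j' y.1 y.2).2 + (frm (mt / 4 % 4) i j x.1 x.2).1) (by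
          unfold tgs; rw [List.append_eq, List.append_eq]; simp)
      simp only at k3 k4
      rw [k1, k2]; omega

lemma perm_of_forall₂ {i j i' j' : ℤ} {pv : List (ℤ × ℤ)} {ls : List ℕ}
    (h : List.Forall₂ (fun x l => ∃ y : ℤ × ℤ, pv[l]? = some y ∧ dd i j x.1 x.2 = dd i' j' y.1 y.2) pv ls)
    (hp : ls.Perm (List.range pv.length)) :
    (pv.map fun w => dd i j w.1 w.2).Perm (pv.map fun w => dd i' j' w.1 w.2) := by
  have e1 : ∀ (a : List (ℤ × ℤ)) (b : List ℕ),
      List.Forall₂ (fun x l => ∃ y : ℤ × ℤ, pv[l]? = some y ∧ dd i j x.1 x.2 = dd i' j' y.1 y.2) a b →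
      (a.map fun w => dd i j w.1 w.2) = b.map fun l => (pv.map fun w => dd i' j' w.1 w.2).getD l 0 := by
    intro a b hab
    induction hab with
    | nil => rfl
    | cons hh _ ih =>
      obtain ⟨y, hy, hd⟩ := hh
      simp only [List.map_cons, ih, List.cons.injEq, and_true]
      rw [hd]
      simp [List.getD_eq_getElem?_getD, List.getElem?_map, hy]
  rw [e1 pv ls h]
  refine (hp.map _).trans ?_
  apply List.Perm.of_eq
  apply List.ext_getElem
  · simp
  · intro k h1 h2
    simp at h1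
    simp [List.getD_eq_getElem?_getD, List.getElem?_map, List.getElem?_eq_getElem h1]

lemma update_eval (v : ℕ → ℤ) (N : ℕ) (z : ℤ) : ∀ i, i < N → v i = (fun k => if k = N then z else v k) i := by
  intro i hi
  simp [show i ≠ N by omega]

lemma psh_sound {HH len X : ℕ} {x : ℤ} {k : ℕ → ℕ → Bool} (hH : Hyp v N HH len) (hx : 0 ≤ x)
    (hr : NR v N 2048 X x) (h : psh HH len X k = true) :
    ∃ HH' len', k HH' len' = true ∧ Hyp v N HH' len' := by
  unfold psh at h
  simp only [Bool.and_eq_true, Nat.ble_eq] at h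
  exact ⟨_, _, h.2, hH.push (show X < WW from h.1) hx hr⟩

lemma OO_cast : ((Nat.sub OO 1 : ℕ) : ℤ) - OO = -1 := by
  have h : 1 ≤ OO := by decide +kernel
  have e : Nat.sub OO 1 = OO - 1 := rfl
  rw [e, Nat.cast_sub h]; push_cast; ring

theorem chk_sound {n m : ℕ} {pts : List (ℕ × ℕ)} {pv : List (ℤ × ℤ)} {nv mv : ℤ} (hg : Good nv mv pv) :
    ∀ (t : Tr) (N : ℕ) (v : ℕ → ℤ) (HH len : ℕ), v 0 = 1 → 0 < N → N ≤ SL →
      NR v N 64 n nv → NR v N 64 m mv → PRep v N pts pv → Hyp v N HH len →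
      chk n m pts t N HH len = true → False := by
  intro t
  induction t with
  | L c =>
    intro N v HH len hv hN0 hN _ _ _ hH h
    have h' : imp HH len (Nat.sub OO 1) OO c (fun _ => true) = true := h
    have := (imp_sound hv hN0 hN hH (t := -1) (by
      rw [OO_cast]; exact (Rep.const hv hN0 hN (-1)).mono le_rfl (by norm_num)) h').1
    omega
  | S f t1 t2 ih1 ih2 =>
    intro N v HH len hv hN0 hN hn hm hp hH h
    have h' : dec N f (fun X =>
      and (psh HH len X (chk n m pts t1 N))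
        (and (Nat.ble (Nat.succ X) (2 * OO))
          (psh HH len (2 * OO - Nat.succ X) (chk n m pts t2 N)))) = true := h
    obtain ⟨X, y, hX, hy⟩ := dec_sound (v := v) hN h'
    simp only [Bool.and_eq_true, Nat.ble_eq] at hX
    obtain ⟨h1, h2, h3⟩ := hX
    rcases le_or_gt 0 y with h0 | h0
    · obtain ⟨HH', len', hk, hH'⟩ := psh_sound hH h0 (hy.mono le_rfl (by norm_num)) h1
      exact ih1 N v _ _ hv hN0 hN hn hm hp hH' hk
    · obtain ⟨HH', len', hk, hH'⟩ := psh_sound (x := -y - 1) hH (by omega) (by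
        have := (hy.neg.sub (Rep.const hv hN0 hN 1)).mono (le_refl N) (show (1024 : ℤ) + |1| ≤ 2048 by norm_num)
        have e : (((2 * OO - Nat.succ X : ℕ) : ℤ) - OO) = -((X : ℤ) - OO) - 1 := by
          rw [Nat.cast_sub h2]; push_cast; ring
        unfold NR
        rw [e]; exact this) h3
      exact ih2 N v _ _ hv hN0 hN hn hm hp hH' hk
  | P f t0 t1 ih0 ih1 =>
    intro N v HH len hv hN0 hN hn hm hp hH h
    have h' : dec N f (fun X =>
      and (Nat.ble (Nat.succ N) 32)
      (and (Nat.ble (Nat.succ (zz N)) X)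
      (and (Nat.ble X (2 * OO))
      (and
        (psh HH len (zz N + 2 * OO - X) (fun HH' len' =>
          psh HH' len' (X - zz N) (chk n m pts t0 (N + 1))))
        (psh HH len (Nat.succ (zz N) + 2 * OO - X) (fun HH' len' =>
          psh HH' len' (X - Nat.succ (zz N)) (chk n m pts t1 (N + 1)))))))) = true := h
    obtain ⟨X, y, hX, hy⟩ := dec_sound (v := v) hN h'
    simp only [Bool.and_eq_true, Nat.ble_eq] at hX
    obtain ⟨hN2, hX1, hX2, h1, h2⟩ := hX
    obtain ⟨z, hz⟩ := Int.even_or_odd' y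
    set v' : ℕ → ℤ := fun k => if k = N then z else v k with hv'
    have hvv := update_eval v N z
    have hv0 : v' 0 = 1 := by rw [hv']; simp [show (0:ℕ) ≠ N by omega, hv]
    have hNS : N + 1 ≤ SL := by unfold SL; omega
    have hy' : Rep v' (N + 1) 1024 ((X : ℤ) - OO) y := (hy.fresh v' hvv).mono (by omega) le_rfl
    have hzr : Rep v' (N + 1) 2 ((zz N : ℕ) : ℤ) (2 * z) := by
      have := Rep.single (v := v') (N := N + 1) N (by omega) hNS 2
      have e : (2 : ℤ) * BB ^ N = ((zz N : ℕ) : ℤ) := by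
        have : zz N = 2 * 2 ^ (28 * N) := rfl
        rw [this]; push_cast; unfold BB; rw [pow_mul]; norm_num
      rw [← e]
      simpa [hv'] using this
    have c1 : Rep v' (N + 1) 1 1 1 := by
      simpa using Rep.const hv0 (by omega) hNS 1
    have hn' : NR v' (N + 1) 64 n nv := (Rep.fresh hn v' hvv).mono (by omega) le_rfl
    have hm' : NR v' (N + 1) 64 m mv := (Rep.fresh hm v' hvv).mono (by omega) le_rfl
    rcases hz with hz | hz
    · obtain ⟨HH', len', hk, hH'⟩ := psh_sound (x := 2 * z - y) (hH.fresh v' hvv) (by omega) (by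
        have := (hzr.sub hy').mono (le_refl _) (show (2 : ℤ) + 1024 ≤ 2048 by norm_num)
        have e : (((zz N + 2 * OO - X : ℕ) : ℤ) - OO) = (zz N : ℕ) - ((X : ℤ) - OO) := by
          rw [Nat.cast_sub (by omega)]; push_cast; ring
        unfold NR
        rw [e]; exact this) h1
      obtain ⟨HH'', len'', hk', hH''⟩ := psh_sound (x := y - 2 * z) hH' (by omega) (by
        have := (hy'.sub hzr).mono (le_refl _) (show (1024 : ℤ) + 2 ≤ 2048 by norm_num)
        have e : (((X - zz N : ℕ) : ℤ) - OO) = ((X : ℤ) - OO) - (zz N : ℕ) := by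
          rw [Nat.cast_sub (by omega)]; ring
        unfold NR
        rw [e]; exact this) hk
      exact ih0 (N + 1) v' _ _ hv0 (by omega) hNS hn' hm' (hp.fresh v' hvv) hH'' hk'
    · obtain ⟨HH', len', hk, hH'⟩ := psh_sound (x := 2 * z + 1 - y) (hH.fresh v' hvv) (by omega) (by
        have := ((hzr.add c1).sub hy').mono (le_refl _) (show (2 : ℤ) + 1 + 1024 ≤ 2048 by norm_num)
        have e : (((Nat.succ (zz N) + 2 * OO - X : ℕ) : ℤ) - OO) = ((zz N : ℕ) : ℤ) + 1 - ((X : ℤ) - OO) := by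
          rw [Nat.cast_sub (by omega)]; push_cast; ring
        unfold NR
        rw [e]; exact this) h2
      obtain ⟨HH'', len'', hk', hH''⟩ := psh_sound (x := y - 2 * z - 1) hH' (by omega) (by
        have := ((hy'.sub hzr).sub c1).mono (le_refl _) (show (1024 : ℤ) + 2 + 1 ≤ 2048 by norm_num)
        have e : (((X - Nat.succ (zz N) : ℕ) : ℤ) - OO) = ((X : ℤ) - OO) - (zz N : ℕ) - 1 := by
          rw [Nat.cast_sub (by omega)]; push_cast; ring
        unfold NR
        rw [e]; exact this) hk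
      exact ih1 (N + 1) v' _ _ hv0 (by omega) hNS hn' hm' (hp.fresh v' hvv) hH'' hk'
  | U f c t ih =>
    intro N v HH len hv hN0 hN hn hm hp hH h
    have h' : dec N f (fun X =>
      imp HH len X OO c (fun _ => psh HH len X (chk n m pts t N))) = true := h
    obtain ⟨X, y, hX, hy⟩ := dec_sound (v := v) hN h'
    obtain ⟨h0, c', hc'⟩ := imp_sound hv hN0 hN hH (hy.mono le_rfl (by norm_num)) hX
    obtain ⟨HH', len', hk, hH'⟩ := psh_sound hH h0 (hy.mono le_rfl (by norm_num)) hc'
    exact ih N v _ _ hv hN0 hN hn hm hp hH' hk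
  | C i j i' j' mt c =>
    intro N v HH len hv hN0 hN hn hm hp hH h
    have h' : dec N i (fun I => dec N j (fun J => dec N i' (fun I' => dec N j' (fun J' =>
      goC HH len I J I' J' pts (fun mt' c' pi =>
        and (pi.isPerm (List.range pts.length))
        (impAll HH len (fun _ => true)
          [(I, OO + 1), (n, I), (J, OO + 1), (m, J), (I', OO + 1), (n, I'), (J', OO + 1), (m, J'),
            ((dst mt' I J I' J').1, Nat.succ (dst mt' I J I' J').2)] c')) pts mt c [])))) = true := h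
    obtain ⟨I, i, h1, hi⟩ := dec_sound (v := v) hN h'
    obtain ⟨J, j, h2, hj⟩ := dec_sound (v := v) hN h1
    obtain ⟨I', i', h3, hi'⟩ := dec_sound (v := v) hN h2
    obtain ⟨J', j', h4, hj'⟩ := dec_sound (v := v) hN h3
    obtain ⟨ls, mt', c', hk, hf⟩ := goC_sound hv hN0 hN hH hi hj hi' hj' hp _ _ _ _ _ _ hp h4
    simp only [List.append_nil, Bool.and_eq_true] at hk
    obtain ⟨hperm, hk2⟩ := hk
    rw [List.isPerm_iff] at hperm
    have hlen : pts.length = pv.length := hp.length_eq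
    rw [hlen] at hperm
    have hperm' : ls.Perm (List.range pv.length) := (List.reverse_perm ls).symm.trans hperm
    have P := perm_of_forall₂ hf hperm'
    have c1 : Rep v N 1 1 1 := by simpa using Rep.const hv hN0 hN 1
    have last : ∃ t : ℤ × ℤ, TRep v N ((dst mt' I J I' J').1, Nat.succ (dst mt' I J I' J').2) t ∧
        (t.2 ≤ t.1 → ¬ (i = i' ∧ j = j')) := by
      have aux : ∀ {A B : ℕ} {a b : ℤ}, NR v N 1024 A a → NR v N 1024 B b →
          TRep v N (A, Nat.succ B) (a, b + 1) := by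
        intro A B a b ha hb
        have := ((ha.dif hb).sub c1).mono (le_refl N) (show (1024 : ℤ) + 1024 + 1 ≤ 4096 by norm_num)
        unfold TRep
        have e1 : ((A : ℤ) - ((Nat.succ B : ℕ) : ℤ)) = (A : ℤ) - B - 1 := by push_cast; ring
        have e2 : a - (b + 1) = a - b - 1 := by ring
        simp only
        rw [e1, e2]; exact this
      unfold dst
      split
      · exact ⟨(i, i' + 1), aux hi hi', by simp only; omega⟩
      · exact ⟨(i', i + 1), aux hi' hi, by simp only; omega⟩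
      · exact ⟨(j, j' + 1), aux hj hj', by simp only; omega⟩
      · exact ⟨(j', j + 1), aux hj' hj, by simp only; omega⟩
    obtain ⟨t, ht, hneq⟩ := last
    have lo : ∀ {A : ℕ} {a : ℤ}, NR v N 1024 A a → TRep v N (A, OO + 1) (a, 1) := by
      intro A a ha
      have := (Rep.sub ha c1).mono (le_refl N) (show (1024 : ℤ) + 1 ≤ 4096 by norm_num)
      unfold TRep
      have e1 : ((A : ℤ) - ((OO + 1 : ℕ) : ℤ)) = (A : ℤ) - OO - 1 := by push_cast; ring
      simp only
      rw [e1]; exact this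
    have hi2 : ∀ {M A : ℕ} {mm a : ℤ}, NR v N 64 M mm → NR v N 1024 A a → TRep v N (M, A) (mm, a) := by
      intro M A mm a hM ha
      exact (hM.dif ha).mono (le_refl N) (show (64 : ℤ) + 1024 ≤ 4096 by norm_num)
    have key := (impAll_sound hv hN0 hN hH _ _ [(i, 1), (nv, i), (j, 1), (mv, j), (i', 1), (nv, i'),
      (j', 1), (mv, j'), t] _ (.cons (lo hi) (.cons (hi2 hn hi) (.cons (lo hj) (.cons (hi2 hm hj)
      (.cons (lo hi') (.cons (hi2 hn hi') (.cons (lo hj') (.cons (hi2 hm hj') (.cons ht .nil))))))))) hk2).1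
    simp only [List.mem_cons, List.not_mem_nil, or_false, forall_eq_or_imp, forall_eq] at key
    obtain ⟨k1, k2, k3, k4, k5, k6, k7, k8, k9⟩ := key
    exact hneq k9 (hg.coll i j i' j' k1 k2 k3 k4 k5 k6 k7 k8 P)
  | D p q c =>
    intro N v HH len hv hN0 hN hn hm hp hH h
    have h' : nth (fun a b => nth (fun a' b' =>
        and (!(Nat.beq p q))
        (impAll HH len (fun _ => true) [(a, a'), (a', a), (b, b'), (b', b)] c)) pts q) pts p = true := h
    obtain ⟨w, x, h1, hx, hxr⟩ := nth_sound _ _ _ _ hp h'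
    obtain ⟨w', y, h2, hy, hyr⟩ := nth_sound _ _ _ _ hp h1
    simp only [Bool.and_eq_true, Bool.not_eq_true'] at h2
    obtain ⟨hne, h3⟩ := h2
    have hpq : p ≠ q := by
      intro e; subst e
      have : Nat.beq p p = true := Nat.beq_refl p
      rw [this] at hne; cases hne
    have aux : ∀ {A B : ℕ} {a b : ℤ}, Rep v N 64 ((A : ℤ) - OO) a → Rep v N 64 ((B : ℤ) - OO) b →
        TRep v N (A, B) (a, b) := by
      intro A B a b ha hb
      exact (NR.dif ha hb).mono (le_refl N) (show (64 : ℤ) + 64 ≤ 4096 by norm_num)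
    have key := (impAll_sound hv hN0 hN hH _ _ [(x.1, y.1), (y.1, x.1), (x.2, y.2), (y.2, x.2)] _
      (.cons (aux hxr.1 hyr.1) (.cons (aux hyr.1 hxr.1) (.cons (aux hxr.2 hyr.2) (.cons (aux hyr.2 hxr.2) .nil)))) h3).1
    simp only [List.mem_cons, List.not_mem_nil, or_false, forall_eq_or_imp, forall_eq] at key
    obtain ⟨k1, k2, k3, k4⟩ := key
    have hxy : x = y := Prod.ext (by omega) (by omega)
    have hlx : p < pv.length := by
      rw [List.getElem?_eq_some_iff] at hx; exact hx.1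
    have hly : q < pv.length := by
      rw [List.getElem?_eq_some_iff] at hy; exact hy.1
    rw [List.getElem?_eq_getElem hlx] at hx
    rw [List.getElem?_eq_getElem hly] at hy
    cases hx; cases hy
    exact hpq ((hg.nodup.getElem_inj_iff).1 hxy)

end Mdim86
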