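import Pool.Agent.LibMdim86.Root

/-!
# Case trees checked in pieces
-/

namespace Mdim86

/-- the checker with a list `qs` of states that are known to be contradictory; leaf `D p p c` -/
noncomputable def chkQ (qs : List (ℕ × ℕ × ℕ)) (n m : ℕ) (pts : List (ℕ × ℕ)) (t : Tr) : ℕ → ℕ → ℕ → Bool :=
  Tr.rec (motive := fun _ => ℕ → ℕ → ℕ → Bool)
    (fun c _ HH len => imp HH len (Nat.sub OO (nat_lit 1)) OO c (fun _ => true))
    (fun f _ _ ih1 ih2 N HH len => dec N f (fun X =>
      and (psh HH len X (ih1 N))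
        (and (Nat.ble (Nat.succ X) (Nat.mul (nat_lit 2) OO))
          (psh HH len (Nat.sub (Nat.mul (nat_lit 2) OO) (Nat.succ X)) (ih2 N)))))
    (fun f _ _ ih0 ih1 N HH len => dec N f (fun X =>
      and (Nat.ble (Nat.succ N) (nat_lit 32))
      (and (Nat.ble (Nat.succ (zz N)) X)
      (and (Nat.ble X (Nat.mul (nat_lit 2) OO))
      (and
        (psh HH len (Nat.sub (Nat.add (zz N) (Nat.mul (nat_lit 2) OO)) X) (fun HH' len' =>
          psh HH' len' (Nat.sub X (zz N)) (ih0 (Nat.succ N))))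
        (psh HH len (Nat.sub (Nat.add (Nat.succ (zz N)) (Nat.mul (nat_lit 2) OO)) X) (fun HH' len' =>
          psh HH' len' (Nat.sub X (Nat.succ (zz N))) (ih1 (Nat.succ N)))))))))
    (fun f c _ ih N HH len => dec N f (fun X =>
      imp HH len X OO c (fun _ => psh HH len X (ih N))))
    (fun i j i' j' mt c N HH len => dec N i (fun I => dec N j (fun J => dec N i' (fun I' => dec N j' (fun J' =>
      goC HH len I J I' J' pts (fun mt' c' pi =>
        and (pi.isPerm (List.range pts.length))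
        (impAll HH len (fun _ => true)
          [(I, Nat.succ OO), (n, I), (J, Nat.succ OO), (m, J), (I', Nat.succ OO), (n, I'), (J', Nat.succ OO), (m, J'),
            ((dst mt' I J I' J').1, Nat.succ (dst mt' I J I' J').2)] c')) pts mt c [])))))
    (fun p q c N HH len => or (and (Nat.beq p q) (qs.any fun s =>
        and (Nat.beq N s.1) (and (Nat.beq HH s.2.1) (Nat.beq len s.2.2))))
      (nth (fun a b => nth (fun a' b' =>
        and (!(Nat.beq p q))
        (impAll HH len (fun _ => true) [(a, a'), (a', a), (b, b'), (b', b)] c)) pts q) pts p)) t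

variable {v : ℕ → ℤ} {N : ℕ}

theorem chkQ_sound {qs : List (ℕ × ℕ × ℕ)} {n m : ℕ} {pts : List (ℕ × ℕ)} {pv : List (ℤ × ℤ)} {nv mv : ℤ}
    (hg : Good nv mv pv)
    (hqs : ∀ s ∈ qs, ∀ v : ℕ → ℤ, v 0 = 1 → 0 < s.1 → s.1 ≤ SL → NR v s.1 64 n nv → NR v s.1 64 m mv →
      PRep v s.1 pts pv → Hyp v s.1 s.2.1 s.2.2 → False) :
    ∀ (t : Tr) (N : ℕ) (v : ℕ → ℤ) (HH len : ℕ), v 0 = 1 → 0 < N → N ≤ SL →
      NR v N 64 n nv → NR v N 64 m mv → PRep v N pts pv → Hyp v N HH len →
      chkQ qs n m pts t N HH len = true → False := by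
  intro t
  induction t with
  | L c =>
    intro N v HH len hv hN0 hN _ _ _ hH h
    have h' : imp HH len (Nat.sub OO 1) OO c (fun _ => true) = true := h
    have := (imp_sound hv hN0 hN hH (t := -1) (by
      rw [OO_cast]; exact (Rep.const hv hN0 hN (-1)).mono le_rfl (by norm_num)) h').1
    omega
  | S f t1 t2 ih1 ih2 =>
    intro N v HH len hv hN0 hN hn hm hp hH h
    have h' : dec N f (fun X =>
      and (psh HH len X (chkQ qs n m pts t1 N))
        (and (Nat.ble (Nat.succ X) (2 * OO))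
          (psh HH len (2 * OO - Nat.succ X) (chkQ qs n m pts t2 N)))) = true := h
    obtain ⟨X, y, hX, hy⟩ := dec_sound (v := v) hN h'
    simp only [Bool.and_eq_true, Nat.ble_eq] at hX
    obtain ⟨h1, h2, h3⟩ := hX
    rcases le_or_gt 0 y with h0 | h0
    · obtain ⟨HH', len', hk, hH'⟩ := psh_sound hH h0 (hy.mono le_rfl (by norm_num)) h1
      exact ih1 N v _ _ hv hN0 hN hn hm hp hH' hk
    · obtain ⟨HH', len', hk, hH'⟩ := psh_sound (x := -y - 1) hH (by omega) (by
        have := (hy.neg.sub (Rep.const hv hN0 hN 1)).mono (le_refl N) (show (1024 : ℤ) + |1| ≤ 2048 by norm_num)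
        have e : (((2 * OO - Nat.succ X : ℕ) : ℤ) - OO) = -((X : ℤ) - OO) - 1 := by
          rw [Nat.cast_sub h2]; push_cast; ring
        unfold NR
        rw [e]; exact this) h3
      exact ih2 N v _ _ hv hN0 hN hn hm hp hH' hk
  | P f t0 t1 ih0 ih1 =>
    intro N v HH len hv hN0 hN hn hm hp hH h
    have h' : dec N f (fun X =>
      and (Nat.ble (Nat.succ N) 32)
      (and (Nat.ble (Nat.succ (zz N)) X)
      (and (Nat.ble X (2 * OO))
      (and
        (psh HH len (zz N + 2 * OO - X) (fun HH' len' =>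
          psh HH' len' (X - zz N) (chkQ qs n m pts t0 (N + 1))))
        (psh HH len (Nat.succ (zz N) + 2 * OO - X) (fun HH' len' =>
          psh HH' len' (X - Nat.succ (zz N)) (chkQ qs n m pts t1 (N + 1)))))))) = true := h
    obtain ⟨X, y, hX, hy⟩ := dec_sound (v := v) hN h'
    simp only [Bool.and_eq_true, Nat.ble_eq] at hX
    obtain ⟨hN2, hX1, hX2, h1, h2⟩ := hX
    obtain ⟨z, hz⟩ := Int.even_or_odd' y
    set v' : ℕ → ℤ := fun k => if k = N then z else v k with hv'
    have hvv := update_eval v N z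
    have hv0 : v' 0 = 1 := by rw [hv']; simp [show (0:ℕ) ≠ N by omega, hv]
    have hNS : N + 1 ≤ SL := by unfold SL; omega
    have hy' : Rep v' (N + 1) 1024 ((X : ℤ) - OO) y := (hy.fresh v' hvv).mono (by omega) le_rfl
    have hzr : Rep v' (N + 1) 2 ((zz N : ℕ) : ℤ) (2 * z) := by
      have := Rep.single (v := v') (N := N + 1) N (by omega) hNS 2
      have e : (2 : ℤ) * BB ^ N = ((zz N : ℕ) : ℤ) := by
        have : zz N = 2 * 2 ^ (28 * N) := rfl
        rw [this]; push_cast; unfold BB; rw [pow_mul]; norm_num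
      rw [← e]
      simpa [hv'] using this
    have c1 : Rep v' (N + 1) 1 1 1 := by
      simpa using Rep.const hv0 (by omega) hNS 1
    have hn' : NR v' (N + 1) 64 n nv := (Rep.fresh hn v' hvv).mono (by omega) le_rfl
    have hm' : NR v' (N + 1) 64 m mv := (Rep.fresh hm v' hvv).mono (by omega) le_rfl
    rcases hz with hz | hz
    · obtain ⟨HH', len', hk, hH'⟩ := psh_sound (x := 2 * z - y) (hH.fresh v' hvv) (by omega) (by
        have := (hzr.sub hy').mono (le_refl _) (show (2 : ℤ) + 1024 ≤ 2048 by norm_num)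
        have e : (((zz N + 2 * OO - X : ℕ) : ℤ) - OO) = (zz N : ℕ) - ((X : ℤ) - OO) := by
          rw [Nat.cast_sub (by omega)]; push_cast; ring
        unfold NR
        rw [e]; exact this) h1
      obtain ⟨HH'', len'', hk', hH''⟩ := psh_sound (x := y - 2 * z) hH' (by omega) (by
        have := (hy'.sub hzr).mono (le_refl _) (show (1024 : ℤ) + 2 ≤ 2048 by norm_num)
        have e : (((X - zz N : ℕ) : ℤ) - OO) = ((X : ℤ) - OO) - (zz N : ℕ) := by
          rw [Nat.cast_sub (by omega)]; ring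
        unfold NR
        rw [e]; exact this) hk
      exact ih0 (N + 1) v' _ _ hv0 (by omega) hNS hn' hm' (hp.fresh v' hvv) hH'' hk'
    · obtain ⟨HH', len', hk, hH'⟩ := psh_sound (x := 2 * z + 1 - y) (hH.fresh v' hvv) (by omega) (by
        have := ((hzr.add c1).sub hy').mono (le_refl _) (show (2 : ℤ) + 1 + 1024 ≤ 2048 by norm_num)
        have e : (((Nat.succ (zz N) + 2 * OO - X : ℕ) : ℤ) - OO) = ((zz N : ℕ) : ℤ) + 1 - ((X : ℤ) - OO) := by
          rw [Nat.cast_sub (by omega)]; push_cast; ring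
        unfold NR
        rw [e]; exact this) h2
      obtain ⟨HH'', len'', hk', hH''⟩ := psh_sound (x := y - 2 * z - 1) hH' (by omega) (by
        have := ((hy'.sub hzr).sub c1).mono (le_refl _) (show (1024 : ℤ) + 2 + 1 ≤ 2048 by norm_num)
        have e : (((X - Nat.succ (zz N) : ℕ) : ℤ) - OO) = ((X : ℤ) - OO) - (zz N : ℕ) - 1 := by
          rw [Nat.cast_sub (by omega)]; push_cast; ring
        unfold NR
        rw [e]; exact this) hk
      exact ih1 (N + 1) v' _ _ hv0 (by omega) hNS hn' hm' (hp.fresh v' hvv) hH'' hk'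
  | U f c t ih =>
    intro N v HH len hv hN0 hN hn hm hp hH h
    have h' : dec N f (fun X =>
      imp HH len X OO c (fun _ => psh HH len X (chkQ qs n m pts t N))) = true := h
    obtain ⟨X, y, hX, hy⟩ := dec_sound (v := v) hN h'
    obtain ⟨h0, c', hc'⟩ := imp_sound hv hN0 hN hH (hy.mono le_rfl (by norm_num)) hX
    obtain ⟨HH', len', hk, hH'⟩ := psh_sound hH h0 (hy.mono le_rfl (by norm_num)) hc'
    exact ih N v _ _ hv hN0 hN hn hm hp hH' hk
  | C i j i' j' mt c =>
    intro N v HH len hv hN0 hN hn hm hp hH h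
    have h' : dec N i (fun I => dec N j (fun J => dec N i' (fun I' => dec N j' (fun J' =>
      goC HH len I J I' J' pts (fun mt' c' pi =>
        and (pi.isPerm (List.range pts.length))
        (impAll HH len (fun _ => true)
          [(I, OO + 1), (n, I), (J, OO + 1), (m, J), (I', OO + 1), (n, I'), (J', OO + 1), (m, J'),
            ((dst mt' I J I' J').1, Nat.succ (dst mt' I J I' J').2)] c')) pts mt c [])))) = true := h
    obtain ⟨I, i, h1, hi⟩ := dec_sound (v := v) hN h'
    obtain ⟨J, j, h2, hj⟩ := dec_sound (v := v) hN h1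
    obtain ⟨I', i', h3, hi'⟩ := dec_sound (v := v) hN h2
    obtain ⟨J', j', h4, hj'⟩ := dec_sound (v := v) hN h3
    obtain ⟨ls, mt', c', hk, hf⟩ := goC_sound hv hN0 hN hH hi hj hi' hj' hp _ _ _ _ _ _ hp h4
    simp only [List.append_nil, Bool.and_eq_true] at hk
    obtain ⟨hperm, hk2⟩ := hk
    rw [List.isPerm_iff] at hperm
    have hlen : pts.length = pv.length := hp.length_eq
    rw [hlen] at hperm
    have hperm' : ls.Perm (List.range pv.length) := (List.reverse_perm ls).symm.trans hperm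
    have P := perm_of_forall₂ hf hperm'
    have c1 : Rep v N 1 1 1 := by simpa using Rep.const hv hN0 hN 1
    have last : ∃ t : ℤ × ℤ, TRep v N ((dst mt' I J I' J').1, Nat.succ (dst mt' I J I' J').2) t ∧
        (t.2 ≤ t.1 → ¬ (i = i' ∧ j = j')) := by
      have aux : ∀ {A B : ℕ} {a b : ℤ}, NR v N 1024 A a → NR v N 1024 B b →
          TRep v N (A, Nat.succ B) (a, b + 1) := by
        intro A B a b ha hb
        have := ((ha.dif hb).sub c1).mono (le_refl N) (show (1024 : ℤ) + 1024 + 1 ≤ 4096 by norm_num)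
        unfold TRep
        have e1 : ((A : ℤ) - ((Nat.succ B : ℕ) : ℤ)) = (A : ℤ) - B - 1 := by push_cast; ring
        have e2 : a - (b + 1) = a - b - 1 := by ring
        simp only
        rw [e1, e2]; exact this
      unfold dst
      split
      · exact ⟨(i, i' + 1), aux hi hi', by simp only; omega⟩
      · exact ⟨(i', i + 1), aux hi' hi, by simp only; omega⟩
      · exact ⟨(j, j' + 1), aux hj hj', by simp only; omega⟩
      · exact ⟨(j', j + 1), aux hj' hj, by simp only; omega⟩
    obtain ⟨t, ht, hneq⟩ := last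
    have lo : ∀ {A : ℕ} {a : ℤ}, NR v N 1024 A a → TRep v N (A, OO + 1) (a, 1) := by
      intro A a ha
      have := (Rep.sub ha c1).mono (le_refl N) (show (1024 : ℤ) + 1 ≤ 4096 by norm_num)
      unfold TRep
      have e1 : ((A : ℤ) - ((OO + 1 : ℕ) : ℤ)) = (A : ℤ) - OO - 1 := by push_cast; ring
      simp only
      rw [e1]; exact this
    have hi2 : ∀ {M A : ℕ} {mm a : ℤ}, NR v N 64 M mm → NR v N 1024 A a → TRep v N (M, A) (mm, a) := by
      intro M A mm a hM ha
      exact (hM.dif ha).mono (le_refl N) (show (64 : ℤ) + 1024 ≤ 4096 by norm_num)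
    have key := (impAll_sound hv hN0 hN hH _ _ [(i, 1), (nv, i), (j, 1), (mv, j), (i', 1), (nv, i'),
      (j', 1), (mv, j'), t] _ (.cons (lo hi) (.cons (hi2 hn hi) (.cons (lo hj) (.cons (hi2 hm hj)
      (.cons (lo hi') (.cons (hi2 hn hi') (.cons (lo hj') (.cons (hi2 hm hj') (.cons ht .nil))))))))) hk2).1
    simp only [List.mem_cons, List.not_mem_nil, or_false, forall_eq_or_imp, forall_eq] at key
    obtain ⟨k1, k2, k3, k4, k5, k6, k7, k8, k9⟩ := key
    exact hneq k9 (hg.coll i j i' j' k1 k2 k3 k4 k5 k6 k7 k8 P)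
  | D p q c =>
    intro N v HH len hv hN0 hN hn hm hp hH h
    have h'' : (or (and (Nat.beq p q) (qs.any fun s =>
        and (Nat.beq N s.1) (and (Nat.beq HH s.2.1) (Nat.beq len s.2.2))))
      (nth (fun a b => nth (fun a' b' =>
        and (!(Nat.beq p q))
        (impAll HH len (fun _ => true) [(a, a'), (a', a), (b, b'), (b', b)] c)) pts q) pts p)) = true := h
    rw [Bool.or_eq_true] at h''
    rcases h'' with h1 | h'
    · simp only [Bool.and_eq_true, List.any_eq_true] at h1
      obtain ⟨-, s, hs, e1, e2, e3⟩ := h1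
      have e1 := Nat.eq_of_beq_eq_true e1
      have e2 := Nat.eq_of_beq_eq_true e2
      have e3 := Nat.eq_of_beq_eq_true e3
      subst e1; subst e2; subst e3
      exact hqs s hs v hv hN0 hN hn hm hp hH
    obtain ⟨w, x, h1, hx, hxr⟩ := nth_sound _ _ _ _ hp h'
    obtain ⟨w', y, h2, hy, hyr⟩ := nth_sound _ _ _ _ hp h1
    simp only [Bool.and_eq_true, Bool.not_eq_true'] at h2
    obtain ⟨hne, h3⟩ := h2
    have hpq : p ≠ q := by
      intro e; subst e
      have : Nat.beq p p = true := Nat.beq_refl p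
      rw [this] at hne; cases hne
    have aux : ∀ {A B : ℕ} {a b : ℤ}, Rep v N 64 ((A : ℤ) - OO) a → Rep v N 64 ((B : ℤ) - OO) b →
        TRep v N (A, B) (a, b) := by
      intro A B a b ha hb
      exact (NR.dif ha hb).mono (le_refl N) (show (64 : ℤ) + 64 ≤ 4096 by norm_num)
    have key := (impAll_sound hv hN0 hN hH _ _ [(x.1, y.1), (y.1, x.1), (x.2, y.2), (y.2, x.2)] _
      (.cons (aux hxr.1 hyr.1) (.cons (aux hyr.1 hxr.1) (.cons (aux hxr.2 hyr.2) (.cons (aux hyr.2 hxr.2) .nil)))) h3).1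
    simp only [List.mem_cons, List.not_mem_nil, or_false, forall_eq_or_imp, forall_eq] at key
    obtain ⟨k1, k2, k3, k4⟩ := key
    have hxy : x = y := Prod.ext (by omega) (by omega)
    have hlx : p < pv.length := by
      rw [List.getElem?_eq_some_iff] at hx; exact hx.1
    have hly : q < pv.length := by
      rw [List.getElem?_eq_some_iff] at hy; exact hy.1
    rw [List.getElem?_eq_getElem hlx] at hx
    rw [List.getElem?_eq_getElem hly] at hy
    cases hx; cases hy
    exact hpq ((hg.nodup.getElem_inj_iff).1 hxy)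

/-- a checked piece refutes its state -/
theorem piece {n m : ℕ} {pts : List (ℕ × ℕ)} {pv : List (ℤ × ℤ)} {nv mv : ℤ} (hg : Good nv mv pv)
    {t : Tr} {N HH len : ℕ} (h : chk n m pts t N HH len = true) :
    ∀ v : ℕ → ℤ, v 0 = 1 → 0 < N → N ≤ SL → NR v N 64 n nv → NR v N 64 m mv →
      PRep v N pts pv → Hyp v N HH len → False :=
  fun v h1 h2 h3 h4 h5 h6 h7 => chk_sound hg t N v HH len h1 h2 h3 h4 h5 h6 h7 h

/-- the main consequence: a checked tree gives a contradiction -/
theorem treeQ_false {K : ℕ} (qs : List (ℕ × ℕ × ℕ)) (nl ml : List (ℕ × ℤ))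
    (pl : List (List (ℕ × ℤ) × List (ℕ × ℤ)))
    (R : List (List (ℕ × ℤ))) (t : Tr) (hK : K ≤ SL) (hK0 : 0 < K)
    (h1 : (lok K nl && lok K ml && pl.all (fun p => lok K p.1 && lok K p.2) && R.all (lok K)) = true)
    (HH : ℕ) (hHH : HH = pack (R.map lnat)) (n m : ℕ) (hn : n = lnat nl) (hm : m = lnat ml)
    (pts : List (ℕ × ℕ)) (hpts : pts = pl.map fun p => (lnat p.1, lnat p.2))
    (hq : ∀ s ∈ qs, ∃ t, chk n m pts t s.1 s.2.1 s.2.2 = true)
    (hc : chkQ qs n m pts t K HH R.length = true)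
    (v : ℕ → ℤ) (hv : v 0 = 1) (hR : ∀ l ∈ R, 0 ≤ lval v l)
    (hg : Good (lval v nl) (lval v ml) (pl.map fun p => (lval v p.1, lval v p.2))) : False := by
  simp only [Bool.and_eq_true] at h1
  obtain ⟨⟨⟨h2, h3⟩, h4⟩, h5⟩ := h1
  subst hn; subst hm; subst hHH; subst hpts
  refine chkQ_sound hg ?_ t K v _ _ hv hK0 hK (lnat_rep hK h2).1 (lnat_rep hK h3).1 ?_ (hyp_pack hK R h5 hR) hc
  · intro s hs
    obtain ⟨t', ht'⟩ := hq s hs
    exact piece hg ht'
  unfold PRep
  rw [List.all_eq_true] at h4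
  clear hg hc hq
  induction pl with
  | nil => exact .nil
  | cons p pl ih =>
    have := h4 p List.mem_cons_self
    rw [Bool.and_eq_true] at this
    exact .cons ⟨(lnat_rep hK this.1).1, (lnat_rep hK this.2).1⟩
      (ih fun x hx => h4 x (List.mem_cons_of_mem _ hx))

end Mdim86
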