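import Pool.Agent.LibMdim86.Cfg
import Pool.Agent.LibMdim86.MFamD

/-!
# Window lemmas
-/

namespace Mdim86

variable {n m s r : ℤ} {q : ℕ}

lemma s_even {k s : ℤ} (hs : s = if Even (2 * k) then 2 * k - 1 else 2 * k - 2) : s = 2 * k - 1 := by
  rw [if_pos (even_two_mul k)] at hs; exact hs

lemma s_odd {k s : ℤ} (hs : s = if Even (2 * k + 1) then 2 * k + 1 - 1 else 2 * k + 1 - 2) :
    s = 2 * k - 1 := by
  rw [if_neg (by simp)] at hs; omega

theorem win1 {i i' j : ℤ} (hn : 4 ≤ n) (hs : s = if Even n then n - 1 else n - 2) (hr : 1 ≤ r)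
    (hrs : r < s) (ho : Odd r) (hj : 1 ≤ j) (hjn : j ≤ n - 1) (hi : 1 ≤ i) (hii : i < i')
    (hin : i' ≤ n)
    (h : ([(1 + r, 1), (1, 1 + r), (1 + s, 1 + r + s)].map fun w : ℤ × ℤ => dd i j w.1 w.2).Perm
      ([(1 + r, 1), (1, 1 + r), (1 + s, 1 + r + s)].map fun w : ℤ × ℤ => dd i' j w.1 w.2)) : False := by
  obtain ⟨t, rfl⟩ := ho
  simp only [List.map_cons, List.map_nil] at h
  obtain ⟨k, hk⟩ := Int.even_or_odd' n
  rcases hk with rfl | rfl
  · have hs' := s_even hs
    subst hs'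
    rw [show (1 : ℤ) + (2 * t + 1) = (2) + (2) * t by ring, show (1 : ℤ) + (2 * k - 1) = (2) * k by ring,
      show (2 : ℤ) + (2) * t + (2 * k - 1) = (1) + (2) * k + (2) * t by ring] at h
    exact w1e0_B_f k t i j i' (by omega) (by omega) (by omega) (by omega) (by omega) (by omega)
      (by omega) (by omega) (by omega) (by omega) h
  · have hs' := s_odd hs
    subst hs'
    rw [show (1 : ℤ) + (2 * t + 1) = (2) + (2) * t by ring, show (1 : ℤ) + (2 * k - 1) = (2) * k by ring,
      show (2 : ℤ) + (2) * t + (2 * k - 1) = (1) + (2) * k + (2) * t by ring] at h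
    exact w1e1_B_f k t i j i' (by omega) (by omega) (by omega) (by omega) (by omega) (by omega)
      (by omega) (by omega) (by omega) (by omega) h

theorem win2 {i i' j : ℤ} (hn : 4 ≤ n) (hs : s = if Even n then n - 1 else n - 2) (hr : 1 ≤ r)
    (hrs : r < s) (ho : Even r) (hj : 1 ≤ j) (hjn : j ≤ n) (hi : 1 ≤ i) (hii : i < i')
    (hin : i' ≤ n)
    (h : ([(r, 1), (r + 1, 2), (1, 1 + r), (1 + s, 1 + r + s)].map fun w : ℤ × ℤ => dd i j w.1 w.2).Perm
      ([(r, 1), (r + 1, 2), (1, 1 + r), (1 + s, 1 + r + s)].map fun w : ℤ × ℤ => dd i' j w.1 w.2)) :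
    False := by
  obtain ⟨t, rfl⟩ := ho.exists_two_nsmul
  simp only [List.map_cons, List.map_nil, smul_eq_mul, nsmul_eq_mul, Nat.cast_ofNat] at h hr hrs
  obtain ⟨k, hk⟩ := Int.even_or_odd' n
  rcases hk with rfl | rfl
  · have hs' := s_even hs
    subst hs'
    rw [show (2 : ℤ) * t + 1 = (1) + (2) * t by ring, show (1 : ℤ) + (2 * k - 1) = (2) * k by ring,
      show (1 : ℤ) + (2) * t + (2 * k - 1) = (2) * k + (2) * t by ring] at h
    exact w2e0_B_f k t i j i' (by omega) (by omega) (by omega) (by omega) (by omega) (by omega)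
      (by omega) (by omega) (by omega) (by omega) h
  · have hs' := s_odd hs
    subst hs'
    rw [show (2 : ℤ) * t + 1 = (1) + (2) * t by ring, show (1 : ℤ) + (2 * k - 1) = (2) * k by ring,
      show (1 : ℤ) + (2) * t + (2 * k - 1) = (2) * k + (2) * t by ring] at h
    exact w2e1_B_f k t i j i' (by omega) (by omega) (by omega) (by omega) (by omega) (by omega)
      (by omega) (by omega) (by omega) (by omega) h

theorem win3 {i i' j : ℤ} (hn : 6 ≤ n) (hs : s = if Even n then n - 1 else n - 2)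
    (hj : 1 ≤ j) (hjn : j ≤ n + 1) (hi : 1 ≤ i) (hii : i < i') (hin : i' ≤ n)
    (h : ([(1, 1), (2, 3), (1 + s, 1 + s), (1, 1 + 2 * s)].map fun w : ℤ × ℤ => dd i j w.1 w.2).Perm
      ([(1, 1), (2, 3), (1 + s, 1 + s), (1, 1 + 2 * s)].map fun w : ℤ × ℤ => dd i' j w.1 w.2)) :
    False := by
  simp only [List.map_cons, List.map_nil] at h
  obtain ⟨k, hk⟩ := Int.even_or_odd' n
  rcases hk with rfl | rfl
  · have hs' := s_even hs
    subst hs'
    rw [show (1 : ℤ) + (2 * k - 1) = (2) * k by ring,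
      show (1 : ℤ) + 2 * (2 * k - 1) = (-1) + (4) * k by ring] at h
    exact w3e0_B_f k i j i' (by omega) (by omega) (by omega) (by omega) (by omega) (by omega)
      (by omega) (by omega) h
  · have hs' := s_odd hs
    subst hs'
    rw [show (1 : ℤ) + (2 * k - 1) = (2) * k by ring,
      show (1 : ℤ) + 2 * (2 * k - 1) = (-1) + (4) * k by ring] at h
    exact w3e1_B_f k i j i' (by omega) (by omega) (by omega) (by omega) (by omega) (by omega)
      (by omega) (by omega) h

end Mdim86
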